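import Pool.Agent.Lib.MP_688fd0_co.SQ2.V.Defs

/-!
Lemma M of chapter V.
-/

set_option autoImplicit false

namespace Pool.Agent.Lib.MP_688fd0_co.SQ2.V

namespace Puz

section basic

variable {S R : Type} [DecidableEq S] {P : Puz S R} {Tok : Type}

theorem oth_ne {r : R} {v : S} (h : P.On r v) : P.oth r v ≠ v := by
  unfold oth
  rcases h with rfl | rfl
  · simpa using (P.ne r).symm
  · rw [if_neg (P.ne r).symm]
    exact P.ne r

theorem on_oth (r : R) (v : S) : P.On r (P.oth r v) := by
  unfold oth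
  split_ifs
  · exact Or.inr rfl
  · exact Or.inl rfl

theorem on_iff {r : R} {v : S} (h : P.On r v) (L : S) : P.On r L ↔ L = v ∨ L = P.oth r v := by
  unfold On oth
  rcases h with rfl | rfl
  · simp
  · rw [if_neg (P.ne r).symm]
    exact or_comm

theorem Adj.symm {r r' : R} {v : S} (h : P.Adj r r' v) : P.Adj r' r v := ⟨h.2.1, h.1, h.2.2.symm⟩

/-- The two other ends avoid the other rung. -/
theorem Adj.not_on {r r' : R} {v : S} (h : P.Adj r r' v) : ¬ P.On r' (P.oth r v) := by
  rw [on_iff h.2.1]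
  rintro (e | e)
  · exact oth_ne h.1 e
  · exact h.2.2 e

theorem on_tau (r : R) (L : S) : P.On (P.tau r) (P.T r L) ↔ P.On r L := by
  unfold On
  rcases P.T_ends r with ⟨h1, h2⟩ | ⟨h1, h2⟩
  · rw [← h1, ← h2]
    simp
  · rw [← h1, ← h2]
    simp only [EmbeddingLike.apply_eq_iff_eq]
    exact or_comm

theorem on_J {r r' : R} {v : S} (h : P.Adj r r' v) (L : S) : P.On r (P.J r r' v L) ↔ P.On r' L := by
  rw [on_iff h.1, on_iff h.2.1]
  unfold J
  have hu := oth_ne h.2.1
  have hw := oth_ne h.1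
  have huw := h.2.2
  by_cases h1 : L = P.oth r' v
  · subst h1
    rw [Equiv.swap_apply_left]
    simp [hw]
  · by_cases h2 : L = P.oth r v
    · subst h2
      rw [Equiv.swap_apply_right]
      constructor
      · rintro (e | e)
        · exact (hu e).elim
        · exact (huw e.symm).elim
      · rintro (e | e)
        · exact (hw e).elim
        · exact (huw e).elim
    · rw [Equiv.swap_apply_of_ne_of_ne h1 h2]
      simp [h1, h2]

theorem J_J {r r' : R} {v : S} (L : S) : P.J r r' v (P.J r r' v L) = L := by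
  unfold J
  exact Equiv.swap_apply_self _ _ _

theorem good_step {r' : R} {v : S} {s : St S R Tok} (ha : P.Adj s.1 r' v) (hg : P.Good s) :
    P.Good (P.step r' v s) := by
  refine ⟨?_, ?_⟩
  · intro t t' e
    exact hg.1 ((P.J s.1 r' v).injective ((P.T r').injective e))
  · intro L
    have key : ∀ L', (∃ t, P.J s.1 r' v (s.2 t) = L') ↔ ¬ P.On r' L' := by
      intro L'
      rw [← on_J ha L', ← hg.2]
      constructor
      · rintro ⟨t, ht⟩
        exact ⟨t, by rw [← ht, J_J]⟩
      · rintro ⟨t, ht⟩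
        exact ⟨t, by rw [ht, J_J]⟩
    have hL : L = P.T r' ((P.T r').symm L) := by simp
    show (∃ t, P.T r' (P.J s.1 r' v (s.2 t)) = L) ↔ ¬ P.On (P.tau r') L
    rw [hL, on_tau, ← key]
    constructor
    · rintro ⟨t, ht⟩
      exact ⟨t, (P.T r').injective ht⟩
    · rintro ⟨t, ht⟩
      exact ⟨t, by rw [ht]⟩

theorem good_act (ρ : P.Rule) {s : St S R Tok} (hg : P.Good s) : P.Good (ρ.act s) :=
  good_step (ρ.adj s.1) hg

theorem good_run (l : List P.Rule) : ∀ {s : St S R Tok}, P.Good s → P.Good (run l s) := by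
  induction l with
  | nil => intro s h; exact h
  | cons ρ l ih => intro s h; exact ih (good_act ρ h)

theorem Reach.good {s s' : St S R Tok} (h : P.Reach s s') (hg : P.Good s) : P.Good s' := by
  obtain ⟨l, rfl⟩ := h
  exact good_run l hg

theorem run_append (l l' : List P.Rule) : ∀ (s : St S R Tok), run (l ++ l') s = run l' (run l s) := by
  induction l with
  | nil => intro s; rfl
  | cons ρ l ih => intro s; exact ih _

theorem Reach.refl (s : St S R Tok) : P.Reach s s := ⟨[], rfl⟩

theorem Reach.trans {s s' s'' : St S R Tok} (h : P.Reach s s') (h' : P.Reach s' s'') : P.Reach s s'' := by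
  obtain ⟨l, rfl⟩ := h
  obtain ⟨l', rfl⟩ := h'
  exact ⟨l ++ l', run_append l l' s⟩

theorem reach_act (ρ : P.Rule) (s : St S R Tok) : P.Reach s (ρ.act s) := ⟨[ρ], rfl⟩

theorem act_inj (ρ : P.Rule) : Function.Injective (ρ.act : St S R Tok → St S R Tok) := by
  intro s s' e
  have h1 : s.1 = s'.1 := ρ.w.injective (P.tau.injective (congrArg Prod.fst e))
  refine Prod.ext h1 ?_
  funext t
  have h2 : (ρ.act s).2 t = (ρ.act s').2 t := by rw [e]
  have h3 : P.T (ρ.w s.1) (P.J s.1 (ρ.w s.1) (ρ.v s.1) (s.2 t)) =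
      P.T (ρ.w s'.1) (P.J s'.1 (ρ.w s'.1) (ρ.v s'.1) (s'.2 t)) := h2
  rw [← h1] at h3
  exact (P.J _ _ _).injective ((P.T _).injective h3)

theorem run_replicate (ρ : P.Rule) (n : ℕ) : ∀ (s : St S R Tok), run (List.replicate n ρ) s = ρ.act^[n] s := by
  induction n with
  | zero => intro s; rfl
  | succ n ih => intro s; exact ih _

theorem reach_act_back [Finite S] [Finite R] [Finite Tok] (ρ : P.Rule) (s : St S R Tok) :
    P.Reach (ρ.act s) s := by
  obtain ⟨n, hn, h⟩ := (act_inj (Tok := Tok) ρ).mem_periodicPts s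
  obtain ⟨m, rfl⟩ : ∃ m, n = m + 1 := ⟨n - 1, by omega⟩
  refine ⟨List.replicate m ρ, ?_⟩
  rw [run_replicate]
  exact h

theorem run_reach_back [Finite S] [Finite R] [Finite Tok] (l : List P.Rule) :
    ∀ s : St S R Tok, P.Reach (run l s) s := by
  induction l with
  | nil => intro s; exact Reach.refl s
  | cons ρ l ih => intro s; exact (ih (ρ.act s)).trans (reach_act_back ρ s)

theorem Reach.symm [Finite S] [Finite R] [Finite Tok] {s s' : St S R Tok} (h : P.Reach s s') : P.Reach s' s := by
  obtain ⟨l, rfl⟩ := h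
  exact run_reach_back l s

/-- Relabelling of the tokens. -/
theorem run_comp (l : List P.Rule) (σ : Tok → Tok) :
    ∀ s : St S R Tok, run l (s.1, s.2 ∘ σ) = ((run l s).1, (run l s).2 ∘ σ) := by
  induction l with
  | nil => intro s; rfl
  | cons ρ l ih => intro s; exact ih (ρ.act s)

theorem reach_step_iff [Finite S] [Finite R] [Finite Tok] (hF : P.Full) {s₀ : St S R Tok} {r r' : R} {v : S}
    (ha : P.Adj r r' v) (pos : Tok → S) :
    P.Reach s₀ (r, pos) ↔ P.Reach s₀ (P.tau r', fun t => P.T r' (P.J r r' v (pos t))) := by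
  obtain ⟨ρ, rfl, rfl⟩ := hF r r' v ha
  constructor
  · intro h
    exact h.trans (reach_act ρ (r, pos))
  · intro h
    exact h.trans (reach_act_back ρ (r, pos))

end basic

section fibres

variable {S R : Type} [Fintype S] [DecidableEq S] [Fintype R] {P : Puz S R} {Tok : Type} [Fintype Tok]

theorem mem_fib {s₀ : St S R Tok} {r : R} {pos : Tok → S} : pos ∈ fib P s₀ r ↔ P.Reach s₀ (r, pos) := by
  simp only [fib, Finset.mem_filter, Finset.mem_univ, true_and]
  exact Iff.of_eq (congrArg (fun i : DecidableEq S => @Puz.Reach S R i P Tok s₀ (r, pos)) (Subsingleton.elim _ _))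

open Classical in
/-- The placements before the gadget of `r`. -/
noncomputable def pre (P : Puz S R) (s₀ : St S R Tok) (r : R) : Finset (Tok → S) :=
  Finset.univ.filter fun pos => P.Reach s₀ (P.tau r, fun t => P.T r (pos t))

theorem mem_pre {s₀ : St S R Tok} {r : R} {pos : Tok → S} :
    pos ∈ pre P s₀ r ↔ P.Reach s₀ (P.tau r, fun t => P.T r (pos t)) := by
  simp [pre]

theorem J_mem_pre (hF : P.Full) {s₀ : St S R Tok} {r r' : R} {v : S} (ha : P.Adj r r' v) {pos : Tok → S} :
    (fun t => P.J r r' v (pos t)) ∈ pre P s₀ r' ↔ pos ∈ fib P s₀ r := by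
  rw [mem_pre, mem_fib, reach_step_iff hF ha]

theorem card_pre (hF : P.Full) (s₀ : St S R Tok) {r r' : R} {v : S} (ha : P.Adj r r' v) :
    (pre P s₀ r').card = (fib P s₀ r).card := by
  refine (Finset.card_nbij' (fun pos t => P.J r r' v (pos t)) (fun pos t => P.J r r' v (pos t)) ?_ ?_ ?_ ?_).symm
  · intro pos h
    exact (J_mem_pre hF ha).2 h
  · intro pos h
    rw [Finset.mem_coe, ← J_mem_pre hF ha]
    simp only [J_J]
    exact h
  · intro pos _
    funext t
    exact J_J _
  · intro pos _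
    funext t
    exact J_J _

variable {F : Type} [Field F]

/-- Sum of the weights before the gadget. -/
noncomputable def MP (P : Puz S R) (d : Tok → F) (s₀ : St S R Tok) (r : R) (L : S) : F :=
  ∑ pos ∈ pre P s₀ r, ∑ t, if pos t = L then d t else 0

theorem MP_eq (hF : P.Full) (d : Tok → F) (s₀ : St S R Tok) {r r' : R} {v : S} (ha : P.Adj r r' v) (L : S) :
    MP P d s₀ r' L = MM P d s₀ r (P.J r r' v L) := by
  unfold MP MM
  refine Finset.sum_nbij' (fun pos t => P.J r r' v (pos t)) (fun pos t => P.J r r' v (pos t)) ?_ ?_ ?_ ?_ ?_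
  · intro pos h
    rw [← J_mem_pre hF ha]
    simp only [J_J]
    exact h
  · intro pos h
    exact (J_mem_pre hF ha).2 h
  · intro pos _
    funext t
    exact J_J _
  · intro pos _
    funext t
    exact J_J _
  · intro pos _
    refine Finset.sum_congr rfl fun t _ => ?_
    have : (P.J r r' v (pos t) = P.J r r' v L) ↔ pos t = L := by simp
    simp only [this]

theorem MP_eq_of_avoid (hF : P.Full) (d : Tok → F) (s₀ : St S R Tok) {r r' : R} {v : S} (ha : P.Adj r r' v) {L : S}
    (h : ¬ P.On r L) (h' : ¬ P.On r' L) : MP P d s₀ r' L = MM P d s₀ r L := by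
  rw [MP_eq hF d s₀ ha]
  congr 1
  unfold J
  refine Equiv.swap_apply_of_ne_of_ne ?_ ?_
  · rintro rfl
    exact h' (on_oth r' v)
  · rintro rfl
    exact h (on_oth r v)

theorem MM_eq_zero (d : Tok → F) {s₀ : St S R Tok} (hg : P.Good s₀) {r : R} {L : S} (h : P.On r L) :
    MM P d s₀ r L = 0 := by
  unfold MM
  refine Finset.sum_eq_zero fun pos hp => Finset.sum_eq_zero fun t _ => ?_
  rw [if_neg]
  intro e
  exact (((mem_fib.1 hp).good hg).2 L).1 ⟨t, e⟩ h

theorem sum_MM (d : Tok → F) (s₀ : St S R Tok) (r : R) :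
    ∑ L, MM P d s₀ r L = (fib P s₀ r).card * ∑ t, d t := by
  unfold MM
  rw [Finset.sum_comm]
  rw [Finset.sum_congr rfl (g := fun _ => ∑ t, d t)]
  · rw [Finset.sum_const, nsmul_eq_mul]
  · intro pos _
    rw [Finset.sum_comm]
    refine Finset.sum_congr rfl fun t _ => ?_
    simp

/-- The number of placements divides the order of the group of all relabellings. -/
theorem card_fib_dvd {s₀ : St S R Tok} (hg : P.Good s₀) :
    (fib P s₀ s₀.1).card ∣ (Fintype.card Tok).factorial := by
  classical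
  let H : Subgroup (Equiv.Perm Tok) :=
    { carrier := {σ | P.Reach s₀ (s₀.1, s₀.2 ∘ σ)}
      mul_mem' := by
        rintro σ τ ⟨l, hl⟩ ⟨l', hl'⟩
        refine ⟨l' ++ l, ?_⟩
        rw [run_append, hl', run_comp l τ s₀, hl]
        rfl
      one_mem' := Reach.refl _
      inv_mem' := by
        intro σ hσ
        obtain ⟨l, hl⟩ := Reach.symm hσ
        refine ⟨l, ?_⟩
        have h := run_comp l (σ⁻¹ : Equiv.Perm Tok) (s₀.1, s₀.2 ∘ σ)
        rw [hl] at h
        have e : ((s₀.1, s₀.2 ∘ σ) : St S R Tok).2 ∘ (σ⁻¹ : Equiv.Perm Tok) = s₀.2 := by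
          funext t
          simp
        rw [e] at h
        exact h }
  have hcard : (fib P s₀ s₀.1).card = Nat.card H := by
    rw [Nat.card_eq_fintype_card, ← Finset.card_univ]
    symm
    refine Finset.card_nbij (fun σ => s₀.2 ∘ (σ : Equiv.Perm Tok)) ?_ ?_ ?_
    · intro σ _
      exact Finset.mem_coe.2 (mem_fib.2 σ.2)
    · intro σ _ τ _ e
      refine Subtype.ext (Equiv.ext fun t => hg.1 ?_)
      exact congrFun e t
    · intro pos hp
      have hr : P.Reach s₀ (s₀.1, pos) := mem_fib.1 (Finset.mem_coe.1 hp)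
      have hgp := hr.good hg
      have hex : ∀ t, ∃ t', s₀.2 t' = pos t := by
        intro t
        rw [hg.2]
        exact (hgp.2 (pos t)).1 ⟨t, rfl⟩
      choose f hf using hex
      have hinj : Function.Injective f := by
        intro t t' e
        exact hgp.1 (by show pos t = pos t'; rw [← hf t, ← hf t', e])
      have hbij : Function.Bijective f := Finite.injective_iff_bijective.1 hinj
      have hpos : s₀.2 ∘ (Equiv.ofBijective f hbij) = pos := by
        funext t
        exact hf t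
      refine ⟨⟨Equiv.ofBijective f hbij, ?_⟩, Finset.mem_coe.2 (Finset.mem_univ _), hpos⟩
      show P.Reach s₀ (s₀.1, s₀.2 ∘ (Equiv.ofBijective f hbij))
      rw [hpos]
      exact hr
  rw [hcard, ← Fintype.card_perm, ← Nat.card_eq_fintype_card]
  exact Subgroup.card_subgroup_dvd_card H

end fibres

end Puz

open Puz

theorem lemmaM : LemmaM := by
  intro S R Tok F _ _ _ _ _ P d s₀ hF hT hA hC hg
  classical
  -- constancy on the rungs that avoid `L`
  have key : ∀ L, ∃ m : F, ∀ r, ¬ P.On r L → MM P d s₀ r L = m ∧ MP P d s₀ r L = m := by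
    intro L
    obtain ⟨hcon, a, b, c, v, v', v'', ha, hb, hc, hab, hbc, hac⟩ := hA L
    have e1 : MP P d s₀ b L = MM P d s₀ a L := MP_eq_of_avoid hF d s₀ hab ha hb
    have e3 : MP P d s₀ c L = MM P d s₀ b L := MP_eq_of_avoid hF d s₀ hbc hb hc
    have e4 : MP P d s₀ b L = MM P d s₀ c L := MP_eq_of_avoid hF d s₀ hbc.symm hc hb
    have e5 : MP P d s₀ c L = MM P d s₀ a L := MP_eq_of_avoid hF d s₀ hac ha hc
    have e2 : MP P d s₀ a L = MM P d s₀ b L := MP_eq_of_avoid hF d s₀ hab.symm hb ha
    have ea : MP P d s₀ a L = MM P d s₀ a L := by rw [e2, ← e3, e5]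
    refine ⟨MM P d s₀ a L, fun r hr => ?_⟩
    have hpath := hcon a r ha hr
    clear hr
    induction hpath with
    | refl => exact ⟨rfl, ea⟩
    | tail _ hstep ih =>
      obtain ⟨hx, hy, w, hadj⟩ := hstep
      obtain ⟨i1, i2⟩ := ih
      refine ⟨?_, ?_⟩
      · rw [← i2]
        exact (MP_eq_of_avoid hF d s₀ hadj.symm hy hx).symm
      · rw [← i1]
        exact MP_eq_of_avoid hF d s₀ hadj hx hy
  choose M hM using key
  -- all fibres have the same size
  have htri : ∀ r r' v, P.Adj r r' v → (fib P s₀ r).card = (fib P s₀ r').card := by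
    intro r r' v h
    obtain ⟨b, c, h1, h2, h3⟩ := hT r v h.1
    have : ∃ e, P.Adj r e v ∧ P.Adj r' e v := by
      by_cases hb : P.oth r' v = P.oth b v
      · refine ⟨c, h2, h.2.1, h2.2.1, ?_⟩
        rw [hb]
        exact h3.2.2
      · exact ⟨b, h1, h.2.1, h1.2.1, hb⟩
    obtain ⟨e, he, he'⟩ := this
    rw [← card_pre hF s₀ he, ← card_pre hF s₀ he']
  have hall : ∀ r r', (fib P s₀ r).card = (fib P s₀ r').card := by
    intro r r'
    have hp := hC r r'
    induction hp with
    | refl => rfl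
    | tail _ h ih =>
      obtain ⟨v, hv⟩ := h
      rw [ih]
      exact htri _ _ v hv
  refine ⟨M, fun r L h => (hM L r h).1, ?_, (fib P s₀ s₀.1).card, card_fib_dvd hg, ?_⟩
  · intro r r' v h
    have h1 : MP P d s₀ r' (P.oth r v) = M (P.oth r v) := (hM _ r' h.not_on).2
    have h2 : MM P d s₀ r (P.oth r' v) = M (P.oth r' v) := (hM _ r h.symm.not_on).1
    rw [← h1, ← h2, MP_eq hF d s₀ h]
    congr 1
    unfold J
    exact Equiv.swap_apply_right _ _
  · intro r
    refine ⟨?_, hall _ _⟩
    rw [hall s₀.1 r, ← sum_MM d s₀ r]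
    refine Finset.sum_congr rfl fun L _ => ?_
    by_cases h : P.On r L
    · rw [if_pos h, MM_eq_zero d hg h]
    · rw [if_neg h, (hM L r h).1]

end Pool.Agent.Lib.MP_688fd0_co.SQ2.V
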