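import Pool.Agent.Lib.MP_688fd0_co.SQ2.V.Sym
import Pool.Agent.Lib.MP_688fd0_co.SQ2.Iface

/-!
Bounds: the number of symmetries of a frontier and the height of the flips.
-/

set_option autoImplicit false

namespace Pool.Agent.Lib.MP_688fd0_co.SQ2

/-- A symmetry is determined by its level and the image of one strand. -/
theorem card_sy_le {Q : Type} [Group Q] {D : Subgroup Q} {A : Q} {F : Finset Q} {e : ℕ} (h : FrD D A F e)
    (hF : F.Nonempty) : Nat.card (Sy h.toFrt) ≤ F.card * e := by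
  obtain ⟨s, hs⟩ := hF
  have : NeZero e := ⟨h.he.ne'⟩
  let f : Sy h.toFrt → F × ZMod e := fun g => (g • (⟨s, hs⟩ : F), lv g)
  have hf : Function.Injective f := by
    intro g k hgk
    have h1 : lv g = lv k := (Prod.ext_iff.1 hgk).2
    have h2 : g • (⟨s, hs⟩ : F) = k • (⟨s, hs⟩ : F) := (Prod.ext_iff.1 hgk).1
    exact sy_ext' h1 ⟨s, hs⟩ h2
  have h1 := Nat.card_le_card_of_injective f hf
  have h2 : Nat.card F = F.card := by rw [Nat.card_eq_fintype_card, Fintype.card_coe]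
  rwa [Nat.card_prod, h2, Nat.card_zmod] at h1

theorem card_rg {ι G : Type} : Nat.card (Rg ι G) = Nat.card ι * Nat.card G := by
  rw [← Nat.card_prod]
  exact Nat.card_congr (Rg.equiv ι G).symm

theorem NW_le {Q : Type} [Group Q] {D : Subgroup Q} {A : Q} {F : Finset Q} {e : ℕ} (h : FrD D A F e)
    (hF : F.Nonempty) :
    NW F (Rg (Fin 5) (Sy h.toFrt)) ≤ 10 * (F.card * e * F.card ^ F.card) + 2 := by
  have h1 : Nat.card (Rg (Fin 5) (Sy h.toFrt)) ≤ 5 * (F.card * e) := by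
    rw [card_rg, Nat.card_eq_fintype_card (α := Fin 5), Fintype.card_fin]
    exact Nat.mul_le_mul_left 5 (card_sy_le h hF)
  have h2 : Nat.card F = F.card := by rw [Nat.card_eq_fintype_card, Fintype.card_coe]
  unfold NW
  rw [h2]
  have h3 := Nat.mul_le_mul_right (F.card ^ F.card) h1
  have h4 : 5 * (F.card * e) * F.card ^ F.card = 5 * (F.card * e * F.card ^ F.card) := by ring
  omega

/-- The bound for FLIP. -/
theorem bnd {Q : Type} [Group Q] {D : Subgroup Q} {A : Q} {F : Finset Q} {e : ℕ} (h : FrD D A F e)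
    (hF : F.Nonempty) (c : ℕ) :
    (4 * NW F (Rg (Fin 5) (Sy h.toFrt)) + 8) * (e + hgt F.card (2 * c + 2 * e)) ≤ lam F.card e c := by
  have h1 := NW_le h hF
  unfold lam hgt
  generalize F.card * e * F.card ^ F.card = X at h1 ⊢
  generalize NW F (Rg (Fin 5) (Sy h.toFrt)) = N at h1 ⊢
  generalize F.card.factorial = Y
  have h2 : 4 * N + 8 ≤ 40 * X + 16 := by omega
  have h3 : e + (4 * Y + 4 * (2 * c + 2 * e) + 8) ≤ 2 * (4 * Y + 4 * (c + e) + 8 + 4 * e + 4) := by omega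
  calc (4 * N + 8) * (e + (4 * Y + 4 * (2 * c + 2 * e) + 8))
      ≤ (40 * X + 16) * (2 * (4 * Y + 4 * (c + e) + 8 + 4 * e + 4)) := Nat.mul_le_mul h2 h3
    _ = (80 * X + 32) * (4 * Y + 4 * (c + e) + 8 + 4 * e + 4) := by ring
    _ ≤ (1000 * (X + 10)) * (4 * Y + 4 * (c + e) + 8 + 4 * e + 4) :=
        Nat.mul_le_mul_right _ (by omega)

end Pool.Agent.Lib.MP_688fd0_co.SQ2
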