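import Pool.Agent.Lib.MP_688fd0_co.SQ2.V.GadDefs
import Pool.Agent.Lib.MP_688fd0_co.SQ2.H98.Rect

/-!
CGAD: the base gadget of a commuting label. All tokens go straight up; cup and cap use the same edge on two consecutive
levels.
-/

set_option autoImplicit false

namespace Pool.Agent.Lib.MP_688fd0_co.SQ2

open Pool.Agent.Lib.MP_688fd0_co.OSF Finset

namespace CGad

section basic

universe u v

variable {Q : Type u} [Group Q] {B : Lb.{u, v} Q} {a b : B.L}

/-- From `x` up `p` levels, the edge `b`, down `q` levels. -/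
def up (a b : B.L) (p q : ℕ) : List B.L := reps a p ++ ([b] ++ reps (B.inv a) q)

/-- From `x A ^ (p + 1 + m)` down, the edge `b`, up. -/
def dn (a b : B.L) (m m' : ℕ) : List B.L := reps (B.inv a) m ++ ([b] ++ reps a m')

theorem up_fin {x y : Q} {p q : ℕ} (h : x * B.q a ^ p * B.q b = y * B.q a ^ q) : B.fin x (up a b p q) = y := by
  unfold up
  rw [fin_append, fin_reps, fin_append]
  show B.fin (x * B.q a ^ p * B.q b) (reps (B.inv a) q) = y
  rw [h, fin_reps_inv]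

theorem up_verts {x y : Q} {p q : ℕ} (h : x * B.q a ^ p * B.q b = y * B.q a ^ q) :
    (B.verts x (up a b p q) : Multiset Q) =
      ∑ i ∈ range (p + 1), {x * B.q a ^ i} + ∑ i ∈ range (q + 1), {y * B.q a ^ i} := by
  rw [verts_eq, up_fin h]
  unfold up
  rw [src_append, src_append, fin_reps]
  show (((src B x (reps a p) ++ ([x * B.q a ^ p] ++ src B (x * B.q a ^ p * B.q b) (reps (B.inv a) q))) ++ [y] :
    List Q) : Multiset Q) = _
  rw [h, ← Multiset.coe_add, ← Multiset.coe_add, ← Multiset.coe_add, src_reps]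
  have h1 := src_reps_rev (B := B) a q y
  rw [Finset.sum_range_succ, Finset.sum_range_succ]
  have e1 : (([x * B.q a ^ p] : List Q) : Multiset Q) = {x * B.q a ^ p} := rfl
  have e2 : (([y] : List Q) : Multiset Q) = {y} := rfl
  rw [e1, e2, add_assoc, add_assoc {x * B.q a ^ p}, h1]
  abel

theorem dn_fin {x y : Q} {p q m m' : ℕ} (h : x * B.q a ^ p * B.q b = y * B.q a ^ q) :
    B.fin (x * B.q a ^ (p + m)) (dn a b m m') = y * B.q a ^ (q + m') := by
  unfold dn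
  rw [fin_append, pow_add, ← mul_assoc, fin_reps_inv, fin_append]
  show B.fin (x * B.q a ^ p * B.q b) (reps a m') = _
  rw [h, fin_reps, pow_add, mul_assoc]

theorem dn_ne {m m' : ℕ} : dn a b m m' ≠ [] := by
  unfold dn; simp

theorem dn_src {x y : Q} {p q m m' : ℕ} (h : x * B.q a ^ p * B.q b = y * B.q a ^ q) :
    ((src B (x * B.q a ^ (p + m)) (dn a b m m')).tail : Multiset Q) =
      ∑ i ∈ Finset.Ico p (p + m), {x * B.q a ^ i} + ∑ i ∈ Finset.Ico q (q + m'), {y * B.q a ^ i} := by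
  have h0 : (src B (x * B.q a ^ (p + m)) (dn a b m m') : Multiset Q) = {x * B.q a ^ (p + m)} +
      (∑ i ∈ Finset.Ico p (p + m), {x * B.q a ^ i} + ∑ i ∈ Finset.Ico q (q + m'), {y * B.q a ^ i}) := by
    unfold dn
    rw [src_append, src_append, pow_add, ← mul_assoc, fin_reps_inv]
    show (((src B (x * B.q a ^ p * B.q a ^ m) (reps (B.inv a) m) ++ ([x * B.q a ^ p] ++
      src B (x * B.q a ^ p * B.q b) (reps a m'))) : List Q) : Multiset Q) = _
    rw [h, ← Multiset.coe_add, ← Multiset.coe_add, src_reps a m' (y * B.q a ^ q)]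
    have h1 := src_reps_rev (B := B) a m (x * B.q a ^ p)
    have e1 : (([x * B.q a ^ p] : List Q) : Multiset Q) = {x * B.q a ^ p} := rfl
    rw [e1, ← add_assoc, h1, Finset.sum_Ico_eq_sum_range, Finset.sum_Ico_eq_sum_range, Nat.add_sub_cancel_left,
      Nat.add_sub_cancel_left, add_assoc]
    congr 2
    · refine Finset.sum_congr rfl fun i _ => ?_
      rw [pow_add, mul_assoc]
    · refine Finset.sum_congr rfl fun i _ => ?_
      rw [pow_add, mul_assoc]
  rw [src_ne_nil _ dn_ne, ← Multiset.cons_coe, ← Multiset.singleton_add] at h0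
  exact add_left_cancel h0

section vol

universe w

variable {R : Type w} [CommRing R] (V : Vd B R)

theorem n_inv_zero (ha : V.n a = 0) : V.n (B.inv a) = 0 := by
  rw [V.n_inv, ha, mul_zero, neg_zero]

theorem vol_up (ha : V.n a = 0) (x : Q) (p q : ℕ) :
    V.vol x (up a b p q) = V.chi (x * B.q a ^ p) * V.n b := by
  unfold up
  rw [vol_append, vol_append, fin_reps]
  have h1 : V.vol x (reps a p) = 0 := vol_zero V a ha x p
  have h2 : ∀ y, V.vol y (reps (B.inv a) q) = 0 := fun y => vol_zero V (B.inv a) (n_inv_zero V ha) y q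
  rw [h1, h2]
  show 0 + (V.chi (x * B.q a ^ p) * V.n b + 0 + 0) = _
  ring

theorem vol_dn (ha : V.n a = 0) (x : Q) (p m m' : ℕ) :
    V.vol (x * B.q a ^ (p + m)) (dn a b m m') = V.chi (x * B.q a ^ p) * V.n b := by
  unfold dn
  rw [vol_append, vol_append, pow_add, ← mul_assoc, fin_reps_inv]
  have h1 : ∀ y, V.vol y (reps a m') = 0 := fun y => vol_zero V a ha y m'
  have h2 : ∀ y, V.vol y (reps (B.inv a) m) = 0 := fun y => vol_zero V (B.inv a) (n_inv_zero V ha) y m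
  rw [h1, h2]
  show 0 + (V.chi (x * B.q a ^ p) * V.n b + 0 + 0) = _
  ring

end vol

end basic

variable {Q : Type} [Group Q] [DecidableEq Q] {B : Lb.{0, 0} Q} {a : B.L} {D : Subgroup Q} {F : Finset Q} {e : ℕ}

/-- The window. -/
def win (F : Finset Q) (a b : B.L) (s0 s1 : F) (hne : s0 ≠ s1) (p q H : ℕ) (hp : p + 1 ≤ H) (hq : q + 1 ≤ H)
    (h : (s0 : Q) * B.q a ^ p * B.q b = s1 * B.q a ^ q)
    (h' : (s0 : Q) * B.q a ^ (p + 1) * B.q b = s1 * B.q a ^ (q + 1)) : TW B where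
  L₀ := F
  L₁ := rt F (B.q a ^ H)
  u₀ := s0
  u₁ := s1
  w₀ := s0 * B.q a ^ H
  w₁ := s1 * B.q a ^ H
  cup := up a b p q
  cap := dn a b (H - (p + 1)) (H - (q + 1))
  f := fun x => x * B.q a ^ H
  path := fun _ => reps a H
  hu₀ := s0.2
  hu₁ := s1.2
  hu := fun h0 => hne (Subtype.ext h0)
  hw₀ := mul_mem_rt.2 s0.2
  hw₁ := mul_mem_rt.2 s1.2
  hw := fun h0 => hne (Subtype.ext (mul_right_cancel h0))
  cup_fin := up_fin h
  cap_fin := by
    have h1 := dn_fin (m := H - (p + 1)) (m' := H - (q + 1)) h'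
    rwa [Nat.add_sub_cancel' hp, Nat.add_sub_cancel' hq] at h1
  path_fin := fun x _ _ _ => fin_reps a H x
  f_mem := fun x hx h0 h1 => ⟨mul_mem_rt.2 hx, fun h2 => h0 (mul_right_cancel h2), fun h2 => h1 (mul_right_cancel h2)⟩
  f_inj := fun x _ _ _ y _ _ _ h2 => mul_right_cancel h2
  f_surj := fun y hy h0 h1 => by
    refine ⟨y * (B.q a ^ H)⁻¹, mem_rt.1 hy, ?_, ?_, inv_mul_cancel_right _ _⟩
    · intro h2; exact h0 (by rw [← h2, inv_mul_cancel_right])
    · intro h2; exact h1 (by rw [← h2, inv_mul_cancel_right])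

theorem win_R (F : Finset Q) (a b : B.L) (s0 s1 : F) (hne : s0 ≠ s1) (p q H : ℕ) (hp : p + 1 ≤ H) (hq : q + 1 ≤ H)
    (h : (s0 : Q) * B.q a ^ p * B.q b = s1 * B.q a ^ q)
    (h' : (s0 : Q) * B.q a ^ (p + 1) * B.q b = s1 * B.q a ^ (q + 1)) :
    (win F a b s0 s1 hne p q H hp hq h h').R = ∑ i ∈ range H, (rt F (B.q a ^ i)).val := by
  have e0 : (win F a b s0 s1 hne p q H hp hq h h').R =
      ∑ x ∈ (win F a b s0 s1 hne p q H hp hq h h').tok₀, (src B x (reps a H) : Multiset Q) +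
      (B.verts (s0 : Q) (up a b p q) : Multiset Q) +
      ((src B ((s0 : Q) * B.q a ^ H) (dn a b (H - (p + 1)) (H - (q + 1)))).tail : Multiset Q) := rfl
  have e1 : ((src B ((s0 : Q) * B.q a ^ H) (dn a b (H - (p + 1)) (H - (q + 1)))).tail : Multiset Q) =
      ∑ i ∈ Finset.Ico (p + 1) H, {(s0 : Q) * B.q a ^ i} + ∑ i ∈ Finset.Ico (q + 1) H, {(s1 : Q) * B.q a ^ i} := by
    have h1 := dn_src (m := H - (p + 1)) (m' := H - (q + 1)) h'
    rwa [Nat.add_sub_cancel' hp, Nat.add_sub_cancel' hq] at h1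
  have e2 : ∑ x ∈ (win F a b s0 s1 hne p q H hp hq h h').tok₀, (src B x (reps a H) : Multiset Q) =
      ∑ x ∈ (win F a b s0 s1 hne p q H hp hq h h').tok₀, ∑ i ∈ range H, {x * B.q a ^ i} :=
    Finset.sum_congr rfl fun x _ => src_reps a H x
  have e3 := lev_eq a F H
  unfold lev at e3
  rw [e0, e1, e2, up_verts h, e3]
  have e4 : ∑ x ∈ F, ∑ i ∈ range H, ({x * B.q a ^ i} : Multiset Q) =
      ∑ x ∈ (win F a b s0 s1 hne p q H hp hq h h').tok₀, ∑ i ∈ range H, {x * B.q a ^ i} +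
        ∑ i ∈ range H, {(s0 : Q) * B.q a ^ i} + ∑ i ∈ range H, {(s1 : Q) * B.q a ^ i} := by
    have h1 : (s1 : Q) ∈ F.erase (s0 : Q) := Finset.mem_erase.2 ⟨fun h0 => hne (Subtype.ext h0.symm), s1.2⟩
    rw [← Finset.sum_erase_add F _ s0.2, ← Finset.sum_erase_add (F.erase (s0 : Q)) _ h1]
    rw [add_right_comm]
    rfl
  rw [e4]
  have e5 : ∀ (x : Q) (r : ℕ), r ≤ H → ∑ i ∈ range H, ({x * B.q a ^ i} : Multiset Q) =
      ∑ i ∈ range r, {x * B.q a ^ i} + ∑ i ∈ Finset.Ico r H, {x * B.q a ^ i} := by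
    intro x r hr
    rw [← Finset.sum_range_add_sum_Ico _ hr]
  rw [e5 s0 (p + 1) hp, e5 s1 (q + 1) hq]
  abel

end CGad

open CGad

/-- CGAD. -/
theorem cgad {Q : Type} [Group Q] [DecidableEq Q] {B : Lb.{0, 0} Q} {a : B.L} {D : Subgroup Q} {F : Finset Q} {e : ℕ}
    (h : FrD D (B.q a) F e) (b : B.L) (hb : B.q b * B.q a = B.q a * B.q b) (s0 s1 : F) (hne : s0 ≠ s1)
    (j : ℤ) (hj : (s0 : Q) * B.q b = s1 * B.q a ^ j) :
    ∃ (G : BGad h.toFrt) (p p' : ℕ), COK h G b p p' ∧ G.x = s0 ∧ G.y = s1 ∧ G.H ≤ j.natAbs + 1 ∧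
      (∀ s : F, G.X.path s = List.replicate G.H a) ∧ (p' : ℤ) - p = j ∧ p ≤ j.natAbs := by
  have hcom : ∀ n : ℕ, B.q a ^ n * B.q b = B.q b * B.q a ^ n := by
    intro n
    have : Commute (B.q b) (B.q a) := hb
    exact ((this.pow_right n).eq).symm
  have key : ∀ n : ℕ, (s0 : Q) * B.q a ^ ((-j).toNat + n) * B.q b = s1 * B.q a ^ (j.toNat + n) := by
    intro n
    rw [mul_assoc, hcom, ← mul_assoc, hj, mul_assoc, ← zpow_natCast, ← zpow_natCast, ← zpow_add]
    congr 2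
    push_cast
    omega
  have h0 : (s0 : Q) * B.q a ^ (-j).toNat * B.q b = s1 * B.q a ^ j.toNat := key 0
  have h1 : (s0 : Q) * B.q a ^ ((-j).toNat + 1) * B.q b = s1 * B.q a ^ (j.toNat + 1) := key 1
  have hp : (-j).toNat + 1 ≤ j.natAbs + 1 := by omega
  have hq : j.toNat + 1 ≤ j.natAbs + 1 := by omega
  have hfix : h.cj (s0 : Q) • s1 = s1 := by
    refine Subtype.ext ?_
    rw [h.cj_smul]
    have e1 : (s1 : Q) = s0 * B.q b * (B.q a ^ j)⁻¹ := by rw [hj, mul_inv_cancel_right]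
    have e2 : B.q b * B.q a = B.q a * B.q b := hb
    rw [e1]
    calc (s0 : Q) * B.q a * (s0 : Q)⁻¹ * ((s0 : Q) * B.q b * (B.q a ^ j)⁻¹) * (B.q a)⁻¹
        = (s0 : Q) * (B.q a * B.q b) * ((B.q a ^ j)⁻¹ * (B.q a)⁻¹) := by group
      _ = (s0 : Q) * (B.q b * B.q a) * ((B.q a ^ j)⁻¹ * (B.q a)⁻¹) := by rw [e2]
      _ = _ := by group
  refine ⟨{
    x := s0
    y := s1
    ne := hne
    δ := h.cj (s0 : Q)
    T := 1
    Tx := (h.cj_self s0).symm
    Ty := hfix.symm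
    H := j.natAbs + 1
    X := win F a b s0 s1 hne (-j).toNat j.toNat (j.natAbs + 1) hp hq h0 h1
    L₀ := rfl
    L₁ := rfl
    u₀ := rfl
    u₁ := rfl
    w₀ := by rw [h.cj_self]; rfl
    w₁ := by rw [hfix]; rfl
    f := fun s _ _ => rfl
    reg := win_R F a b s0 s1 hne (-j).toNat j.toNat (j.natAbs + 1) hp hq h0 h1 }, (-j).toNat, j.toNat, ?_, rfl, rfl,
    le_refl _, fun _ => rfl, by omega, by omega⟩
  refine ⟨hb, h0, rfl, rfl, ?_, ?_, ?_⟩
  · intro R _ V ha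
    exact vol_up V ha _ _ _
  · intro R _ V ha hal
    show V.vol ((s0 : Q) * B.q a ^ (j.natAbs + 1)) (dn a b (j.natAbs + 1 - ((-j).toNat + 1))
      (j.natAbs + 1 - (j.toNat + 1))) = Xc V (h.cj (s0 : Q)) * V.vol (s0 : Q) (up a b (-j).toNat j.toNat)
    have e1 := vol_dn (b := b) V ha (s0 : Q) ((-j).toNat + 1) (j.natAbs + 1 - ((-j).toNat + 1))
      (j.natAbs + 1 - (j.toNat + 1))
    rw [Nat.add_sub_cancel' hp] at e1
    rw [e1, vol_up V ha]
    have hlv : ((1 : ℕ) : ZMod e) = lv (h.cj (s0 : Q)) := by rw [Nat.cast_one, h.cj_lv]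
    have e2 : Xc V (h.cj (s0 : Q)) = V.chi (B.q a) := by
      have e3 := Xc_eq V hal s0 (h.cj (s0 : Q)) 1 hlv
      rw [← e3, uu_eq (h.cj (s0 : Q)) 1 hlv s0, h.cj_self, pow_one, map_mul, map_mul]
      have h2 : V.chi (s0 : Q) * V.chi (s0 : Q)⁻¹ = 1 := by rw [← map_mul, mul_inv_cancel, map_one]
      linear_combination (V.chi (B.q a)) * h2
    rw [e2, pow_succ, ← mul_assoc, map_mul]
    ring
  · intro R _ V ha s _ _
    exact vol_zero V a ha s _

theorem cgadS : CGadS := by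
  intro Q _ _ B a D F e h b hb s₀ s₁ j hne hj
  obtain ⟨G, p, p', h1, h2, h3, h4, -, h5, -⟩ := cgad h b hb s₀ s₁ hne j hj
  exact ⟨G, p, p', h2, h3, h4, h5, h1⟩

end Pool.Agent.Lib.MP_688fd0_co.SQ2
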