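import Pool.Agent.Lib.MP_688fd0_co.SQ2.V.FlipDefs

/-!
FC1: commuting labels, `alpha ≠ 1`: the two words `[e, g]` and `[e', g]` from `stb`, where `e` and `e'` are two levels of a
rung whose gadget moves nothing.
-/

set_option autoImplicit false

namespace Pool.Agent.Lib.MP_688fd0_co.SQ2.V

namespace FC1

variable {S R : Type} [DecidableEq S] (P : Puz S R)

open Puz

theorem oth_ne {r : R} {v : S} (h : P.On r v) : P.oth r v ≠ v := by
  unfold Puz.oth
  rcases h with h | h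
  · rw [if_pos h, h]; exact (P.ne r).symm
  · by_cases h' : v = P.x r
    · rw [if_pos h', h']; exact (P.ne r).symm
    · rw [if_neg h', h]; exact P.ne r

/-- A strand on `r` is `v` or the other end. -/
theorem on_iff {r : R} {v : S} (h : P.On r v) (s : S) : P.On r s ↔ s = v ∨ s = P.oth r v := by
  unfold Puz.oth Puz.On at *
  rcases h with h | h
  · rw [if_pos h, ← h]
  · by_cases h' : v = P.x r
    · rw [if_pos h', ← h']
    · rw [if_neg h', ← h, or_comm]

/-- The ends are not moved when the gadget moves nothing. -/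
theorem tau_on {e : R} (hT : P.T e = 1) {v : S} (h : P.On e v) :
    P.On (P.tau e) v ∧ P.oth (P.tau e) v = P.oth e v := by
  have h1 := P.T_ends e
  rw [hT] at h1
  simp only [Equiv.Perm.coe_one, id_eq] at h1
  have hne := P.ne e
  have hne' := P.ne (P.tau e)
  unfold Puz.On Puz.oth at *
  rcases h1 with ⟨a, b⟩ | ⟨a, b⟩
  · rw [← a, ← b]; exact ⟨h, rfl⟩
  · rw [← a, ← b]
    refine ⟨h.symm, ?_⟩
    rcases h with h | h
    · rw [if_neg (by rw [h]; exact hne : ¬ v = P.y e), if_pos h]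
    · rw [if_pos h, if_neg (by rw [h]; exact hne.symm : ¬ v = P.x e)]

/-- The token on a strand outside `g` in the state `stb`. -/
theorem stb_tok {f g : R} {l₀ : S} (hgf : P.Adj g f l₀) {s : S} (hs : ¬ P.On g s) :
    ∃ t₁ : P.TokOf f, ∀ t : P.TokOf f, (P.stb f g l₀).2 t = s ↔ t = t₁ := by
  obtain ⟨h1, h2, h3⟩ := hgf
  have hg : ∀ s, P.On g s ↔ s = l₀ ∨ s = P.oth g l₀ := on_iff P h1
  have hf : ∀ s, P.On f s ↔ s = l₀ ∨ s = P.oth f l₀ := on_iff P h2
  have hl₂ : ¬ P.On f (P.oth g l₀) := by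
    rw [hf]
    rintro (h | h)
    · exact oth_ne P h1 h
    · exact h3 h
  have hl₁ : ∀ t : P.TokOf f, (t : S) ≠ P.oth f l₀ := fun t ht => t.2 ((hf _).2 (Or.inr ht))
  by_cases hs1 : s = P.oth f l₀
  · refine ⟨⟨P.oth g l₀, hl₂⟩, fun t => ?_⟩
    show (if (t : S) = P.oth g l₀ then P.oth f l₀ else (t : S)) = s ↔ _
    by_cases ht : (t : S) = P.oth g l₀
    · rw [if_pos ht]
      exact ⟨fun _ => Subtype.ext ht, fun _ => hs1.symm⟩
    · rw [if_neg ht]
      constructor
      · intro h; exact absurd (h.trans hs1) (hl₁ t)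
      · intro h; exact absurd (congrArg Subtype.val h) ht
  · have hsf : ¬ P.On f s := by
      rw [hf]
      rintro (h | h)
      · exact hs ((hg s).2 (Or.inl h))
      · exact hs1 h
    refine ⟨⟨s, hsf⟩, fun t => ?_⟩
    show (if (t : S) = P.oth g l₀ then P.oth f l₀ else (t : S)) = s ↔ _
    by_cases ht : (t : S) = P.oth g l₀
    · rw [if_pos ht]
      constructor
      · intro h; exact absurd h.symm hs1
      · intro h
        have h' : (t : S) = s := congrArg Subtype.val h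
        exact absurd ((hg s).2 (Or.inr (h'.symm.trans ht))) hs
    · rw [if_neg ht]
      exact ⟨fun h => Subtype.ext h, fun h => congrArg Subtype.val h⟩

/-- In `stb` no token sits on `g`. -/
theorem stb_off {f g : R} {l₀ : S} (hgf : P.Adj g f l₀) (t : P.TokOf f) : ¬ P.On g ((P.stb f g l₀).2 t) := by
  obtain ⟨h1, h2, h3⟩ := hgf
  show ¬ P.On g (if (t : S) = P.oth g l₀ then P.oth f l₀ else (t : S))
  rw [on_iff P h1]
  by_cases ht : (t : S) = P.oth g l₀
  · rw [if_pos ht]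
    rintro (h | h)
    · exact oth_ne P h2 h
    · exact h3 h.symm
  · rw [if_neg ht]
    rintro (h | h)
    · exact t.2 ((on_iff P h2 _).2 (Or.inl h))
    · exact ht h

section cost

variable {F : Type} [CommRing F]

/-- The two letters `e, g` from a state with cap `g`: the end and the cost. -/
theorem two {Tok : Type} [Fintype Tok] (V : R → F) (θ : R → S → F) (d : Tok → F) (pos : Tok → S) {g e : R} {x₀ : S}
    (h : P.Adj g e x₀) (hT : P.T e = 1) :
    P.Ok (g, pos) [(e, x₀), (g, x₀)] ∧ P.go (g, pos) [(e, x₀), (g, x₀)] = (P.tau g, fun t => P.T g (pos t)) ∧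
    P.wcost V θ d (g, pos) [(e, x₀), (g, x₀)] =
      (∑ t, d t * ((if pos t = P.oth e x₀ then P.volr V (P.tau e) x₀ - P.volr V e x₀ else 0) +
        θ e (Equiv.swap (P.oth e x₀) (P.oth g x₀) (pos t)) + θ g (pos t))) := by
  obtain ⟨h1, h2, h3⟩ := h
  obtain ⟨k1, k2⟩ := tau_on P hT h2
  have hJ : ∀ s, P.J (P.tau e) g x₀ (P.J g e x₀ s) = s := by
    intro s
    unfold Puz.J
    rw [k2, Equiv.swap_comm (P.oth g x₀) (P.oth e x₀), Equiv.swap_apply_self]
  refine ⟨⟨⟨h1, h2, h3⟩, ⟨k1, h1, ?_⟩, trivial⟩, ?_, ?_⟩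
  · rw [show P.oth (P.step e x₀ (g, pos)).1 x₀ = P.oth (P.tau e) x₀ from rfl, k2]
    exact h3.symm
  · show P.step g x₀ (P.step e x₀ (g, pos)) = _
    refine Prod.ext rfl (funext fun t => ?_)
    show P.T g (P.J (P.tau e) g x₀ (P.T e (P.J g e x₀ (pos t)))) = P.T g (pos t)
    rw [hT, Equiv.Perm.one_apply, hJ]
  · show P.scost V θ d (g, pos) e x₀ + (P.scost V θ d (P.step e x₀ (g, pos)) g x₀ + 0) = _
    rw [add_zero]
    unfold Puz.scost
    rw [← Finset.sum_add_distrib]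
    refine Finset.sum_congr rfl fun t _ => ?_
    show d t * ((if pos t = P.oth e x₀ then P.volr V g x₀ - P.volr V e x₀ else 0) + θ e (P.J g e x₀ (pos t))) +
      d t * ((if P.T e (P.J g e x₀ (pos t)) = P.oth g x₀ then P.volr V (P.tau e) x₀ - P.volr V g x₀ else 0) +
        θ g (P.J (P.tau e) g x₀ (P.T e (P.J g e x₀ (pos t))))) = _
    rw [hT, Equiv.Perm.one_apply, hJ]
    have hiff : P.J g e x₀ (pos t) = P.oth g x₀ ↔ pos t = P.oth e x₀ := by
      unfold Puz.J
      rw [← Equiv.eq_symm_apply, Equiv.symm_swap, Equiv.swap_apply_right]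
    by_cases ht : pos t = P.oth e x₀
    · rw [if_pos ht, if_pos (hiff.2 ht), if_pos ht]
      unfold Puz.J
      ring
    · rw [if_neg ht, if_neg (fun h => ht (hiff.1 h)), if_neg ht]
      unfold Puz.J
      ring

end cost

end FC1

open Puz FC1

/-- COMMUTING LABELS, `alpha ≠ 1`. -/
theorem flipC1 {S R F : Type} [Fintype S] [DecidableEq S] [CommRing F] (P : Puz S R) (V : R → F) (θ : R → S → F)
    (d : S → F) (f g : R) (l₀ x₀ : S) (e e' : R)
    (hsym : ∀ s s' : St S R (P.TokOf f), P.WReach s s' → P.WReach s' s) (hgf : P.Adj g f l₀)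
    (hd : ∀ s, d s = 1 ∨ d s = -1) (he : P.Adj g e x₀) (he' : P.On e' x₀) (hoth : P.oth e' x₀ = P.oth e x₀)
    (hT : P.T e = 1) (hT' : P.T e' = 1) (hθ : ∀ s, ¬ P.On e s → θ e s = θ e' s)
    (hV : P.volr V (P.tau e) x₀ - P.volr V e x₀ ≠ P.volr V (P.tau e') x₀ - P.volr V e' x₀) :
    P.Flip V θ d f g l₀ := by
  have hadj' : P.Adj g e' x₀ := ⟨he.1, he', by rw [hoth]; exact he.2.2⟩
  obtain ⟨a1, a2, a3⟩ := two P V θ (fun t : P.TokOf f => d t) (P.stb f g l₀).2 he hT
  obtain ⟨b1, b2, b3⟩ := two P V θ (fun t : P.TokOf f => d t) (P.stb f g l₀).2 hadj' hT'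
  have hs : (g, (P.stb f g l₀).2) = P.stb f g l₀ := rfl
  rw [hs] at a1 a2 a3 b1 b2 b3
  have hst : P.WReach (P.stb f g l₀) (P.st₁ f) := by
    rw [← P.stb_step hgf]
    exact WReach.step hgf
  obtain ⟨w₀, c1, c2⟩ := hsym _ _ hst
  obtain ⟨w₁, c3, c4⟩ := hsym (P.stb f g l₀) _ ⟨_, a1, a2⟩
  refine ⟨w₀ ++ ([(e, x₀), (g, x₀)] ++ w₁), w₀ ++ ([(e', x₀), (g, x₀)] ++ w₁), ?_, ?_, ?_, ?_, ?_⟩
  · rw [ok_append, c2, ok_append, a2]
    exact ⟨c1, a1, c3⟩
  · rw [go_append, c2, go_append, a2, c4]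
  · rw [ok_append, c2, ok_append, b2]
    exact ⟨c1, b1, c3⟩
  · rw [go_append, c2, go_append, b2, c4]
  · rw [show P.wcost V θ (fun t : P.TokOf f => d t) (P.st₁ f) (w₀ ++ ([(e, x₀), (g, x₀)] ++ w₁)) = _ from by
      rw [wcost_append, c2, wcost_append, a2, a3]]
    rw [show P.wcost V θ (fun t : P.TokOf f => d t) (P.st₁ f) (w₀ ++ ([(e', x₀), (g, x₀)] ++ w₁)) = _ from by
      rw [wcost_append, c2, wcost_append, b2, b3]]
    intro h
    have h' := add_right_cancel (add_left_cancel h)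
    rw [← sub_eq_zero, ← Finset.sum_sub_distrib] at h'
    have hns : ¬ P.On g (P.oth e x₀) := by
      rw [on_iff P he.1]
      rintro (h1 | h1)
      · exact oth_ne P he.2.1 h1
      · exact he.2.2 h1.symm
    obtain ⟨t₁, ht₁⟩ := stb_tok P hgf hns
    have hθ' : ∀ t : P.TokOf f, θ e (Equiv.swap (P.oth e x₀) (P.oth g x₀) ((P.stb f g l₀).2 t)) =
        θ e' (Equiv.swap (P.oth e x₀) (P.oth g x₀) ((P.stb f g l₀).2 t)) := by
      intro t
      apply hθ
      have hng := stb_off P hgf t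
      rw [on_iff P he.2.1]
      by_cases h1 : (P.stb f g l₀).2 t = P.oth e x₀
      · rw [h1, Equiv.swap_apply_left]
        rintro (h2 | h2)
        · exact oth_ne P he.1 h2
        · exact he.2.2 h2
      · rw [Equiv.swap_apply_of_ne_of_ne h1 (fun h2 => hng ((on_iff P he.1 _).2 (Or.inr h2)))]
        rintro (h2 | h2)
        · exact hng ((on_iff P he.1 _).2 (Or.inl h2))
        · exact h1 h2
    rw [Finset.sum_eq_single t₁] at h'
    · rw [hoth, if_pos ((ht₁ t₁).2 rfl), if_pos ((ht₁ t₁).2 rfl), hθ'] at h'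
      have h2 : d t₁ * ((P.volr V (P.tau e) x₀ - P.volr V e x₀) - (P.volr V (P.tau e') x₀ - P.volr V e' x₀)) = 0 := by
        linear_combination h'
      rcases hd t₁ with h3 | h3
      · rw [h3, one_mul] at h2
        exact hV (sub_eq_zero.1 h2)
      · rw [h3, neg_one_mul, neg_eq_zero] at h2
        exact hV (sub_eq_zero.1 h2)
    · intro t _ ht
      rw [hoth, if_neg (fun h1 => ht ((ht₁ t).1 h1)), if_neg (fun h1 => ht ((ht₁ t).1 h1)), hθ']
      ring
    · intro h1; exact absurd (Finset.mem_univ _) h1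

end Pool.Agent.Lib.MP_688fd0_co.SQ2.V
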