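import Pool.Agent.Lib.MP_688fd0_co.SQ2.V.Walk

/-!
Flips in the big puzzle of one tree window: definitions and statements.

`f = {l₀, l₁}` is the cup rung and `g = {l₀, l₂}` the cap rung of the window; the tokens are named by the strands that are
not on `f`. `st₁` is the state after the gadget of `f`, `stb` the state at the cap `g` (all tokens home, the token `l₂` on
`l₁`); the step from `stb` with the cup `f` leads to `st₁`.
-/

set_option autoImplicit false

namespace Pool.Agent.Lib.MP_688fd0_co.SQ2.V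

namespace Puz

variable {S R : Type} [DecidableEq S] (P : Puz S R)

/-- The tokens, named by the strands that are not on `f`. -/
abbrev TokOf (f : R) : Type := {s : S // ¬ P.On f s}

/-- The state after the gadget of `f`. -/
def st₁ (f : R) : St S R (P.TokOf f) := (P.tau f, fun t => P.T f t)

/-- The state at the cap `g`. -/
def stb (f g : R) (l₀ : S) : St S R (P.TokOf f) :=
  (g, fun t => if (t : S) = P.oth g l₀ then P.oth f l₀ else t)

theorem stb_step {f g : R} {l₀ : S} (h : P.Adj g f l₀) : P.step f l₀ (P.stb f g l₀) = P.st₁ f := by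
  obtain ⟨h1, h2, h3⟩ := h
  refine Prod.ext rfl (funext fun t => ?_)
  show P.T f (P.J g f l₀ (if (t : S) = P.oth g l₀ then P.oth f l₀ else t)) = P.T f t
  congr 1
  unfold J
  by_cases h : (t : S) = P.oth g l₀
  · rw [if_pos h, Equiv.swap_apply_left, h]
  · rw [if_neg h]
    refine Equiv.swap_apply_of_ne_of_ne (fun h' => t.2 ?_) h
    rw [h']
    unfold oth On
    by_cases hv : l₀ = P.x f
    · rw [if_pos hv]; exact Or.inr rfl
    · rw [if_neg hv]; exact Or.inl rfl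

section

variable {F : Type} [CommRing F]

/-- FLIP: two walks from `st₁` to `stb` with different costs. -/
def Flip [Fintype S] (V : R → F) (θ : R → S → F) (d : S → F) (f g : R) (l₀ : S) : Prop :=
  ∃ l l' : List (R × S), P.Ok (P.st₁ f) l ∧ P.go (P.st₁ f) l = P.stb f g l₀ ∧
    P.Ok (P.st₁ f) l' ∧ P.go (P.st₁ f) l' = P.stb f g l₀ ∧
    P.wcost V θ (fun t : P.TokOf f => d t) (P.st₁ f) l ≠ P.wcost V θ (fun t : P.TokOf f => d t) (P.st₁ f) l'

/-- FLIP for level independent labels `χ`: at some reachable state waiting costs something else than at the end. -/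
def FlipG [Fintype S] (χ : S → F) (d : S → F) (f : R) : Prop :=
  ∃ (s : St S R (P.TokOf f)) (r' : R) (v : S), P.WReach (P.st₁ f) s ∧ P.Adj s.1 r' v ∧
    P.gam χ (fun t : P.TokOf f => d t) s r' v ≠ ∑ s, d s * χ s

end

end Puz

open Puz

/-- A puzzle `Pb` (the component of a rung of type `b`) inside the big puzzle `P`. -/
structure Sub {S R Sb Rb : Type} [DecidableEq S] [DecidableEq Sb] (P : Puz S R) (Pb : Puz Sb Rb) where
  iS : Sb → S
  iR : Rb → R
  inj : Function.Injective iS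
  x : ∀ r, P.x (iR r) = iS (Pb.x r)
  y : ∀ r, P.y (iR r) = iS (Pb.y r)
  tau : ∀ r, P.tau (iR r) = iR (Pb.tau r)
  T : ∀ r s, P.T (iR r) (iS s) = iS (Pb.T r s)
  T_out : ∀ r s, s ∉ Set.range iS → P.T (iR r) s = s

/-- RET: steps can be undone. -/
def RetS : Prop := ∀ (S R Tok : Type) [Fintype S] [DecidableEq S] [Fintype R] [Fintype Tok] (P : Puz S R),
  P.Hom → ∀ s s' : St S R Tok, P.WReach s s' → P.WReach s' s

/-- START: a reachable state with cap in the component `Pb` whose tokens on the component have total weight `≠ 0`.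
`v₀` is one of `l₀, l₁, l₂`. -/
def StartS : Prop := ∀ (S R Sb Rb F : Type) [Fintype S] [DecidableEq S] [Fintype R] [Fintype Sb] [DecidableEq Sb]
  [Fintype Rb] [Field F] (P : Puz S R) (Pb : Puz Sb Rb) (E : Sub P Pb) (d : S → F) (f g : R) (l₀ : S) (v₀ : Sb),
  (2 : F) ≠ 0 → (∀ s s' : St S R (P.TokOf f), P.WReach s s' → P.WReach s' s) → P.Adj g f l₀ →
  (∀ s, d s = 1 ∨ d s = -1) → d (P.oth f l₀) = - d l₀ → d (P.oth g l₀) = - d l₀ →
  (E.iS v₀ = l₀ ∨ E.iS v₀ = P.oth f l₀ ∨ E.iS v₀ = P.oth g l₀) → Pb.Three → (∃ r, Pb.On r v₀) →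
  (((∑ s, d (E.iS s)) ≠ 0 ∧ ∃ r, Pb.On r v₀ ∧ d (E.iS (Pb.oth r v₀)) = - d (E.iS v₀)) ∨
    ((∀ s, d (E.iS s) = d (E.iS v₀)) ∧ ((Fintype.card Sb : F) - 2 ≠ 0))) →
  ∃ (s : St S R (P.TokOf f)) (r : Rb), P.WReach (P.st₁ f) s ∧ s.1 = E.iR r ∧
    Function.Injective s.2 ∧ (∀ L, (∃ t, s.2 t = L) ↔ ¬ P.On s.1 L) ∧
    (∑ t, if s.2 t ∈ Set.range E.iS then d t else 0) ≠ 0

/-- FLIP A: voltages which are not exact on the component. -/
def FlipAS : Prop := ∀ (S R Sb Rb F : Type) [Fintype S] [DecidableEq S] [Fintype R] [Fintype Sb] [DecidableEq Sb]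
  [Fintype Rb] [Field F] (P : Puz S R) (Pb : Puz Sb Rb) (E : Sub P Pb) (V : R → F) (θ : R → S → F) (d : S → F)
  (f g : R) (l₀ : S) (s : St S R (P.TokOf f)) (r : Rb),
  (∀ s s' : St S R (P.TokOf f), P.WReach s s' → P.WReach s' s) → P.Adj g f l₀ →
  (∀ r s, s ∉ Set.range E.iS → θ (E.iR r) s = 0) →
  P.WReach (P.st₁ f) s → s.1 = E.iR r → Function.Injective s.2 → (∀ L, (∃ t, s.2 t = L) ↔ ¬ P.On s.1 L) →
  (∑ t, if s.2 t ∈ Set.range E.iS then d t else 0) ≠ 0 →
  Pb.Full → Pb.Three → Pb.Avoid → Pb.Conn → ((Fintype.card Sb).factorial : F) ≠ 0 →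
  (∃ δ : ℕ, (δ : F) ≠ 0 ∧ ∀ L, {r | Pb.On r L}.ncard = δ) →
  (¬ ∃ b : Sb → F, ∀ r, V (E.iR r) = b (Pb.y r) - b (Pb.x r)) →
  P.Flip V θ d f g l₀

/-- FLIP B: level independent labels that are not constant on the component. -/
def FlipBS : Prop := ∀ (S R Sb Rb F : Type) [Fintype S] [DecidableEq S] [Fintype R] [Fintype Sb] [DecidableEq Sb]
  [Fintype Rb] [Field F] (P : Puz S R) (Pb : Puz Sb Rb) (E : Sub P Pb) (χ : S → F) (d : S → F)
  (f : R) (s : St S R (P.TokOf f)) (r : Rb),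
  P.WReach (P.st₁ f) s → s.1 = E.iR r → Function.Injective s.2 → (∀ L, (∃ t, s.2 t = L) ↔ ¬ P.On s.1 L) →
  (∑ t, if s.2 t ∈ Set.range E.iS then d t else 0) ≠ 0 →
  Pb.Full → Pb.Three → Pb.Avoid → Pb.Conn → ((Fintype.card Sb).factorial : F) ≠ 0 →
  (∃ δ : ℕ, (δ : F) ≠ 0 ∧ ∀ L, {r | Pb.On r L}.ncard = δ) →
  (∃ r, χ (E.iS (Pb.x r)) ≠ χ (E.iS (Pb.y r))) →
  P.FlipG χ d f

/-- SHORT: short flips. -/
def ShortS : Prop := ∀ (S R Tok F : Type) [Fintype S] [DecidableEq S] [Fintype R] [Fintype Tok] [CommRing F]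
  (P : Puz S R) (V : R → F) (θ : R → S → F) (d : Tok → F) (s s' : St S R Tok),
  (∀ s s' : St S R Tok, P.WReach s s' → P.WReach s' s) →
  (∃ l l' : List (R × S), P.Ok s l ∧ P.go s l = s' ∧ P.Ok s l' ∧ P.go s l' = s' ∧
    P.wcost V θ d s l ≠ P.wcost V θ d s l') →
  ∃ l l' : List (R × S), P.Ok s l ∧ P.go s l = s' ∧ P.Ok s l' ∧ P.go s l' = s' ∧
    P.wcost V θ d s l ≠ P.wcost V θ d s l' ∧
    l.length ≤ 2 * (Nat.card R * Nat.card S ^ Nat.card Tok) + 1 ∧
    l'.length ≤ 2 * (Nat.card R * Nat.card S ^ Nat.card Tok) + 1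

/-- Reachable states can be reached by short walks. -/
def ShortRS : Prop := ∀ (S R Tok : Type) [Fintype S] [DecidableEq S] [Fintype R] [Fintype Tok] (P : Puz S R)
  (s s' : St S R Tok), P.WReach s s' → P.WReachN (Nat.card R * Nat.card S ^ Nat.card Tok) s s'

end Pool.Agent.Lib.MP_688fd0_co.SQ2.V
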