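import Pool.Agent.Lib.MP_688fd0_co.SQ2.Words
import Pool.Agent.Lib.MP_688fd0_co.SQ2.H62.Blocks
import Pool.Agent.Lib.MP_688fd0_co.SQ2.V.FlipDefs

/-!
From flips in the big puzzle to versions of flat windows: statements.
-/

set_option autoImplicit false

namespace Pool.Agent.Lib.MP_688fd0_co.SQ2

open Pool.Agent.Lib.MP_688fd0_co.OSF
open V (Puz)

universe v

/-- The volumes of the gadgets: `cu` of the cups, `ca` of the caps (both from `x` to `y`), `θ` of the token paths. -/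
structure Vols {S R : Type} [Fintype S] [DecidableEq S] {P : Puz S R} {Q : Type} [Group Q] [DecidableEq Q]
    {B : Lb.{0, v} Q} {a : B.L} (Z : Real P B a) {F : Type} [CommRing F] (V : Vd B F) (cu ca : R → F)
    (θ : R → S → F) : Prop where
  al : V.chi (B.q a) ^ Z.e = 1
  cup : ∀ r t, t % Z.e = Z.lev r → V.vol (Z.vt (P.x r) t) (Z.gad r t).cup = cu r
  cap : ∀ r t, t % Z.e = Z.lev r → V.vol (Z.gad r t).w₀ (Z.gad r t).cap = ca r
  path : ∀ r t, t % Z.e = Z.lev r → ∀ s, ¬ P.On r s → V.vol (Z.vt s t) ((Z.gad r t).path (Z.vt s t)) = θ r s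

/-- The sign of a colour. -/
def sgn {F : Type} [CommRing F] (b : Bool) : F := if b then 1 else -1

/-- Bound for the lengths of the walks. -/
noncomputable def NW (S R : Type) : ℕ := 2 * (Nat.card R * Nat.card S ^ Nat.card S) + 2

/-- The windows of one tree path: `E` is a flat window from the cup `f` to the cap `g`. -/
structure EWr {S R : Type} [Fintype S] [DecidableEq S] {P : Puz S R} {Q : Type} [Group Q] [DecidableEq Q]
    {B : Lb.{0, v} Q} {a : B.L} (Z : Real P B a) (f g : R) (l₀ : S) (E : TW B) (n : ℕ) : Prop where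
  flat : Flat a E n (Z.vt (P.oth g l₀) (Z.lev f))
  L₀ : E.L₀ = Z.Fr (Z.lev f)
  u₀ : E.u₀ = Z.vt (P.oth f l₀) (Z.lev f)
  u₁ : E.u₁ = Z.vt l₀ (Z.lev f)
  dvd : Z.e ∣ n
  cup : E.cup = if l₀ = P.y f then (Z.gad f (Z.lev f)).cup else B.rev (Z.gad f (Z.lev f)).cup

/-- REAL0: the flat window exists. `h` bounds the heights of the gadgets. -/
def Real0S : Prop := ∀ (S R : Type) [Fintype S] [DecidableEq S] [Fintype R] (P : Puz S R) (Q : Type) [Group Q]
  [DecidableEq Q] (B : Lb.{0, v} Q) (a : B.L) (Z : Real P B a) (f g : R) (l₀ : S) (h : ℕ),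
  (∀ x : Q, x * B.q a ^ Z.e = B.q a ^ Z.e * x) →
  (∀ r, Z.H r ≤ h) → P.Adj g f l₀ → P.WReach (P.st₁ f) (P.stb f g l₀) →
  ∃ (E : TW B) (n : ℕ), EWr Z f g l₀ E n ∧ n ≤ (NW S R + 2) * (Z.e + h)

/-- REAL A: a flip in the gauge `n a = 0` gives two versions of a flat window. -/
def RealAS : Prop := ∀ (S R : Type) [Fintype S] [DecidableEq S] [Fintype R] (P : Puz S R) (Q : Type) [Group Q]
  [DecidableEq Q] (B : Lb.{0, v} Q) (a : B.L) (Z : Real P B a) (F : Type) [CommRing F] (V : Vd B F) (cu ca : R → F)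
  (θ : R → S → F) (d : Q → Bool) (f g : R) (l₀ : S) (h : ℕ) (E : TW B) (n₀ : ℕ),
  (∀ x : Q, x * B.q a ^ Z.e = B.q a ^ Z.e * x) →
  (∀ r, Z.H r ≤ h) → P.Adj g f l₀ → (∀ s s' : Puz.St S R (P.TokOf f), P.WReach s s' → P.WReach s' s) →
  Vols Z V cu ca θ → V.n a = 0 → (∀ r, ca r = cu (P.tau r)) → (∀ x, d (x * B.q a) = d x) →
  d (Z.g (P.oth f l₀)) = !d (Z.g l₀) → d (Z.g (P.oth g l₀)) = !d (Z.g l₀) →
  EWr Z f g l₀ E n₀ → P.Flip cu θ (fun s => sgn (d (Z.g s))) f g l₀ →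
  ∃ (X X' : TW B) (n : ℕ), Ver a X X' n (Z.vt (P.oth g l₀) (Z.lev f)) ∧ EWr Z f g l₀ X n ∧ X.cap = E.cap ∧
    n ≤ n₀ + (2 * NW S R + 4) * (Z.e + h) ∧ dvol V d X X' ≠ 0

/-- REAL B: the case `chi a = 1`. -/
def RealBS : Prop := ∀ (S R : Type) [Fintype S] [DecidableEq S] [Fintype R] (P : Puz S R) (Q : Type) [Group Q]
  [DecidableEq Q] (B : Lb.{0, v} Q) (a : B.L) (Z : Real P B a) (F : Type) [Field F] (V : Vd B F) (cu ca : R → F)
  (θ : R → S → F) (d : Q → Bool) (f g : R) (l₀ : S) (h : ℕ) (E : TW B) (n₀ : ℕ),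
  (∀ x : Q, x * B.q a ^ Z.e = B.q a ^ Z.e * x) →
  (∀ r, Z.H r ≤ h) → P.Adj g f l₀ → (∀ s s' : Puz.St S R (P.TokOf f), P.WReach s s' → P.WReach s' s) →
  Vols Z V cu ca θ → V.chi (B.q a) = 1 → V.n a ≠ 0 → (Z.e : F) ≠ 0 → (∀ x, d (x * B.q a) = d x) →
  d (Z.g (P.oth f l₀)) = !d (Z.g l₀) → d (Z.g (P.oth g l₀)) = !d (Z.g l₀) →
  EWr Z f g l₀ E n₀ → P.FlipG (fun s => V.chi (Z.g s)) (fun s => sgn (d (Z.g s))) f →
  ∃ (X X' : TW B) (n : ℕ), Ver a X X' n (Z.vt (P.oth g l₀) (Z.lev f)) ∧ EWr Z f g l₀ X n ∧ X.cap = E.cap ∧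
    n ≤ n₀ + (2 * NW S R + 4) * (Z.e + h) ∧ dvol V d X X' ≠ 0

section gauge

variable {Q : Type} [Group Q] {B : Lb.{0, v} Q} {F : Type} [CommRing F]

/-- Change of the gauge. -/
def _root_.Pool.Agent.Lib.MP_688fd0_co.OSF.Vd.gauge (V : Vd B F) (c : F) : Vd B F where
  chi := V.chi
  n := fun g => V.n g - c * (V.chi (B.q g) - 1)
  n_inv := fun g => by
    have h : V.chi (B.q g)⁻¹ * V.chi (B.q g) = 1 := by rw [← map_mul, inv_mul_cancel, map_one]
    rw [V.n_inv, B.q_inv]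
    linear_combination (-c) * h

theorem gauge_vol (V : Vd B F) (c : F) (x : Q) (l : List B.L) :
    (V.gauge c).vol x l = V.vol x l - c * (V.chi (B.fin x l) - V.chi x) := by
  induction l generalizing x with
  | nil => show (0 : F) = 0 - c * (V.chi x - V.chi x); ring
  | cons g l ih =>
    show V.chi x * (V.n g - c * (V.chi (B.q g) - 1)) + (V.gauge c).vol (x * B.q g) l =
      V.chi x * V.n g + V.vol (x * B.q g) l - c * (V.chi (B.fin (x * B.q g) l) - V.chi x)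
    rw [ih, map_mul]; ring

/-- Versions with the same ends have the same difference in all gauges. -/
theorem gauge_dvol [DecidableEq Q] (V : Vd B F) (c : F) (d : Q → Bool) {a : B.L} {X X' : TW B} {n : ℕ} {xs : Q}
    (h : Ver a X X' n xs) : dvol (V.gauge c) d X X' = dvol V d X X' := by
  unfold dvol
  refine Finset.sum_congr rfl fun x hx => ?_
  have h1 := TW.mem_tok₀.1 hx
  have hx' : x ∈ X'.tok₀ := by rw [h.tok₀]; exact hx
  have h2 := TW.mem_tok₀.1 hx'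
  rw [gauge_vol, gauge_vol, X.path_fin x h1.1 h1.2.1 h1.2.2, X'.path_fin x h2.1 h2.2.1 h2.2.2, h.fin hx]
  ring

end gauge

end Pool.Agent.Lib.MP_688fd0_co.SQ2
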