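import Pool.Agent.Lib.MP_688fd0_co.SQ2.V.FlipDefs

/-!
SHORT: reachable states can be reached by short walks; if two walks with the same ends have different costs, two short
ones have.
-/

set_option autoImplicit false

namespace Pool.Agent.Lib.MP_688fd0_co.SQ2.V

open Puz

theorem card_St (S R Tok : Type) [Fintype S] [Fintype R] [Fintype Tok] :
    Nat.card (St S R Tok) = Nat.card R * Nat.card S ^ Nat.card Tok := by
  rw [Nat.card_prod, Nat.card_fun]

/-- Shortening of walks. -/
theorem short_walk {S R Tok : Type} [Fintype S] [DecidableEq S] [Fintype R] [Fintype Tok] (P : Puz S R)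
    (s s' : St S R Tok) : ∀ (n : ℕ) (l : List (R × S)), l.length = n → P.Ok s l → P.go s l = s' →
    ∃ l' : List (R × S), l'.length ≤ Nat.card (St S R Tok) ∧ P.Ok s l' ∧ P.go s l' = s' := by
  intro n
  induction n using Nat.strong_induction_on with
  | _ n ih =>
  intro l hl hok hgo
  rcases Nat.lt_or_ge (Nat.card (St S R Tok)) n with hn | hn
  · have hfin : Finite (St S R Tok) := inferInstanceAs (Finite (R × (Tok → S)))
    have hninj : ¬ Function.Injective (fun i : Fin (n + 1) => P.go s (l.take i)) := by
      intro h
      have := Nat.card_le_card_of_injective _ h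
      rw [Nat.card_fin] at this
      omega
    rw [Function.Injective] at hninj
    push Not at hninj
    obtain ⟨i, j, hij, hne⟩ := hninj
    have key : ∀ i j : ℕ, i < j → j ≤ n → P.go s (l.take i) = P.go s (l.take j) →
        ∃ l' : List (R × S), l'.length ≤ Nat.card (St S R Tok) ∧ P.Ok s l' ∧ P.go s l' = s' := by
      intro i j hlt hjn he
      have h1 : P.Ok s (l.take i) := by
        have : P.Ok s (l.take i ++ l.drop i) := by rw [List.take_append_drop]; exact hok
        exact (ok_append.1 this).1
      have h2 : P.Ok (P.go s (l.take j)) (l.drop j) := by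
        have : P.Ok s (l.take j ++ l.drop j) := by rw [List.take_append_drop]; exact hok
        exact (ok_append.1 this).2
      have h3 : P.go (P.go s (l.take j)) (l.drop j) = s' := by
        rw [← go_append, List.take_append_drop]; exact hgo
      refine ih (i + (n - j)) (by omega) (l.take i ++ l.drop j) ?_ ?_ ?_
      · rw [List.length_append, List.length_take, List.length_drop, hl]
        omega
      · exact ok_append.2 ⟨h1, by rw [he]; exact h2⟩
      · rw [go_append, he]; exact h3
    have hne' : (i : ℕ) ≠ j := fun h => hne (Fin.ext h)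
    rcases lt_or_gt_of_ne hne' with h | h
    · exact key i j h (by omega) hij
    · exact key j i h (by omega) hij.symm
  · exact ⟨l, by omega, hok, hgo⟩

theorem shortR : ShortRS := by
  intro S R Tok _ _ _ _ P s s' h
  obtain ⟨l, h1, h2⟩ := h
  obtain ⟨l', h3, h4, h5⟩ := short_walk P s s' l.length l rfl h1 h2
  exact ⟨l', by rw [← card_St]; exact h3, h4, h5⟩

theorem short : ShortS := by
  intro S R Tok F _ _ _ _ _ P V θ d s s' hsym hex
  set N := Nat.card R * Nat.card S ^ Nat.card Tok with hN
  by_contra hcon
  push Not at hcon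
  have heq : ∀ l l' : List (R × S), P.Ok s l → P.go s l = s' → P.Ok s l' → P.go s l' = s' →
      l.length ≤ 2 * N + 1 → l'.length ≤ 2 * N + 1 → P.wcost V θ d s l = P.wcost V θ d s l' := by
    intro l l' h1 h2 h3 h4 h5 h6
    by_contra hne
    have := hcon l l' h1 h2 h3 h4 hne h5
    omega
  obtain ⟨w, w', hw1, hw2, hw1', hw2', hne⟩ := hex
  have hss' : P.WReach s s' := ⟨w, hw1, hw2⟩
  -- short walks from `s`
  have hA : ∀ t : St S R Tok, P.WReach s t → P.WReachN N s t := fun t ht => shortR S R Tok P s t ht
  have hB : ∀ t : St S R Tok, P.WReach s t → P.WReachN N t s' :=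
    fun t ht => shortR S R Tok P t s' ((hsym s t ht).trans hss')
  choose a ha1 ha2 ha3 using hA
  choose b hb1 hb2 hb3 using hB
  -- the potential
  have hpot : ∀ (t : St S R Tok) (ht : P.WReach s t) (r' : R) (v : S) (hadj : P.Adj t.1 r' v)
      (ht' : P.WReach s (P.step r' v t)),
      P.wcost V θ d s (a t ht) + P.scost V θ d t r' v = P.wcost V θ d s (a _ ht') := by
    intro t ht r' v hadj ht'
    set t' := P.step r' v t with ht'def
    have e1 : P.Ok s (a t ht ++ ([(r', v)] ++ b t' ht')) := by
      refine ok_append.2 ⟨ha2 t ht, ?_⟩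
      rw [ha3 t ht]
      exact ok_append.2 ⟨⟨hadj, trivial⟩, hb2 t' ht'⟩
    have e2 : P.go s (a t ht ++ ([(r', v)] ++ b t' ht')) = s' := by
      rw [go_append, ha3 t ht, go_append]
      exact hb3 t' ht'
    have e3 : P.Ok s (a t' ht' ++ b t' ht') := by
      refine ok_append.2 ⟨ha2 t' ht', ?_⟩
      rw [ha3 t' ht']
      exact hb2 t' ht'
    have e4 : P.go s (a t' ht' ++ b t' ht') = s' := by
      rw [go_append, ha3 t' ht']
      exact hb3 t' ht'
    have e5 := heq _ _ e1 e2 e3 e4
      (by
        have h1 := ha1 t ht
        have h2 := hb1 t' ht'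
        rw [List.length_append, List.length_append, List.length_singleton]
        omega)
      (by
        have h1 := ha1 t' ht'
        have h2 := hb1 t' ht'
        rw [List.length_append]
        omega)
    rw [wcost_append, wcost_append, wcost_append, ha3 t ht, ha3 t' ht'] at e5
    have e6 : P.go t [(r', v)] = t' := rfl
    have e7 : P.wcost V θ d t [(r', v)] = P.scost V θ d t r' v := by simp [wcost]
    rw [e6, e7, ← add_assoc] at e5
    exact add_right_cancel e5
  -- telescoping
  have htel : ∀ (l : List (R × S)) (t : St S R Tok) (ht : P.WReach s t) (ht' : P.WReach s (P.go t l)),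
      P.Ok t l → P.wcost V θ d s (a t ht) + P.wcost V θ d t l = P.wcost V θ d s (a _ ht') := by
    intro l
    induction l with
    | nil =>
      intro t ht ht' _
      simp [wcost, go]
    | cons p l ih =>
      intro t ht ht' hok
      have hstep : P.WReach s (P.step p.1 p.2 t) := ht.trans (WReach.step hok.1)
      have h1 := hpot t ht p.1 p.2 hok.1 hstep
      have h2 := ih (P.step p.1 p.2 t) hstep ht' hok.2
      show P.wcost V θ d s (a t ht) + (P.scost V θ d t p.1 p.2 + P.wcost V θ d (P.step p.1 p.2 t) l) = _
      rw [← add_assoc, h1]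
      exact h2
  apply hne
  have hr := WReach.refl (P := P) s
  have t1 := htel w s hr (by rw [hw2]; exact hss') hw1
  have t2 := htel w' s hr (by rw [hw2']; exact hss') hw1'
  have e : ∀ (u : St S R Tok) (hu : u = s') (h : P.WReach s u) (h' : P.WReach s s'),
      P.wcost V θ d s (a u h) = P.wcost V θ d s (a s' h') := by
    intro u hu h h'
    subst hu
    rfl
  rw [e _ hw2 _ hss'] at t1
  rw [e _ hw2' _ hss'] at t2
  exact add_left_cancel (t1.trans t2.symm)

end Pool.Agent.Lib.MP_688fd0_co.SQ2.V
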