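import Pool.Agent.Lib.MP_688fd0_co.SQ2.Words4
import Pool.Agent.Lib.MP_688fd0_co.SQ2.V.RealDefs
import Pool.Agent.Lib.MP_688fd0_co.SQ2.V.Short

/-!
REAL0, REAL A, REAL B: from flips in the big puzzle to versions of flat windows.
-/

set_option autoImplicit false

namespace Pool.Agent.Lib.MP_688fd0_co.SQ2

open Pool.Agent.Lib.MP_688fd0_co.OSF
open V (Puz short shortR)
open V.Puz (St)

universe u v w

section comp

variable {Q : Type u} [Group Q] [DecidableEq Q] {B : Lb.{u, v} Q} {a : B.L}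

/-- Two versions, followed by the same flat window. -/
theorem Ver.comp_right {X X' Y : TW B} {n m : ℕ} {xs : Q} (h : Ver a X X' n xs) (hY : Flat a Y m xs)
    (hL : Y.L₀ = X.L₀) (h0 : Y.u₀ = X.u₀) (h1 : Y.u₁ = X.u₁) (hz : ∀ x, x * B.q a ^ n = B.q a ^ n * x) :
    ∃ W W' : TW B, Ver a W W' (n + m) xs ∧ W.L₀ = X.L₀ ∧ W.u₀ = X.u₀ ∧ W.u₁ = X.u₁ ∧ W.cup = X.cup ∧
      W.cap = Y.cap ∧ ∀ {F : Type w} [CommRing F] (V : Vd B F) (c : Q → Bool), dvol V c W W' = dvol V c X X' := by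
  obtain ⟨W, w1, w2, w3, w4, w5, w6, w7, w8⟩ := block2 h.flat hY hL h0 h1 hz
  obtain ⟨W', w1', w2', w3', w4', w5', w6', w7', w8'⟩ := block2 h.flat' hY (hL.trans h.L₀.symm)
    (h0.trans h.u₀.symm) (h1.trans h.u₁.symm) hz
  refine ⟨W, W', ⟨w1, w1', by rw [w2', h.L₀, w2], by rw [w3', h.u₀, w3], by rw [w4', h.u₁, w4],
    by rw [w5', h.cup, w5], by rw [w6', w6]⟩, w2, w3, w4, w5, w6, ?_⟩
  intro F _ V c
  have htok : W.tok₀ = X.tok₀ := by ext x; rw [TW.mem_tok₀, TW.mem_tok₀, w2, w3, w4]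
  unfold dvol
  rw [htok]
  refine Finset.sum_congr rfl fun x hx => ?_
  have hx' : x ∈ X'.tok₀ := by rw [h.tok₀]; exact hx
  have hm := TW.mem_tok₀.1 hx
  have hm' := TW.mem_tok₀.1 hx'
  congr 1
  by_cases hxs : x = xs
  · subst hxs
    rw [w8, w8', vol_append V x (X'.path x), vol_append V x (X.path x), X.path_fin x hm.1 hm.2.1 hm.2.2,
      X'.path_fin x hm'.1 hm'.2.1 hm'.2.2, h.fin hx, h.cap]
    ring
  · rw [w7 x hx hxs, w7' x hx' hxs, vol_append, vol_append, X.path_fin x hm.1 hm.2.1 hm.2.2,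
      X'.path_fin x hm'.1 hm'.2.1 hm'.2.2, h.fin hx]
    ring

end comp

section

variable {S R : Type} [Fintype S] [DecidableEq S] {P : Puz S R}

theorem card_tok (P : Puz S R) (f : R) : Nat.card R * Nat.card S ^ Nat.card (P.TokOf f) ≤
    Nat.card R * Nat.card S ^ Nat.card S := by
  have h1 : 0 < Nat.card S := by
    haveI : Nonempty S := ⟨P.x f⟩
    exact Nat.card_pos
  refine Nat.mul_le_mul_left _ (Nat.pow_le_pow_right h1 ?_)
  exact Nat.card_le_card_of_injective _ (Subtype.val_injective (p := fun s => ¬ P.On f s))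

end

namespace Real

variable {S R : Type} [Fintype S] [DecidableEq S] {P : Puz S R} {Q : Type} [Group Q] [DecidableEq Q]
  {B : Lb.{0, v} Q} {a : B.L} (Z : Real P B a)

/-- The last level of the window. -/
def lastT (f : R) (K : ℕ) : ℕ := Z.lev f + Z.e * (K / Z.e + 1)

theorem lastT_dvd (f : R) (K : ℕ) : Z.e ∣ Z.lastT f K - Z.lev f := by
  unfold lastT
  rw [Nat.add_sub_cancel_left]
  exact Dvd.intro _ rfl

theorem le_lastT (f : R) (K : ℕ) : Z.lev f + K < Z.lastT f K := by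
  unfold lastT
  have h1 := Nat.div_add_mod K Z.e
  have h2 := Nat.mod_lt K Z.he
  rw [mul_add, mul_one]
  omega

theorem lastT_le (f : R) (K : ℕ) : Z.lastT f K - Z.lev f ≤ K + Z.e := by
  unfold lastT
  rw [Nat.add_sub_cancel_left, mul_add, mul_one]
  have h1 := Nat.mul_div_le K Z.e
  omega

variable {Z}

theorem cen_pow (hz : ∀ x : Q, x * B.q a ^ Z.e = B.q a ^ Z.e * x) {n : ℕ} (hn : Z.e ∣ n) (x : Q) :
    x * B.q a ^ n = B.q a ^ n * x := by
  obtain ⟨k, rfl⟩ := hn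
  rw [pow_mul]
  exact (show Commute x (B.q a ^ Z.e) from hz x).pow_right k

/-- The data of the windows of one tree path. -/
def mkW {f g : R} {l₀ : S} {h : ℕ} (hH : ∀ r, Z.H r ≤ h) (hadj : P.Adj g f l₀) (m : List (R × S))
    (ok : P.Ok (P.st₁ f) m) (go : P.go (P.st₁ f) m = P.stb f g l₀) (K : ℕ) : WData Z where
  f := f
  g := g
  v := l₀
  t₀ := Z.lev f
  m := m
  tC := Z.lev f + Z.H f + K
  T := Z.lastT f (Z.H f + K + (m.length + 1) * (Z.e + h))
  adj := hadj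
  ht₀ := Nat.mod_eq_of_lt (Z.lev_lt f)
  ok := ok
  go := go
  hC := Nat.le_add_right _ _
  hT := by
    refine le_trans (endT_timed hH _ _) ?_
    have := Z.le_lastT f (Z.H f + K + (m.length + 1) * (Z.e + h))
    rw [List.length_cons]
    omega
  h0 := by
    have := Z.le_lastT f (Z.H f + K + (m.length + 1) * (Z.e + h))
    omega

theorem cupF_eq {f : R} {l₀ : S} (hv : P.On f l₀) (t : ℕ) :
    cupF Z f l₀ t = if l₀ = P.y f then (Z.gad f t).cup else B.rev (Z.gad f t).cup := by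
  unfold cupF
  by_cases h : l₀ = P.x f
  · rw [if_pos h, if_neg (by rw [h]; exact P.ne f)]
  · rcases hv with h1 | h1
    · exact absurd h1 h
    · rw [if_neg h, if_pos h1]

theorem Is.ew {W : WData Z} {X : TW B} (hX : W.Is X) (h0 : W.t₀ = Z.lev W.f) (hd : Z.e ∣ W.T - W.t₀) :
    EWr Z W.f W.g W.v X (W.T - W.t₀) := by
  refine ⟨?_, ?_, ?_, ?_, hd, ?_⟩
  · rw [← h0]; exact hX.flat
  · rw [← h0]; exact hX.L₀
  · rw [← h0]; exact hX.u₀
  · rw [← h0]; exact hX.u₁
  · rw [hX.cup, cupF_eq W.adj.2.1, h0]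

end Real

open Real

/-- REAL0. -/
theorem real0 : Real0S.{v} := by
  intro S R _ _ _ P Q _ _ B a Z f g l₀ h hz hH hadj hr
  obtain ⟨m, hm, ok, go⟩ := shortR S R (P.TokOf f) P _ _ hr
  have hcard := card_tok P f
  obtain ⟨X, x1, x2, x3, x4, -, x6, -⟩ := flat.{0, v, 0} (Z := Z) f g l₀ hadj (t₀ := Z.lev f)
    (Nat.mod_eq_of_lt (Z.lev_lt f))
    (Z.timed (Z.lev f + Z.H f) m) (val_timed m _ (P.st₁ f) ok) (by rw [runT_timed]; exact go)
    (T := Z.lastT f (Z.H f + m.length * (Z.e + h))) (by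
      refine le_trans (endT_timed hH _ _) ?_
      have := Z.le_lastT f (Z.H f + m.length * (Z.e + h))
      omega) (by
      have := Z.le_lastT f (Z.H f + m.length * (Z.e + h))
      omega)
  refine ⟨X, _, ⟨x6, x1, x2, x3, Z.lastT_dvd _ _, by rw [x4, cupF_eq hadj.2.1]⟩, ?_⟩
  refine le_trans (Z.lastT_le _ _) ?_
  have h1 := hH f
  have h2 : m.length ≤ NW S R := by unfold NW; omega
  have h3 := Nat.mul_le_mul_right (Z.e + h) h2
  rw [Nat.add_mul]
  omega

/-- Costs of words when waiting is free. -/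
theorem wcs_eq {S R : Type} [Fintype S] [DecidableEq S] {P : Puz S R} {Q : Type} [Group Q] [DecidableEq Q]
    {B : Lb.{0, v} Q} {a : B.L} {Z : Real P B a} {F : Type} [CommRing F] {V : Vd B F} (D : Z.VD V)
    {Tok : Type} [Fintype Tok] (d : Tok → F) (hgg : ∀ t, D.gg t = 0) (hca : ∀ r, D.ca r = D.cu (P.tau r))
    (l : List (TL S R)) : ∀ (c : F) (t₀ : ℕ) (s : St S R Tok), c = D.cu s.1 →
      wcs D d c t₀ s l = P.wcost D.cu D.th d s (untime l) := by
  induction l with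
  | nil => intro c t₀ s _; rfl
  | cons x l ih =>
    intro c t₀ s hc
    show wc D d c t₀ s x + wcs D d (D.ca x.r) _ (P.step x.r x.v s) l =
      P.scost D.cu D.th d s x.r x.v + P.wcost D.cu D.th d (P.step x.r x.v s) (untime l)
    rw [ih _ _ (P.step x.r x.v s) (hca x.r)]
    congr 1
    unfold wc Puz.scost
    refine Finset.sum_congr rfl fun i _ => ?_
    congr 1
    unfold tc Puz.volr
    rw [hgg, hgg, hc]
    by_cases h : s.2 i = P.oth x.r x.v
    · rw [if_pos h, if_pos h]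
      by_cases h1 : x.v = P.x x.r
      · by_cases h2 : x.v = P.x s.1
        · rw [if_pos h1, if_pos h2, if_pos h1, if_pos h2]; ring
        · rw [if_pos h1, if_neg h2, if_pos h1, if_neg h2]; ring
      · by_cases h2 : x.v = P.x s.1
        · rw [if_neg h1, if_pos h2, if_neg h1, if_pos h2]; ring
        · rw [if_neg h1, if_neg h2, if_neg h1, if_neg h2]; ring
    · rw [if_neg h, if_neg h]; ring

/-- The drifts are zero in the gauge `n a = 0`. -/
def vdA {S R : Type} [Fintype S] [DecidableEq S] {P : Puz S R} {Q : Type} [Group Q] [DecidableEq Q]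
    {B : Lb.{0, v} Q} {a : B.L} {Z : Real P B a} {F : Type} [CommRing F] {V : Vd B F} {cu ca : R → F}
    {θ : R → S → F} (hv : Vols Z V cu ca θ) (hn : V.n a = 0) : Z.VD V where
  gg := fun _ => 0
  om := fun _ => 0
  cu := cu
  ca := ca
  th := θ
  h_om := fun s t k => by rw [vol_zero V a hn, mul_zero]
  h_cu := hv.cup
  h_ca := hv.cap
  h_th := fun r t s ht hs => hv.path r t ht s hs

/-- The drifts for `chi a = 1`. -/
def vdB {S R : Type} [Fintype S] [DecidableEq S] {P : Puz S R} {Q : Type} [Group Q] [DecidableEq Q]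
    {B : Lb.{0, v} Q} {a : B.L} {Z : Real P B a} {F : Type} [CommRing F] {V : Vd B F} {cu ca : R → F}
    {θ : R → S → F} (hv : Vols Z V cu ca θ) (hchi : V.chi (B.q a) = 1) : Z.VD V where
  gg := fun t => t * V.n a
  om := fun s => V.chi (Z.g s)
  cu := cu
  ca := ca
  th := θ
  h_om := fun s t k => by
    have h1 : ∀ x, V.vol x (List.replicate k a) = k * (V.n a * V.chi x) := by
      induction k with
      | zero => intro x; show (0 : F) = _; rw [Nat.cast_zero, zero_mul]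
      | succ k ih =>
        intro x
        rw [List.replicate_succ]
        show V.chi x * V.n a + V.vol (x * B.q a) (List.replicate k a) = _
        rw [ih, map_mul, hchi, mul_one, Nat.cast_succ]; ring
    rw [h1]
    unfold vt
    rw [map_mul, map_pow, hchi, one_pow, mul_one, Nat.cast_add]; ring
  h_cu := hv.cup
  h_ca := hv.cap
  h_th := fun r t s ht hs => hv.path r t ht s hs

theorem d_pow {Q : Type} [Group Q] {B : Lb.{0, v} Q} {a : B.L} {d : Q → Bool} (hd : ∀ x, d (x * B.q a) = d x)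
    (x : Q) (t : ℕ) : d (x * B.q a ^ t) = d x := by
  induction t with
  | zero => rw [pow_zero, mul_one]
  | succ t ih => rw [pow_succ, ← mul_assoc, hd, ih]

theorem mkW_T_le {S R : Type} [Fintype S] [DecidableEq S] {P : Puz S R} {Q : Type} [Group Q] [DecidableEq Q]
    {B : Lb.{0, v} Q} {a : B.L} {Z : Real P B a} {f g : R} {l₀ : S} {h : ℕ} (hH : ∀ r, Z.H r ≤ h)
    (hadj : P.Adj g f l₀) (m : List (R × S)) (ok : P.Ok (P.st₁ f) m) (go : P.go (P.st₁ f) m = P.stb f g l₀) (K : ℕ) :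
    (mkW hH hadj m ok go K).T - (mkW hH hadj m ok go K).t₀ ≤ K + (m.length + 2) * (Z.e + h) := by
  refine le_trans (Z.lastT_le _ _) ?_
  have h1 := hH f
  have h2 : (m.length + 2) * (Z.e + h) = (m.length + 1) * (Z.e + h) + (Z.e + h) := by ring
  rw [h2]
  omega

/-- REAL A. -/
theorem realA : RealAS.{v} := by
  intro S R _ _ _ P Q _ _ B a Z F _ V cu ca θ d f g l₀ h E n₀ hz hH hadj hsym hv hn hca hd hd₁ hd₂ hE hflip
  have hcard := card_tok P f
  obtain ⟨l, l', ok, go, ok', go', hne, hl, hl'⟩ := short S R (P.TokOf f) F P cu θ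
    (fun t : P.TokOf f => sgn (d (Z.g t))) (P.st₁ f) (P.stb f g l₀) hsym (by
      obtain ⟨l, l', h1, h2, h3, h4, h5⟩ := hflip
      exact ⟨l, l', h1, h2, h3, h4, h5⟩)
  obtain ⟨m, hm, okm, gom⟩ := shortR S R (P.TokOf f) P (P.st₁ f) (P.stb f g l₀) ⟨l, ok, go⟩
  set N := Nat.card R * Nat.card S ^ Nat.card (P.TokOf f) with hN
  set K := (2 * N + 1) * (Z.e + h) with hK
  let W : WData Z := mkW hH hadj m okm gom K
  have hb : ∀ l : List (R × S), l.length ≤ 2 * N + 1 → Z.endT W.t₁ (Z.timed W.t₁ l) ≤ W.tC := by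
    intro l hl
    refine le_trans (endT_timed hH _ _) ?_
    have := Nat.mul_le_mul_right (Z.e + h) hl
    show Z.lev f + Z.H f + _ ≤ Z.lev f + Z.H f + K
    omega
  obtain ⟨X, X', hX, hver, hdv⟩ := W.two.{0, v, 0} (Z.timed W.t₁ l) (Z.timed W.t₁ l')
    (val_timed l W.t₁ (P.st₁ f) ok) (by rw [runT_timed]; exact go) (hb l hl)
    (val_timed l' W.t₁ (P.st₁ f) ok') (by rw [runT_timed]; exact go') (hb l' hl')
  have hEW : EWr Z f g l₀ X (W.T - W.t₀) := Is.ew (W := W) hX rfl (Z.lastT_dvd _ _)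
  obtain ⟨Y, Y', y1, y2, y3, y4, y5, y6, y7⟩ := hver.comp_right (m := n₀) (Y := E) hE.flat
    (by rw [hE.L₀, hEW.L₀]) (by rw [hE.u₀, hEW.u₀]) (by rw [hE.u₁, hEW.u₁]) (cen_pow hz hEW.dvd)
  refine ⟨Y, Y', W.T - W.t₀ + n₀, y1, ⟨y1.flat, by rw [y2, hEW.L₀], by rw [y3, hEW.u₀], by rw [y4, hEW.u₁],
    Nat.dvd_add hEW.dvd hE.dvd, by rw [y5, hEW.cup]⟩, y6, ?_, ?_⟩
  · have h1 := mkW_T_le hH hadj m okm gom K
    have h2 : K + (m.length + 2) * (Z.e + h) ≤ (2 * NW S R + 4) * (Z.e + h) := by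
      rw [hK, ← Nat.add_mul]
      refine Nat.mul_le_mul_right _ ?_
      unfold NW
      omega
    have h3 : W.T - W.t₀ ≤ (2 * NW S R + 4) * (Z.e + h) := le_trans h1 h2
    omega
  · rw [y7 V d, hdv V (vdA hv hn) d (fun s => sgn (d (Z.g s))) (fun s => by
      unfold vt
      rw [d_pow hd]
      rfl)]
    have e1 : ∀ w, wcs (vdA hv hn) (fun i : P.TokOf f => sgn (d (Z.g i.1))) (ca f) W.t₁ (P.st₁ f) (Z.timed W.t₁ w) =
        P.wcost cu θ (fun t : P.TokOf f => sgn (d (Z.g t))) (P.st₁ f) w := by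
      intro w
      have := wcs_eq (vdA hv hn) (fun i : P.TokOf f => sgn (d (Z.g i.1))) (fun _ => rfl) hca (Z.timed W.t₁ w) (ca f)
        W.t₁ (P.st₁ f) (hca f)
      rw [untime_timed] at this
      exact this
    intro h0
    apply hne
    have e2 := e1 l
    have e3 := e1 l'
    have h0' : wcs (vdA hv hn) (fun i : P.TokOf f => sgn (d (Z.g i.1))) (ca f) W.t₁ (P.st₁ f) (Z.timed W.t₁ l') -
        wcs (vdA hv hn) (fun i : P.TokOf f => sgn (d (Z.g i.1))) (ca f) W.t₁ (P.st₁ f) (Z.timed W.t₁ l) -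
        ((0 : F) - 0) * Gam (vdA hv hn) (fun i : P.TokOf f => sgn (d (Z.g i.1))) (P.stb f g l₀) f l₀ = 0 := h0
    rw [e2, e3] at h0'
    linear_combination -h0'

/-- Waiting at the cap `g`. -/
theorem gam_stb {S R : Type} [Fintype S] [DecidableEq S] {P : Puz S R} {F : Type} [CommRing F] (χ d : S → F)
    {f g : R} {l₀ : S} (hadj : P.Adj g f l₀) (h₁ : d (P.oth f l₀) = - d l₀) (h₂ : d (P.oth g l₀) = - d l₀) :
    ∑ i : P.TokOf f, d i.1 * (χ ((P.stb f g l₀).2 i) +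
      if (P.stb f g l₀).2 i = P.oth f l₀ then χ (P.oth g l₀) - χ l₀ else 0) = ∑ s, d s * χ s := by
  classical
  have hne1 : P.oth f l₀ ≠ l₀ := Puz.oth_ne hadj.2.1
  have hon : ¬ P.On f (P.oth g l₀) := hadj.not_on
  have e1 : ∀ i : P.TokOf f, d i.1 * (χ ((P.stb f g l₀).2 i) +
      if (P.stb f g l₀).2 i = P.oth f l₀ then χ (P.oth g l₀) - χ l₀ else 0) =
      d i.1 * χ i.1 + if i.1 = P.oth g l₀ then d i.1 * (χ (P.oth f l₀) - χ l₀) else 0 := by
    intro i
    show d i.1 * (χ (if i.1 = P.oth g l₀ then P.oth f l₀ else i.1) +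
      if (if i.1 = P.oth g l₀ then P.oth f l₀ else i.1) = P.oth f l₀ then χ (P.oth g l₀) - χ l₀ else 0) = _
    by_cases h : i.1 = P.oth g l₀
    · rw [if_pos h, if_pos h, if_pos rfl, h]; ring
    · rw [if_neg h, if_neg h, if_neg (fun h' => i.2 (by rw [h']; exact Puz.on_oth f l₀))]; ring
  rw [Finset.sum_congr rfl fun i _ => e1 i, Finset.sum_add_distrib]
  have e2 : ∑ s, d s * χ s = ∑ i : P.TokOf f, d i.1 * χ i.1 + (d l₀ * χ l₀ + d (P.oth f l₀) * χ (P.oth f l₀)) := by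
    have h1 := Finset.sum_filter_add_sum_filter_not Finset.univ (fun s => ¬ P.On f s) fun s => d s * χ s
    rw [← h1]
    congr 1
    · rw [← Finset.sum_subtype_eq_sum_filter]
      refine Finset.sum_congr ?_ fun _ _ => rfl
      ext x; simp
    · have h2 : (Finset.univ.filter fun s => ¬ ¬ P.On f s) = {l₀, P.oth f l₀} := by
        ext s
        rw [Finset.mem_filter, not_not, Puz.on_iff hadj.2.1]
        simp
      rw [h2, Finset.sum_pair hne1.symm]
  have e3 : ∑ i : P.TokOf f, (if i.1 = P.oth g l₀ then d i.1 * (χ (P.oth f l₀) - χ l₀) else 0) =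
      d (P.oth g l₀) * (χ (P.oth f l₀) - χ l₀) := by
    rw [Finset.sum_eq_single_of_mem (⟨P.oth g l₀, hon⟩ : P.TokOf f) (Finset.mem_univ _)]
    · rw [if_pos rfl]
    · intro j _ hj
      rw [if_neg (fun h => hj (Subtype.ext h))]
  rw [e3, e2, h₁, h₂]
  ring

/-- REAL B. -/
theorem realB : RealBS.{v} := by
  intro S R _ _ _ P Q _ _ B a Z F _ V cu ca θ d f g l₀ h E n₀ hz hH hadj hsym hv hchi hn he hd hd₁ hd₂ hE hflip
  have hcard := card_tok P f
  obtain ⟨s, r', v, hr, hadj', hgam⟩ := hflip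
  obtain ⟨w₁, hw₁, ok₁, go₁⟩ := shortR S R (P.TokOf f) P _ _ hr
  have hr2 : P.WReach (P.step r' v s) (P.stb f g l₀) := by
    have h1 : P.WReach (P.st₁ f) (P.step r' v s) := hr.trans (Puz.WReach.step hadj')
    have h2 : P.WReach (P.stb f g l₀) (P.st₁ f) := by
      have := Puz.WReach.step (P := P) (s := P.stb f g l₀) hadj
      rwa [P.stb_step hadj] at this
    exact (hsym _ _ h1).trans (hsym _ _ h2)
  obtain ⟨w₂, hw₂, ok₂, go₂⟩ := shortR S R (P.TokOf f) P _ _ hr2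
  obtain ⟨m, hm, okm, gom⟩ := shortR S R (P.TokOf f) P (P.st₁ f) (P.stb f g l₀)
    ((hr.trans (Puz.WReach.step hadj')).trans hr2)
  set N := Nat.card R * Nat.card S ^ Nat.card (P.TokOf f) with hN
  set K := (2 * N + 2) * (Z.e + h) with hK
  let W : WData Z := mkW hH hadj m okm gom K
  -- the two words
  set A := Z.timed W.t₁ w₁ with hA
  set tA := Z.endT W.t₁ A with htA
  set x : TL S R := ⟨r', v, Z.nx tA r'⟩ with hx
  set C := Z.timed (x.t + Z.H r') w₂ with hC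
  have hxC : Z.timed tA ((r', v) :: w₂) = x :: C := rfl
  have hrA : runT P A (P.st₁ f) = s := by rw [hA, runT_timed]; exact go₁
  have hvA : Z.Val W.t₁ (P.st₁ f).1 A := val_timed w₁ W.t₁ (P.st₁ f) ok₁
  have hvC : Z.Val tA s.1 (x :: C) := by
    rw [← hxC]
    exact val_timed ((r', v) :: w₂) tA s ⟨hadj', ok₂⟩
  have hrC : runT P (x :: C) s = P.stb f g l₀ := by
    rw [← hxC, runT_timed]; exact go₂
  have hvC' : Z.Val tA s.1 ((x :: C).map (TL.sh Z.e)) := by
    have h1 := val_sh 1 (x :: C) tA s.1 hvC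
    rw [mul_one] at h1
    exact val_le _ (Nat.le_add_right _ _) h1
  have htA' : tA ≤ W.t₁ + N * (Z.e + h) := by
    refine le_trans (endT_timed hH _ _) ?_
    have := Nat.mul_le_mul_right (Z.e + h) hw₁
    omega
  have hend : Z.endT tA (x :: C) ≤ W.t₁ + (2 * N + 1) * (Z.e + h) := by
    rw [← hxC]
    refine le_trans (endT_timed hH _ _) ?_
    have h1 := Nat.mul_le_mul_right (Z.e + h) hw₂
    have h2 : (2 * N + 1) * (Z.e + h) = N * (Z.e + h) + (N * (Z.e + h) + (Z.e + h)) := by ring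
    rw [List.length_cons, Nat.add_mul, one_mul, h2]
    omega
  have hend' : Z.endT tA ((x :: C).map (TL.sh Z.e)) = Z.endT tA (x :: C) + Z.e := endT_sh Z.e tA (x :: C)
  have htC : W.tC = W.t₁ + K := rfl
  have hK2 : K = (2 * N + 1) * (Z.e + h) + (Z.e + h) := by rw [hK]; ring
  obtain ⟨X, X', hX, hver, hdv⟩ := W.two.{0, v, 0} (A ++ x :: C) (A ++ (x :: C).map (TL.sh Z.e))
    (val_append _ _ W.t₁ (P.st₁ f) hvA (by rw [hrA]; exact hvC)) (by rw [runT_append]; exact hrA ▸ hrC)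
    (by rw [endT_append, ← htA]; omega)
    (val_append _ _ W.t₁ (P.st₁ f) hvA (by rw [hrA]; exact hvC')) (by
      rw [runT_append, runT_sh]; exact hrA ▸ hrC)
    (by rw [endT_append, ← htA, hend']; omega)
  have hEW : EWr Z f g l₀ X (W.T - W.t₀) := Is.ew (W := W) hX rfl (Z.lastT_dvd _ _)
  obtain ⟨Y, Y', y1, y2, y3, y4, y5, y6, y7⟩ := hver.comp_right (m := n₀) (Y := E) hE.flat
    (by rw [hE.L₀, hEW.L₀]) (by rw [hE.u₀, hEW.u₀]) (by rw [hE.u₁, hEW.u₁]) (cen_pow hz hEW.dvd)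
  refine ⟨Y, Y', W.T - W.t₀ + n₀, y1, ⟨y1.flat, by rw [y2, hEW.L₀], by rw [y3, hEW.u₀], by rw [y4, hEW.u₁],
    Nat.dvd_add hEW.dvd hE.dvd, by rw [y5, hEW.cup]⟩, y6, ?_, ?_⟩
  · have h1 := mkW_T_le hH hadj m okm gom K
    have h2 : K + (m.length + 2) * (Z.e + h) ≤ (2 * NW S R + 4) * (Z.e + h) := by
      rw [hK, ← Nat.add_mul]
      refine Nat.mul_le_mul_right _ ?_
      unfold NW
      omega
    have h3 : W.T - W.t₀ ≤ (2 * NW S R + 4) * (Z.e + h) := le_trans h1 h2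
    omega
  · set D := vdB hv hchi with hD
    have hG : ∀ t, D.gg (t + Z.e) = D.gg t + Z.e * V.n a := by
      intro t
      show ((t + Z.e : ℕ) : F) * V.n a = (t : F) * V.n a + Z.e * V.n a
      rw [Nat.cast_add]; ring
    have h1 := hdv V D d (fun s => sgn (d (Z.g s))) (fun s => by
      unfold vt
      rw [d_pow hd]
      rfl)
    have h2 : wcs D (fun i : P.TokOf f => (sgn (d (Z.g i.1)) : F)) (D.ca f) W.t₁ (P.st₁ f)
        (A ++ (x :: C).map (TL.sh Z.e)) = wcs D (fun i : P.TokOf f => (sgn (d (Z.g i.1)) : F)) (D.ca f) W.t₁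
        (P.st₁ f) (A ++ x :: C) + Z.e * V.n a * Gam D (fun i : P.TokOf f => (sgn (d (Z.g i.1)) : F)) s r' v := by
      rw [wcs_append, wcs_append, hrA, wcs_wait D _ hG _ _ s x C hadj']
      ring
    have h3 : D.gg (Z.endT W.t₁ (A ++ (x :: C).map (TL.sh Z.e))) - D.gg (Z.endT W.t₁ (A ++ x :: C)) =
        Z.e * V.n a := by
      rw [endT_append, endT_append, ← htA, hend', hG]; ring
    have h4 : Gam D (fun i : P.TokOf f => (sgn (d (Z.g i.1)) : F)) (P.stb f g l₀) f l₀ =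
        ∑ s, sgn (d (Z.g s)) * V.chi (Z.g s) := by
      have hs : ∀ b : Bool, (sgn (!b) : F) = - sgn b := by
        intro b; cases b <;> simp [sgn]
      exact gam_stb (fun s => V.chi (Z.g s)) (fun s => (sgn (d (Z.g s)) : F)) hadj
        (by show sgn (d (Z.g (P.oth f l₀))) = _; rw [hd₁]; exact hs _)
        (by show sgn (d (Z.g (P.oth g l₀))) = _; rw [hd₂]; exact hs _)
    rw [y7 V d, h1]
    have h5 : wcs D (fun i : P.TokOf f => (sgn (d (Z.g i.1)) : F)) (D.ca f) W.t₁ (P.st₁ f)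
        (A ++ (x :: C).map (TL.sh Z.e)) - wcs D (fun i : P.TokOf f => (sgn (d (Z.g i.1)) : F)) (D.ca f) W.t₁
        (P.st₁ f) (A ++ x :: C) - (D.gg (Z.endT W.t₁ (A ++ (x :: C).map (TL.sh Z.e))) -
          D.gg (Z.endT W.t₁ (A ++ x :: C))) * Gam D (fun i : P.TokOf f => (sgn (d (Z.g i.1)) : F))
            (P.stb f g l₀) f l₀ =
        Z.e * V.n a * (P.gam (fun s => V.chi (Z.g s)) (fun t : P.TokOf f => (sgn (d (Z.g t.1)) : F)) s r' v -
          ∑ s, sgn (d (Z.g s)) * V.chi (Z.g s)) := by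
      rw [h2, h3, h4]
      show _ = Z.e * V.n a * (Gam D (fun i : P.TokOf f => (sgn (d (Z.g i.1)) : F)) s r' v - _)
      ring
    show wcs D (fun i : P.TokOf f => (sgn (d (Z.g i.1)) : F)) (D.ca f) W.t₁ (P.st₁ f)
        (A ++ (x :: C).map (TL.sh Z.e)) - wcs D (fun i : P.TokOf f => (sgn (d (Z.g i.1)) : F)) (D.ca f) W.t₁
        (P.st₁ f) (A ++ x :: C) - (D.gg (Z.endT W.t₁ (A ++ (x :: C).map (TL.sh Z.e))) -
          D.gg (Z.endT W.t₁ (A ++ x :: C))) * Gam D (fun i : P.TokOf f => (sgn (d (Z.g i.1)) : F))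
            (P.stb f g l₀) f l₀ ≠ 0
    rw [h5]
    exact mul_ne_zero (mul_ne_zero he hn) (sub_ne_zero.2 hgam)

end Pool.Agent.Lib.MP_688fd0_co.SQ2
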