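import Pool.Agent.Lib.MP_688fd0_co.SQ2.V.Loc
import Pool.Agent.Lib.MP_688fd0_co.SQ2.V.FC1
import Pool.Agent.Lib.MP_688fd0_co.SQ2.V.RealA

/-!
CMA: a commuting label, `chi a ≠ 1`.
-/

set_option autoImplicit false

namespace Pool.Agent.Lib.MP_688fd0_co.SQ2

open Pool.Agent.Lib.MP_688fd0_co.OSF
open V (Puz)

namespace CMA

theorem sgn_or {F : Type} [CommRing F] (b : Bool) : (sgn b : F) = 1 ∨ (sgn b : F) = -1 := by
  cases b
  · right; rfl
  · left; rfl

theorem finSy {Q : Type} [Group Q] {D : Subgroup Q} {A : Q} {F : Finset Q} {e : ℕ} (hF : Frt D A F e) :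
    Finite (Sy hF) := by
  have : NeZero e := ⟨hF.he.ne'⟩
  have : Fintype (Multiplicative (ZMod e)) := inferInstanceAs (Fintype (ZMod e))
  infer_instance

variable {Q : Type} [Group Q] [DecidableEq Q] {B : Lb.{0, 0} Q} {a : B.L} {D : Subgroup Q} {F : Finset Q} {e : ℕ}

theorem Xc_one {hF : Frt D (B.q a) F e} {R : Type} [CommRing R] (V : Vd B R) (hal : V.chi (B.q a) ^ e = 1) (s : F) :
    Xc V (1 : Sy hF) = 1 := by
  have h1 := Xc_eq V hal s (1 : Sy hF) 0 (by rw [Nat.cast_zero]; rfl)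
  rw [← h1, uu_eq (1 : Sy hF) 0 (by rw [Nat.cast_zero]; rfl) s, one_smul, pow_zero, mul_one, mul_inv_cancel, map_one]

theorem Xc_cj (h : FrD D (B.q a) F e) {R : Type} [CommRing R] (V : Vd B R) (hal : V.chi (B.q a) ^ e = 1) (s : F) :
    Xc V (h.cj (s : Q)) = V.chi (B.q a) := by
  have h1 := Xc_eq V hal s (h.cj (s : Q)) 1 (by rw [Nat.cast_one, h.cj_lv])
  have h2 : V.chi (s : Q) * V.chi (s : Q)⁻¹ = 1 := by rw [← map_mul, mul_inv_cancel, map_one]
  rw [← h1, uu_eq (h.cj (s : Q)) 1 (by rw [Nat.cast_one, h.cj_lv]) s, h.cj_self, pow_one, map_mul, map_mul]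
  linear_combination (V.chi (B.q a)) * h2

theorem chi_ne {R : Type} [Field R] (V : Vd B R) (x : Q) : V.chi x ≠ 0 := by
  intro h
  have h2 : V.chi x * V.chi x⁻¹ = 1 := by rw [← map_mul, mul_inv_cancel, map_one]
  rw [h, zero_mul] at h2
  exact zero_ne_one h2

end CMA

open CMA V V.FC1

/-- CMA. -/
theorem cma (ret : RetS) : CMAS := by
  intro Q _ _ B a D F e h ι G hm d f g l₀ p V hL i b p₀ p₁ hC hx hy hchi hkap E n₀ hE
  have : Finite ι := hL.finι
  have : Finite (Sy h.toFrt) := finSy h.toFrt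
  have : Fact p.Prime := ⟨hL.prime⟩
  set α := V.chi (B.q a) with hα
  have hα1 : α - 1 ≠ 0 := sub_ne_zero.2 hchi
  set c := V.n a / (α - 1) with hc
  set V' := V.gauge c with hV'
  have hchi' : V'.chi = V.chi := rfl
  have hn : V'.n a = 0 := by
    show V.n a - c * (V.chi (B.q a) - 1) = 0
    rw [← hα, hc, div_mul_cancel₀ _ hα1, sub_self]
  have hnb : V'.n b ≠ 0 := by
    show V.n b - c * (V.chi (B.q b) - 1) ≠ 0
    intro h0
    apply hkap
    unfold Vd.kap
    rw [← hα]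
    have h1 : c * (α - 1) = V.n a := by rw [hc, div_mul_cancel₀ _ hα1]
    linear_combination (α - 1) * h0 + (V.chi (B.q b) - 1) * h1
  have hal : V'.chi (B.q a) ^ e = 1 := hL.al
  have hvols := bigVols G V' hal
  have hsym : ∀ s s' : Puz.St F (Rg ι (Sy h.toFrt)) ((bigP G).TokOf f),
      (bigP G).WReach s s' → (bigP G).WReach s' s := ret _ _ _ (bigP G) (bigHom G)
  -- the rungs of the label
  have hT : ∀ k : Sy h.toFrt, (bigP G).T ⟨i, k⟩ = 1 := by
    intro k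
    apply Equiv.ext
    intro s
    show k • (G i).T (k⁻¹ • s) = s
    rw [hC.T, Equiv.Perm.one_apply, smul_inv_smul]
  have hθ : ∀ (k : Sy h.toFrt) (s : F), ¬ (bigP G).On ⟨i, k⟩ s →
      Xc V' k * V'.vol ((k⁻¹ • s : F) : Q) ((G i).X.path ((k⁻¹ • s : F) : Q)) = 0 := by
    intro k s hs
    rw [hC.path (ZMod p) V' hn (k⁻¹ • s), mul_zero]
    · intro h0
      apply hs
      left
      show s = k • (G i).x
      rw [← h0, smul_inv_smul]
    · intro h0
      apply hs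
      right
      show s = k • (G i).y
      rw [← h0, smul_inv_smul]
  have hon : (bigP G).On ⟨i, 1⟩ l₀ := by
    left
    show l₀ = (1 : Sy h.toFrt) • (G i).x
    rw [one_smul, hx]
  have hx1 : (bigP G).x ⟨i, 1⟩ = l₀ := by
    show (1 : Sy h.toFrt) • (G i).x = l₀
    rw [one_smul, hx]
  have hoth : (bigP G).oth ⟨i, 1⟩ l₀ = (G i).y := by
    unfold Puz.oth
    rw [if_pos hx1.symm]
    show (1 : Sy h.toFrt) • (G i).y = (G i).y
    rw [one_smul]
  have hadj : (bigP G).Adj g ⟨i, 1⟩ l₀ := ⟨hL.adj.1, hon, by rw [hoth]; exact hy.symm⟩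
  have ht := tau_on (bigP G) (hT 1) hon
  have ht1 : (bigP G).tau ⟨i, 1⟩ = ⟨i, (1 : Sy h.toFrt) * (G i).δ⟩ := rfl
  have ht2 : (bigP G).tau ((bigP G).tau ⟨i, 1⟩) = ⟨i, (1 : Sy h.toFrt) * (G i).δ * (G i).δ⟩ := rfl
  have hδ : (G i).δ • l₀ = l₀ := by rw [hC.del, ← hx, h.cj_self]
  have hflip : (bigP G).Flip (fun r => Xc V' r.h * V'.vol (G r.i).x (G r.i).X.cup)
      (fun r s => Xc V' r.h * V'.vol ((r.h⁻¹ • s : F) : Q) ((G r.i).X.path ((r.h⁻¹ • s : F) : Q)))
      (fun s => sgn (d (s : Q))) f g l₀ := by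
    refine flipC1 (bigP G) _ _ _ f g l₀ l₀ ⟨i, 1⟩ ((bigP G).tau ⟨i, 1⟩) hsym hL.adj (fun s => sgn_or _) hadj
      ht.1 ht.2 (hT 1) (hT _) ?_ ?_
    · intro s hs
      have h2 : ¬ (bigP G).On ((bigP G).tau ⟨i, 1⟩) s := by
        intro h3
        apply hs
        rw [on_iff (bigP G) hon]
        rw [on_iff (bigP G) ht.1, ht.2] at h3
        exact h3
      exact (hθ 1 s hs).trans (hθ ((1 : Sy h.toFrt) * (G i).δ) s h2).symm
    · have v0 : (bigP G).volr (fun r => Xc V' r.h * V'.vol (G r.i).x (G r.i).X.cup) ⟨i, 1⟩ l₀ =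
          V'.vol (G i).x (G i).X.cup := by
        unfold Puz.volr
        rw [if_pos hx1.symm]
        show Xc V' (1 : Sy h.toFrt) * V'.vol (G i).x (G i).X.cup = _
        rw [Xc_one V' hal l₀, one_mul]
      have hξ : Xc V' (G i).δ = α := by
        rw [hC.del]
        exact Xc_cj h V' hal (G i).x
      have hx2 : (bigP G).x ⟨i, (1 : Sy h.toFrt) * (G i).δ⟩ = l₀ := by
        show ((1 : Sy h.toFrt) * (G i).δ) • (G i).x = l₀
        rw [one_mul, hx, hδ]
      have hx3 : (bigP G).x ⟨i, (1 : Sy h.toFrt) * (G i).δ * (G i).δ⟩ = l₀ := by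
        show ((1 : Sy h.toFrt) * (G i).δ * (G i).δ) • (G i).x = l₀
        rw [one_mul, mul_smul, hx, hδ, hδ]
      have v1 : (bigP G).volr (fun r => Xc V' r.h * V'.vol (G r.i).x (G r.i).X.cup) ((bigP G).tau ⟨i, 1⟩) l₀ =
          α * V'.vol (G i).x (G i).X.cup := by
        unfold Puz.volr
        rw [ht1, if_pos hx2.symm]
        show Xc V' ((1 : Sy h.toFrt) * (G i).δ) * V'.vol (G i).x (G i).X.cup = _
        rw [one_mul, hξ]
      have v2 : (bigP G).volr (fun r => Xc V' r.h * V'.vol (G r.i).x (G r.i).X.cup)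
          ((bigP G).tau ((bigP G).tau ⟨i, 1⟩)) l₀ = α * α * V'.vol (G i).x (G i).X.cup := by
        unfold Puz.volr
        rw [ht2, if_pos hx3.symm]
        show Xc V' ((1 : Sy h.toFrt) * (G i).δ * (G i).δ) * V'.vol (G i).x (G i).X.cup = _
        rw [one_mul, Xc_mul V' hal l₀, hξ]
      rw [v0, v1, v2]
      have hvol : V'.vol (G i).x (G i).X.cup ≠ 0 := by
        rw [hC.cup (ZMod p) V' hn]
        exact mul_ne_zero (chi_ne V' _) hnb
      intro h0
      have h3 : (α - 1) * (α - 1) * V'.vol (G i).x (G i).X.cup = 0 := by linear_combination -h0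
      exact (mul_ne_zero (mul_ne_zero hα1 hα1) hvol) h3
  obtain ⟨X, X', n, h1, h2, h3, h4, h5⟩ := realA F (Rg ι (Sy h.toFrt)) (bigP G) Q B a (bigZ G) (ZMod p) V' _ _ _ d
    f g l₀ hm E n₀ h.cen (fun r => hL.ht r.i) hL.adj hsym hvols hn
    (fun r => big_ca G V' hal (fun i => hL.cap i V' hn hal) r) hL.dl hL.df hL.dg hE hflip
  refine ⟨X, X', n, h1, h2, h3, ?_, ?_⟩
  · refine h4.trans ?_
    have : (bigZ G).e = e := rfl
    rw [this]
    omega
  · rw [← gauge_dvol V c d h1]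
    exact h5

end Pool.Agent.Lib.MP_688fd0_co.SQ2
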