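import Pool.Agent.Lib.MP_688fd0_co.SQ2.V.FC1

/-!
FC2: commuting labels, `alpha = 1`: three neighbouring rungs `x₋ - x₀`, `x₀ - x₁`, `x₁ - x₂` whose gadgets move nothing.
-/

set_option autoImplicit false

namespace Pool.Agent.Lib.MP_688fd0_co.SQ2.V

namespace FC2

open Puz FC1

variable {S R : Type} [DecidableEq S] {F : Type}

/-- The weight on `L`. -/
def Wt {Tok : Type} [Fintype Tok] [AddCommMonoid F] (d : Tok → F) (s : St S R Tok) (L : S) : F :=
  ∑ t, if s.2 t = L then d t else 0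

theorem gam_wt [Fintype S] [CommRing F] (P : Puz S R) {Tok : Type} [Fintype Tok] (χ : S → F) (d : Tok → F)
    (s : St S R Tok) (r' : R) (v : S) :
    P.gam χ d s r' v = (∑ L, Wt d s L * χ L) + Wt d s (P.oth r' v) * (χ (P.oth s.1 v) - χ v) := by
  unfold gam Wt
  simp only [mul_add, Finset.sum_add_distrib]
  congr 1
  · simp only [Finset.sum_mul]
    rw [Finset.sum_comm]
    refine Finset.sum_congr rfl fun t _ => ?_
    rw [Finset.sum_eq_single (s.2 t)]
    · rw [if_pos rfl]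
    · intro L _ hL
      rw [if_neg (Ne.symm hL), zero_mul]
    · intro h; exact absurd (Finset.mem_univ _) h
  · rw [Finset.sum_mul]
    refine Finset.sum_congr rfl fun t _ => ?_
    by_cases h : s.2 t = P.oth r' v
    · rw [if_pos h, if_pos h]
    · rw [if_neg h, if_neg h]; ring

/-- The other end of the other end. -/
theorem oth_oth (P : Puz S R) {r : R} {v : S} (h : P.On r v) : P.On r (P.oth r v) ∧ P.oth r (P.oth r v) = v := by
  have hne := P.ne r
  unfold Puz.oth Puz.On at *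
  rcases h with h | h
  · rw [if_pos h, if_neg hne.symm]; exact ⟨Or.inr rfl, h.symm⟩
  · by_cases h' : v = P.x r
    · rw [if_pos h', if_neg hne.symm]; exact ⟨Or.inr rfl, h'.symm⟩
    · rw [if_neg h', if_pos rfl]; exact ⟨Or.inl rfl, h.symm⟩

/-- The weights of the key state: cap `x₀ - x₁`, the token `x₁` on `y`. -/
def Key [CommRing F] (P : Puz S R) {Tok : Type} [Fintype Tok] (d : S → F) (dt : Tok → F) (x₀ x₁ y : S)
    (s : St S R Tok) : Prop :=
  P.On s.1 x₀ ∧ P.oth s.1 x₀ = x₁ ∧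
    ∀ L, Wt dt s L = if L = x₀ ∨ L = x₁ then 0 else if L = y then d x₁ else d L

/-- A sum over the tokens is a sum over strands outside `f`. -/
theorem sum_home [Fintype S] [CommRing F] (P : Puz S R) (d : S → F) (f : R) (L : S) :
    (∑ t : P.TokOf f, if (t : S) = L then d t else 0) = if P.On f L then 0 else d L := by
  by_cases h : P.On f L
  · rw [if_pos h]
    refine Finset.sum_eq_zero fun t _ => ?_
    rw [if_neg]
    intro h1; exact t.2 (by rw [h1]; exact h)
  · rw [if_neg h, Finset.sum_eq_single (⟨L, h⟩ : P.TokOf f)]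
    · rw [if_pos rfl]
    · intro t _ ht
      rw [if_neg]
      intro h1; exact ht (Subtype.ext h1)
    · intro h1; exact absurd (Finset.mem_univ _) h1

/-- The weights of `stb`. -/
theorem wt_stb [Fintype S] [CommRing F] (P : Puz S R) (d : S → F) {f g : R} {l₀ : S} (hgf : P.Adj g f l₀)
    (hdf : d (P.oth f l₀) = - d l₀) (hdg : d (P.oth g l₀) = - d l₀) (L : S) :
    Wt (fun t : P.TokOf f => d t) (P.stb f g l₀) L = if P.On g L then 0 else d L := by
  unfold Wt
  by_cases h : P.On g L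
  · rw [if_pos h]
    refine Finset.sum_eq_zero fun t _ => ?_
    rw [if_neg]
    intro h1; exact stb_off P hgf t (by rw [h1]; exact h)
  · rw [if_neg h]
    obtain ⟨t₁, ht₁⟩ := stb_tok P hgf h
    rw [Finset.sum_eq_single t₁]
    · rw [if_pos ((ht₁ t₁).2 rfl)]
      have h2 := (ht₁ t₁).2 rfl
      have h3 : (if (t₁ : S) = P.oth g l₀ then P.oth f l₀ else (t₁ : S)) = L := h2
      by_cases h4 : (t₁ : S) = P.oth g l₀
      · rw [if_pos h4] at h3
        show d t₁ = d L
        rw [h4, ← h3, hdf, hdg]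
      · rw [if_neg h4] at h3
        show d t₁ = d L
        rw [h3]
    · intro t _ ht
      rw [if_neg (fun h1 => ht ((ht₁ t).1 h1))]
    · intro h1; exact absurd (Finset.mem_univ _) h1

variable [Fintype S] [CommRing F]

/-- The key state. -/
theorem key (P : Puz S R) (d : S → F) {f g : R} {l₀ x₀ x₁ y : S} {r₀ : R}
    (hsym : ∀ s s' : St S R (P.TokOf f), P.WReach s s' → P.WReach s' s) (hgf : P.Adj g f l₀)
    (hdf : d (P.oth f l₀) = - d l₀) (hdg : d (P.oth g l₀) = - d l₀)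
    (hx : (x₀ = l₀ ∧ y = P.oth g l₀) ∨ (x₀ = P.oth g l₀ ∧ y = l₀) ∨ (x₀ = P.oth f l₀ ∧ y = l₀))
    (h0 : P.On r₀ x₀) (h1 : P.oth r₀ x₀ = x₁) (hT : P.T r₀ = 1) (hy : x₁ ≠ y) :
    ∃ s : St S R (P.TokOf f), P.WReach (P.st₁ f) s ∧ Key P d (fun t : P.TokOf f => d t) x₀ x₁ y s := by
  have hx01 : x₁ ≠ x₀ := by rw [← h1]; exact oth_ne P h0
  obtain ⟨hg, hf, hfg⟩ := hgf
  have hstb : P.WReach (P.st₁ f) (P.stb f g l₀) := by
    apply hsym
    rw [← P.stb_step ⟨hg, hf, hfg⟩]
    exact WReach.step ⟨hg, hf, hfg⟩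
  have hcase : ((P.On g x₀ ∧ P.oth g x₀ = y) ∨ (x₀ = P.oth f l₀ ∧ y = l₀)) := by
    rcases hx with ⟨a, b⟩ | ⟨a, b⟩ | ⟨a, b⟩
    · left; rw [a]; exact ⟨hg, b.symm⟩
    · left; rw [a, b]; exact oth_oth P hg
    · right; exact ⟨a, b⟩
  rcases hcase with ⟨a, b⟩ | ⟨a, b⟩
  · -- from `stb` with the cup `r₀`
    have hadj : P.Adj (P.stb f g l₀).1 r₀ x₀ := ⟨a, h0, by
      show P.oth g x₀ ≠ P.oth r₀ x₀
      rw [b, h1]; exact hy.symm⟩
    refine ⟨P.step r₀ x₀ (P.stb f g l₀), hstb.trans (WReach.step hadj), ?_, ?_, ?_⟩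
    · exact (tau_on P hT h0).1
    · show P.oth (P.tau r₀) x₀ = x₁
      rw [(tau_on P hT h0).2, h1]
    · intro L
      have h2 : Wt (fun t : P.TokOf f => d t) (P.step r₀ x₀ (P.stb f g l₀)) L =
          Wt (fun t : P.TokOf f => d t) (P.stb f g l₀) (Equiv.swap x₁ y L) := by
        unfold Wt
        refine Finset.sum_congr rfl fun t _ => ?_
        have h3 : (P.step r₀ x₀ (P.stb f g l₀)).2 t = L ↔ (P.stb f g l₀).2 t = Equiv.swap x₁ y L := by
          show P.T r₀ (P.J g r₀ x₀ ((P.stb f g l₀).2 t)) = L ↔ _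
          rw [hT, Equiv.Perm.one_apply]
          unfold J
          rw [h1, b, ← Equiv.eq_symm_apply, Equiv.symm_swap]
        by_cases h4 : (P.stb f g l₀).2 t = Equiv.swap x₁ y L
        · rw [if_pos h4, if_pos (h3.2 h4)]
        · rw [if_neg h4, if_neg (fun h5 => h4 (h3.1 h5))]
      rw [h2, wt_stb P d ⟨hg, hf, hfg⟩ hdf hdg]
      have hon : ∀ s, P.On g s ↔ s = x₀ ∨ s = y := by
        intro s; rw [on_iff P a, b]
      have hxy : x₀ ≠ y := by rw [← b]; exact (oth_ne P a).symm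
      by_cases c1 : L = x₁
      · rw [c1, Equiv.swap_apply_left, if_pos ((hon y).2 (Or.inr rfl)), if_pos (Or.inr rfl)]
      · by_cases c2 : L = y
        · rw [c2, Equiv.swap_apply_right, if_neg, if_neg, if_pos rfl]
          · rintro (c3 | c3)
            · exact hxy c3.symm
            · exact hy c3.symm
          · rw [hon]
            rintro (c3 | c3)
            · exact hx01 c3
            · exact hy c3
        · rw [Equiv.swap_apply_of_ne_of_ne c1 c2, if_neg c2]
          by_cases c3 : L = x₀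
          · rw [if_pos ((hon L).2 (Or.inl c3)), if_pos (Or.inl c3)]
          · rw [if_neg, if_neg]
            · rintro (c4 | c4)
              · exact c3 c4
              · exact c1 c4
            · rw [hon]
              rintro (c4 | c4)
              · exact c3 c4
              · exact c2 c4
  · -- one step before `st₁`
    have hx0f : P.On f x₀ ∧ P.oth f x₀ = y := by rw [a, b]; exact oth_oth P hf
    have hxy : x₀ ≠ y := by rw [← hx0f.2]; exact (oth_ne P hx0f.1).symm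
    have honf : ∀ s, P.On f s ↔ s = x₀ ∨ s = y := by
      intro s; rw [on_iff P hx0f.1, hx0f.2]
    have hadj : P.Adj r₀ f x₀ := ⟨h0, hx0f.1, by rw [h1, hx0f.2]; exact hy⟩
    let s' : St S R (P.TokOf f) := (r₀, fun t => if (t : S) = x₁ then y else t)
    have hstep : P.step f x₀ s' = P.st₁ f := by
      refine Prod.ext rfl (funext fun t => ?_)
      show P.T f (P.J r₀ f x₀ (if (t : S) = x₁ then y else t)) = P.T f t
      congr 1
      unfold J
      rw [h1, hx0f.2]
      by_cases h : (t : S) = x₁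
      · rw [if_pos h, Equiv.swap_apply_left, h]
      · rw [if_neg h]
        refine Equiv.swap_apply_of_ne_of_ne (fun h' => t.2 ((honf _).2 (Or.inr h'))) h
    refine ⟨s', ?_, h0, h1, ?_⟩
    · apply hsym
      rw [← hstep]
      exact WReach.step hadj
    · intro L
      have h2 : Wt (fun t : P.TokOf f => d t) s' L =
          (if L = y then d x₁ else 0) + (if P.On f L then 0 else if L = x₁ then 0 else d L) := by
        have hx1t : ¬ P.On f x₁ := by
          rw [honf]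
          rintro (c | c)
          · exact hx01 c
          · exact hy c
        by_cases c1 : L = y
        · rw [if_pos c1, if_pos ((honf L).2 (Or.inr c1)), add_zero]
          unfold Wt
          rw [Finset.sum_eq_single (⟨x₁, hx1t⟩ : P.TokOf f)]
          · rw [if_pos]
            show (if x₁ = x₁ then y else x₁) = L
            rw [if_pos rfl, c1]
          · intro t _ ht
            rw [if_neg]
            show ¬ (if (t : S) = x₁ then y else (t : S)) = L
            rw [if_neg (fun h => ht (Subtype.ext h)), c1]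
            intro h; exact t.2 ((honf _).2 (Or.inr h))
          · intro h; exact absurd (Finset.mem_univ _) h
        · rw [if_neg c1, zero_add]
          have h3 : ∀ t : P.TokOf f, s'.2 t = L ↔ ((t : S) = L ∧ L ≠ x₁) := by
            intro t
            show (if (t : S) = x₁ then y else (t : S)) = L ↔ _
            by_cases h : (t : S) = x₁
            · rw [if_pos h]
              constructor
              · intro h'; exact absurd h'.symm c1
              · rintro ⟨h', h''⟩; exact absurd (h'.symm.trans h) h''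
            · rw [if_neg h]
              constructor
              · intro h'; exact ⟨h', by rw [← h']; exact h⟩
              · exact fun h' => h'.1
          unfold Wt
          by_cases c2 : L = x₁
          · rw [if_pos c2, ite_self]
            refine Finset.sum_eq_zero fun t _ => ?_
            rw [if_neg (fun h => ((h3 t).1 h).2 c2)]
          · rw [if_neg c2, ← sum_home P d f L]
            refine Finset.sum_congr rfl fun t _ => ?_
            by_cases c3 : (t : S) = L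
            · rw [if_pos c3, if_pos ((h3 t).2 ⟨c3, c2⟩)]
            · rw [if_neg c3, if_neg (fun h => c3 ((h3 t).1 h).1)]
      rw [h2]
      by_cases c1 : L = y
      · rw [if_pos c1, if_pos ((honf L).2 (Or.inr c1)), add_zero, if_neg, if_pos c1]
        rw [c1]
        rintro (c | c)
        · exact hxy c.symm
        · exact hy c.symm
      · rw [if_neg c1, if_neg c1, zero_add]
        by_cases c2 : L = x₀
        · rw [if_pos ((honf L).2 (Or.inl c2)), if_pos (Or.inl c2)]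
        · rw [if_neg (fun c => (honf L).1 c |>.elim c2 c1)]
          by_cases c3 : L = x₁
          · rw [if_pos c3, if_pos (Or.inr c3)]
          · rw [if_neg c3, if_neg (fun c => c.elim c2 c3)]

/-- The value of `gam` at a key state. -/
theorem key_gam (P : Puz S R) {Tok : Type} [Fintype Tok] (χ d : S → F) (dt : Tok → F) {x₀ x₁ y : S}
    {s : St S R Tok} (h : Key P d dt x₀ x₁ y s) (h01 : x₁ ≠ x₀) (h0y : x₀ ≠ y) (h1y : x₁ ≠ y) (r' : R) (v : S) :
    P.gam χ dt s r' v - ∑ s, d s * χ s =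
      - (d x₀ * χ x₀) - d x₁ * χ x₁ + (d x₁ - d y) * χ y +
        Wt dt s (P.oth r' v) * (χ (P.oth s.1 v) - χ v) := by
  rw [gam_wt]
  have h1 : (∑ L, Wt dt s L * χ L) = ∑ L, (d L * χ L + (if L = x₀ then -(d x₀ * χ x₀) else 0) +
      (if L = x₁ then - (d x₁ * χ x₁) else 0) + (if L = y then (d x₁ - d y) * χ y else 0)) := by
    refine Finset.sum_congr rfl fun L _ => ?_
    rw [h.2.2 L]
    by_cases c0 : L = x₀
    · rw [if_pos (Or.inl c0), if_pos c0, if_neg (by rw [c0]; exact h01.symm), if_neg (by rw [c0]; exact h0y), c0]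
      ring
    · by_cases c1 : L = x₁
      · rw [if_pos (Or.inr c1), if_neg c0, if_pos c1, if_neg (by rw [c1]; exact h1y), c1]
        ring
      · rw [if_neg (fun c => c.elim c0 c1), if_neg c0, if_neg c1]
        by_cases c2 : L = y
        · rw [if_pos c2, if_pos c2, c2]; ring
        · rw [if_neg c2, if_neg c2]; ring
  rw [h1]
  simp only [Finset.sum_add_distrib, Finset.sum_ite_eq', Finset.mem_univ, if_true]
  ring

/-- Without flips the closing rung gives `d x₁ = - d x₀` or `χ y = χ x₀`. -/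
theorem close {S R F : Type} [Fintype S] [DecidableEq S] [Field F] (P : Puz S R) (χ d : S → F)
    (f g : R) (l₀ x₀ x₁ y : S) (r₀ : R)
    (hsym : ∀ s s' : St S R (P.TokOf f), P.WReach s s' → P.WReach s' s) (hgf : P.Adj g f l₀)
    (hdf : d (P.oth f l₀) = - d l₀) (hdg : d (P.oth g l₀) = - d l₀)
    (hx : (x₀ = l₀ ∧ y = P.oth g l₀) ∨ (x₀ = P.oth g l₀ ∧ y = l₀) ∨ (x₀ = P.oth f l₀ ∧ y = l₀))
    (h0 : P.On r₀ x₀) (h1 : P.oth r₀ x₀ = x₁) (hT : P.T r₀ = 1) (hy : x₁ ≠ y) (hno : ¬ P.FlipG χ d f) :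
    x₁ ≠ x₀ ∧ x₀ ≠ y ∧ d y = - d x₀ ∧ (d x₀ + d x₁) * (χ y - χ x₀) = 0 ∧
      ∃ s : St S R (P.TokOf f), Key P d (fun t : P.TokOf f => d t) x₀ x₁ y s ∧
        ∀ r' v, P.Adj s.1 r' v → P.gam χ (fun t : P.TokOf f => d t) s r' v - ∑ s, d s * χ s = 0 := by
  have hx01 : x₁ ≠ x₀ := by rw [← h1]; exact oth_ne P h0
  obtain ⟨s, hs, hk⟩ := key P d hsym hgf hdf hdg hx h0 h1 hT hy
  have hs' : ∀ r' v, P.Adj s.1 r' v → P.gam χ (fun t : P.TokOf f => d t) s r' v - ∑ s, d s * χ s = 0 := by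
    intro r' v hr
    by_contra hc
    exact hno ⟨s, r', v, hs, hr, fun h => hc (by rw [h, sub_self])⟩
  obtain ⟨hg, hf, hfg⟩ := hgf
  have hc : ∃ c, P.On c x₀ ∧ P.oth c x₀ = y := by
    rcases hx with ⟨a, b⟩ | ⟨a, b⟩ | ⟨a, b⟩
    · exact ⟨g, by rw [a]; exact hg, by rw [a, b]⟩
    · exact ⟨g, by rw [a, b]; exact oth_oth P hg⟩
    · exact ⟨f, by rw [a, b]; exact oth_oth P hf⟩
  have hdy : d y = - d x₀ := by
    rcases hx with ⟨a, b⟩ | ⟨a, b⟩ | ⟨a, b⟩
    · rw [a, b, hdg]
    · rw [a, b, hdg, neg_neg]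
    · rw [a, b, hdf, neg_neg]
  obtain ⟨c, hc0, hc1⟩ := hc
  have hxy : x₀ ≠ y := by rw [← hc1]; exact (oth_ne P hc0).symm
  refine ⟨hx01, hxy, hdy, ?_, s, hk, hs'⟩
  have hadj : P.Adj s.1 c x₀ := ⟨hk.1, hc0, by rw [hk.2.1, hc1]; exact hy⟩
  have h2 := hs' c x₀ hadj
  rw [key_gam P χ d _ hk hx01 hxy hy, hc1, hk.2.2 y, hk.2.1,
    if_neg (fun c => c.elim hxy.symm hy.symm), if_pos rfl, hdy] at h2
  linear_combination h2

end FC2

open Puz FC1 FC2

/-- COMMUTING LABELS, `alpha = 1`, first part. -/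
theorem flipC2 {S R F : Type} [Fintype S] [DecidableEq S] [Field F] (P : Puz S R) (χ d : S → F)
    (f g : R) (l₀ x₀ x₁ y z : S) (r₀ rm : R)
    (hsym : ∀ s s' : St S R (P.TokOf f), P.WReach s s' → P.WReach s' s) (hgf : P.Adj g f l₀)
    (hdf : d (P.oth f l₀) = - d l₀) (hdg : d (P.oth g l₀) = - d l₀)
    (hx : (x₀ = l₀ ∧ y = P.oth g l₀) ∨ (x₀ = P.oth g l₀ ∧ y = l₀) ∨ (x₀ = P.oth f l₀ ∧ y = l₀))
    (h0 : P.On r₀ x₀) (h1 : P.oth r₀ x₀ = x₁) (hT : P.T r₀ = 1) (hm0 : P.On rm x₀) (hm1 : P.oth rm x₀ = z)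
    (hTm : P.T rm = 1) (hz : z ≠ x₁) (hχ1 : χ x₁ ≠ χ x₀) (hχz : χ z ≠ χ x₀) :
    P.FlipG χ d f ∨ d x₁ = d z := by
  by_cases hno : P.FlipG χ d f
  · exact Or.inl hno
  right
  by_cases hy : x₁ = y
  · obtain ⟨-, -, hdy, h2, -⟩ := close P χ d f g l₀ x₀ z y rm hsym hgf hdf hdg hx hm0 hm1 hTm
      (by rw [← hy]; exact hz) hno
    rcases mul_eq_zero.1 h2 with h3 | h3
    · rw [hy, hdy]; linear_combination -h3
    · exact absurd (sub_eq_zero.1 h3) (by rw [← hy]; exact hχ1)
  · obtain ⟨hx01, hxy, hdy, h2, s, hk, hs⟩ := close P χ d f g l₀ x₀ x₁ y r₀ hsym hgf hdf hdg hx h0 h1 hT hy hno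
    by_cases hzy : z = y
    · rcases mul_eq_zero.1 h2 with h3 | h3
      · rw [hzy, hdy]; linear_combination h3
      · exact absurd (sub_eq_zero.1 h3) (by rw [← hzy]; exact hχz)
    · have hz0 : z ≠ x₀ := by rw [← hm1]; exact oth_ne P hm0
      have hadj : P.Adj s.1 rm x₀ := ⟨hk.1, hm0, by rw [hk.2.1, hm1]; exact hz.symm⟩
      have h3 := hs rm x₀ hadj
      rw [key_gam P χ d _ hk hx01 hxy hy, hm1, hk.2.2 z, hk.2.1,
        if_neg (fun c => c.elim hz0 hz), if_neg hzy, hdy] at h3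
      have h4 : (d z - d x₁) * (χ x₁ - χ x₀) = 0 := by linear_combination h3 - h2
      rcases mul_eq_zero.1 h4 with h5 | h5
      · exact (sub_eq_zero.1 h5).symm
      · exact absurd (sub_eq_zero.1 h5) hχ1

/-- COMMUTING LABELS, `alpha = 1`, second part. -/
theorem flipC2' {S R F : Type} [Fintype S] [DecidableEq S] [Field F] (P : Puz S R) (χ d : S → F)
    (f g : R) (l₀ x₀ x₁ x₂ y : S) (r₀ r₁ : R)
    (hsym : ∀ s s' : St S R (P.TokOf f), P.WReach s s' → P.WReach s' s) (hgf : P.Adj g f l₀)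
    (hdf : d (P.oth f l₀) = - d l₀) (hdg : d (P.oth g l₀) = - d l₀)
    (hx : (x₀ = l₀ ∧ y = P.oth g l₀) ∨ (x₀ = P.oth g l₀ ∧ y = l₀) ∨ (x₀ = P.oth f l₀ ∧ y = l₀))
    (h0 : P.On r₀ x₀) (h1 : P.oth r₀ x₀ = x₁) (hT : P.T r₀ = 1) (hy : x₁ ≠ y) (h2 : P.On r₁ x₁) (h3 : P.oth r₁ x₁ = x₂)
    (h20 : x₂ ≠ x₀) (hχ1 : χ x₁ ≠ χ x₀) (two : (2 : F) ≠ 0) (hd1 : d x₁ ≠ 0) :
    P.FlipG χ d f ∨ d x₂ = - d x₁ := by
  by_cases hno : P.FlipG χ d f
  · exact Or.inl hno
  right
  obtain ⟨hx01, hxy, hdy, h4, s, hk, hs⟩ := close P χ d f g l₀ x₀ x₁ y r₀ hsym hgf hdf hdg hx h0 h1 hT hy hno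
  have h21 : x₂ ≠ x₁ := by rw [← h3]; exact oth_ne P h2
  have hoo := oth_oth P hk.1
  rw [hk.2.1] at hoo
  have hadj : P.Adj s.1 r₁ x₁ := ⟨hoo.1, h2, by rw [hoo.2, h3]; exact h20.symm⟩
  have h5 := hs r₁ x₁ hadj
  rw [key_gam P χ d _ hk hx01 hxy hy, h3, hk.2.2 x₂, hoo.2, if_neg (fun c => c.elim h20 h21), hdy] at h5
  by_cases h2y : x₂ = y
  · rw [if_pos h2y] at h5
    have h6 : 2 * d x₁ * (χ x₁ - χ x₀) = 0 := by linear_combination h4 - h5
    exact absurd h6 (mul_ne_zero (mul_ne_zero two hd1) (sub_ne_zero.2 hχ1))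
  · rw [if_neg h2y] at h5
    have h6 : (d x₂ + d x₁) * (χ x₁ - χ x₀) = 0 := by linear_combination h4 - h5
    rcases mul_eq_zero.1 h6 with h7 | h7
    · linear_combination h7
    · exact absurd (sub_eq_zero.1 h7) hχ1

end Pool.Agent.Lib.MP_688fd0_co.SQ2.V
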