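import Pool.Agent.Lib.MP_688fd0_co.SQ2.V.CMA
import Pool.Agent.Lib.MP_688fd0_co.SQ2.V.FC2

/-!
CMB: a commuting label, `chi a = 1`.
-/

set_option autoImplicit false

namespace Pool.Agent.Lib.MP_688fd0_co.SQ2

open Pool.Agent.Lib.MP_688fd0_co.OSF
open V (Puz)

open CMA V V.FC1 V.FC2

namespace CMB

theorem sgn_not {F : Type} [CommRing F] (b : Bool) : (sgn (!b) : F) = - sgn b := by
  cases b
  · show (1 : F) = - -1
    rw [neg_neg]
  · rfl

theorem sgn_inj {F : Type} [CommRing F] (h2 : (2 : F) ≠ 0) {b b' : Bool} (h : (sgn b : F) = sgn b') : b = b' := by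
  have h3 : (1 : F) ≠ -1 := by
    intro h; apply h2; linear_combination h
  cases b <;> cases b' <;> first | rfl | skip
  · exact absurd (show (-1 : F) = 1 from h) h3.symm
  · exact absurd (show (1 : F) = -1 from h) h3

end CMB

open CMB

/-- CMB. -/
theorem cmb (ret : RetS) : CMBS := by
  intro Q _ _ B a D F e h ι G hm d f g l₀ p V hL i₀ i₁ i₂ b p₀ p₁ p₂ q₀ q₁ q₂ hC₀ hC₁ hC₂ h10 h21 hx hne0 hne2
    hα hkap
  have : Finite ι := hL.finι
  have : Finite (Sy h.toFrt) := finSy h.toFrt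
  have hprime : Fact p.Prime := ⟨hL.prime⟩
  have hepos : 0 < e := h.he
  have hp := hL.big
  have hal : V.chi (B.q a) ^ e = 1 := hL.al
  have hvols := bigVols G V hal
  have hsym : ∀ s s' : Puz.St F (Rg ι (Sy h.toFrt)) ((bigP G).TokOf f),
      (bigP G).WReach s s' → (bigP G).WReach s' s := ret _ _ _ (bigP G) (bigHom G)
  have two : (2 : ZMod p) ≠ 0 := by
    intro h2
    have h3 : ((2 : ℕ) : ZMod p) = 0 := by exact_mod_cast h2
    rw [ZMod.natCast_eq_zero_iff] at h3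
    have := Nat.le_of_dvd (by norm_num) h3
    omega
  have he0 : (e : ZMod p) ≠ 0 := by
    intro h2
    rw [ZMod.natCast_eq_zero_iff] at h2
    have := Nat.le_of_dvd hepos h2
    omega
  have hn : V.n a ≠ 0 := by
    intro h0; apply hkap; unfold Vd.kap; rw [h0, hα]; ring
  have hβ : V.chi (B.q b) ≠ 1 := by
    intro h0; apply hkap; unfold Vd.kap; rw [h0, hα]; ring
  -- the rungs of the labels
  have hT : ∀ i, (G i).T = 1 → (bigP G).T ⟨i, 1⟩ = 1 := by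
    intro i hi
    apply Equiv.ext
    intro s
    show (1 : Sy h.toFrt) • (G i).T ((1 : Sy h.toFrt)⁻¹ • s) = s
    rw [hi, Equiv.Perm.one_apply, smul_inv_smul]
  have hX : ∀ i, (bigP G).x ⟨i, 1⟩ = (G i).x := fun i => by
    show (1 : Sy h.toFrt) • (G i).x = (G i).x
    rw [one_smul]
  have hY : ∀ i, (bigP G).y ⟨i, 1⟩ = (G i).y := fun i => by
    show (1 : Sy h.toFrt) • (G i).y = (G i).y
    rw [one_smul]
  have hox : ∀ i, (bigP G).On ⟨i, 1⟩ (G i).x ∧ (bigP G).oth ⟨i, 1⟩ (G i).x = (G i).y := by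
    intro i
    refine ⟨Or.inl (hX i).symm, ?_⟩
    unfold Puz.oth
    rw [if_pos (hX i).symm, hY i]
  have hoy : ∀ i, (bigP G).On ⟨i, 1⟩ (G i).y ∧ (bigP G).oth ⟨i, 1⟩ (G i).y = (G i).x := by
    intro i
    have := oth_oth (bigP G) (hox i).1
    rw [(hox i).2] at this
    exact this
  have hχ : ∀ i p' q', COK h (G i) b p' q' → V.chi ((G i).y : Q) ≠ V.chi ((G i).x : Q) := by
    intro i p' q' hC h0
    have h1 := congrArg V.chi hC.edge
    rw [map_mul, map_mul, map_mul, map_pow, map_pow, hα, one_pow, one_pow, mul_one, mul_one, h0] at h1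
    have h2 : V.chi ((G i).x : Q) * (V.chi (B.q b) - 1) = 0 := by linear_combination h1
    exact (mul_ne_zero (chi_ne V _) (sub_ne_zero.2 hβ)) h2
  set dd : F → ZMod p := fun s => sgn (d (s : Q)) with hdd
  have hdf : dd ((bigP G).oth f l₀) = - dd l₀ := by
    show (sgn (d ((bigP G).oth f l₀ : Q)) : ZMod p) = - sgn (d (l₀ : Q))
    rw [hL.df, sgn_not]
  have hdg : dd ((bigP G).oth g l₀) = - dd l₀ := by
    show (sgn (d ((bigP G).oth g l₀ : Q)) : ZMod p) = - sgn (d (l₀ : Q))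
    rw [hL.dg, sgn_not]
  obtain ⟨y, hy⟩ : ∃ y, ((G i₁).x = l₀ ∧ y = (bigP G).oth g l₀) ∨ ((G i₁).x = (bigP G).oth g l₀ ∧ y = l₀) ∨
      ((G i₁).x = (bigP G).oth f l₀ ∧ y = l₀) := by
    rcases hx with hx | hx | hx
    · exact ⟨_, Or.inl ⟨hx, rfl⟩⟩
    · exact ⟨_, Or.inr (Or.inr ⟨hx, rfl⟩)⟩
    · exact ⟨_, Or.inr (Or.inl ⟨hx, rfl⟩)⟩
  have hflip : (bigP G).FlipG (fun s => V.chi (s : Q)) dd f → LRes h G hm d f g l₀ p V := by
    intro hfl E n₀ hE
    obtain ⟨X, X', n, h1, h2, h3, h4, h5⟩ := realB F (Rg ι (Sy h.toFrt)) (bigP G) Q B a (bigZ G) (ZMod p) V _ _ _ d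
      f g l₀ hm E n₀ h.cen (fun r => hL.ht r.i) hL.adj hsym hvols hα hn he0 hL.dl hL.df hL.dg hE hfl
    refine ⟨X, X', n, h1, h2, h3, ?_, h5⟩
    refine h4.trans ?_
    have : (bigZ G).e = e := rfl
    rw [this]
    omega
  constructor
  · rcases flipC2 (bigP G) (fun s : F => V.chi (s : Q)) dd f g l₀ (G i₁).x (G i₁).y y (G i₀).x ⟨i₁, 1⟩ ⟨i₀, 1⟩ hsym
      hL.adj hdf hdg hy (hox i₁).1 (hox i₁).2 (hT _ hC₁.T) (by rw [h10]; exact (hoy i₀).1)
      (by rw [h10]; exact (hoy i₀).2) (hT _ hC₀.T) hne0 (hχ i₁ _ _ hC₁)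
      (by rw [h10]; exact (hχ i₀ _ _ hC₀).symm) with h1 | h1
    · exact Or.inl (hflip h1)
    · exact Or.inr (sgn_inj two h1)
  · intro hd1 hd0
    have hyx : (G i₁).y ≠ y := by
      intro h0
      have h1 : d (y : Q) = !d ((G i₁).x : Q) := by
        rcases hy with ⟨a1, a2⟩ | ⟨a1, a2⟩ | ⟨a1, a2⟩
        · rw [a1, a2, hL.dg]
        · rw [a1, a2, hL.dg, Bool.not_not]
        · rw [a1, a2, hL.df, Bool.not_not]
      rw [← h0, ← hd1] at h1
      exact Bool.eq_not_self _ |>.mp h1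
    rcases flipC2' (bigP G) (fun s : F => V.chi (s : Q)) dd f g l₀ (G i₁).x (G i₁).y (G i₂).y y ⟨i₁, 1⟩ ⟨i₂, 1⟩ hsym
      hL.adj hdf hdg hy (hox i₁).1 (hox i₁).2 (hT _ hC₁.T) hyx (by rw [← h21]; exact (hox i₂).1)
      (by rw [← h21]; exact (hox i₂).2) hne2 (hχ i₁ _ _ hC₁) two
      (by rcases sgn_or (F := ZMod p) (d ((G i₁).y : Q)) with h1 | h1
          · show (sgn (d ((G i₁).y : Q)) : ZMod p) ≠ 0
            rw [h1]; exact one_ne_zero
          · show (sgn (d ((G i₁).y : Q)) : ZMod p) ≠ 0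
            rw [h1]; exact neg_ne_zero.2 one_ne_zero) with h1 | h1
    · exact Or.inl (hflip h1)
    · refine Or.inr (sgn_inj two ?_)
      rw [sgn_not]
      exact h1

end Pool.Agent.Lib.MP_688fd0_co.SQ2
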