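import Pool.Agent.Lib.MP_688fd0_co.SQ2.V.B
import Pool.Agent.Lib.MP_688fd0_co.SQ2.V.M

/-!
Chapter V, Lemma A: without flips the voltage is exact.
-/

set_option autoImplicit false

namespace Pool.Agent.Lib.MP_688fd0_co.SQ2.V

open Puz

namespace VA

variable {S R : Type} [DecidableEq S] (P : Puz S R)

theorem costs_append {Tok F : Type} [Fintype Tok] [Field F] (V : R → F) (θ : R → S → F)
    (d : Tok → F) (l l' : List P.Rule) (s : St S R Tok) :
    costs V θ d (l ++ l') s = costs V θ d l s + costs V θ d l' (run l s) := by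
  induction l generalizing s with
  | nil => simp [Puz.costs, Puz.run]
  | cons ρ l ih => simp [Puz.costs, Puz.run, ih, add_assoc]

/-- The potential. -/
theorem exists_potential {Tok F : Type} [Fintype Tok] [Field F] (V : R → F) (θ : R → S → F)
    (d : Tok → F) (s₀ : St S R Tok)
    (h : ∀ l l' : List P.Rule, run l s₀ = run l' s₀ → costs V θ d l s₀ = costs V θ d l' s₀) :
    ∃ Φ : St S R Tok → F, ∀ s, P.Reach s₀ s → ∀ ρ : P.Rule,
      Φ (ρ.act s) = Φ s + cost V θ d ρ s := by
  classical
  let Φ : St S R Tok → F := fun s => if hs : P.Reach s₀ s then costs V θ d hs.choose s₀ else 0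
  have hΦ : ∀ l : List P.Rule, Φ (run l s₀) = costs V θ d l s₀ := by
    intro l
    have hx : P.Reach s₀ (run l s₀) := ⟨l, rfl⟩
    simp only [Φ, dif_pos hx]
    exact h _ _ hx.choose_spec
  refine ⟨Φ, ?_⟩
  rintro s ⟨l, rfl⟩ ρ
  have h1 : ρ.act (run l s₀) = run (l ++ [ρ]) s₀ := by
    rw [run_append]
    rfl
  rw [h1, hΦ, hΦ, costs_append]
  simp [Puz.costs]

/-- Constancy at a strand. -/
theorem const_at {F : Type} (hThree : P.Three) (v : S) (f f' : R → F)
    (h : ∀ r r', P.Adj r r' v → f' r' = f r) (r s : R) (hr : P.On r v) (hs : P.On s v) :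
    f s = f r := by
  have h0 : ∀ r, P.On r v → f' r = f r := by
    intro r hr
    obtain ⟨r', r'', h1, h2, h3⟩ := hThree r v hr
    rw [h _ _ h1.symm, ← h _ _ h3, h _ _ h2]
  have h1 : ∀ r s, P.Adj r s v → f s = f r := by
    intro r s ha
    rw [← h0 s ha.2.1, h r s ha]
  by_cases ho : P.oth r v = P.oth s v
  · obtain ⟨r', _, h2, _, _⟩ := hThree r v hr
    have h3 : P.Adj s r' v := ⟨hs, h2.2.1, fun he => h2.2.2 (ho.trans he)⟩
    rw [← h1 _ _ h3, h1 _ _ h2]
  · exact h1 r s ⟨hr, hs, ho⟩

theorem vol_x {F : Type} [Field F] (V : R → F) (r : R) : P.vol V r (P.x r) = V r := by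
  simp [Puz.vol]

theorem vol_y {F : Type} [Field F] (V : R → F) (r : R) : P.vol V r (P.y r) = - V r := by
  simp [Puz.vol, (P.ne r).symm]

end VA

open VA VB

theorem lemmaA (hM : LemmaM) : LemmaA := by
  intro S R Tok F _ _ _ _ _ P V θ d s₀ hFull hThree hAvoid hConn hGood hf hd hδ hyp
  classical
  obtain ⟨M, hM1, hM2, n, hn, hM3⟩ := hM S R Tok F P d s₀ hFull hThree hAvoid hConn hGood
  obtain ⟨Φ, hΦ⟩ := exists_potential P V θ d s₀ hyp
  let Ψ : R → F := fun r => ∑ pos ∈ fib P s₀ r, Φ (r, pos)
  let Θ : R → F := fun r' => ∑ L, (if P.On r' L then 0 else M L) * θ r' L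
  have hMM : ∀ r L, (∑ pos ∈ fib P s₀ r, ∑ t, if pos t = L then d t else 0) =
      if P.On r L then 0 else M L := by
    intro r L
    by_cases hL : P.On r L
    · rw [if_pos hL]
      exact MM_eq_zero d hGood hL
    · rw [if_neg hL]
      exact hM1 r L hL
  -- the relation between Ψ (tau r') and Ψ r
  have hrel : ∀ r r' v, P.Adj r r' v →
      Ψ (P.tau r') - Θ r' = Ψ r + M (P.oth r' v) * (P.vol V r v - P.vol V r' v) := by
    intro r r' v ha
    obtain ⟨ρ, hρ1, hρ2⟩ := hFull r r' v ha
    have hact : ∀ pos : Tok → S, ρ.act (r, pos) =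
        (P.tau r', fun t => P.T r' (P.J r r' v (pos t))) := by
      intro pos
      simp only [Puz.Rule.act, Puz.step, hρ1, hρ2]
    -- the bijection of fibres
    have hinj : Function.Injective (fun (pos : Tok → S) t => P.T r' (P.J r r' v (pos t))) := by
      intro p q hpq
      funext t
      have := congrFun hpq t
      exact (P.J r r' v).injective ((P.T r').injective this)
    have himg : (fib P s₀ r).image (fun (pos : Tok → S) t => P.T r' (P.J r r' v (pos t))) =
        fib P s₀ (P.tau r') := by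
      apply Finset.eq_of_subset_of_card_le
      · intro pos' hpos'
        rw [Finset.mem_image] at hpos'
        obtain ⟨pos, hpos, rfl⟩ := hpos'
        rw [mem_fib] at hpos ⊢
        exact (reach_step_iff hFull ha pos).1 hpos
      · rw [Finset.card_image_of_injective _ hinj, (hM3 r).2, (hM3 _).2]
    have h1 : Ψ (P.tau r') = ∑ pos ∈ fib P s₀ r, (Φ (r, pos) + cost V θ d ρ (r, pos)) := by
      change ∑ pos ∈ fib P s₀ (P.tau r'), Φ (P.tau r', pos) = _
      rw [← himg, Finset.sum_image (fun p _ q _ hpq => hinj hpq)]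
      refine Finset.sum_congr rfl (fun pos hpos => ?_)
      rw [← hact pos]
      exact hΦ _ (mem_fib.1 hpos) ρ
    have hu : ¬ P.On r (P.oth r' v) := not_on_oth P ha
    -- the jump costs
    have h2 : ∑ pos ∈ fib P s₀ r, ∑ t, d t * P.cJ V r r' v (pos t) =
        M (P.oth r' v) * (P.vol V r v - P.vol V r' v) := by
      have h2a := hMM r (P.oth r' v)
      rw [if_neg hu] at h2a
      rw [← h2a, Finset.sum_mul]
      refine Finset.sum_congr rfl (fun pos _ => ?_)
      rw [Finset.sum_mul]
      refine Finset.sum_congr rfl (fun t _ => ?_)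
      unfold Puz.cJ
      by_cases h : pos t = P.oth r' v
      · rw [if_pos h, if_pos h]
      · rw [if_neg h, if_neg h]; ring
    -- the gadget costs
    have h3 : ∑ pos ∈ fib P s₀ r, ∑ t, d t * θ r' (P.J r r' v (pos t)) = Θ r' := by
      have h4 : ∀ pos ∈ fib P s₀ r, ∑ t, d t * θ r' (P.J r r' v (pos t)) =
          ∑ L, (∑ t, if pos t = P.J r r' v L then d t else 0) * θ r' L := by
        intro pos _
        simp only [Finset.sum_mul]
        rw [Finset.sum_comm]
        refine Finset.sum_congr rfl (fun t _ => ?_)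
        rw [Finset.sum_eq_single (P.J r r' v (pos t))]
        · rw [if_pos]
          rw [J_J]
        · intro L _ hL
          rw [if_neg, zero_mul]
          intro h
          apply hL
          rw [h, J_J]
        · intro h
          exact absurd (Finset.mem_univ _) h
      rw [Finset.sum_congr rfl h4, Finset.sum_comm]
      refine Finset.sum_congr rfl (fun L _ => ?_)
      rw [← Finset.sum_mul, hMM]
      congr 1
      by_cases hL : P.On r' L
      · rw [if_pos hL, if_pos ((on_J ha L).2 hL)]
      · rw [if_neg hL, if_neg (fun h => hL ((on_J ha L).1 h))]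
        unfold Puz.J
        by_cases e1 : L = P.oth r' v
        · exact absurd (on_oth r' v) (e1 ▸ hL)
        · by_cases e2 : L = P.oth r v
          · rw [e2, Equiv.swap_apply_right]
            exact (hM2 r r' v ha).symm
          · rw [Equiv.swap_apply_of_ne_of_ne e1 e2]
    have h7 : ∑ pos ∈ fib P s₀ r, cost V θ d ρ (r, pos) =
        M (P.oth r' v) * (P.vol V r v - P.vol V r' v) + Θ r' := by
      rw [← h2, ← h3, ← Finset.sum_add_distrib]
      refine Finset.sum_congr rfl (fun pos _ => ?_)
      unfold Puz.cost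
      simp only [hρ1, hρ2]
      rw [← Finset.sum_add_distrib]
      refine Finset.sum_congr rfl (fun t _ => ?_)
      rw [mul_add]
    rw [h1, Finset.sum_add_distrib, h7]
    change Ψ r + _ - _ = _
    ring
  -- the value at a strand
  have key : ∀ v, ∃ c, ∀ r, P.On r v → Ψ r + M (P.oth r v) * P.vol V r v = c := by
    intro v
    by_cases hv : ∃ r, P.On r v
    · obtain ⟨r₀, hr₀⟩ := hv
      refine ⟨Ψ r₀ + M (P.oth r₀ v) * P.vol V r₀ v, fun r hr => ?_⟩
      exact const_at P hThree v (fun r => Ψ r + M (P.oth r v) * P.vol V r v)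
        (fun r => (Ψ (P.tau r) - Θ r) + M (P.oth r v) * P.vol V r v) (by
          intro r r' ha
          have h1 := hrel r r' v ha
          have h2 := hM2 r r' v ha
          change (Ψ (P.tau r') - Θ r') + M (P.oth r' v) * P.vol V r' v =
            Ψ r + M (P.oth r v) * P.vol V r v
          rw [h1, h2]
          ring) r₀ r hr₀ hr
    · exact ⟨0, fun r hr => absurd ⟨r, hr⟩ hv⟩
  choose B hB using key
  by_cases hR : Nonempty R
  · obtain ⟨r₀⟩ := hR
    have hmu := mu_ne_zero P M d hf hd hδ n hn (fun r => (hM3 r).1) r₀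
    have hconst : ∀ r, M (P.x r) + M (P.y r) = M (P.x r₀) + M (P.y r₀) := by
      have hsplit : ∀ r, M (P.x r) + M (P.y r) + n * ∑ t, d t = ∑ L, M L := by
        intro r
        rw [← sum_on P M r, ← (hM3 r).1, ← Finset.sum_add_distrib]
        apply Finset.sum_congr rfl
        intro L _
        by_cases ho : P.On r L
        · rw [if_pos ho, if_pos ho, add_zero]
        · rw [if_neg ho, if_neg ho, zero_add]
      intro r
      have h1 := hsplit r
      rw [← hsplit r₀] at h1
      exact add_right_cancel h1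
    refine ⟨fun v => - B v / (M (P.x r₀) + M (P.y r₀)), fun r => ?_⟩
    have h1 := hB (P.x r) r (Or.inl rfl)
    have h2 := hB (P.y r) r (Or.inr rfl)
    rw [oth_x, vol_x] at h1
    rw [oth_y, vol_y] at h2
    have h3 : B (P.x r) - B (P.y r) = (M (P.x r₀) + M (P.y r₀)) * V r := by
      rw [← hconst r, ← h1, ← h2]
      ring
    have h4 : - B (P.y r) / (M (P.x r₀) + M (P.y r₀)) - - B (P.x r) / (M (P.x r₀) + M (P.y r₀))
        = (B (P.x r) - B (P.y r)) / (M (P.x r₀) + M (P.y r₀)) := by
      rw [← sub_div]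
      congr 1
      ring
    simp only
    rw [h4, h3, mul_comm, mul_div_assoc, div_self hmu, mul_one]
  · exact ⟨fun _ => 0, fun r => absurd ⟨r⟩ hR⟩

end Pool.Agent.Lib.MP_688fd0_co.SQ2.V
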