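import Mathlib

/-!
Chapter V (voltages), abstract part: the hole puzzle on the strands and rungs of a place.

A state is a pair (cap rung `r`, positions `pos : Tok → S` of the tokens); a step goes from the cap rung `r` to a cup rung
`r'` that shares exactly the strand `v` with it: the token on the other end `u` of `r'` jumps to the other end `w` of `r`,
then the gadget `T r'` moves the tokens and leaves the cap `tau r'`.
-/

set_option autoImplicit false

namespace Pool.Agent.Lib.MP_688fd0_co.SQ2.V

/-- Strands `S`, rungs `R`, gadgets. -/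
structure Puz (S R : Type) where
  x : R → S
  y : R → S
  ne : ∀ r, x r ≠ y r
  tau : Equiv.Perm R
  T : R → Equiv.Perm S
  T_ends : ∀ r, (T r (x r) = x (tau r) ∧ T r (y r) = y (tau r)) ∨ (T r (x r) = y (tau r) ∧ T r (y r) = x (tau r))

namespace Puz

variable {S R : Type} [DecidableEq S] (P : Puz S R)

/-- `v` is an end of `r`. -/
def On (r : R) (v : S) : Prop := v = P.x r ∨ v = P.y r

instance (r : R) (v : S) : Decidable (P.On r v) := inferInstanceAs (Decidable (_ ∨ _))

/-- The other end. -/
def oth (r : R) (v : S) : S := if v = P.x r then P.y r else P.x r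

/-- `r` and `r'` share the strand `v` and nothing else. -/
def Adj (r r' : R) (v : S) : Prop := P.On r v ∧ P.On r' v ∧ P.oth r v ≠ P.oth r' v

/-- The jump: the token on the other end of `r'` goes to the other end of `r`. -/
def J (r r' : R) (v : S) : Equiv.Perm S := Equiv.swap (P.oth r' v) (P.oth r v)

/-- States. -/
abbrev St (S R Tok : Type) := R × (Tok → S)

/-- The step from the cap `s.1` to the cup `r'` over the strand `v`. -/
def step {Tok : Type} (r' : R) (v : S) (s : St S R Tok) : St S R Tok :=
  (P.tau r', fun t => P.T r' (P.J s.1 r' v (s.2 t)))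

/-- A rule: from every rung to an adjacent one, bijectively. -/
structure Rule where
  w : Equiv.Perm R
  v : R → S
  adj : ∀ r, P.Adj r (w r) (v r)

/-- The step of a rule. -/
def Rule.act {P : Puz S R} {Tok : Type} (ρ : P.Rule) (s : St S R Tok) : St S R Tok :=
  P.step (ρ.w s.1) (ρ.v s.1) s

/-- Every adjacent pair belongs to a rule. -/
def Full : Prop := ∀ r r' v, P.Adj r r' v → ∃ ρ : P.Rule, ρ.w r = r' ∧ ρ.v r = v

/-- A good state: the tokens sit on all the strands except the ends of the rung, one on each. -/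
def Good {Tok : Type} (s : St S R Tok) : Prop :=
  Function.Injective s.2 ∧ ∀ L, (∃ t, s.2 t = L) ↔ ¬ P.On s.1 L

/-- The state after a word (first letter first). -/
def run {P : Puz S R} {Tok : Type} : List P.Rule → St S R Tok → St S R Tok
  | [], s => s
  | ρ :: l, s => run l (ρ.act s)

/-- The states reachable from `s₀`. -/
def Reach {Tok : Type} (s₀ s : St S R Tok) : Prop := ∃ l : List P.Rule, run l s₀ = s

/-- Every strand has at least three neighbours: every two rungs at `v` with different other ends, and every rung, extend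
to a triple with three different other ends. -/
def Three : Prop := ∀ r v, P.On r v → ∃ r' r'', P.Adj r r' v ∧ P.Adj r r'' v ∧ P.Adj r' r'' v

/-- The rungs that avoid `L` are connected by adjacency, and three of them are pairwise adjacent. -/
def Avoid : Prop := ∀ L,
  (∀ r r', ¬ P.On r L → ¬ P.On r' L →
    Relation.ReflTransGen (fun a b => ¬ P.On a L ∧ ¬ P.On b L ∧ ∃ v, P.Adj a b v) r r') ∧
  ∃ r r' r'' v v' v'', ¬ P.On r L ∧ ¬ P.On r' L ∧ ¬ P.On r'' L ∧ P.Adj r r' v ∧ P.Adj r' r'' v' ∧ P.Adj r r'' v''

/-- All rungs are connected by adjacency. -/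
def Conn : Prop := ∀ r r', Relation.ReflTransGen (fun a b => ∃ v, P.Adj a b v) r r'

section cost

variable {F : Type} [Field F] (V : R → F) (θ : R → S → F)

/-- The voltage of `r` from `v` to the other end, `V` being the voltage from `x` to `y`. -/
def vol (r : R) (v : S) : F := if v = P.x r then V r else - V r

/-- The cost of the jump of a token at position `L`. -/
def cJ (r r' : R) (v L : S) : F := if L = P.oth r' v then P.vol V r v - P.vol V r' v else 0

/-- The cost of the step of a rule at the state `s`, with weights `d` of the tokens. -/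
def cost {P : Puz S R} {Tok : Type} [Fintype Tok] (V : R → F) (θ : R → S → F) (d : Tok → F) (ρ : P.Rule)
    (s : St S R Tok) : F :=
  ∑ t, d t * (P.cJ V s.1 (ρ.w s.1) (ρ.v s.1) (s.2 t) + θ (ρ.w s.1) (P.J s.1 (ρ.w s.1) (ρ.v s.1) (s.2 t)))

/-- The cost of a word. -/
def costs {P : Puz S R} {Tok : Type} [Fintype Tok] (V : R → F) (θ : R → S → F) (d : Tok → F) :
    List P.Rule → St S R Tok → F
  | [], _ => 0
  | ρ :: l, s => cost V θ d ρ s + costs V θ d l (ρ.act s)

end cost

end Puz

open Puz

open Classical in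
/-- The placements of the tokens in the reachable states with rung `r`. -/
noncomputable def fib {S R Tok : Type} [Fintype S] [Fintype Tok] (P : Puz S R) (s₀ : St S R Tok) (r : R) :
    Finset (Tok → S) := Finset.univ.filter fun pos => P.Reach s₀ (r, pos)

/-- Sum of the weights of the tokens on `L` over the reachable states with rung `r`. -/
noncomputable def MM {S R : Type} [Fintype S] [DecidableEq S] (P : Puz S R) {Tok F : Type} [Fintype Tok] [Field F]
    (d : Tok → F) (s₀ : St S R Tok) (r : R) (L : S) : F :=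
  ∑ pos ∈ fib P s₀ r, ∑ t, if pos t = L then d t else 0

/-- LEMMA M. -/
def LemmaM : Prop := ∀ (S R Tok F : Type) [Fintype S] [DecidableEq S] [Fintype R] [Fintype Tok] [Field F]
  (P : Puz S R) (d : Tok → F) (s₀ : St S R Tok), P.Full → P.Three → P.Avoid → P.Conn → P.Good s₀ →
  ∃ M : S → F, (∀ r L, ¬ P.On r L → MM P d s₀ r L = M L) ∧
    (∀ r r' v, P.Adj r r' v → M (P.oth r v) = M (P.oth r' v)) ∧
    ∃ n : ℕ, n ∣ (Fintype.card Tok).factorial ∧ ∀ r,
      (∑ L, if P.On r L then (0 : F) else M L) = n * ∑ t, d t ∧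
      (fib P s₀ r).card = n

/-- LEMMA A: without flips a multiple of the voltage is exact. -/
def LemmaA : Prop := ∀ (S R Tok F : Type) [Fintype S] [DecidableEq S] [Fintype R] [Fintype Tok] [Field F]
  (P : Puz S R) (V : R → F) (θ : R → S → F) (d : Tok → F) (s₀ : St S R Tok),
  P.Full → P.Three → P.Avoid → P.Conn → P.Good s₀ →
  ((Fintype.card Tok).factorial : F) ≠ 0 → (∑ t, d t) ≠ 0 →
  (∃ δ : ℕ, (δ : F) ≠ 0 ∧ ∀ L, {r | P.On r L}.ncard = δ) →
  (∀ l l' : List P.Rule, run l s₀ = run l' s₀ → costs V θ d l s₀ = costs V θ d l' s₀) →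
  ∃ B : S → F, ∀ r, V r = B (P.y r) - B (P.x r)

/-- LEMMA B: level independent labels `χ` of the strands. -/
def LemmaB : Prop := ∀ (S R Tok F : Type) [Fintype S] [DecidableEq S] [Fintype R] [Fintype Tok] [Field F]
  (P : Puz S R) (χ : S → F) (C : F) (d : Tok → F) (s₀ : St S R Tok),
  P.Full → P.Three → P.Avoid → P.Conn → P.Good s₀ →
  ((Fintype.card Tok).factorial : F) ≠ 0 → (∑ t, d t) ≠ 0 →
  (∃ δ : ℕ, (δ : F) ≠ 0 ∧ ∀ L, {r | P.On r L}.ncard = δ) →
  (∀ (s : St S R Tok) (r' : R) (v : S), P.Reach s₀ s → P.Adj s.1 r' v →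
    (∑ t, d t * (χ (s.2 t) + if s.2 t = P.oth r' v then χ (P.oth s.1 v) - χ v else 0)) = C) →
  ∀ r, χ (P.x r) = χ (P.y r)

end Pool.Agent.Lib.MP_688fd0_co.SQ2.V
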