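import Mathlib
import Pool.Agent.Lib.MP_688fd0_co.SQ2.V.Defs

/-!
Chapter V: from edge transitivity, `Three` and `Conn` to `Avoid` (no strand is a cut vertex).
-/

set_option autoImplicit false
set_option linter.unusedSectionVars false

namespace Pool.Agent.Lib.MP_688fd0_co.SQ2.V

open Puz

namespace AvoidOf

variable {S R : Type} [DecidableEq S] (P : Puz S R)

/-- Neighbouring strands. -/
def N (s t : S) : Prop := ∃ r, (P.x r = s ∧ P.y r = t) ∨ (P.x r = t ∧ P.y r = s)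

/-- Neighbours avoiding `L`. -/
def A (L s t : S) : Prop := N P s t ∧ s ≠ L ∧ t ≠ L

/-- Connected in the complement of `L`. -/
def C (L s t : S) : Prop := Relation.ReflTransGen (A P L) s t

variable {P}

theorem N.symm {s t : S} (h : N P s t) : N P t s := by
  obtain ⟨r, h | h⟩ := h
  · exact ⟨r, Or.inr h⟩
  · exact ⟨r, Or.inl h⟩

theorem C.symm {L s t : S} (h : C P L s t) : C P L t s := by
  have hs : Std.Symm (A P L) := ⟨fun a b ⟨h1, h2, h3⟩ => ⟨h1.symm, h3, h2⟩⟩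
  exact (@Relation.ReflTransGen.stdSymm _ _ hs).symm _ _ h

theorem on_x (r : R) : P.On r (P.x r) := Or.inl rfl
theorem on_y (r : R) : P.On r (P.y r) := Or.inr rfl

theorem oth_x (r : R) : P.oth r (P.x r) = P.y r := by simp [Puz.oth]
theorem oth_y (r : R) : P.oth r (P.y r) = P.x r := by simp [Puz.oth, (P.ne r).symm]

theorem N_of_on {r : R} {v : S} (h : P.On r v) : N P v (P.oth r v) := by
  rcases h with h | h
  · subst h; rw [oth_x]; exact ⟨r, Or.inl ⟨rfl, rfl⟩⟩
  · subst h; rw [oth_y]; exact ⟨r, Or.inr ⟨rfl, rfl⟩⟩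

theorem on_iff_oth {r : R} {v w : S} (h : P.On r v) : P.On r w ↔ w = v ∨ w = P.oth r v := by
  rcases h with h | h
  · subst h; rw [oth_x]; rfl
  · subst h; rw [oth_y]; exact or_comm

theorem oth_ne {r : R} {v : S} (h : P.On r v) : P.oth r v ≠ v := by
  rcases h with h | h
  · subst h; rw [oth_x]; exact (P.ne r).symm
  · subst h; rw [oth_y]; exact P.ne r

theorem rung_of_N {s t : S} (h : N P s t) : ∃ r, P.On r s ∧ P.oth r s = t := by
  obtain ⟨r, ⟨h1, h2⟩ | ⟨h1, h2⟩⟩ := h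
  · exact ⟨r, Or.inl h1.symm, by rw [← h1, oth_x, h2]⟩
  · exact ⟨r, Or.inr h2.symm, by rw [← h2, oth_y, h1]⟩

theorem N_ne {s t : S} (h : N P s t) : s ≠ t := by
  obtain ⟨r, h1, h2⟩ := rung_of_N h
  rw [← h2]; exact (oth_ne h1).symm

/-- The first hit of `L'`. -/
theorem first_hit {L' d z : S} (hd : d ≠ L') (h : Relation.ReflTransGen (N P) d z) :
    (z ≠ L' ∧ C P L' d z) ∨ ∃ e, C P L' d e ∧ e ≠ L' ∧ N P e L' := by
  induction h with
  | refl => exact Or.inl ⟨hd, Relation.ReflTransGen.refl⟩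
  | @tail b c _ hbc ih =>
    rcases ih with ⟨h1, h2⟩ | h
    · by_cases hc : c = L'
      · subst hc; exact Or.inr ⟨b, h2, h1, hbc⟩
      · exact Or.inl ⟨hc, h2.tail ⟨hbc, h1, hc⟩⟩
    · exact Or.inr h

/-- Strands with rungs are connected. -/
theorem conn_strands (hc : P.Conn) {r r' : R} {s t : S} (hs : P.On r s) (ht : P.On r' t) :
    Relation.ReflTransGen (N P) s t := by
  have hloc : ∀ {r : R} {s t : S}, P.On r s → P.On r t → Relation.ReflTransGen (N P) s t := by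
    intro r s t h1 h2
    rcases (on_iff_oth h1).1 h2 with rfl | rfl
    · exact Relation.ReflTransGen.refl
    · exact Relation.ReflTransGen.single (N_of_on h1)
  have key : ∀ {r r' : R}, Relation.ReflTransGen (fun a b => ∃ v, P.Adj a b v) r r' →
      ∀ {s t : S}, P.On r s → P.On r' t → Relation.ReflTransGen (N P) s t := by
    intro r r' h
    induction h with
    | refl => intro s t h1 h2; exact hloc h1 h2
    | tail _ hbc ih =>
      intro s t h1 h2
      obtain ⟨v, hv⟩ := hbc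
      exact (ih h1 hv.1).trans (hloc hv.2.1 h2)
  exact key (hc r r') hs ht

variable {Γ : Type} [Group Γ] [MulAction Γ S] [MulAction Γ R]

theorem N_smul (hxy : ∀ (g : Γ) (r : R), (P.x (g • r) = g • P.x r ∧ P.y (g • r) = g • P.y r) ∨
      (P.x (g • r) = g • P.y r ∧ P.y (g • r) = g • P.x r)) (g : Γ) {s t : S} (h : N P s t) :
    N P (g • s) (g • t) := by
  obtain ⟨r, ⟨h1, h2⟩ | ⟨h1, h2⟩⟩ := h
  · rcases hxy g r with ⟨h3, h4⟩ | ⟨h3, h4⟩
    · exact ⟨g • r, Or.inl ⟨by rw [h3, h1], by rw [h4, h2]⟩⟩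
    · exact ⟨g • r, Or.inr ⟨by rw [h3, h2], by rw [h4, h1]⟩⟩
  · rcases hxy g r with ⟨h3, h4⟩ | ⟨h3, h4⟩
    · exact ⟨g • r, Or.inr ⟨by rw [h3, h1], by rw [h4, h2]⟩⟩
    · exact ⟨g • r, Or.inl ⟨by rw [h3, h2], by rw [h4, h1]⟩⟩

theorem C_smul (hxy : ∀ (g : Γ) (r : R), (P.x (g • r) = g • P.x r ∧ P.y (g • r) = g • P.y r) ∨
      (P.x (g • r) = g • P.y r ∧ P.y (g • r) = g • P.x r)) (g : Γ) {L s t : S} (h : C P L s t) :
    C P (g • L) (g • s) (g • t) := by
  unfold C at h ⊢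
  induction h with
  | refl => exact Relation.ReflTransGen.refl
  | tail _ hbc ih =>
    refine ih.tail ⟨N_smul hxy g hbc.1, ?_, ?_⟩
    · intro e; exact hbc.2.1 (smul_left_cancel g e)
    · intro e; exact hbc.2.2 (smul_left_cancel g e)

theorem C_smul_iff (hxy : ∀ (g : Γ) (r : R), (P.x (g • r) = g • P.x r ∧ P.y (g • r) = g • P.y r) ∨
      (P.x (g • r) = g • P.y r ∧ P.y (g • r) = g • P.x r)) (g : Γ) {L s t : S} :
    C P (g • L) (g • s) (g • t) ↔ C P L s t := by
  constructor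
  · intro h
    have := C_smul hxy g⁻¹ h
    simpa using this
  · exact C_smul hxy g

/-- Edge transitivity: an edge at `L` goes to any edge. -/
theorem move (hxy : ∀ (g : Γ) (r : R), (P.x (g • r) = g • P.x r ∧ P.y (g • r) = g • P.y r) ∨
      (P.x (g • r) = g • P.y r ∧ P.y (g • r) = g • P.x r)) (htr : ∀ r r' : R, ∃ g : Γ, g • r = r')
    {L m s t : S} (h1 : N P L m) (h2 : N P s t) : ∃ g : Γ, g • L = s ∨ g • L = t := by
  obtain ⟨r, hr⟩ := h1
  obtain ⟨r', hr'⟩ := h2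
  obtain ⟨g, hg⟩ := htr r r'
  refine ⟨g, ?_⟩
  have h := hxy g r
  rw [hg] at h
  rcases hr with ⟨a1, a2⟩ | ⟨a1, a2⟩ <;> rcases hr' with ⟨b1, b2⟩ | ⟨b1, b2⟩ <;>
    rcases h with ⟨c1, c2⟩ | ⟨c1, c2⟩ <;> simp_all

/-- At least one neighbour besides `L`. -/
theorem exists_nb (h3 : P.Three) {s t L : S} (h : N P s t) : ∃ u, N P s u ∧ u ≠ L := by
  obtain ⟨r, h1, h2⟩ := rung_of_N h
  obtain ⟨r', r'', a1, a2, a3⟩ := h3 r s h1
  by_cases e : P.oth r s = L
  · exact ⟨P.oth r' s, N_of_on a1.2.1, fun h => a1.2.2 (e.trans h.symm)⟩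
  · exact ⟨P.oth r s, N_of_on h1, e⟩

open Classical in
/-- No strand is a cut vertex. -/
theorem no_cut [Fintype S] (hxy : ∀ (g : Γ) (r : R), (P.x (g • r) = g • P.x r ∧ P.y (g • r) = g • P.y r) ∨
      (P.x (g • r) = g • P.y r ∧ P.y (g • r) = g • P.x r)) (htr : ∀ r r' : R, ∃ g : Γ, g • r = r')
    (h3 : P.Three) (hc : P.Conn) : ∀ (n : ℕ) (L s : S), (Finset.univ.filter fun u => C P L s u).card = n →
      s ≠ L → (∃ m, N P L m) → (∃ m, N P s m) → ∀ t, t ≠ L → (∃ m, N P t m) → C P L s t := by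
  intro n
  induction n using Nat.strong_induction_on with
  | _ n ih =>
    intro L s hn hsL hL hs t htL ht
    by_contra hst
    obtain ⟨m, hm⟩ := hs
    obtain ⟨s', hs', hs'L⟩ := exists_nb h3 (L := L) hm
    obtain ⟨mL, hmL⟩ := hL
    obtain ⟨g, hg⟩ := move hxy htr hmL hs'
    obtain ⟨mt, hmt⟩ := ht
    -- the new cut vertex
    have hL'C : C P L s (g • L) := by
      rcases hg with h | h
      · rw [h]; exact Relation.ReflTransGen.refl
      · rw [h]; exact Relation.ReflTransGen.single ⟨hs', hsL, hs'L⟩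
    have hL'L : g • L ≠ L := by
      rcases hg with h | h
      · rw [h]; exact hsL
      · rw [h]; exact hs'L
    have hdis : ¬ C P (g • L) (g • s) (g • t) := fun h => hst ((C_smul_iff hxy g).1 h)
    have hd : ∃ d, d ≠ g • L ∧ (∃ m, N P d m) ∧ ¬ C P (g • L) d L := by
      by_cases h1 : C P (g • L) (g • s) L
      · refine ⟨g • t, fun e => htL (smul_left_cancel g e), ⟨_, N_smul hxy g hmt⟩, fun h2 => hdis (h1.trans h2.symm)⟩
      · exact ⟨g • s, fun e => hsL (smul_left_cancel g e), ⟨_, N_smul hxy g hm⟩, h1⟩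
    obtain ⟨d, hd1, ⟨md, hmd⟩, hd3⟩ := hd
    -- the smaller component
    have hsub : ∀ u, C P (g • L) d u → u ≠ L ∧ C P L d u := by
      intro u hu
      have hdL : d ≠ L := fun e => hd3 (e ▸ Relation.ReflTransGen.refl)
      induction hu with
      | refl => exact ⟨hdL, Relation.ReflTransGen.refl⟩
      | @tail b c hb hbc ihb =>
        have hcL : c ≠ L := fun e => hd3 (Eq.mp (congrArg (fun z => C P (g • L) d z) e)
          (Relation.ReflTransGen.tail hb hbc))
        exact ⟨hcL, ihb.2.tail ⟨hbc.1, ihb.1, hcL⟩⟩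
    have hconn : Relation.ReflTransGen (N P) d (g • L) := by
      obtain ⟨r1, hr1, _⟩ := rung_of_N hmd
      obtain ⟨r2, hr2, _⟩ := rung_of_N (N_smul hxy g hmL)
      exact conn_strands hc hr1 hr2
    have hLd : C P L s d := by
      rcases first_hit hd1 hconn with h | ⟨e, he1, he2, he3⟩
      · exact absurd rfl h.1
      · obtain ⟨e4, e5⟩ := hsub e he1
        have h6 : C P L e (g • L) := Relation.ReflTransGen.single ⟨he3, e4, hL'L⟩
        exact hL'C.trans (C.symm (e5.trans h6))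
    have hlt : (Finset.univ.filter fun u => C P (g • L) d u).card < n := by
      rw [← hn]
      apply Finset.card_lt_card
      rw [Finset.ssubset_iff_of_subset]
      · refine ⟨g • L, by simpa using hL'C, ?_⟩
        simp only [Finset.mem_filter, Finset.mem_univ, true_and]
        intro h
        have h7 : ∀ u, C P (g • L) d u → u ≠ g • L := by
          intro u hu
          induction hu with
          | refl => exact hd1
          | tail _ hbc _ => exact hbc.2.2
        exact h7 _ h rfl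
      · intro u hu
        simp only [Finset.mem_filter, Finset.mem_univ, true_and] at hu ⊢
        exact hLd.trans (hsub u hu).2
    exact hd3 (ih _ hlt (g • L) d rfl hd1 ⟨_, N_smul hxy g hmL⟩ ⟨md, hmd⟩ L hL'L.symm ⟨mL, hmL⟩)

end AvoidOf

open AvoidOf in
/-- Edge transitivity, at least three neighbours and connectedness give `Avoid`. -/
theorem avoid_of_cut {S R : Type} [Fintype S] [DecidableEq S] (P : Puz S R) {Γ : Type} [Group Γ] [MulAction Γ S]
    [MulAction Γ R] [Nonempty R]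
    (hxy : ∀ (g : Γ) (r : R), (P.x (g • r) = g • P.x r ∧ P.y (g • r) = g • P.y r) ∨
      (P.x (g • r) = g • P.y r ∧ P.y (g • r) = g • P.x r))
    (htr : ∀ r r' : R, ∃ g : Γ, g • r = r') (h3 : P.Three) (hc : P.Conn) : P.Avoid := by
  intro L
  -- connectedness of the complement of `L`
  have hC : ∀ s t, s ≠ L → t ≠ L → (∃ m, N P s m) → (∃ m, N P t m) → C P L s t := by
    intro s t hs ht ms mt
    by_cases hL : ∃ m, N P L m
    · exact no_cut hxy htr h3 hc _ L s rfl hs hL ms t ht mt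
    · obtain ⟨m1, h1⟩ := ms
      obtain ⟨m2, h2⟩ := mt
      obtain ⟨r1, hr1, _⟩ := rung_of_N h1
      obtain ⟨r2, hr2, _⟩ := rung_of_N h2
      rcases first_hit hs (conn_strands hc hr1 hr2) with h | ⟨e, _, _, he⟩
      · exact h.2
      · exact absurd ⟨e, he.symm⟩ hL
  have hav : ∀ {r : R} {v : S}, P.On r v → v ≠ L → P.oth r v ≠ L → ¬ P.On r L := by
    intro r v h1 h2 h4 h5
    rcases (on_iff_oth h1).1 h5 with h | h
    · exact h2 h.symm
    · exact h4 h.symm
  have hav' : ∀ {r : R} {v : S}, P.On r v → ¬ P.On r L → v ≠ L ∧ P.oth r v ≠ L := by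
    intro r v h1 h2
    refine ⟨fun h => h2 (h ▸ h1), fun h => h2 ((on_iff_oth h1).2 (Or.inr h.symm))⟩
  refine ⟨?_, ?_⟩
  · -- rungs
    have loc : ∀ {r r' : R} {v : S}, ¬ P.On r L → ¬ P.On r' L → P.On r v → P.On r' v →
        Relation.ReflTransGen (fun a b => ¬ P.On a L ∧ ¬ P.On b L ∧ ∃ v, P.Adj a b v) r r' := by
      intro r r' v h1 h2 h4 h5
      by_cases e : P.oth r v = P.oth r' v
      · obtain ⟨r1, r2, a1, a2, a3⟩ := h3 r v h4
        have hr'' : ∃ q, P.Adj r q v ∧ P.oth q v ≠ L := by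
          by_cases e1 : P.oth r1 v = L
          · exact ⟨r2, a2, fun h => a3.2.2 (e1.trans h.symm)⟩
          · exact ⟨r1, a1, e1⟩
        obtain ⟨q, q1, q2⟩ := hr''
        have hq : ¬ P.On q L := hav q1.2.1 (hav' h4 h1).1 q2
        refine Relation.ReflTransGen.trans (Relation.ReflTransGen.single ⟨h1, hq, v, q1⟩)
          (Relation.ReflTransGen.single ⟨hq, h2, v, q1.2.1, h5, fun h => q1.2.2 ?_⟩)
        rw [e, h]
      · exact Relation.ReflTransGen.single ⟨h1, h2, v, h4, h5, e⟩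
    have key : ∀ {a b : S}, C P L a b → ∀ {r r' : R}, ¬ P.On r L → ¬ P.On r' L → P.On r a → P.On r' b →
        Relation.ReflTransGen (fun a b => ¬ P.On a L ∧ ¬ P.On b L ∧ ∃ v, P.Adj a b v) r r' := by
      intro a b h
      induction h with
      | refl => intro r r' h1 h2 h4 h5; exact loc h1 h2 h4 h5
      | tail _ hbc ih =>
        intro r r' h1 h2 h4 h5
        obtain ⟨q, hq1, hq2⟩ := rung_of_N hbc.1
        have hq : ¬ P.On q L := hav hq1 hbc.2.1 (by rw [hq2]; exact hbc.2.2)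
        have hqc := (on_iff_oth hq1).2 (Or.inr hq2.symm)
        exact (ih h1 hq h4 hq1).trans (loc hq h2 hqc h5)
    intro r r' h1 h2
    exact key (hC (P.x r) (P.x r') (hav' (on_x r) h1).1 (hav' (on_x r') h2).1 ⟨_, N_of_on (on_x r)⟩
      ⟨_, N_of_on (on_x r')⟩) h1 h2 (on_x r) (on_x r')
  · -- three pairwise adjacent rungs
    by_contra hno
    -- no strand but `L` has three neighbours besides `L`
    have hno3 : ∀ {v : S} {q1 q2 q3 : R}, v ≠ L → P.Adj q1 q2 v → P.Adj q1 q3 v → P.Adj q2 q3 v →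
        P.oth q1 v = L ∨ P.oth q2 v = L ∨ P.oth q3 v = L := by
      intro v q1 q2 q3 hv h12 h13 h23
      by_contra hcon
      push Not at hcon
      exact hno ⟨q1, q2, q3, v, v, v, hav h12.1 hv hcon.1, hav h12.2.1 hv hcon.2.1, hav h13.2.1 hv hcon.2.2,
        h12, h23, h13⟩
    have hT1 : ∀ {v : S} {q1 q2 q3 : R}, v ≠ L → P.Adj q1 q2 v → P.Adj q1 q3 v → P.Adj q2 q3 v → P.oth q1 v = L →
        N P v L ∧ ∃ w w', w ≠ w' ∧ w ≠ L ∧ w' ≠ L ∧ N P v w ∧ N P v w' ∧ ∀ u, N P v u → u = L ∨ u = w ∨ u = w' := by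
      intro v q1 q2 q3 hv h12 h13 h23 e
      refine ⟨e ▸ N_of_on h12.1, P.oth q2 v, P.oth q3 v, h23.2.2, fun h => h12.2.2 (e.trans h.symm),
        fun h => h13.2.2 (e.trans h.symm), N_of_on h12.2.1, N_of_on h13.2.1, ?_⟩
      intro u hu
      by_contra hcon
      push Not at hcon
      obtain ⟨q, hq1, hq2⟩ := rung_of_N hu
      rcases hno3 hv h23 (⟨h23.1, hq1, by rw [hq2]; exact hcon.2.1.symm⟩ : P.Adj q2 q v)
        (⟨h23.2.1, hq1, by rw [hq2]; exact hcon.2.2.symm⟩ : P.Adj q3 q v) with h | h | h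
      · exact h12.2.2 (e.trans h.symm)
      · exact h13.2.2 (e.trans h.symm)
      · exact hcon.1 (hq2.symm.trans h)
    have asymm : ∀ {q q' : R} {v : S}, P.Adj q q' v → P.Adj q' q v := fun h => ⟨h.2.1, h.1, h.2.2.symm⟩
    have hT : ∀ {v : S}, v ≠ L → (∃ m, N P v m) →
        N P v L ∧ ∃ w w', w ≠ w' ∧ w ≠ L ∧ w' ≠ L ∧ N P v w ∧ N P v w' ∧ ∀ u, N P v u → u = L ∨ u = w ∨ u = w' := by
      rintro v hv ⟨m, hm⟩
      obtain ⟨q1, hq1, _⟩ := rung_of_N hm
      obtain ⟨q2, q3, a12, a13, a23⟩ := h3 q1 v hq1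
      rcases hno3 hv a12 a13 a23 with h | h | h
      · exact hT1 hv a12 a13 a23 h
      · exact hT1 hv (asymm a12) a23 a13 h
      · exact hT1 hv (asymm a13) (asymm a23) a12 h
    obtain ⟨r0⟩ := ‹Nonempty R›
    obtain ⟨v, hv, hvm⟩ : ∃ v, v ≠ L ∧ ∃ m, N P v m := by
      by_cases e : P.x r0 = L
      · exact ⟨P.y r0, fun h => P.ne r0 (e.trans h.symm), _, N_of_on (on_y r0)⟩
      · exact ⟨P.x r0, e, _, N_of_on (on_x r0)⟩
    obtain ⟨hvL, w, w', b1, b2, b3, b4, b5, b6⟩ := hT hv hvm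
    obtain ⟨hwL, c1, c2, d1, d2, d3, d4, d5, d6⟩ := hT b2 ⟨v, b4.symm⟩
    -- the third neighbour of `w`
    obtain ⟨u, hu1, hu2, hu3⟩ : ∃ u, N P w u ∧ u ≠ L ∧ u ≠ v := by
      by_cases e : c1 = v
      · exact ⟨c2, d5, d3, fun h => d1 (e.trans h.symm)⟩
      · exact ⟨c1, d4, d2, e⟩
    have huw' : u ≠ w' := by
      intro e
      subst e
      obtain ⟨q1, x1, y1⟩ := rung_of_N b4
      obtain ⟨q2, x2, y2⟩ := rung_of_N hu1
      obtain ⟨q3, x3, y3⟩ := rung_of_N b5
      have x1' : P.On q1 w := (on_iff_oth x1).2 (Or.inr y1.symm)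
      have x2' : P.On q2 u := (on_iff_oth x2).2 (Or.inr y2.symm)
      have x3' : P.On q3 u := (on_iff_oth x3).2 (Or.inr y3.symm)
      have oo : ∀ {q : R} {a b : S}, P.On q a → P.oth q a = b → P.oth q b = a := by
        rintro q a b (h | h) h'
        · subst h; rw [oth_x] at h'; rw [← h', oth_y]
        · subst h; rw [oth_y] at h'; rw [← h', oth_x]
      refine hno ⟨q1, q2, q3, w, u, v, hav x1 hv (by rw [y1]; exact b2), hav x2 b2 (by rw [y2]; exact hu2),
        hav x3 hv (by rw [y3]; exact b3), ⟨x1', x2, ?_⟩, ⟨x2', x3', ?_⟩, ⟨x1, x3, ?_⟩⟩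
      · rw [oo x1 y1, y2]; exact hu3.symm
      · rw [oo x2 y2, oo x3 y3]; exact (N_ne b4).symm
      · rw [y1, y3]; exact b1
    -- `L` has four neighbours
    have hw'L : N P w' L := (hT b3 ⟨v, b5.symm⟩).1
    have huL : N P u L := (hT hu2 ⟨w, hu1.symm⟩).1
    obtain ⟨g, hg⟩ := move hxy htr hvL.symm b4
    have hz : g • L ≠ L ∧ ∃ m, N P (g • L) m := by
      rcases hg with h | h
      · rw [h]; exact ⟨hv, _, b4⟩
      · rw [h]; exact ⟨b2, _, b4.symm⟩
    obtain ⟨_, z1, z2, _, _, _, _, _, z6⟩ := hT hz.1 hz.2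
    have k1 := z6 _ (N_smul hxy g hvL.symm)
    have k2 := z6 _ (N_smul hxy g hwL.symm)
    have k3 := z6 _ (N_smul hxy g hw'L.symm)
    have k4 := z6 _ (N_smul hxy g huL.symm)
    have n1 : g • v ≠ g • w := fun h => (N_ne b4) (smul_left_cancel g h)
    have n2 : g • v ≠ g • w' := fun h => (N_ne b5) (smul_left_cancel g h)
    have n3 : g • v ≠ g • u := fun h => hu3 (smul_left_cancel g h).symm
    have n4 : g • w ≠ g • w' := fun h => b1 (smul_left_cancel g h)
    have n5 : g • w ≠ g • u := fun h => (N_ne hu1) (smul_left_cancel g h)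
    have n6 : g • w' ≠ g • u := fun h => huw' (smul_left_cancel g h).symm
    grind

end Pool.Agent.Lib.MP_688fd0_co.SQ2.V
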