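import Mathlib
import Pool.Agent.Lib.MP_688fd0_co.SQ2.V.Defs

/-!
Chapter V: the two-sheet place.  Rungs = elements of a finite group `G` generated by `a` and `c`, strands = the cosets of
`⟨a⟩` (sheet 0) and of `⟨c⟩` (sheet 1); the rung `r` joins `r⟨a⟩` and `r⟨c⟩`.
-/

set_option autoImplicit false

namespace Pool.Agent.Lib.MP_688fd0_co.SQ2.V

open Subgroup Puz

section two

variable {G : Type} [Group G] (a c : G)

/-- The strands of the two-sheet place. -/
abbrev S2 : Type := (G ⧸ zpowers a) ⊕ (G ⧸ zpowers c)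

noncomputable instance : DecidableEq (S2 a c) := Classical.decEq _

/-- The two-sheet place. -/
def puz2 (tau : Equiv.Perm G) (T : G → Equiv.Perm (S2 a c))
    (hT : ∀ r, (T r (Sum.inl (r : G ⧸ zpowers a)) = Sum.inl (tau r : G ⧸ zpowers a) ∧
        T r (Sum.inr (r : G ⧸ zpowers c)) = Sum.inr (tau r : G ⧸ zpowers c)) ∨
      (T r (Sum.inl (r : G ⧸ zpowers a)) = Sum.inr (tau r : G ⧸ zpowers c) ∧
        T r (Sum.inr (r : G ⧸ zpowers c)) = Sum.inl (tau r : G ⧸ zpowers a))) : Puz (S2 a c) G where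
  x r := Sum.inl (r : G ⧸ zpowers a)
  y r := Sum.inr (r : G ⧸ zpowers c)
  ne r := by simp
  tau := tau
  T := T
  T_ends := hT

variable {a c}
variable {tau : Equiv.Perm G} {T : G → Equiv.Perm (S2 a c)}
  {hT : ∀ r, (T r (Sum.inl (r : G ⧸ zpowers a)) = Sum.inl (tau r : G ⧸ zpowers a) ∧
        T r (Sum.inr (r : G ⧸ zpowers c)) = Sum.inr (tau r : G ⧸ zpowers c)) ∨
      (T r (Sum.inl (r : G ⧸ zpowers a)) = Sum.inr (tau r : G ⧸ zpowers c) ∧
        T r (Sum.inr (r : G ⧸ zpowers c)) = Sum.inl (tau r : G ⧸ zpowers a))}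

theorem on_inl {r : G} {q : G ⧸ zpowers a} : (puz2 a c tau T hT).On r (Sum.inl q) ↔ q = (r : G ⧸ zpowers a) := by
  simp [Puz.On, puz2]

theorem on_inr {r : G} {q : G ⧸ zpowers c} : (puz2 a c tau T hT).On r (Sum.inr q) ↔ q = (r : G ⧸ zpowers c) := by
  simp [Puz.On, puz2]

theorem oth_inl (r : G) : (puz2 a c tau T hT).oth r (Sum.inl (r : G ⧸ zpowers a)) = Sum.inr (r : G ⧸ zpowers c) := by
  simp [Puz.oth, puz2]

theorem oth_inr (r : G) : (puz2 a c tau T hT).oth r (Sum.inr (r : G ⧸ zpowers c)) = Sum.inl (r : G ⧸ zpowers a) := by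
  simp [Puz.oth, puz2]

theorem adj_inl {r r' : G} {q : G ⧸ zpowers a} : (puz2 a c tau T hT).Adj r r' (Sum.inl q) ↔
    q = (r : G ⧸ zpowers a) ∧ r⁻¹ * r' ∈ zpowers a ∧ r⁻¹ * r' ∉ zpowers c := by
  unfold Puz.Adj
  rw [on_inl, on_inl]
  constructor
  · rintro ⟨h1, h2, h3⟩
    have h4 : (r : G ⧸ zpowers a) = (r' : G ⧸ zpowers a) := h1.symm.trans h2
    refine ⟨h1, QuotientGroup.eq.1 h4, fun h => h3 ?_⟩
    have e1 : (puz2 a c tau T hT).oth r (Sum.inl q) = Sum.inr (r : G ⧸ zpowers c) := by rw [h1]; exact oth_inl r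
    have e2 : (puz2 a c tau T hT).oth r' (Sum.inl q) = Sum.inr (r' : G ⧸ zpowers c) := by rw [h2]; exact oth_inl r'
    rw [e1, e2, QuotientGroup.eq.2 h]
  · rintro ⟨h1, h2, h3⟩
    have h4 : (r : G ⧸ zpowers a) = (r' : G ⧸ zpowers a) := QuotientGroup.eq.2 h2
    have h5 := h1.trans h4
    refine ⟨h1, h5, ?_⟩
    have e1 : (puz2 a c tau T hT).oth r (Sum.inl q) = Sum.inr (r : G ⧸ zpowers c) := by rw [h1]; exact oth_inl r
    have e2 : (puz2 a c tau T hT).oth r' (Sum.inl q) = Sum.inr (r' : G ⧸ zpowers c) := by rw [h5]; exact oth_inl r'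
    rw [e1, e2]
    intro h
    exact h3 (QuotientGroup.eq.1 (Sum.inr_injective h))

theorem adj_inr {r r' : G} {q : G ⧸ zpowers c} : (puz2 a c tau T hT).Adj r r' (Sum.inr q) ↔
    q = (r : G ⧸ zpowers c) ∧ r⁻¹ * r' ∈ zpowers c ∧ r⁻¹ * r' ∉ zpowers a := by
  unfold Puz.Adj
  rw [on_inr, on_inr]
  constructor
  · rintro ⟨h1, h2, h3⟩
    have h4 : (r : G ⧸ zpowers c) = (r' : G ⧸ zpowers c) := h1.symm.trans h2
    refine ⟨h1, QuotientGroup.eq.1 h4, fun h => h3 ?_⟩
    have e1 : (puz2 a c tau T hT).oth r (Sum.inr q) = Sum.inl (r : G ⧸ zpowers a) := by rw [h1]; exact oth_inr r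
    have e2 : (puz2 a c tau T hT).oth r' (Sum.inr q) = Sum.inl (r' : G ⧸ zpowers a) := by rw [h2]; exact oth_inr r'
    rw [e1, e2, QuotientGroup.eq.2 h]
  · rintro ⟨h1, h2, h3⟩
    have h4 : (r : G ⧸ zpowers c) = (r' : G ⧸ zpowers c) := QuotientGroup.eq.2 h2
    have h5 := h1.trans h4
    refine ⟨h1, h5, ?_⟩
    have e1 : (puz2 a c tau T hT).oth r (Sum.inr q) = Sum.inl (r : G ⧸ zpowers a) := by rw [h1]; exact oth_inr r
    have e2 : (puz2 a c tau T hT).oth r' (Sum.inr q) = Sum.inl (r' : G ⧸ zpowers a) := by rw [h5]; exact oth_inr r'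
    rw [e1, e2]
    intro h
    exact h3 (QuotientGroup.eq.1 (Sum.inl_injective h))

/-- Every adjacent pair belongs to a right multiplication. -/
theorem full2 : (puz2 a c tau T hT).Full := by
  intro r r' v hv
  rcases v with q | q
  · have h := adj_inl.1 hv
    refine ⟨⟨Equiv.mulRight (r⁻¹ * r'), fun s => Sum.inl (s : G ⧸ zpowers a), fun s => ?_⟩, ?_, ?_⟩
    · have e1 : s⁻¹ * (Equiv.mulRight (r⁻¹ * r')) s = r⁻¹ * r' := inv_mul_cancel_left s _
      exact adj_inl.2 ⟨rfl, by rw [e1]; exact h.2.1, by rw [e1]; exact h.2.2⟩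
    · simp
    · simp [h.1]
  · have h := adj_inr.1 hv
    refine ⟨⟨Equiv.mulRight (r⁻¹ * r'), fun s => Sum.inr (s : G ⧸ zpowers c), fun s => ?_⟩, ?_, ?_⟩
    · have e1 : s⁻¹ * (Equiv.mulRight (r⁻¹ * r')) s = r⁻¹ * r' := inv_mul_cancel_left s _
      exact adj_inr.2 ⟨rfl, by rw [e1]; exact h.2.1, by rw [e1]; exact h.2.2⟩
    · simp
    · simp [h.1]

/-- Every strand has three neighbours. -/
theorem three2 (ha : a ∉ zpowers c) (ha2 : a ^ 2 ∉ zpowers c) (hc : c ∉ zpowers a) (hc2 : c ^ 2 ∉ zpowers a) :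
    (puz2 a c tau T hT).Three := by
  intro r v hv
  have e1 : ∀ g : G, (r)⁻¹ * (r * g) = g := fun g => by group
  have e2 : ∀ g : G, (r * g)⁻¹ * (r * g ^ 2) = g := fun g => by group
  rcases v with q | q
  · have h := on_inl.1 hv
    have hq : q = ((r * a : G) : G ⧸ zpowers a) := by
      rw [h]; exact QuotientGroup.eq.2 (by rw [e1]; exact mem_zpowers a)
    refine ⟨r * a, r * a ^ 2, adj_inl.2 ⟨h, ?_, ?_⟩, adj_inl.2 ⟨h, ?_, ?_⟩, adj_inl.2 ⟨hq, ?_, ?_⟩⟩
    · rw [e1]; exact mem_zpowers a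
    · rw [e1]; exact ha
    · rw [e1]; exact npow_mem_zpowers a 2
    · rw [e1]; exact ha2
    · rw [e2]; exact mem_zpowers a
    · rw [e2]; exact ha
  · have h := on_inr.1 hv
    have hq : q = ((r * c : G) : G ⧸ zpowers c) := by
      rw [h]; exact QuotientGroup.eq.2 (by rw [e1]; exact mem_zpowers c)
    refine ⟨r * c, r * c ^ 2, adj_inr.2 ⟨h, ?_, ?_⟩, adj_inr.2 ⟨h, ?_, ?_⟩, adj_inr.2 ⟨hq, ?_, ?_⟩⟩
    · rw [e1]; exact mem_zpowers c
    · rw [e1]; exact hc
    · rw [e1]; exact npow_mem_zpowers c 2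
    · rw [e1]; exact hc2
    · rw [e2]; exact mem_zpowers c
    · rw [e2]; exact hc

/-- All rungs are connected. -/
theorem conn2 (ha : a ∉ zpowers c) (hc : c ∉ zpowers a) (hG : closure ({a, c} : Set G) = ⊤) :
    (puz2 a c tau T hT).Conn := by
  intro r r'
  have key : ∀ g ∈ closure ({a, c} : Set G), ∀ r : G, Relation.ReflTransGen
      (fun s t => ∃ v, (puz2 a c tau T hT).Adj s t v) r (r * g) := by
    intro g hg
    induction hg using Subgroup.closure_induction with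
    | mem g hg =>
      intro r
      have e1 : (r)⁻¹ * (r * g) = g := by group
      rcases hg with rfl | hg
      · refine Relation.ReflTransGen.single ⟨Sum.inl (r : G ⧸ zpowers g), adj_inl.2 ⟨rfl, ?_, ?_⟩⟩
        · rw [e1]; exact mem_zpowers g
        · rw [e1]; exact ha
      · have hg' : g = c := hg
        subst hg'
        refine Relation.ReflTransGen.single ⟨Sum.inr (r : G ⧸ zpowers g), adj_inr.2 ⟨rfl, ?_, ?_⟩⟩
        · rw [e1]; exact mem_zpowers g
        · rw [e1]; exact hc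
    | one => intro r; simpa using Relation.ReflTransGen.refl
    | mul g h _ _ ig ih => intro r; have := (ig r).trans (ih (r * g)); simpa [mul_assoc] using this
    | inv g _ ig =>
      intro r
      have h := ig (r * g⁻¹)
      have h2 : Relation.ReflTransGen (fun s t => ∃ v, (puz2 a c tau T hT).Adj s t v) (r * g⁻¹) r := by simpa using h
      have hs : Std.Symm (fun s t => ∃ v, (puz2 a c tau T hT).Adj s t v) :=
        ⟨fun s t ⟨v, h1, h2, h3⟩ => ⟨v, h2, h1, h3.symm⟩⟩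
      exact (@Relation.ReflTransGen.stdSymm _ _ hs).symm _ _ h2
  have h := key (r⁻¹ * r') (by rw [hG]; exact mem_top _) r
  simpa using h

/-- Every strand is on `orderOf a = orderOf c` rungs. -/
theorem deg2 [Finite G] (h : orderOf a = orderOf c) (L : S2 a c) :
    {r | (puz2 a c tau T hT).On r L}.ncard = orderOf a := by
  rcases L with q | q
  · obtain ⟨g, rfl⟩ := QuotientGroup.mk_surjective q
    have e : {r | (puz2 a c tau T hT).On r (Sum.inl (g : G ⧸ zpowers a))} = (fun x => g * x) '' (zpowers a : Set G) := by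
      ext r
      simp only [Set.mem_ofPred_eq, on_inl, Set.mem_image, SetLike.mem_coe]
      constructor
      · intro h; exact ⟨g⁻¹ * r, QuotientGroup.eq.1 h, by group⟩
      · rintro ⟨x, hx, rfl⟩; exact QuotientGroup.eq.2 (by simpa using hx)
    rw [e, Set.ncard_image_of_injective _ (mul_right_injective g), ← Nat.card_zpowers]
    rfl
  · obtain ⟨g, rfl⟩ := QuotientGroup.mk_surjective q
    have e : {r | (puz2 a c tau T hT).On r (Sum.inr (g : G ⧸ zpowers c))} = (fun x => g * x) '' (zpowers c : Set G) := by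
      ext r
      simp only [Set.mem_ofPred_eq, on_inr, Set.mem_image, SetLike.mem_coe]
      constructor
      · intro h; exact ⟨g⁻¹ * r, QuotientGroup.eq.1 h, by group⟩
      · rintro ⟨x, hx, rfl⟩; exact QuotientGroup.eq.2 (by simpa using hx)
    rw [e, Set.ncard_image_of_injective _ (mul_right_injective g), h, ← Nat.card_zpowers]
    rfl

end two

end Pool.Agent.Lib.MP_688fd0_co.SQ2.V
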