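import Mathlib
import Pool.Agent.Lib.MP_688fd0_co.SQ2.V.AvoidOf
import Pool.Agent.Lib.MP_688fd0_co.SQ2.V.Coset2

/-!
Chapter V: the two-sheet place satisfies `Avoid`.
-/

set_option autoImplicit false

namespace Pool.Agent.Lib.MP_688fd0_co.SQ2.V

open Subgroup Puz

theorem avoid2 {G : Type} [Group G] [Finite G] {a c : G} {tau : Equiv.Perm G} {T : G → Equiv.Perm (S2 a c)}
    {hT : ∀ r, (T r (Sum.inl (r : G ⧸ zpowers a)) = Sum.inl (tau r : G ⧸ zpowers a) ∧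
        T r (Sum.inr (r : G ⧸ zpowers c)) = Sum.inr (tau r : G ⧸ zpowers c)) ∨
      (T r (Sum.inl (r : G ⧸ zpowers a)) = Sum.inr (tau r : G ⧸ zpowers c) ∧
        T r (Sum.inr (r : G ⧸ zpowers c)) = Sum.inl (tau r : G ⧸ zpowers a))}
    (ha : a ∉ zpowers c) (ha2 : a ^ 2 ∉ zpowers c) (hc : c ∉ zpowers a) (hc2 : c ^ 2 ∉ zpowers a)
    (hG : closure ({a, c} : Set G) = ⊤) : (puz2 a c tau T hT).Avoid := by
  classical
  haveI : Fintype (G ⧸ zpowers a) := Fintype.ofFinite _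
  haveI : Fintype (G ⧸ zpowers c) := Fintype.ofFinite _
  refine avoid_of_cut (Γ := G) (puz2 a c tau T hT) ?_ ?_ (three2 ha ha2 hc hc2) (conn2 ha hc hG)
  · intro g r
    exact Or.inl ⟨rfl, rfl⟩
  · intro r r'
    exact ⟨r' * r⁻¹, by simp⟩

end Pool.Agent.Lib.MP_688fd0_co.SQ2.V
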