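import Mathlib
import Pool.Agent.Lib.MP_688fd0_co.SQ2.V.AvoidOf

/-!
Chapter V: the one-sheet place.  Rungs = elements of a finite group `G` generated by `a` and `b`, strands = the cosets of
`⟨a⟩`; the rung `r` joins `r⟨a⟩` and `rb⟨a⟩`.  The first section treats every puzzle whose rungs form a group acting
on the strands (`Reg`).
-/

set_option autoImplicit false

namespace Pool.Agent.Lib.MP_688fd0_co.SQ2.V

open Subgroup Puz

section reg

variable {S G : Type} [DecidableEq S] [Group G] [MulAction G S]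

/-- The rungs are the elements of a group that acts on the strands, compatibly with left multiplication. -/
def Reg (P : Puz S G) : Prop := ∀ g r : G, P.x (g * r) = g • P.x r ∧ P.y (g * r) = g • P.y r

variable {P : Puz S G}

omit [DecidableEq S] in
theorem Reg.on (h : Reg P) (g r : G) (v : S) : P.On (g * r) (g • v) ↔ P.On r v := by
  unfold Puz.On
  rw [(h g r).1, (h g r).2]
  constructor
  · rintro (e | e)
    · exact Or.inl (MulAction.injective g e)
    · exact Or.inr (MulAction.injective g e)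
  · rintro (e | e)
    · exact Or.inl (congrArg (g • ·) e)
    · exact Or.inr (congrArg (g • ·) e)

theorem Reg.oth (h : Reg P) (g r : G) (v : S) : P.oth (g * r) (g • v) = g • P.oth r v := by
  unfold Puz.oth
  rw [(h g r).1, (h g r).2]
  by_cases e : v = P.x r
  · rw [if_pos e, if_pos (congrArg (g • ·) e)]
  · rw [if_neg e, if_neg (fun e' => e (MulAction.injective g e'))]

theorem Reg.adj (h : Reg P) (g r r' : G) (v : S) : P.Adj (g * r) (g * r') (g • v) ↔ P.Adj r r' v := by
  unfold Puz.Adj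
  rw [h.on, h.on, h.oth, h.oth]
  constructor
  · rintro ⟨h1, h2, h3⟩
    exact ⟨h1, h2, fun e => h3 (congrArg (g • ·) e)⟩
  · rintro ⟨h1, h2, h3⟩
    exact ⟨h1, h2, fun e => h3 (MulAction.injective g e)⟩

/-- Every adjacent pair belongs to a right multiplication. -/
theorem Reg.full (h : Reg P) : P.Full := by
  intro r r' v hv
  refine ⟨⟨Equiv.mulRight (r⁻¹ * r'), fun s => (s * r⁻¹) • v, fun s => ?_⟩, ?_, ?_⟩
  · have := (h.adj (s * r⁻¹) r r' v).2 hv
    rw [inv_mul_cancel_right] at this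
    have e : (Equiv.mulRight (r⁻¹ * r')) s = s * r⁻¹ * r' := by
      change s * (r⁻¹ * r') = _
      rw [mul_assoc]
    rw [e]
    exact this
  · change r * (r⁻¹ * r') = r'
    rw [mul_inv_cancel_left]
  · change (r * r⁻¹) • v = v
    rw [mul_inv_cancel, one_smul]

/-- It is enough to check `Three` at the rung `1`. -/
theorem Reg.three (h : Reg P) (h1 : ∀ v, P.On 1 v → ∃ r' r'', P.Adj 1 r' v ∧ P.Adj 1 r'' v ∧ P.Adj r' r'' v) :
    P.Three := by
  intro r v hv
  have hv' : P.On 1 (r⁻¹ • v) := by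
    rw [← h.on r 1, smul_inv_smul, mul_one]; exact hv
  obtain ⟨s, t, h2, h3, h4⟩ := h1 _ hv'
  have k2 := (h.adj r 1 s _).2 h2
  have k3 := (h.adj r 1 t _).2 h3
  have k4 := (h.adj r s t _).2 h4
  rw [smul_inv_smul, mul_one] at k2 k3
  rw [smul_inv_smul] at k4
  exact ⟨r * s, r * t, k2, k3, k4⟩

/-- It is enough that `1` is adjacent to all elements of a generating set. -/
theorem Reg.conn (h : Reg P) (X : Set G) (hX : closure X = ⊤) (h1 : ∀ g ∈ X, ∃ v, P.Adj 1 g v) : P.Conn := by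
  intro r r'
  have key : ∀ g ∈ closure X, ∀ r : G, Relation.ReflTransGen (fun s t => ∃ v, P.Adj s t v) r (r * g) := by
    intro g hg
    induction hg using Subgroup.closure_induction with
    | mem g hg =>
      intro r
      obtain ⟨v, hv⟩ := h1 g hg
      refine Relation.ReflTransGen.single ⟨r • v, ?_⟩
      have := (h.adj r 1 g v).2 hv
      rwa [mul_one] at this
    | one => intro r; simpa using Relation.ReflTransGen.refl
    | mul g h _ _ ig ih => intro r; have := (ig r).trans (ih (r * g)); simpa [mul_assoc] using this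
    | inv g _ ig =>
      intro r
      have h := ig (r * g⁻¹)
      have h2 : Relation.ReflTransGen (fun s t => ∃ v, P.Adj s t v) (r * g⁻¹) r := by simpa using h
      have hs : Std.Symm (fun s t => ∃ v, P.Adj s t v) := ⟨fun s t ⟨v, h1, h2, h3⟩ => ⟨v, h2, h1, h3.symm⟩⟩
      exact (@Relation.ReflTransGen.stdSymm _ _ hs).symm _ _ h2
  have h := key (r⁻¹ * r') (by rw [hX]; exact mem_top _) r
  simpa using h

/-- `Avoid` for such a puzzle. -/
theorem Reg.avoid [Fintype S] (h : Reg P) (h3 : P.Three) (hc : P.Conn) : P.Avoid := by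
  refine avoid_of_cut (Γ := G) P ?_ ?_ h3 hc
  · intro g r
    exact Or.inl (h g r)
  · intro r r'
    exact ⟨r' * r⁻¹, by simp⟩

end reg

section one

variable {G : Type} [Group G] (a b : G)

/-- The strands of the one-sheet place. -/
abbrev S1 : Type := G ⧸ zpowers a

noncomputable instance : DecidableEq (S1 a) := Classical.decEq _

/-- The one-sheet place. -/
def puz1 (hb : b ∉ zpowers a) (tau : Equiv.Perm G) (T : G → Equiv.Perm (S1 a))
    (hT : ∀ r, (T r (r : G ⧸ zpowers a) = (tau r : G ⧸ zpowers a) ∧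
        T r ((r * b : G) : G ⧸ zpowers a) = ((tau r * b : G) : G ⧸ zpowers a)) ∨
      (T r (r : G ⧸ zpowers a) = ((tau r * b : G) : G ⧸ zpowers a) ∧
        T r ((r * b : G) : G ⧸ zpowers a) = (tau r : G ⧸ zpowers a))) : Puz (S1 a) G where
  x r := (r : G ⧸ zpowers a)
  y r := ((r * b : G) : G ⧸ zpowers a)
  ne r h := hb (by have := QuotientGroup.eq.1 h; rwa [inv_mul_cancel_left] at this)
  tau := tau
  T := T
  T_ends := hT

variable {a b}
variable {hb : b ∉ zpowers a} {tau : Equiv.Perm G} {T : G → Equiv.Perm (S1 a)}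
  {hT : ∀ r, (T r (r : G ⧸ zpowers a) = (tau r : G ⧸ zpowers a) ∧
        T r ((r * b : G) : G ⧸ zpowers a) = ((tau r * b : G) : G ⧸ zpowers a)) ∨
      (T r (r : G ⧸ zpowers a) = ((tau r * b : G) : G ⧸ zpowers a) ∧
        T r ((r * b : G) : G ⧸ zpowers a) = (tau r : G ⧸ zpowers a))}

theorem reg1 : Reg (puz1 a b hb tau T hT) := fun g r =>
  ⟨rfl, by change ((g * r * b : G) : G ⧸ zpowers a) = ((g * (r * b) : G) : G ⧸ zpowers a); rw [mul_assoc]⟩

theorem x1 (r : G) : (puz1 a b hb tau T hT).x r = (r : G ⧸ zpowers a) := rfl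

theorem y1 (r : G) : (puz1 a b hb tau T hT).y r = ((r * b : G) : G ⧸ zpowers a) := rfl

/-- Every adjacent pair belongs to a right multiplication. -/
theorem full1 : (puz1 a b hb tau T hT).Full := reg1.full

/-- Adjacency over a common first end. -/
theorem adj_xx {g : G} (h1 : g ∈ zpowers a) (h2 : b⁻¹ * g * b ∉ zpowers a) :
    (puz1 a b hb tau T hT).Adj 1 g ((1 : G) : G ⧸ zpowers a) := by
  have e : ((1 : G) : G ⧸ zpowers a) = (g : G ⧸ zpowers a) := QuotientGroup.eq.2 (by simpa using h1)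
  refine ⟨Or.inl rfl, Or.inl e, ?_⟩
  have e1 : (puz1 a b hb tau T hT).oth 1 ((1 : G) : G ⧸ zpowers a) = ((1 * b : G) : G ⧸ zpowers a) := if_pos rfl
  have e2 : (puz1 a b hb tau T hT).oth g ((1 : G) : G ⧸ zpowers a) = ((g * b : G) : G ⧸ zpowers a) := if_pos e
  rw [e1, e2]
  intro h
  apply h2
  have := QuotientGroup.eq.1 h
  simpa [mul_assoc] using this

/-- Adjacency over a common second end. -/
theorem adj_yy {g : G} (h1 : g ∉ zpowers a) (h2 : b⁻¹ * g * b ∈ zpowers a) :
    (puz1 a b hb tau T hT).Adj 1 g ((1 * b : G) : G ⧸ zpowers a) := by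
  have e : ((1 * b : G) : G ⧸ zpowers a) = ((g * b : G) : G ⧸ zpowers a) :=
    QuotientGroup.eq.2 (by simpa [mul_assoc] using h2)
  refine ⟨Or.inr rfl, Or.inr e, ?_⟩
  have e1 : (puz1 a b hb tau T hT).oth 1 ((1 * b : G) : G ⧸ zpowers a) = ((1 : G) : G ⧸ zpowers a) :=
    if_neg ((puz1 a b hb tau T hT).ne 1).symm
  have e2 : (puz1 a b hb tau T hT).oth g ((1 * b : G) : G ⧸ zpowers a) = (g : G ⧸ zpowers a) := by
    rw [e]
    exact if_neg ((puz1 a b hb tau T hT).ne g).symm
  rw [e1, e2]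
  intro h
  apply h1
  have := QuotientGroup.eq.1 h
  simpa using this

/-- Adjacency of `1` and `b`. -/
theorem adj_yx (h2 : b ^ 2 ∉ zpowers a) :
    (puz1 a b hb tau T hT).Adj 1 b ((1 * b : G) : G ⧸ zpowers a) := by
  have e : ((1 * b : G) : G ⧸ zpowers a) = (b : G ⧸ zpowers a) := by rw [one_mul]
  refine ⟨Or.inr rfl, Or.inl e, ?_⟩
  have e1 : (puz1 a b hb tau T hT).oth 1 ((1 * b : G) : G ⧸ zpowers a) = ((1 : G) : G ⧸ zpowers a) :=
    if_neg ((puz1 a b hb tau T hT).ne 1).symm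
  have e2 : (puz1 a b hb tau T hT).oth b ((1 * b : G) : G ⧸ zpowers a) = ((b * b : G) : G ⧸ zpowers a) := if_pos e
  rw [e1, e2]
  intro h
  apply h2
  have := QuotientGroup.eq.1 h
  simpa [pow_two] using this

/-- Every strand has three neighbours. -/
theorem three1 (ha : b⁻¹ * a * b ∉ zpowers a) (ha2 : b⁻¹ * a ^ 2 * b ∉ zpowers a) (hc : b * a * b⁻¹ ∉ zpowers a)
    (hc2 : b * a ^ 2 * b⁻¹ ∉ zpowers a) : (puz1 a b hb tau T hT).Three := by
  have R : Reg (puz1 a b hb tau T hT) := reg1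
  refine R.three ?_
  rintro v (rfl | rfl)
  · refine ⟨a, a ^ 2, adj_xx (mem_zpowers a) ha, adj_xx (npow_mem_zpowers a 2) ha2, ?_⟩
    have h := (R.adj a 1 a _).2 (adj_xx (mem_zpowers a) ha)
    have e : a • ((1 : G) : G ⧸ zpowers a) = ((1 : G) : G ⧸ zpowers a) := by
      change ((a * 1 : G) : G ⧸ zpowers a) = _
      exact QuotientGroup.eq.2 (by simp)
    rw [mul_one, e, ← pow_two] at h
    exact h
  · have k1 : b⁻¹ * (b * a * b⁻¹) * b = a := by group
    have k2 : b⁻¹ * (b * a ^ 2 * b⁻¹) * b = a ^ 2 := by group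
    have h1 : (puz1 a b hb tau T hT).Adj 1 (b * a * b⁻¹) ((1 * b : G) : G ⧸ zpowers a) :=
      adj_yy hc (by rw [k1]; exact mem_zpowers a)
    refine ⟨b * a * b⁻¹, b * a ^ 2 * b⁻¹, h1, adj_yy hc2 (by rw [k2]; exact npow_mem_zpowers a 2), ?_⟩
    have h := (R.adj (b * a * b⁻¹) 1 (b * a * b⁻¹) _).2 h1
    have e : (b * a * b⁻¹) • ((1 * b : G) : G ⧸ zpowers a) = ((1 * b : G) : G ⧸ zpowers a) := by
      change ((b * a * b⁻¹ * (1 * b) : G) : G ⧸ zpowers a) = _
      refine QuotientGroup.eq.2 ?_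
      have : (b * a * b⁻¹ * (1 * b))⁻¹ * (1 * b) = a⁻¹ := by group
      rw [this]
      exact inv_mem (mem_zpowers a)
    have e2 : b * a * b⁻¹ * (b * a * b⁻¹) = b * a ^ 2 * b⁻¹ := by rw [pow_two]; group
    rw [mul_one, e, e2] at h
    exact h

/-- All rungs are connected. -/
theorem conn1 (ha : b⁻¹ * a * b ∉ zpowers a) (hb2 : b ^ 2 ∉ zpowers a) (hG : closure ({a, b} : Set G) = ⊤) :
    (puz1 a b hb tau T hT).Conn := by
  refine Reg.conn reg1 _ hG ?_
  rintro g (rfl | hg)
  · exact ⟨_, adj_xx (mem_zpowers g) ha⟩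
  · have hg' : g = b := hg
    subst hg'
    exact ⟨_, adj_yx hb2⟩

/-- The rungs that avoid a strand are connected, and three of them are pairwise adjacent. -/
theorem avoid1 [Finite G] (ha : b⁻¹ * a * b ∉ zpowers a) (ha2 : b⁻¹ * a ^ 2 * b ∉ zpowers a)
    (hc : b * a * b⁻¹ ∉ zpowers a) (hc2 : b * a ^ 2 * b⁻¹ ∉ zpowers a) (hb2 : b ^ 2 ∉ zpowers a)
    (hG : closure ({a, b} : Set G) = ⊤) : (puz1 a b hb tau T hT).Avoid := by
  classical
  have : Fintype (S1 a) := Fintype.ofFinite _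
  exact Reg.avoid reg1 (three1 ha ha2 hc hc2) (conn1 ha hb2 hG)

/-- Every strand is on `2 * orderOf a` rungs. -/
theorem deg1 [Finite G] (L : S1 a) : {r | (puz1 a b hb tau T hT).On r L}.ncard = 2 * orderOf a := by
  obtain ⟨g, rfl⟩ := QuotientGroup.mk_surjective L
  have e : {r | (puz1 a b hb tau T hT).On r (g : G ⧸ zpowers a)} =
      (fun x => g * x) '' (zpowers a : Set G) ∪ (fun x => g * x * b⁻¹) '' (zpowers a : Set G) := by
    ext r
    simp only [Set.mem_ofPred_eq, Set.mem_union, Set.mem_image, SetLike.mem_coe]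
    constructor
    · rintro (h | h)
      · exact Or.inl ⟨g⁻¹ * r, QuotientGroup.eq.1 h, by group⟩
      · exact Or.inr ⟨g⁻¹ * (r * b), QuotientGroup.eq.1 h, by group⟩
    · rintro (⟨x, hx, rfl⟩ | ⟨x, hx, rfl⟩)
      · exact Or.inl (QuotientGroup.eq.2 (by simpa using hx))
      · exact Or.inr (QuotientGroup.eq.2 (by simpa [mul_assoc] using hx))
  have hd : Disjoint ((fun x => g * x) '' (zpowers a : Set G)) ((fun x => g * x * b⁻¹) '' (zpowers a : Set G)) := by
    rw [Set.disjoint_left]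
    rintro r ⟨x, hx, h1⟩ ⟨y, hy, h2⟩
    apply hb
    have h3 : g * x = g * y * b⁻¹ := h1.trans h2.symm
    have h4 : b = x⁻¹ * y := by
      have : x = y * b⁻¹ := by
        apply mul_left_cancel (a := g)
        rw [h3, mul_assoc]
      rw [this]; group
    rw [h4]
    exact mul_mem (inv_mem hx) hy
  have i1 : Function.Injective (fun x => g * x) := mul_right_injective g
  have i2 : Function.Injective (fun x => g * x * b⁻¹) := fun x y h => by
    have := mul_right_cancel h
    exact mul_left_cancel this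
  rw [e, Set.ncard_union_eq hd (Set.toFinite _) (Set.toFinite _), Set.ncard_image_of_injective _ i1,
    Set.ncard_image_of_injective _ i2, ← Nat.card_zpowers, two_mul]
  rfl

/-! ### Odd order: one hypothesis is enough -/

theorem sq_gen [Finite G] (h : Odd (Nat.card G)) (x : G) : ∃ m : ℕ, (x ^ 2) ^ m = x := by
  have ho : Odd (orderOf x) := h.of_dvd_nat (orderOf_dvd_natCard x)
  obtain ⟨k, hk⟩ := ho
  refine ⟨k + 1, ?_⟩
  rw [← pow_mul, show 2 * (k + 1) = orderOf x + 1 by omega, pow_succ, pow_orderOf_eq_one, one_mul]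

theorem conj_iff [Finite G] : b * a * b⁻¹ ∈ zpowers a ↔ b⁻¹ * a * b ∈ zpowers a := by
  have key : ∀ b : G, b * a * b⁻¹ ∈ zpowers a → b⁻¹ * a * b ∈ zpowers a := by
    intro b h
    have h1 : ∀ g ∈ zpowers a, b * g * b⁻¹ ∈ zpowers a := by
      rintro g ⟨k, rfl⟩
      have : b * a ^ k * b⁻¹ = (b * a * b⁻¹) ^ k := by rw [conj_zpow]
      change b * a ^ k * b⁻¹ ∈ zpowers a
      rw [this]
      exact zpow_mem h k
    have h2 : ∀ m : ℕ, b ^ m * a * (b ^ m)⁻¹ ∈ zpowers a := by
      intro m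
      induction m with
      | zero => simp
      | succ m ih =>
        have e : b ^ (m + 1) * a * (b ^ (m + 1))⁻¹ = b * (b ^ m * a * (b ^ m)⁻¹) * b⁻¹ := by
          rw [pow_succ']; group
        rw [e]
        exact h1 _ ih
    have h3 := h2 (orderOf b - 1)
    have h4 : b ^ (orderOf b - 1) = b⁻¹ := by
      rw [eq_inv_iff_mul_eq_one, ← pow_succ, Nat.sub_add_cancel (orderOf_pos b), pow_orderOf_eq_one]
    rwa [h4, inv_inv] at h3
  constructor
  · exact key b
  · intro h
    have := key b⁻¹ (by rwa [inv_inv])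
    rwa [inv_inv] at this

/-- If `b` does not normalise `⟨a⟩` then all the hypotheses hold, in odd order. -/
theorem hyps_odd [Finite G] (h : Odd (Nat.card G)) (ha : b⁻¹ * a * b ∉ zpowers a) :
    b ∉ zpowers a ∧ b⁻¹ * a ^ 2 * b ∉ zpowers a ∧ b * a * b⁻¹ ∉ zpowers a ∧ b * a ^ 2 * b⁻¹ ∉ zpowers a ∧
      b ^ 2 ∉ zpowers a := by
  obtain ⟨m, hm⟩ := sq_gen h a
  obtain ⟨n, hn⟩ := sq_gen h b
  have h1 : b ∉ zpowers a := fun hb => ha (mul_mem (mul_mem (inv_mem hb) (mem_zpowers a)) hb)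
  have h3 : b * a * b⁻¹ ∉ zpowers a := fun hb => ha (conj_iff.1 hb)
  refine ⟨h1, ?_, h3, ?_, ?_⟩
  · intro h2
    apply ha
    have e : (b⁻¹ * a ^ 2 * b) ^ m = b⁻¹ * a * b := by
      have := conj_pow (a := b⁻¹) (b := a ^ 2) (i := m)
      rw [inv_inv] at this
      rw [this, hm]
    rw [← e]
    exact pow_mem h2 m
  · intro h2
    apply h3
    have e : (b * a ^ 2 * b⁻¹) ^ m = b * a * b⁻¹ := by rw [conj_pow, hm]
    rw [← e]
    exact pow_mem h2 m
  · intro h2
    apply h1
    rw [← hn]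
    exact pow_mem h2 n

/-- The one-sheet place, odd order: everything that Lemmas M, A, B need. -/
theorem place1 [Finite G] (h : Odd (Nat.card G)) (ha : b⁻¹ * a * b ∉ zpowers a) (hG : closure ({a, b} : Set G) = ⊤) :
    (puz1 a b hb tau T hT).Full ∧ (puz1 a b hb tau T hT).Three ∧ (puz1 a b hb tau T hT).Conn ∧
      (puz1 a b hb tau T hT).Avoid ∧ ∀ L, {r | (puz1 a b hb tau T hT).On r L}.ncard = 2 * orderOf a := by
  obtain ⟨_, h1, h2, h3, h4⟩ := hyps_odd h ha
  exact ⟨full1, three1 ha h1 h2 h3, conn1 ha h4 hG, avoid1 ha h1 h2 h3 h4 hG, deg1⟩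

end one

end Pool.Agent.Lib.MP_688fd0_co.SQ2.V
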