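import Pool.Agent.Lib.MP_688fd0_co.SQ2.V.Defs

/-!
Walks in the hole puzzle: lists of (next cup rung, pivot).
-/

set_option autoImplicit false

namespace Pool.Agent.Lib.MP_688fd0_co.SQ2.V

namespace Puz

variable {S R : Type} [DecidableEq S] (P : Puz S R)

/-- A correct walk from the state `s`. -/
def Ok {Tok : Type} : St S R Tok → List (R × S) → Prop
  | _, [] => True
  | s, p :: l => P.Adj s.1 p.1 p.2 ∧ Ok (P.step p.1 p.2 s) l

/-- The end of a walk. -/
def go {Tok : Type} : St S R Tok → List (R × S) → St S R Tok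
  | s, [] => s
  | s, p :: l => go (P.step p.1 p.2 s) l

/-- `s'` can be reached from `s`. -/
def WReach {Tok : Type} (s s' : St S R Tok) : Prop := ∃ l, P.Ok s l ∧ P.go s l = s'

/-- Can be reached by a walk of length at most `N`. -/
def WReachN {Tok : Type} (N : ℕ) (s s' : St S R Tok) : Prop := ∃ l, l.length ≤ N ∧ P.Ok s l ∧ P.go s l = s'

/-- The number of the adjacent pairs is the same before and after a gadget. -/
def Hom [Fintype S] [Fintype R] : Prop :=
  ∀ r, {p : R × S | P.Adj r p.1 p.2}.ncard = {p : R × S | P.Adj (P.tau r) p.1 p.2}.ncard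

section cost

variable {F : Type} [CommRing F]

/-- The voltage of `r` from `v` to the other end, `V` being the voltage from `x` to `y`. -/
def volr (V : R → F) (r : R) (v : S) : F := if v = P.x r then V r else - V r

/-- The cost of a step. -/
def scost {Tok : Type} [Fintype Tok] (V : R → F) (θ : R → S → F) (d : Tok → F) (s : St S R Tok) (r' : R) (v : S) : F :=
  ∑ t, d t * ((if s.2 t = P.oth r' v then P.volr V s.1 v - P.volr V r' v else 0) + θ r' (P.J s.1 r' v (s.2 t)))

/-- The cost of a walk. -/
def wcost {Tok : Type} [Fintype Tok] (V : R → F) (θ : R → S → F) (d : Tok → F) :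
    St S R Tok → List (R × S) → F
  | _, [] => 0
  | s, p :: l => P.scost V θ d s p.1 p.2 + wcost V θ d (P.step p.1 p.2 s) l

/-- The weight of the levels of waiting at `s` before the cup `r'` over `v`. -/
def gam {Tok : Type} [Fintype Tok] (χ : S → F) (d : Tok → F) (s : St S R Tok) (r' : R) (v : S) : F :=
  ∑ t, d t * (χ (s.2 t) + if s.2 t = P.oth r' v then χ (P.oth s.1 v) - χ v else 0)

end cost

variable {P}

theorem ok_append {Tok : Type} {s : St S R Tok} {l l' : List (R × S)} :
    P.Ok s (l ++ l') ↔ P.Ok s l ∧ P.Ok (P.go s l) l' := by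
  induction l generalizing s with
  | nil => simp [Ok, go]
  | cons p l ih => simp [Ok, go, ih, and_assoc]

theorem go_append {Tok : Type} {s : St S R Tok} {l l' : List (R × S)} :
    P.go s (l ++ l') = P.go (P.go s l) l' := by
  induction l generalizing s with
  | nil => simp [go]
  | cons p l ih => simp [go, ih]

theorem WReach.refl {Tok : Type} (s : St S R Tok) : P.WReach s s := ⟨[], trivial, rfl⟩

theorem WReach.trans {Tok : Type} {s s' s'' : St S R Tok} (h : P.WReach s s') (h' : P.WReach s' s'') :
    P.WReach s s'' := by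
  obtain ⟨l, h1, h2⟩ := h
  obtain ⟨l', h3, h4⟩ := h'
  exact ⟨l ++ l', ok_append.2 ⟨h1, by rw [h2]; exact h3⟩, by rw [go_append, h2, h4]⟩

theorem WReach.step {Tok : Type} {s : St S R Tok} {r' : R} {v : S} (h : P.Adj s.1 r' v) :
    P.WReach s (P.step r' v s) := ⟨[(r', v)], ⟨h, trivial⟩, rfl⟩

section cost

variable {F : Type} [CommRing F]

theorem wcost_append {Tok : Type} [Fintype Tok] {V : R → F} {θ : R → S → F} {d : Tok → F} {s : St S R Tok}
    {l l' : List (R × S)} :
    P.wcost V θ d s (l ++ l') = P.wcost V θ d s l + P.wcost V θ d (P.go s l) l' := by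
  induction l generalizing s with
  | nil => simp [wcost, go]
  | cons p l ih => simp [wcost, go, ih, add_assoc]

end cost

end Puz

end Pool.Agent.Lib.MP_688fd0_co.SQ2.V
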