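import Mathlib
import Pool.Agent.Lib.MP_688fd0_co.SQ2.V.A
import Pool.Agent.Lib.MP_688fd0_co.SQ2.V.Avoid2
import Pool.Agent.Lib.MP_688fd0_co.SQ2.V.Coset1
import Pool.Agent.Lib.MP_688fd0_co.SQ2.V.Walk
import Pool.Agent.Lib.MP_688fd0_co.SQ2.H22.Kappa

/-!
Chapter V: flips in the one-sheet and the two-sheet place, as walks.
-/

set_option autoImplicit false

namespace Pool.Agent.Lib.MP_688fd0_co.SQ2.V

open Subgroup Puz

/-! ### Words of rules are walks -/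

section wk

variable {S R : Type} [DecidableEq S] {P : Puz S R}

/-- The walk of a word. -/
def wk {Tok : Type} : List P.Rule → St S R Tok → List (R × S)
  | [], _ => []
  | ρ :: l, s => (ρ.w s.1, ρ.v s.1) :: wk l (ρ.act s)

theorem ok_wk {Tok : Type} (l : List P.Rule) (s : St S R Tok) : P.Ok s (wk l s) := by
  induction l generalizing s with
  | nil => trivial
  | cons ρ l ih => exact ⟨ρ.adj s.1, ih _⟩

theorem go_wk {Tok : Type} (l : List P.Rule) (s : St S R Tok) : P.go s (wk l s) = run l s := by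
  induction l generalizing s with
  | nil => rfl
  | cons ρ l ih => exact ih _

theorem length_wk {Tok : Type} (l : List P.Rule) (s : St S R Tok) : (wk l s).length = l.length := by
  induction l generalizing s with
  | nil => rfl
  | cons ρ l ih => exact congrArg (· + 1) (ih _)

theorem wcost_wk {Tok F : Type} [Fintype Tok] [Field F] (V : R → F) (θ : R → S → F) (d : Tok → F)
    (l : List P.Rule) (s : St S R Tok) : P.wcost V θ d s (wk l s) = costs V θ d l s := by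
  induction l generalizing s with
  | nil => rfl
  | cons ρ l ih =>
    show P.scost V θ d s (ρ.w s.1) (ρ.v s.1) + P.wcost V θ d (ρ.act s) (wk l (ρ.act s)) = _
    rw [ih]
    rfl

/-- Without exactness there are two walks with the same end and different costs. -/
theorem flip_of_A (hA : LemmaA) [Fintype S] [Fintype R] {Tok F : Type} [Fintype Tok] [Field F] (V : R → F)
    (θ : R → S → F) (d : Tok → F) (s₀ : St S R Tok) (h1 : P.Full) (h2 : P.Three) (h3 : P.Avoid) (h4 : P.Conn)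
    (h5 : P.Good s₀) (h6 : ((Fintype.card Tok).factorial : F) ≠ 0) (h7 : (∑ t, d t) ≠ 0)
    (h8 : ∃ δ : ℕ, (δ : F) ≠ 0 ∧ ∀ L, {r | P.On r L}.ncard = δ)
    (hV : ¬ ∃ B : S → F, ∀ r, V r = B (P.y r) - B (P.x r)) :
    ∃ l l' : List (R × S), P.Ok s₀ l ∧ P.Ok s₀ l' ∧ P.go s₀ l = P.go s₀ l' ∧
      P.wcost V θ d s₀ l ≠ P.wcost V θ d s₀ l' := by
  by_contra hcon
  push Not at hcon
  refine hV (hA S R Tok F P V θ d s₀ h1 h2 h3 h4 h5 h6 h7 h8 fun l l' h => ?_)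
  rw [← wcost_wk, ← wcost_wk]
  exact hcon _ _ (ok_wk l s₀) (ok_wk l' s₀) (by rw [go_wk, go_wk, h])

/-- If the waits are equal at all states then `χ` is constant on the ends of the rungs. -/
theorem flip_of_B (hB : LemmaB) [Fintype S] [Fintype R] {Tok F : Type} [Fintype Tok] [Field F] (χ : S → F) (C : F)
    (d : Tok → F) (s₀ : St S R Tok) (h1 : P.Full) (h2 : P.Three) (h3 : P.Avoid) (h4 : P.Conn)
    (h5 : P.Good s₀) (h6 : ((Fintype.card Tok).factorial : F) ≠ 0) (h7 : (∑ t, d t) ≠ 0)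
    (h8 : ∃ δ : ℕ, (δ : F) ≠ 0 ∧ ∀ L, {r | P.On r L}.ncard = δ)
    (hχ : ∃ r, χ (P.x r) ≠ χ (P.y r)) :
    ∃ (l : List (R × S)) (r' : R) (v : S), P.Ok s₀ l ∧ P.Adj (P.go s₀ l).1 r' v ∧
      P.gam χ d (P.go s₀ l) r' v ≠ C := by
  by_contra hcon
  push Not at hcon
  obtain ⟨r, hr⟩ := hχ
  refine hr (hB S R Tok F P χ C d s₀ h1 h2 h3 h4 h5 h6 h7 h8 (fun s r' v hs hv => ?_) r)
  obtain ⟨l, rfl⟩ := hs
  have := hcon (wk l s₀) r' v (ok_wk l s₀) (by rw [go_wk]; exact hv)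
  rw [go_wk] at this
  exact this

end wk

/-! ### The voltage is not exact -/

/-- The voltage of the two-sheet place is not exact: if it is, then `n₀ n_b (χ a - 1) = 0`. -/
theorem not_exact2 {G F : Type*} [Group G] [Field F] {a c : G} (χ : G →* F) (nb : F) (B0 : G ⧸ zpowers a → F)
    (B1 : G ⧸ zpowers c → F) (h : ∀ r : G, χ r * nb = B1 r - B0 r) (hχ : χ a = χ c) (n0 : ℕ)
    (hn : (a * c⁻¹) ^ n0 = 1) : (n0 : F) * nb * (χ a - 1) = 0 := by
  have hκ : χ (a * c⁻¹) = 1 := by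
    have h1 : χ c * χ c⁻¹ = 1 := by rw [← map_mul, mul_inv_cancel, map_one]
    rw [map_mul, hχ]; exact h1
  have key : ∀ k : ℕ, B1 (((a * c⁻¹) ^ k : G)) = B1 ((1 : G)) + k * (nb * (χ a - 1)) := by
    intro k
    induction k with
    | zero => simp
    | succ k ih =>
      have e1 : (((a * c⁻¹) ^ (k + 1) : G) : G ⧸ zpowers c) = (((a * c⁻¹) ^ k * a : G) : G ⧸ zpowers c) := by
        rw [pow_succ, ← mul_assoc]
        refine QuotientGroup.eq.2 ?_
        have : ((a * c⁻¹) ^ k * a * c⁻¹)⁻¹ * ((a * c⁻¹) ^ k * a) = c := by group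
        rw [this]; exact mem_zpowers c
      have e2 : (((a * c⁻¹) ^ k * a : G) : G ⧸ zpowers a) = (((a * c⁻¹) ^ k : G) : G ⧸ zpowers a) := by
        refine QuotientGroup.eq.2 ?_
        have : ((a * c⁻¹) ^ k * a)⁻¹ * ((a * c⁻¹) ^ k) = a⁻¹ := by group
        rw [this]; exact inv_mem (mem_zpowers a)
      have h1 := h ((a * c⁻¹) ^ k * a)
      have h2 := h ((a * c⁻¹) ^ k)
      rw [map_mul, map_pow, hκ, one_pow, one_mul, e2] at h1
      rw [map_pow, hκ, one_pow, one_mul] at h2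
      rw [e1]
      push_cast
      linear_combination ih + h2 - h1
  have h1 := key n0
  rw [hn] at h1
  linear_combination -h1

/-- The voltage of the one-sheet place is not exact: if it is, then `n₀ n_b (χ a - 1) = 0`. -/
theorem not_exact1 {G F : Type*} [Group G] [Field F] {a b : G} (χ : G →* F) (nb : F) (B : G ⧸ zpowers a → F)
    (h : ∀ r : G, χ r * nb = B ((r * b : G)) - B r) (n0 : ℕ) (hn : (b⁻¹ * a * b * a⁻¹) ^ n0 = 1) :
    (n0 : F) * nb * (χ a - 1) = 0 := by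
  refine H22.kappa Set.univ a b χ (fun x => B (x : G ⧸ zpowers a)) nb (fun x => ?_) (fun _ _ => trivial)
    (fun _ _ => trivial) (fun y _ => (h y).symm) 1 trivial n0 hn
  refine congrArg B (QuotientGroup.eq.2 ?_)
  have : (x * a)⁻¹ * x = a⁻¹ := by group
  rw [this]; exact inv_mem (mem_zpowers a)

section one

variable {G : Type} [Group G] [Finite G] {a b : G} {hb : b ∉ zpowers a} {tau : Equiv.Perm G} {T : G → Equiv.Perm (S1 a)}
  {hT : ∀ r, (T r (r : G ⧸ zpowers a) = (tau r : G ⧸ zpowers a) ∧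
        T r ((r * b : G) : G ⧸ zpowers a) = ((tau r * b : G) : G ⧸ zpowers a)) ∨
      (T r (r : G ⧸ zpowers a) = ((tau r * b : G) : G ⧸ zpowers a) ∧
        T r ((r * b : G) : G ⧸ zpowers a) = (tau r : G ⧸ zpowers a))}

/-- FLIP in the one-sheet place (`χ a ≠ 1`). -/
theorem flipA1 (hA : LemmaA) [Fintype (S1 a)] {Tok F : Type} [Fintype Tok] [Field F]
    (χ : G →* F) (nb : F) (θ : G → S1 a → F) (d : Tok → F) (s₀ : St (S1 a) G Tok)
    (ha : b⁻¹ * a * b ∉ zpowers a) (ha2 : b⁻¹ * a ^ 2 * b ∉ zpowers a) (hc : b * a * b⁻¹ ∉ zpowers a)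
    (hc2 : b * a ^ 2 * b⁻¹ ∉ zpowers a) (hb2 : b ^ 2 ∉ zpowers a) (hG : closure ({a, b} : Set G) = ⊤)
    (hoF : ((2 * orderOf a : ℕ) : F) ≠ 0)
    (hs : (puz1 a b hb tau T hT).Good s₀) (hf : ((Fintype.card Tok).factorial : F) ≠ 0) (hd : (∑ t, d t) ≠ 0)
    (hχ1 : χ a ≠ 1) (hnb : nb ≠ 0) (n0 : ℕ) (hn : (b⁻¹ * a * b * a⁻¹) ^ n0 = 1) (hn0 : (n0 : F) ≠ 0) :
    ∃ l l' : List (G × S1 a), (puz1 a b hb tau T hT).Ok s₀ l ∧ (puz1 a b hb tau T hT).Ok s₀ l' ∧
      (puz1 a b hb tau T hT).go s₀ l = (puz1 a b hb tau T hT).go s₀ l' ∧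
      (puz1 a b hb tau T hT).wcost (fun r => χ r * nb) θ d s₀ l ≠
        (puz1 a b hb tau T hT).wcost (fun r => χ r * nb) θ d s₀ l' := by
  classical
  have : Fintype G := Fintype.ofFinite G
  refine flip_of_A hA _ θ d s₀ full1 (three1 ha ha2 hc hc2) (avoid1 ha ha2 hc hc2 hb2 hG) (conn1 ha hb2 hG) hs hf hd
    ⟨2 * orderOf a, hoF, deg1⟩ ?_
  rintro ⟨B, hB⟩
  have h := not_exact1 χ nb B (fun r => hB r) n0 hn
  rcases mul_eq_zero.1 h with h | h
  · rcases mul_eq_zero.1 h with h | h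
    · exact hn0 h
    · exact hnb h
  · exact hχ1 (by linear_combination h)

/-- FLIP in the one-sheet place (`χ a = 1`). -/
theorem flipB1 (hB : LemmaB) [Fintype (S1 a)] {Tok F : Type} [Fintype Tok] [Field F]
    (χ : S1 a → F) (C : F) (d : Tok → F) (s₀ : St (S1 a) G Tok)
    (ha : b⁻¹ * a * b ∉ zpowers a) (ha2 : b⁻¹ * a ^ 2 * b ∉ zpowers a) (hc : b * a * b⁻¹ ∉ zpowers a)
    (hc2 : b * a ^ 2 * b⁻¹ ∉ zpowers a) (hb2 : b ^ 2 ∉ zpowers a) (hG : closure ({a, b} : Set G) = ⊤)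
    (hoF : ((2 * orderOf a : ℕ) : F) ≠ 0)
    (hs : (puz1 a b hb tau T hT).Good s₀) (hf : ((Fintype.card Tok).factorial : F) ≠ 0) (hd : (∑ t, d t) ≠ 0)
    (hχ : ∃ r : G, χ (r : G ⧸ zpowers a) ≠ χ ((r * b : G) : G ⧸ zpowers a)) :
    ∃ (l : List (G × S1 a)) (r' : G) (v : S1 a), (puz1 a b hb tau T hT).Ok s₀ l ∧
      (puz1 a b hb tau T hT).Adj ((puz1 a b hb tau T hT).go s₀ l).1 r' v ∧
      (puz1 a b hb tau T hT).gam χ d ((puz1 a b hb tau T hT).go s₀ l) r' v ≠ C := by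
  classical
  have : Fintype G := Fintype.ofFinite G
  exact flip_of_B hB χ C d s₀ full1 (three1 ha ha2 hc hc2) (avoid1 ha ha2 hc hc2 hb2 hG) (conn1 ha hb2 hG) hs hf hd
    ⟨2 * orderOf a, hoF, deg1⟩ hχ

end one

/-- Odd order: `a ∉ ⟨c⟩` and `ord a = ord c` are enough. -/
theorem hyps2_odd {G : Type} [Group G] [Finite G] {a c : G} (h : Odd (Nat.card G)) (ho : orderOf a = orderOf c)
    (ha : a ∉ zpowers c) : a ^ 2 ∉ zpowers c ∧ c ∉ zpowers a ∧ c ^ 2 ∉ zpowers a := by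
  obtain ⟨m, hm⟩ := sq_gen h a
  obtain ⟨n, hn⟩ := sq_gen h c
  have h1 : c ∉ zpowers a := by
    intro hc
    apply ha
    have h2 : zpowers c ≤ zpowers a := zpowers_le.2 hc
    have h3 : zpowers c = zpowers a :=
      Subgroup.eq_of_le_of_card_ge h2 (by rw [Nat.card_zpowers, Nat.card_zpowers, ho])
    rw [h3]; exact mem_zpowers a
  refine ⟨fun h2 => ha ?_, h1, fun h2 => h1 ?_⟩
  · have := pow_mem h2 m; rwa [hm] at this
  · have := pow_mem h2 n; rwa [hn] at this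

section two

variable {G : Type} [Group G] [Finite G] {a c : G} {tau : Equiv.Perm G} {T : G → Equiv.Perm (S2 a c)}
  {hT : ∀ r, (T r (Sum.inl (r : G ⧸ zpowers a)) = Sum.inl (tau r : G ⧸ zpowers a) ∧
        T r (Sum.inr (r : G ⧸ zpowers c)) = Sum.inr (tau r : G ⧸ zpowers c)) ∨
      (T r (Sum.inl (r : G ⧸ zpowers a)) = Sum.inr (tau r : G ⧸ zpowers c) ∧
        T r (Sum.inr (r : G ⧸ zpowers c)) = Sum.inl (tau r : G ⧸ zpowers a))}

/-- FLIP in the two-sheet place (`χ a ≠ 1`). -/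
theorem flipA2 (hA : LemmaA) [Fintype (S2 a c)] {Tok F : Type} [Fintype Tok] [Field F]
    (χ : G →* F) (nb : F) (θ : G → S2 a c → F) (d : Tok → F) (s₀ : St (S2 a c) G Tok)
    (ha : a ∉ zpowers c) (ha2 : a ^ 2 ∉ zpowers c) (hc : c ∉ zpowers a) (hc2 : c ^ 2 ∉ zpowers a)
    (ho : orderOf a = orderOf c)
    (hG : closure ({a, c} : Set G) = ⊤) (hoF : ((orderOf a : ℕ) : F) ≠ 0)
    (hs : (puz2 a c tau T hT).Good s₀) (hf : ((Fintype.card Tok).factorial : F) ≠ 0) (hd : (∑ t, d t) ≠ 0)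
    (hχ : χ a = χ c) (hχ1 : χ a ≠ 1) (hnb : nb ≠ 0) (n0 : ℕ) (hn : (a * c⁻¹) ^ n0 = 1) (hn0 : (n0 : F) ≠ 0) :
    ∃ l l' : List (G × S2 a c), (puz2 a c tau T hT).Ok s₀ l ∧ (puz2 a c tau T hT).Ok s₀ l' ∧
      (puz2 a c tau T hT).go s₀ l = (puz2 a c tau T hT).go s₀ l' ∧
      (puz2 a c tau T hT).wcost (fun r => χ r * nb) θ d s₀ l ≠
        (puz2 a c tau T hT).wcost (fun r => χ r * nb) θ d s₀ l' := by
  classical
  have : Fintype G := Fintype.ofFinite G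
  refine flip_of_A hA _ θ d s₀ full2 (three2 ha ha2 hc hc2) (avoid2 ha ha2 hc hc2 hG) (conn2 ha hc hG) hs hf hd
    ⟨orderOf a, hoF, fun L => deg2 ho L⟩ ?_
  rintro ⟨B, hB⟩
  have h := not_exact2 χ nb (fun q => B (Sum.inl q)) (fun q => B (Sum.inr q)) (fun r => hB r) hχ n0 hn
  rcases mul_eq_zero.1 h with h | h
  · rcases mul_eq_zero.1 h with h | h
    · exact hn0 h
    · exact hnb h
  · exact hχ1 (by linear_combination h)

/-- FLIP in the two-sheet place (`χ a = 1`). -/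
theorem flipB2 (hB : LemmaB) [Fintype (S2 a c)] {Tok F : Type} [Fintype Tok] [Field F]
    (χ : S2 a c → F) (C : F) (d : Tok → F) (s₀ : St (S2 a c) G Tok)
    (ha : a ∉ zpowers c) (ha2 : a ^ 2 ∉ zpowers c) (hc : c ∉ zpowers a) (hc2 : c ^ 2 ∉ zpowers a)
    (ho : orderOf a = orderOf c)
    (hG : closure ({a, c} : Set G) = ⊤) (hoF : ((orderOf a : ℕ) : F) ≠ 0)
    (hs : (puz2 a c tau T hT).Good s₀) (hf : ((Fintype.card Tok).factorial : F) ≠ 0) (hd : (∑ t, d t) ≠ 0)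
    (hχ : ∃ r : G, χ (Sum.inl (r : G ⧸ zpowers a)) ≠ χ (Sum.inr (r : G ⧸ zpowers c))) :
    ∃ (l : List (G × S2 a c)) (r' : G) (v : S2 a c), (puz2 a c tau T hT).Ok s₀ l ∧
      (puz2 a c tau T hT).Adj ((puz2 a c tau T hT).go s₀ l).1 r' v ∧
      (puz2 a c tau T hT).gam χ d ((puz2 a c tau T hT).go s₀ l) r' v ≠ C := by
  classical
  have : Fintype G := Fintype.ofFinite G
  exact flip_of_B hB χ C d s₀ full2 (three2 ha ha2 hc hc2) (avoid2 ha ha2 hc hc2 hG) (conn2 ha hc hG) hs hf hd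
    ⟨orderOf a, hoF, fun L => deg2 ho L⟩ hχ

end two

end Pool.Agent.Lib.MP_688fd0_co.SQ2.V
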