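import Mathlib
import Pool.Agent.Lib.MP_688fd0_co.SQ2.V.FlipDefs

/-!
Chapter V: walks of a component lift to walks of the big puzzle.
-/

set_option autoImplicit false

namespace Pool.Agent.Lib.MP_688fd0_co.SQ2.V

open Puz

namespace Sub

variable {S R Sb Rb : Type} [DecidableEq S] [DecidableEq Sb] {P : Puz S R} {Pb : Puz Sb Rb} (E : Sub P Pb)

theorem on_iff (r : Rb) (v : Sb) : P.On (E.iR r) (E.iS v) ↔ Pb.On r v := by
  unfold Puz.On
  rw [E.x, E.y, E.inj.eq_iff, E.inj.eq_iff]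

theorem on_range {r : Rb} {w : S} (h : P.On (E.iR r) w) : w ∈ Set.range E.iS := by
  rcases h with h | h
  · exact ⟨_, (h.trans (E.x r)).symm⟩
  · exact ⟨_, (h.trans (E.y r)).symm⟩

theorem oth_eq (r : Rb) (v : Sb) : P.oth (E.iR r) (E.iS v) = E.iS (Pb.oth r v) := by
  unfold Puz.oth
  rw [E.x, E.y]
  by_cases h : v = Pb.x r
  · rw [if_pos h, if_pos (congrArg _ h)]
  · rw [if_neg h, if_neg (fun h' => h (E.inj h'))]

theorem adj_iff (r r' : Rb) (v : Sb) : P.Adj (E.iR r) (E.iR r') (E.iS v) ↔ Pb.Adj r r' v := by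
  unfold Puz.Adj
  rw [E.on_iff, E.on_iff, E.oth_eq, E.oth_eq]
  exact and_congr Iff.rfl (and_congr Iff.rfl (not_congr E.inj.eq_iff))

theorem J_in (r r' : Rb) (v L : Sb) : P.J (E.iR r) (E.iR r') (E.iS v) (E.iS L) = E.iS (Pb.J r r' v L) := by
  unfold Puz.J
  rw [E.oth_eq, E.oth_eq]
  exact E.inj.swap_apply _ _ _

theorem J_out (r r' : Rb) (v : Sb) {w : S} (hw : w ∉ Set.range E.iS) :
    P.J (E.iR r) (E.iR r') (E.iS v) w = w := by
  unfold Puz.J
  rw [E.oth_eq, E.oth_eq]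
  exact Equiv.swap_apply_of_ne_of_ne (fun h => hw ⟨_, h.symm⟩) (fun h => hw ⟨_, h.symm⟩)

/-- The state `s` is `sb` on the component and `p` outside. -/
structure Cm {Tok : Type} (In : Tok → Prop) (p : Tok → S) (s : St S R Tok) (sb : St Sb Rb {t // In t}) : Prop where
  r : s.1 = E.iR sb.1
  inn : ∀ t : {t // In t}, s.2 t = E.iS (sb.2 t)
  out : ∀ t, ¬ In t → s.2 t = p t ∧ p t ∉ Set.range E.iS

/-- The lift of a walk. -/
def lift (l : List (Rb × Sb)) : List (R × S) := l.map fun q => (E.iR q.1, E.iS q.2)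

variable {E}

theorem Cm.ext {Tok : Type} {In : Tok → Prop} {p : Tok → S} {s s' : St S R Tok} {sb : St Sb Rb {t // In t}}
    (h : E.Cm In p s sb) (h' : E.Cm In p s' sb) : s = s' := by
  refine Prod.ext (h.r.trans h'.r.symm) (funext fun t => ?_)
  by_cases ht : In t
  · exact (h.inn ⟨t, ht⟩).trans (h'.inn ⟨t, ht⟩).symm
  · exact (h.out t ht).1.trans (h'.out t ht).1.symm

theorem Cm.step {Tok : Type} {In : Tok → Prop} {p : Tok → S} {s : St S R Tok} {sb : St Sb Rb {t // In t}}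
    (h : E.Cm In p s sb) (r' : Rb) (v : Sb) :
    E.Cm In p (P.step (E.iR r') (E.iS v) s) (Pb.step r' v sb) := by
  refine ⟨E.tau r', fun t => ?_, fun t ht => ⟨?_, (h.out t ht).2⟩⟩
  · show P.T (E.iR r') (P.J s.1 (E.iR r') (E.iS v) (s.2 t)) = E.iS (Pb.T r' (Pb.J sb.1 r' v (sb.2 t)))
    rw [h.r, h.inn, E.J_in, E.T]
  · show P.T (E.iR r') (P.J s.1 (E.iR r') (E.iS v) (s.2 t)) = p t
    rw [h.r, (h.out t ht).1, E.J_out _ _ _ (h.out t ht).2, E.T_out _ _ (h.out t ht).2]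

theorem Cm.ok {Tok : Type} {In : Tok → Prop} {p : Tok → S} {s : St S R Tok} {sb : St Sb Rb {t // In t}}
    (h : E.Cm In p s sb) (l : List (Rb × Sb)) (hl : Pb.Ok sb l) : P.Ok s (E.lift l) := by
  induction l generalizing s sb with
  | nil => trivial
  | cons q l ih =>
    refine ⟨?_, ih (h.step q.1 q.2) hl.2⟩
    show P.Adj s.1 (E.iR q.1) (E.iS q.2)
    rw [h.r, E.adj_iff]
    exact hl.1

theorem Cm.go {Tok : Type} {In : Tok → Prop} {p : Tok → S} {s : St S R Tok} {sb : St Sb Rb {t // In t}}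
    (h : E.Cm In p s sb) (l : List (Rb × Sb)) : E.Cm In p (P.go s (E.lift l)) (Pb.go sb l) := by
  induction l generalizing s sb with
  | nil => exact h
  | cons q l ih => exact ih (h.step q.1 q.2)

section cost

variable {F : Type} [CommRing F]

theorem Cm.scost {Tok : Type} [Fintype Tok] {In : Tok → Prop} [DecidablePred In] {p : Tok → S} {s : St S R Tok}
    {sb : St Sb Rb {t // In t}} (h : E.Cm In p s sb) (V : R → F) (θ : R → S → F) (d : Tok → F)
    (hθ : ∀ r s, s ∉ Set.range E.iS → θ (E.iR r) s = 0) (r' : Rb) (v : Sb) :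
    P.scost V θ d s (E.iR r') (E.iS v) =
      Pb.scost (fun r => V (E.iR r)) (fun r s => θ (E.iR r) (E.iS s)) (fun t : {t // In t} => d t) sb r' v := by
  have hvol : ∀ r : Rb, P.volr V (E.iR r) (E.iS v) = Pb.volr (fun r => V (E.iR r)) r v := by
    intro r
    unfold Puz.volr
    rw [E.x]
    by_cases hv : v = Pb.x r
    · rw [if_pos hv, if_pos (congrArg _ hv)]
    · rw [if_neg hv, if_neg (fun h' => hv (E.inj h'))]
  unfold Puz.scost
  rw [← Fintype.sum_subtype_add_sum_subtype In]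
  have h0 : ∑ t : {t // ¬ In t}, d t * ((if s.2 t = P.oth (E.iR r') (E.iS v) then
      P.volr V s.1 (E.iS v) - P.volr V (E.iR r') (E.iS v) else 0) +
      θ (E.iR r') (P.J s.1 (E.iR r') (E.iS v) (s.2 t))) = 0 := by
    refine Finset.sum_eq_zero fun t _ => ?_
    obtain ⟨h1, h2⟩ := h.out t t.2
    rw [h.r, h1, E.J_out _ _ _ h2, hθ _ _ h2, E.oth_eq, if_neg (fun h' => h2 ⟨_, h'.symm⟩), add_zero, mul_zero]
  rw [h0, add_zero]
  refine Finset.sum_congr rfl fun t _ => ?_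
  rw [h.r, h.inn, E.J_in, hvol, hvol, E.oth_eq]
  congr 2
  by_cases ht : sb.2 t = Pb.oth r' v
  · rw [if_pos ht, if_pos (congrArg _ ht)]
  · rw [if_neg ht, if_neg (fun h' => ht (E.inj h'))]

theorem Cm.wcost {Tok : Type} [Fintype Tok] {In : Tok → Prop} [DecidablePred In] {p : Tok → S} {s : St S R Tok}
    {sb : St Sb Rb {t // In t}} (h : E.Cm In p s sb) (V : R → F) (θ : R → S → F) (d : Tok → F)
    (hθ : ∀ r s, s ∉ Set.range E.iS → θ (E.iR r) s = 0) (l : List (Rb × Sb)) :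
    P.wcost V θ d s (E.lift l) =
      Pb.wcost (fun r => V (E.iR r)) (fun r s => θ (E.iR r) (E.iS s)) (fun t : {t // In t} => d t) sb l := by
  induction l generalizing s sb with
  | nil => rfl
  | cons q l ih =>
    show P.scost V θ d s (E.iR q.1) (E.iS q.2) + P.wcost V θ d (P.step (E.iR q.1) (E.iS q.2) s) (E.lift l) = _
    rw [h.scost V θ d hθ, ih (h.step q.1 q.2)]
    rfl

theorem Cm.gam {Tok : Type} [Fintype Tok] {In : Tok → Prop} [DecidablePred In] {p : Tok → S} {s : St S R Tok}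
    {sb : St Sb Rb {t // In t}} (h : E.Cm In p s sb) (χ : S → F) (d : Tok → F) (r' : Rb) (v : Sb) :
    P.gam χ d s (E.iR r') (E.iS v) =
      Pb.gam (fun s => χ (E.iS s)) (fun t : {t // In t} => d t) sb r' v + ∑ t : {t // ¬ In t}, d t * χ (p t) := by
  unfold Puz.gam
  rw [← Fintype.sum_subtype_add_sum_subtype In]
  congr 1
  · refine Finset.sum_congr rfl fun t _ => ?_
    rw [h.r, h.inn, E.oth_eq, E.oth_eq]
    congr 2
    by_cases ht : sb.2 t = Pb.oth r' v
    · rw [if_pos ht, if_pos (congrArg _ ht)]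
    · rw [if_neg ht, if_neg (fun h' => ht (E.inj h'))]
  · refine Finset.sum_congr rfl fun t _ => ?_
    obtain ⟨h1, h2⟩ := h.out t t.2
    rw [h1, E.oth_eq, if_neg (fun h' => h2 ⟨_, h'.symm⟩), add_zero]

end cost

variable (E)

/-- The state of the component. -/
theorem exists_cm {Tok : Type} (s : St S R Tok) (r : Rb) (hr : s.1 = E.iR r) :
    ∃ sb : St Sb Rb {t // s.2 t ∈ Set.range E.iS}, sb.1 = r ∧ E.Cm (fun t => s.2 t ∈ Set.range E.iS) s.2 s sb := by
  refine ⟨(r, fun t => t.2.choose), rfl, hr, fun t => t.2.choose_spec.symm, fun t ht => ⟨rfl, ht⟩⟩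

theorem good_cm {Tok : Type} {s : St S R Tok} (hi : Function.Injective s.2)
    (hg : ∀ L, (∃ t, s.2 t = L) ↔ ¬ P.On s.1 L) {sb : St Sb Rb {t // s.2 t ∈ Set.range E.iS}}
    (h : E.Cm (fun t => s.2 t ∈ Set.range E.iS) s.2 s sb) : Pb.Good sb := by
  refine ⟨fun t t' ht => ?_, fun L => ?_⟩
  · apply Subtype.ext
    apply hi
    rw [h.inn, h.inn, ht]
  · rw [← E.on_iff, ← h.r, ← hg]
    constructor
    · rintro ⟨t, rfl⟩
      exact ⟨t, h.inn t⟩
    · rintro ⟨t, ht⟩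
      have h1 := h.inn ⟨t, ⟨L, ht.symm⟩⟩
      exact ⟨⟨t, ⟨L, ht.symm⟩⟩, E.inj (h1.symm.trans ht)⟩

end Sub

/-- Smaller factorials are not `0` either. -/
theorem factorial_ne_zero_of_le {F : Type} [Field F] {m n : ℕ} (hmn : m ≤ n) (h : ((n.factorial : ℕ) : F) ≠ 0) :
    ((m.factorial : ℕ) : F) ≠ 0 := by
  intro h0
  obtain ⟨k, hk⟩ := Nat.factorial_dvd_factorial hmn
  exact h (by rw [hk, Nat.cast_mul, h0, zero_mul])

end Pool.Agent.Lib.MP_688fd0_co.SQ2.V
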