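import Mathlib
import Pool.Agent.Lib.MP_688fd0_co.SQ2.V.SubL
import Pool.Agent.Lib.MP_688fd0_co.SQ2.V.Flip2

/-!
Chapter V: FLIP A.
-/

set_option autoImplicit false

namespace Pool.Agent.Lib.MP_688fd0_co.SQ2.V

open Puz

open Classical in
theorem flipA (hA : LemmaA) : FlipAS := by
  intro S R Sb Rb F _ _ _ _ _ _ _ P Pb E V θ d f g l₀ s r hsym hgf hθ hs hr hi hg hd hF hT hAv hC hf hδ hV
  have hlen : Fintype.card {t : P.TokOf f // s.2 t ∈ Set.range E.iS} ≤ Fintype.card Sb := by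
    refine Fintype.card_le_of_injective (fun t => t.2.choose) fun t t' h => ?_
    apply Subtype.ext
    apply hi
    rw [← t.2.choose_spec, ← t'.2.choose_spec]
    exact congrArg E.iS h
  obtain ⟨sb, hsb, hcm⟩ := E.exists_cm s r hr
  have hsum : (∑ t : {t : P.TokOf f // s.2 t ∈ Set.range E.iS}, d t) ≠ 0 := by
    intro h0
    apply hd
    refine Eq.trans ?_ h0
    rw [← Finset.sum_filter]
    exact Finset.sum_subtype _ (fun t => by simp) _
  obtain ⟨l, l', h1, h2, h3, h4⟩ := flip_of_A hA (fun r => V (E.iR r)) (fun r s => θ (E.iR r) (E.iS s))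
    (fun t : {t : P.TokOf f // s.2 t ∈ Set.range E.iS} => d t) sb hF hT hAv hC (E.good_cm hi hg hcm)
    (factorial_ne_zero_of_le hlen hf) hsum hδ hV
  have e1 : P.go s (E.lift l) = P.go s (E.lift l') := by
    have k1 := hcm.go l
    have k2 := hcm.go l'
    rw [← h3] at k2
    exact k1.ext k2
  have hw : P.WReach s (P.go s (E.lift l)) := ⟨_, hcm.ok l h1, rfl⟩
  have hstb : P.WReach (P.st₁ f) (P.stb f g l₀) := by
    refine hsym _ _ ?_
    rw [← P.stb_step hgf]
    exact WReach.step hgf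
  obtain ⟨w₁, hw1, hw2⟩ := hs
  obtain ⟨w₂, hw3, hw4⟩ : P.WReach (P.go s (E.lift l)) (P.stb f g l₀) :=
    (hsym _ _ (WReach.trans ⟨w₁, hw1, hw2⟩ hw)).trans hstb
  refine ⟨w₁ ++ E.lift l ++ w₂, w₁ ++ E.lift l' ++ w₂, ?_, ?_, ?_, ?_, ?_⟩
  · rw [ok_append, ok_append, go_append, hw2]
    exact ⟨⟨hw1, hcm.ok l h1⟩, hw3⟩
  · rw [go_append, go_append, hw2, hw4]
  · rw [ok_append, ok_append, go_append, hw2]
    exact ⟨⟨hw1, hcm.ok l' h2⟩, by rw [← e1]; exact hw3⟩
  · rw [go_append, go_append, hw2, ← e1, hw4]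
  · rw [wcost_append, wcost_append, wcost_append, wcost_append, go_append, go_append, hw2, ← e1,
      hcm.wcost V θ _ hθ, hcm.wcost V θ _ hθ]
    intro h5
    exact h4 (add_left_cancel (add_right_cancel h5))

end Pool.Agent.Lib.MP_688fd0_co.SQ2.V
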