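import Mathlib
import Pool.Agent.Lib.MP_688fd0_co.SQ2.V.SubL
import Pool.Agent.Lib.MP_688fd0_co.SQ2.V.Flip2

/-!
Chapter V: FLIP B.
-/

set_option autoImplicit false

namespace Pool.Agent.Lib.MP_688fd0_co.SQ2.V

open Puz

open Classical in
theorem flipB (hB : LemmaB) : FlipBS := by
  intro S R Sb Rb F _ _ _ _ _ _ _ P Pb E χ d f s r hs hr hi hg hd hF hT hAv hC hf hδ hχ
  have hlen : Fintype.card {t : P.TokOf f // s.2 t ∈ Set.range E.iS} ≤ Fintype.card Sb := by
    refine Fintype.card_le_of_injective (fun t => t.2.choose) fun t t' h => ?_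
    apply Subtype.ext
    apply hi
    rw [← t.2.choose_spec, ← t'.2.choose_spec]
    exact congrArg E.iS h
  obtain ⟨sb, hsb, hcm⟩ := E.exists_cm s r hr
  have hsum : (∑ t : {t : P.TokOf f // s.2 t ∈ Set.range E.iS}, d t) ≠ 0 := by
    intro h0
    apply hd
    refine Eq.trans ?_ h0
    rw [← Finset.sum_filter]
    exact Finset.sum_subtype _ (fun t => by simp) _
  obtain ⟨l, r', v, h1, h2, h3⟩ := flip_of_B hB (fun s => χ (E.iS s))
    (∑ s, d s * χ s - ∑ t : {t : P.TokOf f // ¬ s.2 t ∈ Set.range E.iS}, d t * χ (s.2 t))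
    (fun t : {t : P.TokOf f // s.2 t ∈ Set.range E.iS} => d t) sb hF hT hAv hC (E.good_cm hi hg hcm)
    (factorial_ne_zero_of_le hlen hf) hsum hδ hχ
  have k1 := hcm.go l
  refine ⟨P.go s (E.lift l), E.iR r', E.iS v, hs.trans ⟨_, hcm.ok l h1, rfl⟩, ?_, ?_⟩
  · rw [k1.r, E.adj_iff]
    exact h2
  · rw [k1.gam]
    intro h4
    exact h3 (eq_sub_of_add_eq h4)

end Pool.Agent.Lib.MP_688fd0_co.SQ2.V
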