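import Pool.Agent.Lib.MP_688fd0_co.SQ2.V.FlipDefs
import Pool.Agent.Lib.MP_688fd0_co.SQ2.V.M
import Pool.Agent.Lib.MP_688fd0_co.SQ2.V.SubL

/-!
Chapter V, module START: a reachable state with cap in a component and total weight `≠ 0` there.
-/

set_option autoImplicit false

namespace Pool.Agent.Lib.MP_688fd0_co.SQ2.V

open Puz

namespace Start

/-- Sum over the tokens of a good state. -/
theorem sum_good {S R Tok F : Type} [Fintype S] [DecidableEq S] [Fintype Tok] [AddCommMonoid F]
    (P : Puz S R) {s : St S R Tok} (h : P.Good s) (G : S → F) :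
    ∑ t, G (s.2 t) = ∑ L, if P.On s.1 L then 0 else G L := by
  classical
  have h1 : ∑ t, G (s.2 t) = ∑ L ∈ Finset.univ.image s.2, G L :=
    (Finset.sum_image fun a _ b _ hab => h.1 hab).symm
  have h2 : (Finset.univ.image s.2 : Finset S) = Finset.univ.filter fun L => ¬ P.On s.1 L := by
    ext L
    simp only [Finset.mem_image, Finset.mem_univ, true_and, Finset.mem_filter]
    exact h.2 L
  rw [h1, h2, Finset.sum_filter]
  refine Finset.sum_congr rfl fun L _ => ?_
  by_cases hL : P.On s.1 L <;> simp [hL]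

/-- The common computation. -/
theorem core_sum {S F : Type} [Fintype S] [DecidableEq S] [Field F] (Rg : Set S)
    [DecidablePred (· ∈ Rg)] (d : S → F) {v w u : S} (hvw : v ≠ w) (huv : u ≠ v) (huw : u ≠ w)
    (hv : v ∈ Rg) (hu : u ∈ Rg) :
    (∑ L, if L = v ∨ L = w then (0 : F) else if (if L = u then w else L) ∈ Rg then d L else 0) =
      (∑ L, if L ∈ Rg then d L else 0) - d v - d u + (if w ∈ Rg then d u - d w else 0) := by
  have key : ∀ L : S, (if L = v ∨ L = w then (0 : F) else
      if (if L = u then w else L) ∈ Rg then d L else 0) =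
      (if L ∈ Rg then d L else 0) - (if L = v then d v else 0) - (if L = u then d u else 0) +
        ((if L = u then (if w ∈ Rg then d u else 0) else 0) -
          (if L = w then (if w ∈ Rg then d w else 0) else 0)) := by
    intro L
    by_cases h1 : L = v
    · subst h1
      simp [hv, hvw, huv.symm]
    · by_cases h2 : L = w
      · subst h2
        by_cases h3 : L ∈ Rg <;> simp [h1, h3, huw.symm]
      · by_cases h3 : L = u
        · subst h3
          by_cases h4 : w ∈ Rg <;> simp [h1, h2, hu, h4]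
        · simp [h1, h2, h3]
  rw [Finset.sum_congr rfl fun L _ => key L]
  simp only [Finset.sum_add_distrib, Finset.sum_sub_distrib, Finset.sum_ite_eq', Finset.mem_univ,
    if_true]
  by_cases h4 : w ∈ Rg <;> simp [h4]

/-- The sum over the component. -/
theorem sum_range {S Sb F : Type} [Fintype S] [DecidableEq S] [Fintype Sb] [AddCommMonoid F]
    {i : Sb → S} (hi : Function.Injective i) [DecidablePred (· ∈ Set.range i)] (d : S → F) :
    (∑ L, if L ∈ Set.range i then d L else 0) = ∑ s, d (i s) := by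
  classical
  rw [← Finset.sum_filter]
  have h2 : (Finset.univ.filter fun L => L ∈ Set.range i) = Finset.univ.image i := by
    ext L
    simp
  rw [h2]
  exact Finset.sum_image fun a _ b _ hab => hi hab

/-- The choice of the rung. -/
theorem choose_rung {S R Sb Rb F : Type} [Fintype S] [DecidableEq S] [Fintype Sb] [DecidableEq Sb]
    [Field F] {P : Puz S R} {Pb : Puz Sb Rb} (E : Sub P Pb) (d : S → F)
    [DecidablePred (· ∈ Set.range E.iS)] (v₀ : Sb) (w : S)
    (h2 : (2 : F) ≠ 0) (hd : ∀ s, d s = 1 ∨ d s = -1) (hw : d w = - d (E.iS v₀))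
    (hT : Pb.Three) (hr : ∃ r, Pb.On r v₀)
    (h : ((∑ s, d (E.iS s)) ≠ 0 ∧ ∃ r, Pb.On r v₀ ∧ d (E.iS (Pb.oth r v₀)) = - d (E.iS v₀)) ∨
      ((∀ s, d (E.iS s) = d (E.iS v₀)) ∧ ((Fintype.card Sb : F) - 2 ≠ 0))) :
    ∃ r, Pb.On r v₀ ∧ E.iS (Pb.oth r v₀) ≠ w ∧
      (∑ s, d (E.iS s)) - d (E.iS v₀) - d (E.iS (Pb.oth r v₀)) +
        (if w ∈ Set.range E.iS then d (E.iS (Pb.oth r v₀)) - d w else 0) ≠ 0 := by
  have hne : d (E.iS v₀) ≠ 0 := by
    rcases hd (E.iS v₀) with h | h <;> rw [h] <;> simp
  by_cases hwr : w ∈ Set.range E.iS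
  · obtain ⟨r₀, hr₀⟩ := hr
    obtain ⟨r', -, ha, -⟩ := hT r₀ v₀ hr₀
    have hsum : (∑ s, d (E.iS s)) ≠ 0 := by
      rcases h with h | ⟨h, -⟩
      · exact h.1
      · exfalso
        obtain ⟨w₀, rfl⟩ := hwr
        rw [h w₀] at hw
        have h3 : (2 : F) * d (E.iS v₀) = 0 := by linear_combination hw
        rcases mul_eq_zero.1 h3 with h3 | h3
        · exact h2 h3
        · exact hne h3
    have hval : ∀ r : Rb, (∑ s, d (E.iS s)) - d (E.iS v₀) - d (E.iS (Pb.oth r v₀)) +
        (if w ∈ Set.range E.iS then d (E.iS (Pb.oth r v₀)) - d w else 0) ≠ 0 := by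
      intro r
      rw [if_pos hwr, hw]
      intro h3
      apply hsum
      linear_combination h3
    by_cases h3 : E.iS (Pb.oth r₀ v₀) = w
    · refine ⟨r', ha.2.1, fun h4 => ha.2.2 (E.inj (h3.trans h4.symm)), hval r'⟩
    · exact ⟨r₀, hr₀, h3, hval r₀⟩
  · have hu : ∀ r : Rb, E.iS (Pb.oth r v₀) ≠ w := fun r h3 => hwr ⟨_, h3⟩
    rcases h with ⟨h, r, hr, h3⟩ | ⟨h, hc⟩
    · refine ⟨r, hr, hu r, ?_⟩
      rw [if_neg hwr, h3]
      intro h4
      apply h
      linear_combination h4
    · obtain ⟨r, hr⟩ := hr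
      refine ⟨r, hr, hu r, ?_⟩
      rw [if_neg hwr, Finset.sum_congr rfl fun s _ => h s, h (Pb.oth r v₀)]
      simp only [Finset.sum_const, Finset.card_univ, nsmul_eq_mul]
      intro h4
      have h5 : ((Fintype.card Sb : F) - 2) * d (E.iS v₀) = 0 := by linear_combination h4
      rcases mul_eq_zero.1 h5 with h5 | h5
      · exact hc h5
      · exact hne h5

theorem T_mem {S R Sb Rb : Type} [DecidableEq S] [DecidableEq Sb] {P : Puz S R} {Pb : Puz Sb Rb}
    (E : Sub P Pb) (r : Rb) (L : S) :
    P.T (E.iR r) L ∈ Set.range E.iS ↔ L ∈ Set.range E.iS := by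
  constructor
  · intro h
    by_contra hL
    rw [E.T_out r L hL] at h
    exact hL h
  · rintro ⟨s, rfl⟩
    exact ⟨Pb.T r s, (E.T r s).symm⟩

theorem oth_oth {S R : Type} [DecidableEq S] {P : Puz S R} {r : R} {v : S} (h : P.On r v) :
    P.oth r (P.oth r v) = v := by
  have h1 := P.ne r
  unfold oth
  rcases h with h | h
  · rw [if_pos h, if_neg h1.symm, h]
  · by_cases h2 : v = P.x r
    · exact absurd (h2.symm.trans h) h1
    · rw [if_neg h2, if_pos rfl, h]

theorem good_stb {S R : Type} [DecidableEq S] {P : Puz S R} {f g : R} {l₀ : S}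
    (h : P.Adj g f l₀) : P.Good (P.stb f g l₀) := by
  obtain ⟨hg, hf, hne⟩ := h
  have hl1 : P.oth f l₀ ≠ l₀ := oth_ne hf
  have hl2 : P.oth g l₀ ≠ l₀ := oth_ne hg
  have hF : ∀ L, P.On f L ↔ L = l₀ ∨ L = P.oth f l₀ := on_iff hf
  have hG : ∀ L, P.On g L ↔ L = l₀ ∨ L = P.oth g l₀ := on_iff hg
  constructor
  · intro t t' htt
    have htt' : (if (t : S) = P.oth g l₀ then P.oth f l₀ else (t : S)) =
      if (t' : S) = P.oth g l₀ then P.oth f l₀ else (t' : S) := htt
    have e : ∀ a : P.TokOf f, (a : S) ≠ P.oth f l₀ := fun a ha => a.2 ((hF _).2 (Or.inr ha))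
    by_cases h1 : (t : S) = P.oth g l₀ <;> by_cases h2 : (t' : S) = P.oth g l₀
    · exact Subtype.ext (h1.trans h2.symm)
    · rw [if_pos h1, if_neg h2] at htt'
      exact absurd htt'.symm (e t')
    · rw [if_neg h1, if_pos h2] at htt'
      exact absurd htt' (e t)
    · rw [if_neg h1, if_neg h2] at htt'
      exact Subtype.ext htt'
  · intro L
    show (∃ t : P.TokOf f, (if (t : S) = P.oth g l₀ then P.oth f l₀ else (t : S)) = L) ↔ ¬ P.On g L
    rw [hG]
    constructor
    · rintro ⟨t, ht⟩ hL
      have ht2 := t.2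
      rw [hF] at ht2
      push Not at ht2
      by_cases h1 : (t : S) = P.oth g l₀
      · rw [if_pos h1] at ht
        rcases hL with hL | hL
        · exact hl1 (ht.trans hL)
        · exact hne (hL.symm.trans ht.symm)
      · rw [if_neg h1] at ht
        rcases hL with hL | hL
        · exact ht2.1 (ht.trans hL)
        · exact h1 (ht.trans hL)
    · intro hL
      push Not at hL
      by_cases h1 : L = P.oth f l₀
      · refine ⟨⟨P.oth g l₀, ?_⟩, ?_⟩
        · rw [hF]
          rintro (h2 | h2)
          · exact hl2 h2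
          · exact hne h2
        · rw [if_pos rfl, h1]
      · refine ⟨⟨L, ?_⟩, ?_⟩
        · rw [hF]
          rintro (h2 | h2)
          · exact hL.1 h2
          · exact h1 h2
        · exact if_neg hL.2

theorem good_home {S R : Type} [DecidableEq S] (P : Puz S R) (f : R) :
    P.Good ((f, fun t => (t : S)) : St S R (P.TokOf f)) := by
  refine ⟨fun a b h => Subtype.ext h, fun L => ⟨?_, fun h => ⟨⟨L, h⟩, rfl⟩⟩⟩
  rintro ⟨t, rfl⟩
  exact t.2

end Start

open Start in
/-- START. -/
theorem start : StartS := by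
  intro S R Sb Rb F _ _ _ _ _ _ _ P Pb E d f g l₀ v₀ h2 hsym ha hd hd1 hd2 hv₀ hT hr hcase
  have hback : P.WReach (P.st₁ f) (P.stb f g l₀) := by
    refine hsym _ _ ?_
    have := WReach.step (P := P) (s := P.stb f g l₀) (r' := f) (v := l₀) ha
    rwa [P.stb_step ha] at this
  have hL1 : P.oth f l₀ ≠ l₀ := oth_ne ha.2.1
  have hL2 : P.oth g l₀ ≠ l₀ := oth_ne ha.1
  by_cases hv1 : E.iS v₀ = P.oth f l₀
  · -- the cap at `l₁`
    set w := l₀ with hw
    have hfv : P.On f (E.iS v₀) := by rw [hv1]; exact on_oth f l₀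
    have hofv : P.oth f (E.iS v₀) = w := by rw [hv1]; exact oth_oth ha.2.1
    have hdw : d w = - d (E.iS v₀) := by rw [hv1, hd1]; ring
    obtain ⟨r, hr1, hr2, hr3⟩ := choose_rung E d v₀ w h2 hd hdw hT hr hcase
    have hon : P.On (E.iR r) (E.iS v₀) := (E.on_iff r v₀).2 hr1
    have hoth : P.oth (E.iR r) (E.iS v₀) = E.iS (Pb.oth r v₀) := E.oth_eq r v₀
    set u := E.iS (Pb.oth r v₀) with hu
    have huv : u ≠ E.iS v₀ := by rw [← hoth]; exact oth_ne hon
    have hvw : E.iS v₀ ≠ w := by rw [hv1]; exact hL1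
    have hFf : ∀ L, P.On f L ↔ L = E.iS v₀ ∨ L = w := by
      intro L
      rw [on_iff hfv, hofv]
    have hFr : ∀ L, P.On (E.iR r) L ↔ L = E.iS v₀ ∨ L = u := by
      intro L
      rw [on_iff hon, hoth]
    have hadj : P.Adj (E.iR r) f (E.iS v₀) := ⟨hon, hfv, by rw [hoth, hofv]; exact hr2⟩
    let s : St S R (P.TokOf f) := (E.iR r, fun t => if (t : S) = u then w else (t : S))
    have hstep : P.step f (E.iS v₀) s = P.st₁ f := by
      refine Prod.ext rfl (funext fun t => ?_)
      show P.T f (P.J (E.iR r) f (E.iS v₀) (if (t : S) = u then w else (t : S))) = P.T f t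
      congr 1
      unfold J
      rw [hofv, hoth]
      by_cases h : (t : S) = u
      · rw [if_pos h, Equiv.swap_apply_left, h]
      · rw [if_neg h]
        refine Equiv.swap_apply_of_ne_of_ne (fun h' => t.2 ?_) h
        rw [h']
        exact (hFf w).2 (Or.inr rfl)
    have hreach : P.WReach (P.st₁ f) s := by
      refine hsym _ _ ?_
      have := WReach.step (P := P) (s := s) (r' := f) (v := E.iS v₀) hadj
      rwa [hstep] at this
    have hgood : P.Good s := by
      constructor
      · intro t t' htt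
        have htt' : (if (t : S) = u then w else (t : S)) = if (t' : S) = u then w else (t' : S) := htt
        have e : ∀ a : P.TokOf f, (a : S) ≠ w := fun a ha' => a.2 ((hFf _).2 (Or.inr ha'))
        by_cases h1 : (t : S) = u <;> by_cases h3 : (t' : S) = u
        · exact Subtype.ext (h1.trans h3.symm)
        · rw [if_pos h1, if_neg h3] at htt'
          exact absurd htt'.symm (e t')
        · rw [if_neg h1, if_pos h3] at htt'
          exact absurd htt' (e t)
        · rw [if_neg h1, if_neg h3] at htt'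
          exact Subtype.ext htt'
      · intro L
        show (∃ t : P.TokOf f, (if (t : S) = u then w else (t : S)) = L) ↔ ¬ P.On (E.iR r) L
        rw [hFr]
        constructor
        · rintro ⟨t, ht⟩ hL
          have ht2 := t.2
          rw [hFf] at ht2
          push Not at ht2
          by_cases h1 : (t : S) = u
          · rw [if_pos h1] at ht
            rcases hL with hL | hL
            · exact hvw (hL.symm.trans ht.symm)
            · exact hr2 (hL.symm.trans ht.symm)
          · rw [if_neg h1] at ht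
            rcases hL with hL | hL
            · exact ht2.1 (ht.trans hL)
            · exact h1 (ht.trans hL)
        · intro hL
          push Not at hL
          by_cases h1 : L = w
          · refine ⟨⟨u, ?_⟩, ?_⟩
            · rw [hFf]
              rintro (h3 | h3)
              · exact huv h3
              · exact hr2 h3
            · rw [if_pos rfl, h1]
          · refine ⟨⟨L, ?_⟩, ?_⟩
            · rw [hFf]
              rintro (h3 | h3)
              · exact hL.1 h3
              · exact h1 h3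
            · exact if_neg hL.2
    refine ⟨s, r, hreach, rfl, hgood.1, hgood.2, ?_⟩
    have e1 := sum_good P (good_home P f)
      (fun L => if (if L = u then w else L) ∈ Set.range E.iS then d L else 0)
    have e2 := core_sum (Set.range E.iS) d (v := E.iS v₀) (w := w) (u := u) hvw huv hr2 ⟨_, rfl⟩
      ⟨_, rfl⟩
    have e3 : (∑ t, if s.2 t ∈ Set.range E.iS then d t else 0) =
        ∑ L, if L = E.iS v₀ ∨ L = w then (0 : F) else
          if (if L = u then w else L) ∈ Set.range E.iS then d L else 0 := by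
      refine e1.trans (Finset.sum_congr rfl fun L _ => ?_)
      by_cases h3 : P.On f L
      · rw [if_pos h3, if_pos ((hFf L).1 h3)]
      · rw [if_neg h3, if_neg (fun h4 => h3 ((hFf L).2 h4))]
    rw [e3, e2, sum_range E.inj]
    exact hr3
  · -- a step from `stb`
    have hgv : P.On g (E.iS v₀) := by
      rcases hv₀ with h | h | h
      · rw [h]; exact ha.1
      · exact absurd h hv1
      · rw [h]; exact on_oth g l₀
    set w := P.oth g (E.iS v₀) with hw
    have hdw : d w = - d (E.iS v₀) := by
      rcases hv₀ with h | h | h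
      · rw [hw, h, hd2]
      · exact absurd h hv1
      · rw [hw, h, oth_oth ha.1, hd2]; ring
    obtain ⟨r, hr1, hr2, hr3⟩ := choose_rung E d v₀ w h2 hd hdw hT hr hcase
    have hon : P.On (E.iR r) (E.iS v₀) := (E.on_iff r v₀).2 hr1
    have hoth : P.oth (E.iR r) (E.iS v₀) = E.iS (Pb.oth r v₀) := E.oth_eq r v₀
    set u := E.iS (Pb.oth r v₀) with hu
    have huv : u ≠ E.iS v₀ := by rw [← hoth]; exact oth_ne hon
    have hvw : E.iS v₀ ≠ w := (oth_ne hgv).symm
    have hGg : ∀ L, P.On g L ↔ L = E.iS v₀ ∨ L = w := on_iff hgv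
    have hadj : P.Adj g (E.iR r) (E.iS v₀) := ⟨hgv, hon, by rw [hoth]; exact hr2.symm⟩
    have hgood := good_stb ha
    refine ⟨P.step (E.iR r) (E.iS v₀) (P.stb f g l₀), Pb.tau r, hback.trans (WReach.step hadj),
      E.tau r, (good_step hadj hgood).1, (good_step hadj hgood).2, ?_⟩
    have e1 := sum_good P hgood
      (fun L => if P.J g (E.iR r) (E.iS v₀) L ∈ Set.range E.iS then d L else 0)
    have e2 := core_sum (Set.range E.iS) d (v := E.iS v₀) (w := w) (u := u) hvw huv hr2 ⟨_, rfl⟩
      ⟨_, rfl⟩
    have hdt : ∀ t : P.TokOf f, d t = d ((P.stb f g l₀).2 t) := by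
      intro t
      show d t = d (if (t : S) = P.oth g l₀ then P.oth f l₀ else (t : S))
      by_cases h : (t : S) = P.oth g l₀
      · rw [if_pos h, h, hd1, hd2]
      · rw [if_neg h]
    have e3 : (∑ t, if (P.step (E.iR r) (E.iS v₀) (P.stb f g l₀)).2 t ∈ Set.range E.iS
        then d t else 0) =
        ∑ L, if L = E.iS v₀ ∨ L = w then (0 : F) else
          if (if L = u then w else L) ∈ Set.range E.iS then d L else 0 := by
      refine Eq.trans (Finset.sum_congr rfl fun t _ => ?_)
        (e1.trans (Finset.sum_congr rfl fun L _ => ?_))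
      · show (if P.T (E.iR r) (P.J g (E.iR r) (E.iS v₀) ((P.stb f g l₀).2 t)) ∈ Set.range E.iS
          then d t else 0) = if P.J g (E.iR r) (E.iS v₀) ((P.stb f g l₀).2 t) ∈ Set.range E.iS
            then d ((P.stb f g l₀).2 t) else 0
        rw [hdt t]
        by_cases h : P.J g (E.iR r) (E.iS v₀) ((P.stb f g l₀).2 t) ∈ Set.range E.iS
        · rw [if_pos h, if_pos ((T_mem E r _).2 h)]
        · rw [if_neg h, if_neg (fun h' => h ((T_mem E r _).1 h'))]
      · by_cases h3 : P.On g L
        · have h4 := (hGg L).1 h3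
          rw [if_pos h4]
          exact if_pos h3
        · have h4 : ¬ (L = E.iS v₀ ∨ L = w) := fun h4 => h3 ((hGg L).2 h4)
          rw [if_neg h4]
          refine (if_neg h3).trans ?_
          push Not at h4
          have hJ : P.J g (E.iR r) (E.iS v₀) L = if L = u then w else L := by
            unfold J
            rw [hoth]
            by_cases h5 : L = u
            · rw [if_pos h5, h5, Equiv.swap_apply_left]
            · rw [if_neg h5]
              exact Equiv.swap_apply_of_ne_of_ne h5 h4.2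
          rw [hJ]
    rw [e3, e2, sum_range E.inj]
    exact hr3

end Pool.Agent.Lib.MP_688fd0_co.SQ2.V
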