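import Pool.Agent.Lib.MP_688fd0_co.SQ2.V.Sym

/-!
FLIP on one frontier: statements of the cases.
-/

set_option autoImplicit false

namespace Pool.Agent.Lib.MP_688fd0_co.SQ2

open Pool.Agent.Lib.MP_688fd0_co.OSF
open V (Puz)

/-- A base gadget of the label `b`: its rung is the edge from `x A ^ p` to `y A ^ p'`; it moves only strands of the
component of `Γ`. -/
structure GOK {Q : Type} [Group Q] [DecidableEq Q] {B : Lb.{0, 0} Q} {a : B.L} {D : Subgroup Q} {F : Finset Q} {e : ℕ}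
    (h : FrD D (B.q a) F e) (G : BGad h.toFrt) (b : B.L) (p p' : ℕ) (Γ : Subgroup (Sy h.toFrt)) : Prop where
  edge : (G.x : Q) * B.q a ^ p * B.q b = (G.y : Q) * B.q a ^ p'
  del : G.δ ∈ Γ
  out : ∀ s : F, (∀ g ∈ Γ, g • G.x ≠ s ∧ g • G.y ≠ s) → G.T s = s
  cup : ∀ (R : Type) [CommRing R] (V : Vd B R), V.n a = 0 →
    V.vol G.x G.X.cup = V.chi ((G.x : Q) * B.q a ^ p) * V.n b
  cap : ∀ (R : Type) [CommRing R] (V : Vd B R), V.n a = 0 → V.chi (B.q a) ^ e = 1 →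
    V.vol G.X.w₀ G.X.cap = Xc V G.δ * V.vol G.x G.X.cup
  path : ∀ (R : Type) [CommRing R] (V : Vd B R), V.n a = 0 → ∀ s : F,
    (∀ g ∈ Γ, g • G.x ≠ s ∧ g • G.y ≠ s) → V.vol s (G.X.path s) = 0

/-- A gadget of a commuting label: all tokens go straight up. -/
structure COK {Q : Type} [Group Q] [DecidableEq Q] {B : Lb.{0, 0} Q} {a : B.L} {D : Subgroup Q} {F : Finset Q} {e : ℕ}
    (h : FrD D (B.q a) F e) (G : BGad h.toFrt) (b : B.L) (p p' : ℕ) : Prop where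
  com : B.q b * B.q a = B.q a * B.q b
  edge : (G.x : Q) * B.q a ^ p * B.q b = (G.y : Q) * B.q a ^ p'
  T : G.T = 1
  del : G.δ = h.cj G.x
  cup : ∀ (R : Type) [CommRing R] (V : Vd B R), V.n a = 0 →
    V.vol G.x G.X.cup = V.chi ((G.x : Q) * B.q a ^ p) * V.n b
  cap : ∀ (R : Type) [CommRing R] (V : Vd B R), V.n a = 0 → V.chi (B.q a) ^ e = 1 →
    V.vol G.X.w₀ G.X.cap = Xc V G.δ * V.vol G.x G.X.cup
  path : ∀ (R : Type) [CommRing R] (V : Vd B R), V.n a = 0 → ∀ s : F, s ≠ G.x → s ≠ G.y →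
    V.vol s (G.X.path s) = 0

section

variable {Q : Type} [Group Q] [DecidableEq Q] {B : Lb.{0, 0} Q} {a : B.L} {D : Subgroup Q} {F : Finset Q} {e : ℕ}

/-- The local context: a tree path with centre strand `l₀` and rungs `f`, `g` in the big puzzle of the base gadgets `G`,
and a prime `p`. -/
structure LC (h : FrD D (B.q a) F e) {ι : Type} (G : ι → BGad h.toFrt) (hm : ℕ) (d : Q → Bool)
    (f g : Rg ι (Sy h.toFrt)) (l₀ : F) (p : ℕ) (V : Vd B (ZMod p)) : Prop where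
  finQ : Finite Q
  finι : Finite ι
  odd : Odd (Nat.card Q)
  eodd : Odd e
  card : Nat.card D ∣ e
  prime : p.Prime
  big : 4 * e < p
  al : V.chi (B.q a) ^ e = 1
  ht : ∀ i, (G i).H ≤ hm
  cap : ∀ (i : ι) (V' : Vd B (ZMod p)), V'.n a = 0 → V'.chi (B.q a) ^ e = 1 →
    V'.vol (G i).X.w₀ (G i).X.cap = Xc V' (G i).δ * V'.vol (G i).x (G i).X.cup
  adj : (bigP G).Adj g f l₀
  dl : ∀ y, d (y * B.q a) = d y
  df : d ((bigP G).oth f l₀ : Q) = !d (l₀ : Q)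
  dg : d ((bigP G).oth g l₀ : Q) = !d (l₀ : Q)

/-- The conclusion: two versions of a flat window of the tree path with different volumes. -/
def LRes (h : FrD D (B.q a) F e) {ι : Type} (G : ι → BGad h.toFrt) (hm : ℕ) (d : Q → Bool)
    (f g : Rg ι (Sy h.toFrt)) (l₀ : F) (p : ℕ) (V : Vd B (ZMod p)) : Prop :=
  ∀ (E : TW B) (n₀ : ℕ), EWr (bigZ G) f g l₀ E n₀ →
    ∃ (X X' : TW B) (n : ℕ), Ver a X X' n ((bigZ G).vt ((bigP G).oth g l₀) ((bigZ G).lev f)) ∧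
      EWr (bigZ G) f g l₀ X n ∧ X.cap = E.cap ∧
      n ≤ 2 * n₀ + (2 * NW F (Rg ι (Sy h.toFrt)) + 4) * (e + hm) ∧ dvol V d X X' ≠ 0

end

/-- The sign of a colour as an integer. -/
def dz {Q : Type} (d : Q → Bool) (x : Q) : ℤ := if d x then 1 else -1

/-- The sum of the colours of a component. -/
noncomputable def dsf {Q : Type} [Group Q] (K : Subgroup Q) (b : Q) (dd : Q → ℤ) (x : Q) : ℤ :=
  ∑ᶠ k : K, (dd (x * k) + dd (x * k * b))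

/-- NC2: a label which does not commute with `a`, two sheets. -/
def NC2S : Prop := ∀ (Q : Type) [Group Q] [DecidableEq Q] (B : Lb.{0, 0} Q) (a : B.L) (D : Subgroup Q) (F : Finset Q)
  (e : ℕ) (h : FrD D (B.q a) F e) (ι : Type) (G : ι → BGad h.toFrt) (hm : ℕ) (d : Q → Bool)
  (f g : Rg ι (Sy h.toFrt)) (l₀ : F) (p : ℕ) (V : Vd B (ZMod p)), LC h G hm d f g l₀ p V →
  ∀ (i : ι) (b : B.L) (p₀ p₁ : ℕ),
    GOK h (G i) b p₀ p₁ (Subgroup.closure {h.cj ((G i).x : Q), h.cj ((G i).y : Q)}) →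
    (∀ k : Sy h.toFrt, k • (G i).x ≠ (G i).y) → B.q b * B.q a ≠ B.q a * B.q b →
    ((G i).x = l₀ ∨ (G i).x = (bigP G).oth f l₀ ∨ (G i).x = (bigP G).oth g l₀) →
    dsf (Subgroup.closure {B.q a, B.q b * B.q a * (B.q b)⁻¹}) (B.q b) (dz d) (((G i).x : Q) * B.q a ^ p₀) ≠ 0 →
    ((∃ n : ℕ, d (((G i).x : Q) * B.q a ^ n * B.q b) = !d ((G i).x : Q)) ∨
      ∀ γ ∈ Subgroup.closure {B.q a, B.q b * B.q a * (B.q b)⁻¹},
        d (((G i).x : Q) * B.q a ^ p₀ * γ) = d ((G i).x : Q) ∧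
          d (((G i).x : Q) * B.q a ^ p₀ * γ * B.q b) = d ((G i).x : Q)) →
    V.kap a b ≠ 0 → LRes h G hm d f g l₀ p V

/-- NC1: a label which does not commute with `a`, one sheet. -/
def NC1S : Prop := ∀ (Q : Type) [Group Q] [DecidableEq Q] (B : Lb.{0, 0} Q) (a : B.L) (D : Subgroup Q) (F : Finset Q)
  (e : ℕ) (h : FrD D (B.q a) F e) (ι : Type) (G : ι → BGad h.toFrt) (hm : ℕ) (d : Q → Bool)
  (f g : Rg ι (Sy h.toFrt)) (l₀ : F) (p : ℕ) (V : Vd B (ZMod p)), LC h G hm d f g l₀ p V →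
  ∀ (i : ι) (b : B.L) (p₀ p₁ : ℕ) (η : Sy h.toFrt),
    GOK h (G i) b p₀ p₁ (Subgroup.closure {h.cj ((G i).x : Q), η}) →
    η • (G i).x = (G i).y → lv η = (p₁ : ZMod e) - p₀ → B.q b * B.q a ≠ B.q a * B.q b →
    ((G i).x = l₀ ∨ (G i).x = (bigP G).oth f l₀ ∨ (G i).x = (bigP G).oth g l₀) →
    ((∃ n : ℕ, d (((G i).x : Q) * B.q a ^ n * B.q b) = !d ((G i).x : Q)) ∨
      ∀ γ ∈ Subgroup.closure {B.q a, B.q b}, d (((G i).x : Q) * B.q a ^ p₀ * γ) = d ((G i).x : Q)) →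
    V.kap a b ≠ 0 → LRes h G hm d f g l₀ p V

/-- CMA: a commuting label, `chi a ≠ 1`. -/
def CMAS : Prop := ∀ (Q : Type) [Group Q] [DecidableEq Q] (B : Lb.{0, 0} Q) (a : B.L) (D : Subgroup Q) (F : Finset Q)
  (e : ℕ) (h : FrD D (B.q a) F e) (ι : Type) (G : ι → BGad h.toFrt) (hm : ℕ) (d : Q → Bool)
  (f g : Rg ι (Sy h.toFrt)) (l₀ : F) (p : ℕ) (V : Vd B (ZMod p)), LC h G hm d f g l₀ p V →
  ∀ (i : ι) (b : B.L) (p₀ p₁ : ℕ), COK h (G i) b p₀ p₁ → (G i).x = l₀ → (G i).y ≠ (bigP G).oth g l₀ →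
    V.chi (B.q a) ≠ 1 → V.kap a b ≠ 0 → LRes h G hm d f g l₀ p V

/-- CMB: a commuting label, `chi a = 1`. The rungs of the types `i₀`, `i₁`, `i₂` join `x₋ - x₀`, `x₀ - x₁`, `x₁ - x₂`. -/
def CMBS : Prop := ∀ (Q : Type) [Group Q] [DecidableEq Q] (B : Lb.{0, 0} Q) (a : B.L) (D : Subgroup Q) (F : Finset Q)
  (e : ℕ) (h : FrD D (B.q a) F e) (ι : Type) (G : ι → BGad h.toFrt) (hm : ℕ) (d : Q → Bool)
  (f g : Rg ι (Sy h.toFrt)) (l₀ : F) (p : ℕ) (V : Vd B (ZMod p)), LC h G hm d f g l₀ p V →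
  ∀ (i₀ i₁ i₂ : ι) (b : B.L) (p₀ p₁ p₂ q₀ q₁ q₂ : ℕ),
    COK h (G i₀) b p₀ q₀ → COK h (G i₁) b p₁ q₁ → COK h (G i₂) b p₂ q₂ →
    (G i₁).x = (G i₀).y → (G i₂).x = (G i₁).y →
    ((G i₁).x = l₀ ∨ (G i₁).x = (bigP G).oth f l₀ ∨ (G i₁).x = (bigP G).oth g l₀) →
    (G i₀).x ≠ (G i₁).y → (G i₂).y ≠ (G i₁).x →
    V.chi (B.q a) = 1 → V.kap a b ≠ 0 →
    (LRes h G hm d f g l₀ p V ∨ d ((G i₁).y : Q) = d ((G i₀).x : Q)) ∧
    (d ((G i₁).x : Q) = d ((G i₁).y : Q) → d ((G i₁).x : Q) = d ((G i₀).x : Q) →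
      LRes h G hm d f g l₀ p V ∨ d ((G i₂).y : Q) = !d ((G i₁).y : Q))

/-- ONE: a label with the same image as `a` or its inverse. -/
def OneS : Prop := ∀ (Q : Type) [Group Q] [DecidableEq Q] (B : Lb.{0, 0} Q) (a : B.L) (D : Subgroup Q) (F : Finset Q)
  (e : ℕ) (h : FrD D (B.q a) F e) (ι : Type) (G : ι → BGad h.toFrt) (hm : ℕ) (d : Q → Bool)
  (f g : Rg ι (Sy h.toFrt)) (l₀ : F) (p : ℕ) (V : Vd B (ZMod p)), LC h G hm d f g l₀ p V →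
  ∀ (b : B.L), (B.q b = B.q a ∨ B.q b = (B.q a)⁻¹) → V.kap a b ≠ 0 → LRes h G hm d f g l₀ p V

end Pool.Agent.Lib.MP_688fd0_co.SQ2
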