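import Mathlib
import Pool.Agent.Lib.MP_688fd0_co.SQ2.V.Loc

/-!
Lemmas on the symmetry group of a frontier, and on sums over groups.
-/

set_option autoImplicit false

namespace Pool.Agent.Lib.MP_688fd0_co.SQ2

open Pool.Agent.Lib.MP_688fd0_co.OSF

section sy

variable {Q : Type} [Group Q] {D : Subgroup Q} {A : Q} {F : Finset Q} {e : ℕ} {hF : Frt D A F e}

theorem lv_pow (h : Sy hF) (n : ℕ) : lv (h ^ n) = (n : ZMod e) * lv h := by
  induction n with
  | zero => simp [lv_one]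
  | succ n ih => rw [pow_succ, lv_mul, ih, Nat.cast_succ, add_mul, one_mul]

theorem lv_inv (h : Sy hF) : lv h⁻¹ = - lv h := rfl

/-- A symmetry of level `0`. -/
theorem lv0_act (h : Sy hF) (h0 : lv h = 0) : ∃ d ∈ D, ∀ s : F, d * (s : Q) = ((h • s : F) : Q) := by
  obtain ⟨d, hd⟩ := exists_d h 0 (by rw [Nat.cast_zero, h0])
  refine ⟨d, hd.1, fun s => ?_⟩
  have h1 := hd.2 s
  rw [pow_zero, mul_one, mul_one] at h1
  exact h1

theorem lv0_pow (h : Sy hF) (h0 : lv h = 0) : h ^ Nat.card D = 1 := by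
  obtain ⟨d, hd, h1⟩ := lv0_act h h0
  refine sy_ext ?_ fun s => ?_
  · rw [lv_pow, h0, mul_zero, lv_one]
  · have key : ∀ n : ℕ, d ^ n * (s : Q) = ((h ^ n • s : F) : Q) := by
      intro n
      induction n with
      | zero => rw [pow_zero, pow_zero, one_mul, one_smul]
      | succ n ih => rw [pow_succ', pow_succ', mul_assoc, ih, h1, mul_smul]
    refine Subtype.ext ?_
    rw [← key, one_smul]
    have h2 : (⟨d, hd⟩ : D) ^ Nat.card D = 1 := pow_card_eq_one'
    have h3 : d ^ Nat.card D = 1 := congrArg Subtype.val h2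
    rw [h3, one_mul]

instance [NeZero e] : Finite (Sy hF) := inferInstance

/-- The order of the symmetry group is odd. -/
theorem sy_odd (hD : Odd (Nat.card D)) (he : Odd e) : Odd (Nat.card (Sy hF)) := by
  have : NeZero e := ⟨hF.he.ne'⟩
  by_contra hcon
  rw [Nat.not_odd_iff_even, even_iff_two_dvd] at hcon
  have : Fact (Nat.Prime 2) := ⟨Nat.prime_two⟩
  obtain ⟨h, hh⟩ := exists_prime_orderOf_dvd_card' 2 hcon
  have h2 : h ^ 2 = 1 := by rw [← hh, pow_orderOf_eq_one]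
  have hoddp : ∀ n : ℕ, Odd n → h ^ n = h := by
    rintro n ⟨k, rfl⟩
    rw [pow_succ, pow_mul, h2, one_pow, one_mul]
  have h3 : lv h = 0 := by
    have := lv_pow h e
    rw [hoddp e he, ZMod.natCast_self, zero_mul] at this
    exact this
  have h4 := lv0_pow h h3
  rw [hoddp _ hD] at h4
  rw [h4, orderOf_one] at hh
  exact absurd hh (by decide)

theorem sub_odd (hD : Odd (Nat.card D)) (he : Odd e) (Γ : Subgroup (Sy hF)) : Odd (Nat.card Γ) :=
  (sy_odd hD he).of_dvd_nat (Subgroup.card_subgroup_dvd_card Γ)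

end sy

section quot

variable {Q : Type} [Group Q] {D : Subgroup Q} {A : Q} {F : Finset Q} {e : ℕ}

theorem FrD.smul_mem (h : FrD D A F e) (g : Sy h.toFrt) (x : F) : ((g • x : F) : Q) * (x : Q)⁻¹ ∈ D := by
  have : NeZero e := ⟨h.he.ne'⟩
  obtain ⟨d, hd⟩ := exists_d g (lv g).val (ZMod.natCast_zmod_val _)
  have h1 : d * A ^ (lv g).val * (x : Q) = ((g • x : F) : Q) * A ^ (lv g).val := hd.2 x
  have h2 : ((g • x : F) : Q) * (x : Q)⁻¹ = d * (A ^ (lv g).val * (x : Q) * (A ^ (lv g).val)⁻¹ * (x : Q)⁻¹) := by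
    have : ((g • x : F) : Q) = d * A ^ (lv g).val * (x : Q) * (A ^ (lv g).val)⁻¹ := by rw [h1]; group
    rw [this]; group
  rw [h2]
  exact D.mul_mem hd.1 (h.com_pow _ _)

/-- An orbit has at most `|D|` strands. -/
theorem FrD.card_quot (h : FrD D A F e) [Finite Q] (Γ : Subgroup (Sy h.toFrt)) (x : F) (H : Subgroup Γ)
    (hH : ∀ g : Γ, (g : Sy h.toFrt) • x = x → g ∈ H) : Nat.card (Γ ⧸ H) ≤ Nat.card D := by
  refine Nat.card_le_card_of_injective
    (fun q : Γ ⧸ H => (⟨_, h.smul_mem (q.out : Γ) x⟩ : D)) fun q q' hq => ?_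
  have h1 : ((((q.out : Γ) : Sy h.toFrt) • x : F) : Q) * (x : Q)⁻¹ =
      ((((q'.out : Γ) : Sy h.toFrt) • x : F) : Q) * (x : Q)⁻¹ := congrArg Subtype.val hq
  have h2 : ((q.out : Γ) : Sy h.toFrt) • x = ((q'.out : Γ) : Sy h.toFrt) • x :=
    Subtype.ext (mul_right_cancel h1)
  rw [← Quotient.out_eq' q, ← Quotient.out_eq' q']
  refine QuotientGroup.eq.2 (hH _ ?_)
  show (((q.out : Γ) : Sy h.toFrt)⁻¹ * ((q'.out : Γ) : Sy h.toFrt)) • x = x
  rw [mul_smul, ← h2, inv_smul_smul]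

/-- The stabiliser of a strand in a subgroup. -/
theorem FrD.stab_sub (h : FrD D A F e) (Γ : Subgroup (Sy h.toFrt)) (s : F) (hs : h.cj (s : Q) ∈ Γ) (g : Γ) :
    (g : Sy h.toFrt) • s = s ↔ g ∈ Subgroup.zpowers (⟨h.cj (s : Q), hs⟩ : Γ) := by
  rw [h.stab s]
  constructor
  · rintro ⟨n, hn⟩
    refine ⟨n, Subtype.ext ?_⟩
    show ((⟨h.cj (s : Q), hs⟩ : Γ) ^ n : Γ).1 = g.1
    rw [← hn]; rfl
  · rintro ⟨n, hn⟩
    refine ⟨n, ?_⟩
    rw [← hn]; rfl

end quot

section xc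

variable {Q : Type} [Group Q] {B : Lb.{0, 0} Q} {a : B.L} {D : Subgroup Q} {F : Finset Q} {e : ℕ}
variable {R : Type} [CommRing R] (V : Vd B R)

theorem Xc_one {hF : Frt D (B.q a) F e} (hal : V.chi (B.q a) ^ e = 1) (s : F) : Xc V (1 : Sy hF) = 1 := by
  have h1 : ((0 : ℕ) : ZMod e) = lv (1 : Sy hF) := by rw [Nat.cast_zero, lv_one]
  rw [← Xc_eq V hal s _ 0 h1, uu_eq _ 0 h1 s, one_smul, pow_zero, mul_one, mul_inv_cancel, map_one]

theorem Xc_cj (h : FrD D (B.q a) F e) (hal : V.chi (B.q a) ^ e = 1) (s : F) (w : Q) :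
    Xc V (h.cj w) = V.chi (B.q a) := by
  have h1 : ((1 : ℕ) : ZMod e) = lv (h.cj w) := by rw [Nat.cast_one, h.cj_lv]
  rw [← Xc_eq V hal s _ 1 h1, uu_eq _ 1 h1 s, h.cj_smul, pow_one]
  have e1 : w * B.q a * w⁻¹ * (s : Q) * (B.q a)⁻¹ * B.q a * (s : Q)⁻¹ = w * B.q a * w⁻¹ := by group
  rw [e1, map_mul, map_mul, mul_comm (V.chi w), mul_assoc, ← map_mul, mul_inv_cancel, map_one, mul_one]

/-- The character of the symmetry group. -/
noncomputable def Xh {hF : Frt D (B.q a) F e} (hal : V.chi (B.q a) ^ e = 1) (s : F) : Sy hF →* R where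
  toFun := Xc V
  map_one' := Xc_one V hal s
  map_mul' := Xc_mul V hal s

end xc

/-! ### Sums -/

section sums

open Finset

/-- The sum over a group of a function on the quotient. -/
theorem sum_quotZ {G : Type*} [Group G] [Fintype G] (H : Subgroup G) [Fintype (G ⧸ H)] (f : G ⧸ H → ℤ) :
    ∑ g : G, f (g : G ⧸ H) = Nat.card H * ∑ q, f q := by
  classical
  rw [← Finset.sum_fiberwise_of_maps_to (s := (univ : Finset G)) (t := (univ : Finset (G ⧸ H)))
    (g := fun g : G => (g : G ⧸ H)) (fun _ _ => mem_univ _), Finset.mul_sum]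
  refine Finset.sum_congr rfl fun q _ => ?_
  have h1 : ∀ g ∈ (univ : Finset G).filter (fun g : G => (g : G ⧸ H) = q), f (g : G ⧸ H) = f q := by
    intro g hg
    rw [(Finset.mem_filter.1 hg).2]
  rw [Finset.sum_congr rfl h1, Finset.sum_const, nsmul_eq_mul]
  congr 1
  have h2 := QuotientGroup.card_preimage_mk H {q}
  rw [Nat.card_eq_fintype_card (α := ({q} : Set (G ⧸ H))), Fintype.card_unique, mul_one] at h2
  rw [← h2]
  congr 1
  rw [Nat.card_eq_fintype_card, ← Fintype.card_coe]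
  refine Fintype.card_congr (Equiv.subtypeEquivRight fun g => ?_)
  simp

/-- The sum over a group of a function of the image under a surjective homomorphism. -/
theorem sum_surjZ {G K : Type*} [Group G] [Fintype G] [Group K] [Fintype K] (φ : G →* K)
    (hφ : Function.Surjective φ) (f : K → ℤ) : ∃ n : ℕ, 0 < n ∧ ∑ g : G, f (φ g) = n * ∑ k, f k := by
  classical
  have : Fintype (G ⧸ φ.ker) := Fintype.ofFinite _
  let E := QuotientGroup.quotientKerEquivOfSurjective φ hφ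
  refine ⟨Nat.card φ.ker, Nat.card_pos, ?_⟩
  have h1 := sum_quotZ φ.ker (fun q => f (E q))
  have h2 : ∀ g : G, E (g : G ⧸ φ.ker) = φ g := fun g => rfl
  simp only [h2] at h1
  rw [h1]
  congr 1
  exact Fintype.sum_equiv E.toEquiv _ _ fun q => rfl

end sums

end Pool.Agent.Lib.MP_688fd0_co.SQ2
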