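import Mathlib
import Pool.Agent.Lib.MP_688fd0_co.SQ2.V.SyL
import Pool.Agent.Lib.MP_688fd0_co.SQ2.V.FlipA
import Pool.Agent.Lib.MP_688fd0_co.SQ2.V.FlipB
import Pool.Agent.Lib.MP_688fd0_co.SQ2.V.Start
import Pool.Agent.Lib.MP_688fd0_co.SQ2.V.RealA

/-!
The common part of NC1 and NC2: a component of the big puzzle with a flip gives two versions of a window.
-/

set_option autoImplicit false

namespace Pool.Agent.Lib.MP_688fd0_co.SQ2

open Pool.Agent.Lib.MP_688fd0_co.OSF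
open V (Puz)
open V.Puz

/-- From a component of type `i` to the conclusion. -/
theorem ncore (ret : V.RetS) {Q : Type} [Group Q] [DecidableEq Q] {B : Lb.{0, 0} Q} {a : B.L} {D : Subgroup Q}
    {F : Finset Q} {e : ℕ} (h : FrD D (B.q a) F e) {ι : Type} (G : ι → BGad h.toFrt) (hm : ℕ) (d : Q → Bool)
    (f g : Rg ι (Sy h.toFrt)) (l₀ : F) (p : ℕ) (U : Vd B (ZMod p)) (lc : LC h G hm d f g l₀ p U)
    (i : ι) (b : B.L) (p₀ p₁ : ℕ) (Γ : Subgroup (Sy h.toFrt)) (gok : GOK h (G i) b p₀ p₁ Γ)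
    {Sb Rb : Type} [Fintype Sb] [DecidableEq Sb] [Fintype Rb] (Pb : Puz Sb Rb) (E : V.Sub (bigP G) Pb)
    (hi : ∀ r, ∃ k ∈ Γ, E.iR r = ⟨i, k⟩)
    (hS : ∀ s : F, (∃ k ∈ Γ, k • (G i).x = s ∨ k • (G i).y = s) → s ∈ Set.range E.iS)
    (v₀ : Sb) (hv₀ : E.iS v₀ = l₀ ∨ E.iS v₀ = (bigP G).oth f l₀ ∨ E.iS v₀ = (bigP G).oth g l₀)
    (h1 : Pb.Full) (h2 : Pb.Three) (h3 : Pb.Avoid) (h4 : Pb.Conn) (h5 : Fintype.card Sb < p)
    (h6 : ∃ δ : ℕ, (δ : ZMod p) ≠ 0 ∧ ∀ L, {r | Pb.On r L}.ncard = δ) (h7 : ∃ r, Pb.On r v₀)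
    (h8 : ((∑ s, (sgn (d (E.iS s : Q)) : ZMod p)) ≠ 0 ∧
        ∃ r, Pb.On r v₀ ∧ d (E.iS (Pb.oth r v₀) : Q) = !d (E.iS v₀ : Q)) ∨
      ((∀ s, d (E.iS s : Q) = d (E.iS v₀ : Q)) ∧ ((Fintype.card Sb : ZMod p) - 2 ≠ 0)))
    (h9 : ∀ U' : Vd B (ZMod p), U'.chi = U.chi → U'.n a = 0 → U'.n b ≠ 0 → U.chi (B.q a) ≠ 1 →
      ¬ ∃ β : Sb → ZMod p, ∀ r, Xc U' (E.iR r).h * (U'.chi (((G i).x : Q) * B.q a ^ p₀) * U'.n b) =
        β (Pb.y r) - β (Pb.x r))
    (h10 : U.chi (B.q a) = 1 → U.chi (B.q b) ≠ 1 → ∃ r, U.chi (E.iS (Pb.x r) : Q) ≠ U.chi (E.iS (Pb.y r) : Q))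
    (hk : U.kap a b ≠ 0) : LRes h G hm d f g l₀ p U := by
  classical
  intro W n₀ hW
  have : Fact p.Prime := ⟨lc.prime⟩
  have : Finite ι := lc.finι
  have : Finite Q := lc.finQ
  have hNe : NeZero e := ⟨h.he.ne'⟩
  have hp2 : (2 : ZMod p) ≠ 0 := by
    intro h0
    have hep := h.he
    have hbig := lc.big
    have h0' : ((2 : ℕ) : ZMod p) = 0 := by exact_mod_cast h0
    have := Nat.le_of_dvd (by norm_num) ((ZMod.natCast_eq_zero_iff 2 p).1 h0')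
    omega
  have hsym : ∀ s s' : Puz.St F (Rg ι (Sy h.toFrt)) ((bigP G).TokOf f),
      (bigP G).WReach s s' → (bigP G).WReach s' s := ret _ _ _ (bigP G) (bigHom G)
  have hsgn : ∀ c c' : Bool, c = !c' → (sgn c : ZMod p) = - sgn c' := by
    intro c c' hc
    rw [hc]
    cases c' <;> simp [sgn]
  have hcases : ∀ c : Bool, (sgn c : ZMod p) = 1 ∨ (sgn c : ZMod p) = -1 := by
    intro c
    cases c
    · exact Or.inr rfl
    · exact Or.inl rfl
  have hfac : ((Fintype.card Sb).factorial : ZMod p) ≠ 0 := by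
    rw [Ne, ZMod.natCast_eq_zero_iff, lc.prime.dvd_factorial]
    omega
  -- START
  obtain ⟨s, r, hs, hsr, hinj, hgood, hsum⟩ := V.start F (Rg ι (Sy h.toFrt)) Sb Rb (ZMod p) (bigP G) Pb E
    (fun s => sgn (d (s : Q))) f g l₀ v₀ hp2 hsym lc.adj (fun s => hcases _) (hsgn _ _ lc.df) (hsgn _ _ lc.dg) hv₀ h2
    h7 (by
      rcases h8 with ⟨h8, r, hr, hr2⟩ | ⟨h8, h8'⟩
      · exact Or.inl ⟨h8, r, hr, hsgn _ _ hr2⟩
      · exact Or.inr ⟨fun s => by rw [h8 s], h8'⟩)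
  have hcen : ∀ x : Q, x * B.q a ^ (bigZ G).e = B.q a ^ (bigZ G).e * x := h.cen
  have hH : ∀ r, (bigZ G).H r ≤ hm := fun r => lc.ht r.i
  have he : (bigZ G).e = e := rfl
  by_cases hal : U.chi (B.q a) = 1
  · -- chi a = 1
    have hkap : U.kap a b = -((U.chi (B.q b) - 1) * U.n a) := by
      unfold Vd.kap
      rw [hal]; ring
    rw [hkap, neg_ne_zero] at hk
    have hn : U.n a ≠ 0 := right_ne_zero_of_mul hk
    have hb : U.chi (B.q b) ≠ 1 := fun h0 => hk (by rw [h0]; ring)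
    have he0 : (((bigZ G).e : ℕ) : ZMod p) ≠ 0 := by
      rw [he, Ne, ZMod.natCast_eq_zero_iff]
      intro hdvd
      have := Nat.le_of_dvd h.he hdvd
      have := lc.big
      omega
    have hflip := V.flipB (V.lemmaB V.lemmaM) F (Rg ι (Sy h.toFrt)) Sb Rb (ZMod p) (bigP G) Pb E
      (fun s => U.chi (s : Q)) (fun s => sgn (d (s : Q))) f s r hs hsr hinj hgood hsum h1 h2 h3 h4 hfac h6 (h10 hal hb)
    obtain ⟨X, X', n, k1, k2, k3, k4, k5⟩ := realB F (Rg ι (Sy h.toFrt)) (bigP G) Q B a (bigZ G) (ZMod p) U _ _ _ d f g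
      l₀ hm W n₀ hcen hH lc.adj hsym (bigVols G U lc.al) hal hn he0 lc.dl lc.df lc.dg hW hflip
    exact ⟨X, X', n, k1, k2, k3, k4.trans (by rw [he]; omega), k5⟩
  · -- chi a ≠ 1
    set c := U.n a / (U.chi (B.q a) - 1) with hc
    have hal' : U.chi (B.q a) - 1 ≠ 0 := sub_ne_zero.2 hal
    set U' := U.gauge c with hU'
    have hchi : U'.chi = U.chi := rfl
    have hna : U'.n a = 0 := by
      show U.n a - c * (U.chi (B.q a) - 1) = 0
      rw [hc, div_mul_cancel₀ _ hal', sub_self]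
    have hnb : U'.n b ≠ 0 := by
      show U.n b - c * (U.chi (B.q b) - 1) ≠ 0
      intro h0
      apply hk
      unfold Vd.kap
      have h1 : c * (U.chi (B.q a) - 1) = U.n a := by rw [hc, div_mul_cancel₀ _ hal']
      linear_combination (U.chi (B.q a) - 1) * h0 + (U.chi (B.q b) - 1) * h1
    have hca := big_ca G U' lc.al (fun i => lc.cap i U' hna lc.al)
    have hcu : ∀ r, Xc U' (E.iR r).h * U'.vol (G (E.iR r).i).x (G (E.iR r).i).X.cup =
        Xc U' (E.iR r).h * (U'.chi (((G i).x : Q) * B.q a ^ p₀) * U'.n b) := by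
      intro r
      obtain ⟨k, hk1, hk2⟩ := hi r
      rw [hk2]
      rw [gok.cup _ U' hna]
    have hflip := V.flipA (V.lemmaA V.lemmaM) F (Rg ι (Sy h.toFrt)) Sb Rb (ZMod p) (bigP G) Pb E
      (fun r => Xc U' r.h * U'.vol (G r.i).x (G r.i).X.cup)
      (fun r s => Xc U' r.h * U'.vol ((r.h⁻¹ • s : F) : Q) ((G r.i).X.path ((r.h⁻¹ • s : F) : Q)))
      (fun s => sgn (d (s : Q))) f g l₀ s r hsym lc.adj (by
        intro r s hs
        obtain ⟨k, hk1, hk2⟩ := hi r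
        rw [hk2]
        show Xc U' k * U'.vol ((k⁻¹ • s : F) : Q) ((G i).X.path ((k⁻¹ • s : F) : Q)) = 0
        rw [gok.path _ U' hna (k⁻¹ • s), mul_zero]
        intro k' hk'
        constructor
        · intro h0
          apply hs
          refine hS s ⟨k * k', Γ.mul_mem hk1 hk', Or.inl ?_⟩
          rw [mul_smul, h0, smul_inv_smul]
        · intro h0
          apply hs
          refine hS s ⟨k * k', Γ.mul_mem hk1 hk', Or.inr ?_⟩
          rw [mul_smul, h0, smul_inv_smul]) hs hsr hinj hgood hsum h1 h2 h3 h4 hfac h6 (by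
        rintro ⟨β, hβ⟩
        exact h9 U' hchi hna hnb hal ⟨β, fun r => by rw [← hcu r]; exact hβ r⟩)
    obtain ⟨X, X', n, k1, k2, k3, k4, k5⟩ := realA F (Rg ι (Sy h.toFrt)) (bigP G) Q B a (bigZ G) (ZMod p) U' _ _ _ d f g
      l₀ hm W n₀ hcen hH lc.adj hsym (bigVols G U' lc.al) hna hca lc.dl lc.df lc.dg hW hflip
    refine ⟨X, X', n, k1, k2, k3, k4.trans (by rw [he]; omega), ?_⟩
    rw [← gauge_dvol U c d k1]
    exact k5

end Pool.Agent.Lib.MP_688fd0_co.SQ2
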