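import Mathlib

/-!
Chapter V (voltages), module PLACE: there is a place whose strands have a nonzero sum of colours
(two sheets `x K₂` and `x K₂ b`; one sheet: an odd number of strands).
-/

set_option autoImplicit false

namespace Pool.Agent.Lib.MP_688fd0_co.SQ2.V

open Finset

/-- A sum of an odd number of signs is odd. -/
theorem odd_sum_signs {ι : Type} (s : Finset ι) (d : ι → ℤ) (hd : ∀ i ∈ s, d i = 1 ∨ d i = -1)
    (hs : Odd s.card) : Odd (∑ i ∈ s, d i) := by
  classical
  have key : ∀ t : Finset ι, (∀ i ∈ t, d i = 1 ∨ d i = -1) →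
      Even (∑ i ∈ t, d i - (t.card : ℤ)) := by
    intro t
    induction t using Finset.induction_on with
    | empty => intro _; simp
    | insert a t ha ih =>
      intro ht
      obtain ⟨m, hm⟩ := ih fun i hi => ht i (Finset.mem_insert_of_mem hi)
      rw [Finset.sum_insert ha, Finset.card_insert_of_notMem ha]
      rcases ht a (Finset.mem_insert_self a t) with h | h
      · exact ⟨m, by push_cast; rw [h]; linarith⟩
      · exact ⟨m - 1, by push_cast; rw [h]; linarith⟩
  obtain ⟨m, hm⟩ := key s hd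
  obtain ⟨c, hc⟩ := hs
  refine ⟨m + c, ?_⟩
  have : (s.card : ℤ) = 2 * c + 1 := by exact_mod_cast hc
  linarith

/-- A sum of signs is small. -/
theorem abs_sum_signs {ι : Type} (s : Finset ι) (d : ι → ℤ) (hd : ∀ i ∈ s, d i = 1 ∨ d i = -1) :
    |∑ i ∈ s, d i| ≤ s.card := by
  refine (Finset.abs_sum_le_sum_abs _ _).trans ?_
  refine (Finset.sum_le_sum (g := fun _ => (1 : ℤ)) fun i hi => ?_).trans (by simp)
  rcases hd i hi with h | h <;> simp [h]

/-- One sheet: the sum of the colours over an odd number of strands is not `0`. -/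
theorem place_one {ι : Type} (s : Finset ι) (d : ι → ℤ) (hd : ∀ i ∈ s, d i = 1 ∨ d i = -1)
    (hs : Odd s.card) (p : ℕ) (hp : s.card < p) : ((∑ i ∈ s, d i : ℤ) : ZMod p) ≠ 0 := by
  intro h
  rw [ZMod.intCast_zmod_eq_zero_iff_dvd] at h
  have h1 := odd_sum_signs s d hd hs
  have h2 := abs_sum_signs s d hd
  have h3 : ∑ i ∈ s, d i = 0 := Int.eq_zero_of_abs_lt_dvd h (lt_of_le_of_lt h2 (by exact_mod_cast hp))
  rw [h3] at h1
  exact absurd h1 (by decide)

/-- The same, in any field (or ring) where the small integers are not `0`. -/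
theorem place_one' {ι : Type} (s : Finset ι) (d : ι → ℤ) (hd : ∀ i ∈ s, d i = 1 ∨ d i = -1)
    (hs : Odd s.card) {F : Type} [Ring F] (p : ℕ) [CharP F p] (hp : s.card < p) :
    ((∑ i ∈ s, d i : ℤ) : F) ≠ 0 := by
  intro h
  rw [CharP.intCast_eq_zero_iff F p] at h
  have h1 := odd_sum_signs s d hd hs
  have h2 := abs_sum_signs s d hd
  have h3 : ∑ i ∈ s, d i = 0 := Int.eq_zero_of_abs_lt_dvd h (lt_of_le_of_lt h2 (by exact_mod_cast hp))
  rw [h3] at h1
  exact absurd h1 (by decide)

section place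

variable {Q : Type} [Group Q]

open Classical in
/-- The sum of the colours over the two sheets `x K₂` and `x K₂ b`. -/
noncomputable def DS [Fintype Q] (K₂ : Subgroup Q) (b : Q) (d : Q → ℤ) (x : Q) : ℤ :=
  ∑ k : K₂, d (x * k) + ∑ k : K₂, d (x * k * b)

open Classical in
theorem sum_DS [Fintype Q] (K₂ N : Subgroup Q) [N.Normal] (hKN : K₂ ≤ N) (b : Q) (d : Q → ℤ)
    (y : Q) : ∑ n : N, DS K₂ b d (y * n) =
      Fintype.card K₂ * (∑ n : N, d (y * n) + ∑ n : N, d (y * b * n)) := by
  have e1 : ∀ k : K₂, ∑ n : N, d (y * n * k) = ∑ n : N, d (y * n) := by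
    intro k
    refine Fintype.sum_equiv (Equiv.mulRight (⟨k, hKN k.2⟩ : N)) _ _ fun n => ?_
    simp [mul_assoc]
  have e2 : ∀ k : K₂, ∑ n : N, d (y * n * k * b) = ∑ n : N, d (y * b * n) := by
    intro k
    have e3 : ∑ n : N, d (y * n * k * b) = ∑ n : N, d (y * n * b) := by
      refine Fintype.sum_equiv (Equiv.mulRight (⟨k, hKN k.2⟩ : N)) _ _ fun n => ?_
      simp [mul_assoc]
    rw [e3]
    have hmem : ∀ n : N, b⁻¹ * (n : Q) * b ∈ N := fun n => by
      have := (inferInstance : N.Normal).conj_mem n n.2 b⁻¹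
      simpa using this
    have hmem' : ∀ n : N, b * (n : Q) * b⁻¹ ∈ N := fun n =>
      (inferInstance : N.Normal).conj_mem n n.2 b
    let e : N ≃ N :=
      { toFun := fun n => ⟨b⁻¹ * (n : Q) * b, hmem n⟩
        invFun := fun n => ⟨b * (n : Q) * b⁻¹, hmem' n⟩
        left_inv := fun n => Subtype.ext (by simp [mul_assoc])
        right_inv := fun n => Subtype.ext (by simp [mul_assoc]) }
    refine Fintype.sum_equiv e _ _ fun n => ?_
    show d (y * n * b) = d (y * b * (b⁻¹ * (n : Q) * b))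
    congr 1
    group
  unfold DS
  rw [Finset.sum_add_distrib, Finset.sum_comm, Finset.sum_comm (s := (univ : Finset N))]
  rw [Finset.sum_congr rfl fun k _ => e1 k, Finset.sum_congr rfl fun k _ => e2 k]
  simp [mul_add]

/-- PLACE, two sheets: some place has a nonzero sum of colours. -/
theorem place_two [Fintype Q] (hodd : Odd (Nat.card Q)) (b : Q) (K₂ : Subgroup Q) (d : Q → ℤ)
    (hd : ∀ x, d x = 1 ∨ d x = -1) : ∃ x, DS K₂ b d x ≠ 0 := by
  classical
  by_contra hcon
  push Not at hcon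
  let N := Subgroup.normalClosure (K₂ : Set Q)
  have hN : Odd (Fintype.card N) := by
    rw [← Nat.card_eq_fintype_card]
    exact hodd.of_dvd_nat (Subgroup.card_subgroup_dvd_card N)
  let Fn : Q → ℤ := fun y => ∑ n : N, d (y * n)
  have hF : ∀ y, Fn y + Fn (y * b) = 0 := by
    intro y
    have h1 := sum_DS K₂ N Subgroup.le_normalClosure b d y
    simp only [hcon, Finset.sum_const_zero] at h1
    have h2 : ((Fintype.card K₂ : ℕ) : ℤ) ≠ 0 := by
      exact_mod_cast Fintype.card_ne_zero
    rcases mul_eq_zero.1 h1.symm with h | h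
    · exact absurd h h2
    · exact h
  have hpow : ∀ j : ℕ, ∀ y, Fn (y * b ^ j) = (-1) ^ j * Fn y := by
    intro j
    induction j with
    | zero => intro y; simp
    | succ j ih =>
      intro y
      have h1 := hF (y * b ^ j)
      rw [pow_succ, ← mul_assoc]
      rw [ih y] at h1
      rw [pow_succ]
      linarith
  have ho : Odd (orderOf b) := hodd.of_dvd_nat (orderOf_dvd_natCard b)
  have h1 := hpow (orderOf b) 1
  rw [pow_orderOf_eq_one, mul_one, ho.neg_one_pow] at h1
  have h2 : Odd (Fn 1) := by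
    refine odd_sum_signs _ _ (fun n _ => hd _) ?_
    rw [Finset.card_univ]
    exact hN
  have h3 : Fn 1 = 0 := by linarith
  rw [h3] at h2
  exact absurd h2 (by decide)

/-- PLACE, two sheets, in characteristic `p > 2 |K₂|`. -/
theorem place_two' [Fintype Q] (hodd : Odd (Nat.card Q)) (b : Q) (K₂ : Subgroup Q) (d : Q → ℤ)
    (hd : ∀ x, d x = 1 ∨ d x = -1) {F : Type} [Ring F] (p : ℕ) [CharP F p]
    (hp : 2 * Nat.card K₂ < p) : ∃ x, ((DS K₂ b d x : ℤ) : F) ≠ 0 := by
  classical
  obtain ⟨x, hx⟩ := place_two hodd b K₂ d hd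
  refine ⟨x, fun h => hx ?_⟩
  rw [CharP.intCast_eq_zero_iff F p] at h
  refine Int.eq_zero_of_abs_lt_dvd h ?_
  have h1 : |∑ k : K₂, d (x * k)| ≤ Fintype.card K₂ := by
    simpa using abs_sum_signs (univ : Finset K₂) (fun k => d (x * k)) fun k _ => hd _
  have h2 : |∑ k : K₂, d (x * k * b)| ≤ Fintype.card K₂ := by
    simpa using abs_sum_signs (univ : Finset K₂) (fun k => d (x * k * b)) fun k _ => hd _
  have h3 : |DS K₂ b d x| ≤ |∑ k : K₂, d (x * k)| + |∑ k : K₂, d (x * k * b)| := by
    unfold DS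
    exact abs_add_le _ _
  have h4 : (2 * Fintype.card K₂ : ℤ) < p := by
    rw [Nat.card_eq_fintype_card] at hp
    exact_mod_cast hp
  linarith

end place

end Pool.Agent.Lib.MP_688fd0_co.SQ2.V
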