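import Pool.Agent.Lib.MP_688fd0_co.SQ2.V.Sub1
import Pool.Agent.Lib.MP_688fd0_co.SQ2.V.NCore
import Pool.Agent.Lib.MP_688fd0_co.SQ2.V.Place

/-!
NC1: a label which does not commute with `a`, one sheet.
-/

set_option autoImplicit false

namespace Pool.Agent.Lib.MP_688fd0_co.SQ2

open Pool.Agent.Lib.MP_688fd0_co.OSF
open V (Puz Sub S1 puz1)

variable {Q : Type} [Group Q] {B : Lb.{0, 0} Q} {a : B.L} {D : Subgroup Q} {F : Finset Q} {e : ℕ}

/-- The colour is constant on lines. -/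
theorem d_zpow {d : Q → Bool} (hd : ∀ y, d (y * B.q a) = d y) (y : Q) (t : ℤ) : d (y * B.q a ^ t) = d y := by
  have h1 : ∀ y, d (y * (B.q a)⁻¹) = d y := fun y => by
    have := hd (y * (B.q a)⁻¹)
    rw [inv_mul_cancel_right] at this
    exact this.symm
  induction t with
  | zero => rw [zpow_zero, mul_one]
  | succ n ih => rw [zpow_add, zpow_one, ← mul_assoc, hd, ih]
  | pred n ih => rw [sub_eq_add_neg, zpow_add, zpow_neg_one, ← mul_assoc, h1, ih]

/-- The elements of `Γ` act as left multiplications by the conjugates of the elements of `⟨a, b⟩`. -/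
theorem act_conj (h : FrD D (B.q a) F e) {b : B.L} {p p' : ℕ} {x y : F} {η : Sy h.toFrt}
    (he : (x : Q) * B.q a ^ p * B.q b = (y : Q) * B.q a ^ p') (hη : η • x = y)
    (hl : lv η = (p' : ZMod e) - p) {γ : Sy h.toFrt}
    (hγ : γ ∈ Subgroup.closure {h.cj (x : Q), η}) :
    ∃ g ∈ Subgroup.closure {B.q a, B.q b}, ∃ t : ℤ, ∀ s : F,
      ((x : Q) * B.q a ^ p) * g * ((x : Q) * B.q a ^ p)⁻¹ * (s : Q) = ((γ • s : F) : Q) * B.q a ^ t := by
  have hcenz : ∀ (k : ℤ) (q : Q), q * B.q a ^ ((e : ℤ) * k) = B.q a ^ ((e : ℤ) * k) * q := by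
    intro k q
    have h1 : Commute q (B.q a ^ e) := h.cen q
    rw [zpow_mul, zpow_natCast]
    exact h1.zpow_right k
  induction hγ using Subgroup.closure_induction with
  | mem γ hγ =>
    rcases hγ with rfl | hγ
    · refine ⟨B.q a, Subgroup.subset_closure (Or.inl rfl), 1, fun s => ?_⟩
      rw [h.cj_smul, zpow_one, inv_mul_cancel_right]
      congr 1
      group
    · have hγ' : γ = η := hγ
      subst hγ'
      refine ⟨B.q b, Subgroup.subset_closure (Or.inr rfl), (p' : ℤ) - p, fun s => ?_⟩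
      have : NeZero e := ⟨h.he.ne'⟩
      set t := (lv γ).val with ht
      have ht' : (t : ZMod e) = lv γ := ZMod.natCast_zmod_val _
      have h1 := uu_spec γ t ht' s
      have h2 := uu_spec γ t ht' x
      rw [hη] at h2
      have h3 : ((p' : ℤ) - p - t : ℤ) = (e : ℤ) * (((p' : ℤ) - p - t) / e) := by
        refine (Int.mul_ediv_cancel' ?_).symm
        rw [← ZMod.intCast_zmod_eq_zero_iff_dvd]
        push_cast
        rw [ht', hl]; ring
      set k := ((p' : ℤ) - p - t) / e with hk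
      have h4 : (p' : ℤ) - p = t + (e : ℤ) * k := by omega
      have h5 : (x : Q) * B.q a ^ p * B.q b * ((x : Q) * B.q a ^ p)⁻¹ = uu γ t * B.q a ^ ((e : ℤ) * k) := by
        have h6 : uu γ t = (y : Q) * B.q a ^ t * (x : Q)⁻¹ := by rw [← h2, mul_inv_cancel_right]
        rw [he, h6, mul_inv_rev, mul_assoc ((y : Q) * B.q a ^ t), hcenz, ← mul_assoc, ← mul_assoc,
          mul_assoc (y : Q) (B.q a ^ t), ← zpow_natCast (B.q a) t, ← zpow_add, ← h4, sub_eq_add_neg, zpow_add,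
          zpow_natCast, zpow_neg, zpow_natCast, ← mul_assoc]
      rw [h5, mul_assoc, ← hcenz, ← mul_assoc, h1, mul_assoc, ← zpow_natCast (B.q a) t, ← zpow_add, ← h4]
  | one => exact ⟨1, Subgroup.one_mem _, 0, fun s => by rw [one_smul]; group⟩
  | mul γ γ' _ _ ih ih' =>
    obtain ⟨g, hg, t, h1⟩ := ih
    obtain ⟨g', hg', t', h2⟩ := ih'
    refine ⟨g * g', Subgroup.mul_mem _ hg hg', t' + t, fun s => ?_⟩
    set w := (x : Q) * B.q a ^ p
    have h3 : w * (g * g') * w⁻¹ * (s : Q) = w * g * w⁻¹ * (w * g' * w⁻¹ * s) := by group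
    rw [h3, h2, ← mul_assoc, h1, mul_smul, mul_assoc, ← zpow_add, add_comm]
  | inv γ _ ih =>
    obtain ⟨g, hg, t, h1⟩ := ih
    refine ⟨g⁻¹, Subgroup.inv_mem _ hg, -t, fun s => ?_⟩
    have h2 := h1 (γ⁻¹ • s)
    rw [smul_inv_smul] at h2
    set w := (x : Q) * B.q a ^ p
    have h3 : (s : Q) = w * g * w⁻¹ * ((γ⁻¹ • s : F) : Q) * B.q a ^ (-t) := by
      rw [h2, mul_assoc, ← zpow_add, add_neg_cancel, zpow_zero, mul_one]
    rw [h3]
    group

/-- `ZMod p`: small numbers are not zero. -/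
theorem zmod_small {p n : ℕ} (hn : 0 < n) (hp : n < p) : (n : ZMod p) ≠ 0 := by
  intro h
  have := Nat.le_of_dvd hn ((ZMod.natCast_eq_zero_iff n p).1 h)
  omega

/-- NC1. -/
theorem nc1 (ret : V.RetS) : NC1S := by
  classical
  intro Q _ _ B a D F e h ι G hm d f g l₀ p U lc i b p₀ p₁ η gok hη hl hcom hx hcol hk
  have hNe : NeZero e := ⟨h.he.ne'⟩
  have : Finite ι := lc.finι
  have : Finite Q := lc.finQ
  have : Fact p.Prime := ⟨lc.prime⟩
  have hDodd : Odd (Nat.card D) := lc.odd.of_dvd_nat (Subgroup.card_subgroup_dvd_card D)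
  have hDe : Nat.card D ≤ e := Nat.le_of_dvd h.he lc.card
  have hbig := lc.big
  have hepos := h.he
  set x := (G i).x with hxd
  set Γ : Subgroup (Sy h.toFrt) := Subgroup.closure {h.cj (x : Q), η} with hΓ
  have hc1 : h.cj (x : Q) ∈ Γ := Subgroup.subset_closure (Or.inl rfl)
  have hc2 : η ∈ Γ := Subgroup.subset_closure (Or.inr rfl)
  obtain ⟨a', ha'⟩ : ∃ a' : Γ, (a' : Sy h.toFrt) = h.cj (x : Q) := ⟨⟨_, hc1⟩, rfl⟩
  obtain ⟨b', hb'⟩ : ∃ b' : Γ, (b' : Sy h.toFrt) = η := ⟨⟨_, hc2⟩, rfl⟩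
  obtain ⟨hb, tau, T, hT, E, hiR, hiS⟩ := exists_sub1 (G := G) (i := i) (Γ := Γ) (a' := a') (b' := b') ha'
    (by rw [hb']; exact hη) gok.out gok.del
  have : Fintype Γ := Fintype.ofFinite _
  have : Fintype (S1 a') := Fintype.ofFinite _
  have hodd : Odd (Nat.card Γ) := sub_odd hDodd lc.eodd Γ
  -- `a'` is not normalised
  have hord : orderOf a' = e := by
    rw [← Subgroup.orderOf_coe, ha']
    exact h.cj_order x
  have hna : b'⁻¹ * a' * b' ∉ Subgroup.zpowers a' := by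
    intro hmem
    rw [mem_zp (h := h)] at hmem
    have e1 : ((b'⁻¹ * a' * b' : Γ) : Sy h.toFrt) = η⁻¹ * h.cj (x : Q) * η := by
      rw [← ha', ← hb']; rfl
    rw [e1, ha'] at hmem
    have h1 := (h.stab x _).2 hmem
    rw [mul_smul, mul_smul, hη, inv_smul_eq_iff, hη] at h1
    -- cj x fixes y
    have h2 : ((h.cj (x : Q) • (G i).y : F) : Q) = ((G i).y : Q) := congrArg Subtype.val h1
    rw [h.cj_smul] at h2
    have h3 := gok.edge
    have h4 : ((G i).y : Q) = (x : Q) * B.q a ^ p₀ * B.q b * (B.q a ^ p₁)⁻¹ := by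
      rw [hxd, h3, mul_inv_cancel_right]
    rw [h4] at h2
    apply hcom
    have h5 : (x : Q) * B.q a * (x : Q)⁻¹ * ((x : Q) * B.q a ^ p₀ * B.q b * (B.q a ^ p₁)⁻¹) * (B.q a)⁻¹ =
        (x : Q) * B.q a ^ p₀ * (B.q a * B.q b) * (B.q a)⁻¹ * (B.q a ^ p₁)⁻¹ := by group
    rw [h5, mul_left_inj, mul_assoc ((x : Q) * B.q a ^ p₀)] at h2
    have h6 := mul_left_cancel h2
    rw [mul_inv_eq_iff_eq_mul] at h6
    exact h6.symm
  have htop : Subgroup.closure ({a', b'} : Set Γ) = ⊤ := by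
    rw [eq_top_iff]
    rintro ⟨γ, hγ⟩ -
    induction hγ using Subgroup.closure_induction with
    | mem γ hγ =>
      refine Subgroup.subset_closure ?_
      rcases hγ with hγ | hγ
      · exact Or.inl (Subtype.ext (hγ.trans ha'.symm))
      · exact Or.inr (Subtype.ext ((show γ = η from hγ).trans hb'.symm))
    | one => exact Subgroup.one_mem _
    | mul γ γ' _ _ ih ih' => exact Subgroup.mul_mem _ ih ih'
    | inv γ _ ih => exact Subgroup.inv_mem _ ih
  obtain ⟨k1, k2, k3, k4, k5⟩ := V.place1 (hb := hb) (tau := tau) (T := T) (hT := hT) hodd hna htop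
  have hcard : Fintype.card (S1 a') ≤ e := by
    rw [← Nat.card_eq_fintype_card]
    refine le_trans (h.card_quot Γ x (Subgroup.zpowers a') fun g hg => ?_) hDe
    rw [mem_zp (h := h), ha']
    exact (h.stab x g).1 hg
  have hcodd : Odd (Fintype.card (S1 a')) := by
    rw [← Nat.card_eq_fintype_card]
    exact hodd.of_dvd_nat (Subgroup.card_quotient_dvd_card _)
  have hone : ((1 : Γ) : Sy h.toFrt) • x = x := one_smul _ _
  have hiS1 : E.iS ((1 : Γ) : Γ ⧸ Subgroup.zpowers a') = x := (hiS 1).trans hone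
  have hiSb : ∀ r : Γ, E.iS ((r * b' : Γ) : Γ ⧸ Subgroup.zpowers a') = (r : Sy h.toFrt) • (G i).y := by
    intro r
    rw [hiS]
    show ((r : Sy h.toFrt) * (b' : Sy h.toFrt)) • x = _
    rw [mul_smul, hb', hη]
  have hcard1 : 1 < Fintype.card (S1 a') := by
    rw [Fintype.one_lt_card_iff]
    exact ⟨_, _, (puz1 a' b' hb tau T hT).ne 1⟩
  -- powers of `a'`
  have hpow : ∀ (n : ℕ) (s : F), ((h.cj (x : Q) ^ n • s : F) : Q) =
      (x : Q) * B.q a ^ n * (x : Q)⁻¹ * (s : Q) * (B.q a ^ n)⁻¹ := by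
    intro n s
    induction n with
    | zero => simp
    | succ n ih => rw [pow_succ', mul_smul, h.cj_smul, ih, pow_succ' (B.q a)]; group
  have hy : ((G i).y : Q) = (x : Q) * B.q a ^ p₀ * B.q b * (B.q a ^ p₁)⁻¹ := by
    rw [hxd, gok.edge, mul_inv_cancel_right]
  have hdz : ∀ (y : Q) (t : ℤ), d (y * B.q a ^ t) = d y := fun y t => d_zpow lc.dl y t
  have hdn : ∀ (y : Q) (t : ℕ), d (y * B.q a ^ t) = d y := fun y t => by
    rw [← zpow_natCast]; exact hdz y t
  have hdn' : ∀ (y : Q) (t : ℕ), d (y * (B.q a ^ t)⁻¹) = d y := fun y t => by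
    rw [← zpow_natCast, ← zpow_neg]; exact hdz y _
  refine ncore ret h G hm d f g l₀ p U lc i b p₀ p₁ Γ gok (puz1 a' b' hb tau T hT) E
    (fun r => ⟨r, r.2, hiR r⟩) ?_ ((1 : Γ) : Γ ⧸ Subgroup.zpowers a') (by rw [hiS1]; exact hx) k1 k2 k4 k3
    (by omega) ⟨2 * orderOf a', by rw [hord]; exact zmod_small (by omega) (by omega), k5⟩ ⟨1, Or.inl rfl⟩ ?_ ?_ ?_ hk
  · rintro s ⟨k, hk1, hk2 | hk2⟩
    · exact ⟨((⟨k, hk1⟩ : Γ) : Γ ⧸ Subgroup.zpowers a'), (hiS _).trans hk2⟩
    · exact ⟨(((⟨k, hk1⟩ : Γ) * b' : Γ) : Γ ⧸ Subgroup.zpowers a'), (hiSb _).trans hk2⟩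
  · rcases hcol with ⟨n, hn⟩ | hall
    · left
      constructor
      · have h1 := V.place_one (Finset.univ : Finset (S1 a')) (fun s => if d (E.iS s : Q) then 1 else -1)
          (fun s _ => by
            by_cases h2 : d (E.iS s : Q)
            · left; rw [if_pos h2]
            · right; rw [if_neg h2]) hcodd p (by rw [Finset.card_univ]; omega)
        rw [Int.cast_sum] at h1
        convert h1 using 2 with s
        unfold sgn
        by_cases h2 : d (E.iS s : Q)
        · rw [if_pos h2, if_pos h2, Int.cast_one]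
        · rw [if_neg h2, if_neg h2, Int.cast_neg, Int.cast_one]
      · obtain ⟨e', rfl⟩ : ∃ e', e = e' + 1 := ⟨e - 1, by omega⟩
        refine ⟨a' ^ (n + e' * p₀), ?_, ?_⟩
        · left
          exact QuotientGroup.eq.2 (by
            rw [inv_one, one_mul]; exact Subgroup.npow_mem_zpowers _ _)
        · have h1 : ((1 : Γ) : Γ ⧸ Subgroup.zpowers a') = (puz1 a' b' hb tau T hT).x (a' ^ (n + e' * p₀)) :=
            QuotientGroup.eq.2 (by rw [inv_one, one_mul]; exact Subgroup.npow_mem_zpowers _ _)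
          have h2 : (puz1 a' b' hb tau T hT).oth (a' ^ (n + e' * p₀)) ((1 : Γ) : Γ ⧸ Subgroup.zpowers a') =
              ((a' ^ (n + e' * p₀) * b' : Γ) : Γ ⧸ Subgroup.zpowers a') := by
            unfold Puz.oth
            rw [if_pos h1]; rfl
          rw [h2, hiSb, hiS1]
          have h3 : ((a' ^ (n + e' * p₀) : Γ) : Sy h.toFrt) = h.cj (x : Q) ^ (n + e' * p₀) := by
            rw [← ha']; rfl
          rw [h3, hpow, hy, hdn']
          have h4 : (x : Q) * B.q a ^ (n + e' * p₀) * (x : Q)⁻¹ *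
              ((x : Q) * B.q a ^ p₀ * B.q b * (B.q a ^ p₁)⁻¹) =
              (x : Q) * (B.q a ^ (n + e' * p₀) * B.q a ^ p₀) * B.q b * (B.q a ^ p₁)⁻¹ := by group
          rw [h4, hdn', ← pow_add, show n + e' * p₀ + p₀ = n + (e' + 1) * p₀ by ring, pow_add, ← mul_assoc,
            mul_assoc _ (B.q a ^ ((e' + 1) * p₀)), ← h.toFrt.cen_pow, ← mul_assoc, hdn]
          exact hn
    · right
      constructor
      · intro s
        obtain ⟨γ, rfl⟩ := QuotientGroup.mk_surjective s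
        rw [hiS1, hiS]
        obtain ⟨g', hg', t, h1⟩ := act_conj h (hxd ▸ gok.edge) hη hl γ.2
        have h2 := h1 x
        rw [← hdz _ t, ← h2]
        have h3 : (x : Q) * B.q a ^ p₀ * g' * ((x : Q) * B.q a ^ p₀)⁻¹ * (x : Q) =
            (x : Q) * B.q a ^ p₀ * g' * (B.q a ^ p₀)⁻¹ := by group
        rw [h3, hdn', hall g' hg']
      · have h1 : ((Fintype.card (S1 a') - 2 : ℕ) : ZMod p) ≠ 0 := by
          obtain ⟨m, hm'⟩ := hcodd
          exact zmod_small (by omega) (by omega)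
        rw [Nat.cast_sub (by omega)] at h1
        exact_mod_cast h1
  · rintro U' hU' hna hnb hal ⟨β, hβ⟩
    have hal' : U'.chi (B.q a) ^ e = 1 := by rw [hU']; exact lc.al
    have h1 := V.not_exact1 ((Xh U' hal' x).comp Γ.subtype) (U'.chi ((x : Q) * B.q a ^ p₀) * U'.n b) β
      (fun r => by
        have h2 := hβ r
        rw [hiR r] at h2
        exact h2) (Nat.card Γ) pow_card_eq_one'
    have h2 : ((Nat.card Γ : ℕ) : ZMod p) ≠ 0 := by
      rw [Subgroup.card_eq_card_quotient_mul_card_subgroup (Subgroup.zpowers a'), Nat.card_zpowers, hord,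
        Nat.cast_mul]
      have h3 : Nat.card (Γ ⧸ Subgroup.zpowers a') = Fintype.card (S1 a') := Nat.card_eq_fintype_card
      rw [h3]
      exact mul_ne_zero (zmod_small (by omega) (by omega)) (zmod_small (by omega) (by omega))
    have h3 : U'.chi ((x : Q) * B.q a ^ p₀) ≠ 0 := by
      intro h0
      have h4 : U'.chi ((x : Q) * B.q a ^ p₀) * U'.chi ((x : Q) * B.q a ^ p₀)⁻¹ = 1 := by
        rw [← map_mul, mul_inv_cancel, map_one]
      rw [h0, zero_mul] at h4
      exact zero_ne_one h4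
    have h4 : ((Xh U' hal' x).comp Γ.subtype) a' = U'.chi (B.q a) := by
      show Xc U' (a' : Sy h.toFrt) = _
      rw [ha']
      exact Xc_cj U' h hal' x x
    rw [h4] at h1
    rcases mul_eq_zero.1 h1 with h5 | h5
    · rcases mul_eq_zero.1 h5 with h6 | h6
      · exact h2 h6
      · exact mul_ne_zero h3 hnb h6
    · rw [hU'] at h5
      exact hal (by linear_combination h5)
  · intro hal hb1
    refine ⟨1, ?_⟩
    show U.chi (E.iS ((1 : Γ) : Γ ⧸ Subgroup.zpowers a') : Q) ≠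
      U.chi (E.iS ((1 * b' : Γ) : Γ ⧸ Subgroup.zpowers a') : Q)
    rw [hiS1, hiSb]
    have h0 : (((1 : Γ) : Sy h.toFrt) • (G i).y : F) = (G i).y := one_smul _ _
    rw [h0, hy]
    have hu : ∀ y : Q, U.chi y * U.chi y⁻¹ = 1 := fun y => by rw [← map_mul, mul_inv_cancel, map_one]
    have h1 : U.chi ((B.q a ^ p₁)⁻¹) = 1 := by
      have := hu (B.q a ^ p₁)
      rw [map_pow, hal, one_pow, one_mul] at this
      exact this
    rw [map_mul, map_mul, map_mul, h1, map_pow, hal, one_pow, mul_one, mul_one]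
    intro h2
    apply hb1
    have h3 := hu (x : Q)
    calc U.chi (B.q b) = (U.chi (x : Q) * U.chi (x : Q)⁻¹) * U.chi (B.q b) := by rw [h3, one_mul]
      _ = (U.chi (x : Q) * U.chi (B.q b)) * U.chi (x : Q)⁻¹ := by ring
      _ = 1 := by rw [← h2, h3]

end Pool.Agent.Lib.MP_688fd0_co.SQ2
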