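import Mathlib
import Pool.Agent.Lib.MP_688fd0_co.SQ2.V.Place
import Pool.Agent.Lib.MP_688fd0_co.SQ2.V.RealDefs

/-!
Chapter V: the choice of the place for a label `b` that does not commute with `A`.

`Gh2 A b` is the group of the component (with levels) with two sheets, `Gh1 A β` (`β = b A ^ (-o)`) with one sheet; `Lv0` are
the elements of level `0`.
-/

set_option autoImplicit false

namespace Pool.Agent.Lib.MP_688fd0_co.SQ2.V

open Finset

variable {Q : Type} [Group Q]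

/-- Elements with their level. -/
def el (x : Q) (t : ℤ) : Q × Multiplicative ℤ := (x, Multiplicative.ofAdd t)

theorem el_mul (x y : Q) (s t : ℤ) : el x s * el y t = el (x * y) (s + t) := rfl

theorem el_inv (x : Q) (s : ℤ) : (el x s)⁻¹ = el x⁻¹ (-s) := rfl

theorem el_pow (x : Q) (s : ℤ) (n : ℤ) : el x s ^ n = el (x ^ n) (n * s) := by
  refine Prod.ext rfl ?_
  show Multiplicative.ofAdd s ^ n = Multiplicative.ofAdd (n * s)
  rw [← ofAdd_zsmul, smul_eq_mul]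

/-- The elements of level `0`. -/
def Lv0 (Γ : Subgroup (Q × Multiplicative ℤ)) : Subgroup Q := Γ.comap (MonoidHom.inl Q (Multiplicative ℤ))

theorem mem_Lv0 {Γ : Subgroup (Q × Multiplicative ℤ)} {x : Q} : x ∈ Lv0 Γ ↔ el x 0 ∈ Γ := Iff.rfl

/-- The group of a component with two sheets. -/
def Gh2 (A b : Q) : Subgroup (Q × Multiplicative ℤ) := Subgroup.closure {el A 1, el (b * A * b⁻¹) 1}

/-- The group of a component with one sheet. -/
def Gh1 (A β : Q) : Subgroup (Q × Multiplicative ℤ) := Subgroup.closure {el A 1, el β 0}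

/-- The levels are determined modulo `D`. -/
def Dh (D : Subgroup Q) (A : Q) (hA : ∀ x : Q, A * x * A⁻¹ * x⁻¹ ∈ D) [hD : D.Normal] : Subgroup (Q × Multiplicative ℤ) where
  carrier := {g | g.1 * A ^ (-g.2.toAdd) ∈ D}
  one_mem' := by
    show (1 : Q) * A ^ (-(0 : ℤ)) ∈ D
    rw [neg_zero, zpow_zero, mul_one]
    exact D.one_mem
  mul_mem' := by
    rintro ⟨x, s⟩ ⟨y, t⟩ hx hy
    show x * y * A ^ (-(s.toAdd + t.toAdd)) ∈ D
    have hx' : x * A ^ (-s.toAdd) ∈ D := hx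
    have hy' : y * A ^ (-t.toAdd) ∈ D := hy
    have h1 := hD.conj_mem _ hy' (A ^ s.toAdd)
    have h2 := D.mul_mem hx' h1
    have e1 : x * A ^ (-s.toAdd) * (A ^ s.toAdd * (y * A ^ (-t.toAdd)) * (A ^ s.toAdd)⁻¹) =
        x * y * A ^ (-(s.toAdd + t.toAdd)) := by
      rw [neg_add, zpow_add, zpow_neg]
      have : A ^ (-t.toAdd) * (A ^ s.toAdd)⁻¹ = (A ^ s.toAdd)⁻¹ * A ^ (-t.toAdd) := by
        rw [← zpow_neg, ← zpow_add, ← zpow_add, add_comm]
      calc x * (A ^ s.toAdd)⁻¹ * (A ^ s.toAdd * (y * A ^ (-t.toAdd)) * (A ^ s.toAdd)⁻¹)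
          = x * y * (A ^ (-t.toAdd) * (A ^ s.toAdd)⁻¹) := by group
        _ = _ := by rw [this]
    rwa [e1] at h2
  inv_mem' := by
    rintro ⟨x, s⟩ hx
    show x⁻¹ * A ^ (-(-s.toAdd)) ∈ D
    have hx' : x * A ^ (-s.toAdd) ∈ D := hx
    have h1 := hD.conj_mem _ (D.inv_mem hx') (A ^ (-s.toAdd))
    have e1 : A ^ (-s.toAdd) * (x * A ^ (-s.toAdd))⁻¹ * (A ^ (-s.toAdd))⁻¹ = x⁻¹ * A ^ (-(-s.toAdd)) := by
      rw [zpow_neg]; group
    rwa [e1] at h1

theorem Gh2_le {D : Subgroup Q} [hD : D.Normal] {A : Q} (hA : ∀ x : Q, A * x * A⁻¹ * x⁻¹ ∈ D) (b : Q) :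
    Gh2 A b ≤ Dh D A hA := by
  refine (Subgroup.closure_le _).2 ?_
  rintro g (rfl | hg)
  · show A * A ^ (-(1 : ℤ)) ∈ D
    rw [zpow_neg, zpow_one, mul_inv_cancel]
    exact D.one_mem
  · have hg' : g = el (b * A * b⁻¹) 1 := hg
    subst hg'
    show b * A * b⁻¹ * A ^ (-(1 : ℤ)) ∈ D
    have h1 := D.inv_mem (hA b)
    have e1 : (A * b * A⁻¹ * b⁻¹)⁻¹ = b * A * b⁻¹ * A ^ (-(1 : ℤ)) := by rw [zpow_neg, zpow_one]; group
    rwa [e1] at h1

theorem Gh1_le {D : Subgroup Q} [hD : D.Normal] {A : Q} (hA : ∀ x : Q, A * x * A⁻¹ * x⁻¹ ∈ D) {β : Q}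
    (hβ : β ∈ D) : Gh1 A β ≤ Dh D A hA := by
  refine (Subgroup.closure_le _).2 ?_
  rintro g (rfl | hg)
  · show A * A ^ (-(1 : ℤ)) ∈ D
    rw [zpow_neg, zpow_one, mul_inv_cancel]
    exact D.one_mem
  · have hg' : g = el β 0 := hg
    subst hg'
    show β * A ^ (-(0 : ℤ)) ∈ D
    rw [neg_zero, zpow_zero, mul_one]
    exact hβ

theorem Lv0_le {D : Subgroup Q} [hD : D.Normal] {A : Q} {hA : ∀ x : Q, A * x * A⁻¹ * x⁻¹ ∈ D}
    {Γ : Subgroup (Q × Multiplicative ℤ)} (h : Γ ≤ Dh D A hA) : Lv0 Γ ≤ D := by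
  intro x hx
  have h1 : x * A ^ (-(0 : ℤ)) ∈ D := h hx
  rwa [neg_zero, zpow_zero, mul_one] at h1

section place

variable {A : Q} {d : Q → Bool} (hd : ∀ y, d (y * A) = d y)

include hd in
theorem d_zpow (y : Q) (t : ℤ) : d (y * A ^ t) = d y := by
  induction t using Int.induction_on generalizing y with
  | zero => simp
  | succ n ih => rw [zpow_add, zpow_one, ← mul_assoc, hd, ih]
  | pred n ih =>
    have h1 := hd (y * A ^ (-(n : ℤ) - 1))
    have e1 : y * A ^ (-(n : ℤ) - 1) * A = y * A ^ (-(n : ℤ)) := by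
      rw [mul_assoc, ← zpow_add_one, sub_add_cancel]
    rw [← h1, e1, ih]

/-- An element of the group has the form `κ A ^ t`. -/
theorem split {Γ : Subgroup (Q × Multiplicative ℤ)} (hA : el A 1 ∈ Γ) {γ : Q} {t : ℤ} (h : el γ t ∈ Γ) :
    γ * A ^ (-t) ∈ Lv0 Γ := by
  rw [mem_Lv0]
  have h1 := Γ.mul_mem h (Γ.zpow_mem hA (-t))
  rw [el_pow, el_mul, mul_one, add_neg_cancel] at h1
  exact h1

variable [Fintype Q]

open Classical in
include hd in
/-- The first sheet. -/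
theorem sum_inv₁ {M : Type} [AddCommMonoid M] (f : Bool → M) {Γ : Subgroup (Q × Multiplicative ℤ)} (hA : el A 1 ∈ Γ)
    {γ : Q} {t : ℤ} (h : el γ t ∈ Γ) (v : Q) :
    ∑ κ : Lv0 Γ, f (d (v * γ * κ)) = ∑ κ : Lv0 Γ, f (d (v * κ)) := by
  have hmem : ∀ κ : Lv0 Γ, γ * (κ : Q) * A ^ (-t) ∈ Lv0 Γ := by
    intro κ
    refine split hA ?_
    have h1 := Γ.mul_mem h (mem_Lv0.1 κ.2)
    rwa [el_mul, add_zero] at h1
  have hmem' : ∀ κ : Lv0 Γ, γ⁻¹ * (κ : Q) * A ^ t ∈ Lv0 Γ := by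
    intro κ
    have h1 := Γ.mul_mem (Γ.inv_mem h) (mem_Lv0.1 κ.2)
    rw [el_inv, el_mul, add_zero] at h1
    have h2 := split hA h1
    rwa [neg_neg] at h2
  let e : Lv0 Γ ≃ Lv0 Γ :=
    { toFun := fun κ => ⟨_, hmem κ⟩
      invFun := fun κ => ⟨_, hmem' κ⟩
      left_inv := fun κ => Subtype.ext (by
        show γ⁻¹ * (γ * (κ : Q) * A ^ (-t)) * A ^ t = κ
        rw [zpow_neg]; group)
      right_inv := fun κ => Subtype.ext (by
        show γ * (γ⁻¹ * (κ : Q) * A ^ t) * A ^ (-t) = κ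
        rw [zpow_neg]; group) }
  refine Fintype.sum_equiv e _ _ fun κ => ?_
  show f (d (v * γ * κ)) = f (d (v * (γ * (κ : Q) * A ^ (-t))))
  have e1 : v * (γ * (κ : Q) * A ^ (-t)) = v * γ * κ * A ^ (-t) := by group
  rw [e1, d_zpow hd]

open Classical in
include hd in
/-- The second sheet. -/
theorem sum_inv₂ {M : Type} [AddCommMonoid M] (f : Bool → M) {Γ : Subgroup (Q × Multiplicative ℤ)} (b : Q)
    (hc : el (b * A * b⁻¹) 1 ∈ Γ) {γ : Q} {t : ℤ} (h : el γ t ∈ Γ) (v : Q) :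
    ∑ κ : Lv0 Γ, f (d (v * γ * κ * b)) = ∑ κ : Lv0 Γ, f (d (v * κ * b)) := by
  have hct : ∀ t : ℤ, el (b * A ^ t * b⁻¹) t ∈ Γ := by
    intro t
    have h1 := Γ.zpow_mem hc t
    rw [el_pow, mul_one, conj_zpow] at h1
    exact h1
  have hmem : ∀ κ : Lv0 Γ, γ * (κ : Q) * (b * A ^ (-t) * b⁻¹) ∈ Lv0 Γ := by
    intro κ
    rw [mem_Lv0]
    have h1 := Γ.mul_mem (Γ.mul_mem h (mem_Lv0.1 κ.2)) (hct (-t))
    rwa [el_mul, el_mul, add_zero, add_neg_cancel] at h1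
  have hmem' : ∀ κ : Lv0 Γ, γ⁻¹ * (κ : Q) * (b * A ^ t * b⁻¹) ∈ Lv0 Γ := by
    intro κ
    rw [mem_Lv0]
    have h1 := Γ.mul_mem (Γ.mul_mem (Γ.inv_mem h) (mem_Lv0.1 κ.2)) (hct t)
    rwa [el_inv, el_mul, el_mul, add_zero, neg_add_cancel] at h1
  let e : Lv0 Γ ≃ Lv0 Γ :=
    { toFun := fun κ => ⟨_, hmem κ⟩
      invFun := fun κ => ⟨_, hmem' κ⟩
      left_inv := fun κ => Subtype.ext (by
        show γ⁻¹ * (γ * (κ : Q) * (b * A ^ (-t) * b⁻¹)) * (b * A ^ t * b⁻¹) = κ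
        rw [zpow_neg]; group)
      right_inv := fun κ => Subtype.ext (by
        show γ * (γ⁻¹ * (κ : Q) * (b * A ^ t * b⁻¹)) * (b * A ^ (-t) * b⁻¹) = κ
        rw [zpow_neg]; group) }
  refine Fintype.sum_equiv e _ _ fun κ => ?_
  show f (d (v * γ * κ * b)) = f (d (v * (γ * (κ : Q) * (b * A ^ (-t) * b⁻¹)) * b))
  have e1 : v * (γ * (κ : Q) * (b * A ^ (-t) * b⁻¹)) * b = v * γ * κ * b * A ^ (-t) := by group
  rw [e1, d_zpow hd]

include hd in
/-- The sum of the colours of the component with two sheets. -/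
theorem DS_inv (b : Q) {γ : Q} {t : ℤ} (h : el γ t ∈ Gh2 A b) (v : Q) :
    DS (Lv0 (Gh2 A b)) b (fun y => (sgn (d y) : ℤ)) (v * γ) = DS (Lv0 (Gh2 A b)) b (fun y => (sgn (d y) : ℤ)) v := by
  classical
  have h1 : el A 1 ∈ Gh2 A b := Subgroup.subset_closure (by simp)
  have h2 : el (b * A * b⁻¹) 1 ∈ Gh2 A b := Subgroup.subset_closure (by simp)
  unfold DS
  have e1 := sum_inv₁ hd (fun c => (sgn c : ℤ)) h1 h v
  have e2 := sum_inv₂ hd (fun c => (sgn c : ℤ)) b h2 h v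
  exact congrArg₂ (· + ·) e1 e2

end place

theorem sgn_cases {F : Type} [CommRing F] (c : Bool) : (sgn c : F) = 1 ∨ (sgn c : F) = -1 := by
  cases c
  · exact Or.inr rfl
  · exact Or.inl rfl

theorem sgn_cast {F : Type} [CommRing F] (c : Bool) : ((sgn c : ℤ) : F) = sgn c := by
  cases c <;> simp [sgn]

/-- PLACE, two sheets. -/
theorem placeF2 [Fintype Q] (hodd : Odd (Nat.card Q)) {D : Subgroup Q} [hD : D.Normal] {A b : Q}
    (hA : ∀ x : Q, A * x * A⁻¹ * x⁻¹ ∈ D) {d : Q → Bool} (hd : ∀ y, d (y * A) = d y) {F : Type} [Ring F] (p : ℕ)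
    [CharP F p] (hp : 2 * Nat.card D < p) :
    ∃ v : Q, ((DS (Lv0 (Gh2 A b)) b (fun y => (sgn (d y) : ℤ)) v : ℤ) : F) ≠ 0 ∧
      (d (v * b) = !d v ∨ ∀ γ t, el γ t ∈ Gh2 A b → d (v * γ) = d v ∧ d (v * γ * b) = d v) := by
  have hle := Lv0_le (Gh2_le hA b)
  have hcard : Nat.card (Lv0 (Gh2 A b)) ≤ Nat.card D :=
    Nat.card_le_card_of_injective _ (Subgroup.inclusion_injective hle)
  obtain ⟨x, hx⟩ := place_two' hodd b (Lv0 (Gh2 A b)) (fun y => (sgn (d y) : ℤ)) (fun y => sgn_cases _) (F := F) p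
    (by omega)
  by_cases hB : ∃ γ t, el γ t ∈ Gh2 A b ∧ d (x * γ * b) ≠ d (x * γ)
  · obtain ⟨γ, t, h1, h2⟩ := hB
    refine ⟨x * γ, ?_, Or.inl ?_⟩
    · rw [DS_inv hd b h1]; exact hx
    · exact Bool.eq_not.2 h2
  · push Not at hB
    have key : ∀ g ∈ Gh2 A b, d (x * g.1) = d x := by
      intro g hg
      have h3 : ∀ g ∈ Gh2 A b, d (x * (g * el A 1).1) = d (x * g.1) := fun g _ => by
        show d (x * (g.1 * A)) = d (x * g.1)
        rw [← mul_assoc, hd]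
      have h4 : ∀ g ∈ Gh2 A b, d (x * (g * el (b * A * b⁻¹) 1).1) = d (x * g.1) := fun g hg => by
        show d (x * (g.1 * (b * A * b⁻¹))) = d (x * g.1)
        have h5 : g * el (b * A * b⁻¹) 1 ∈ Gh2 A b :=
          (Gh2 A b).mul_mem hg (Subgroup.subset_closure (by simp))
        have h6 := hB (g.1 * (b * A * b⁻¹)) (g.2.toAdd + 1) h5
        have h7 := hB g.1 g.2.toAdd hg
        rw [← h6, ← h7, ← hd (x * g.1 * b)]
        congr 1
        group
      refine Subgroup.closure_induction_right (p := fun g _ => d (x * g.1) = d x) ?_ ?_ ?_ hg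
      · show d (x * 1) = d x
        rw [mul_one]
      · rintro g hg y (rfl | hy) ih
        · rw [h3 g hg, ih]
        · have hy' : y = el (b * A * b⁻¹) 1 := hy
          subst hy'
          rw [h4 g hg, ih]
      · rintro g hg y (rfl | hy) ih
        · have h5 : g * (el A 1)⁻¹ ∈ Gh2 A b :=
            (Gh2 A b).mul_mem hg ((Gh2 A b).inv_mem (Subgroup.subset_closure (by simp)))
          have h6 := h3 _ h5
          rw [inv_mul_cancel_right] at h6
          rw [← h6, ih]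
        · have hy' : y = el (b * A * b⁻¹) 1 := hy
          subst hy'
          have h5 : g * (el (b * A * b⁻¹) 1)⁻¹ ∈ Gh2 A b :=
            (Gh2 A b).mul_mem hg ((Gh2 A b).inv_mem (Subgroup.subset_closure (by simp)))
          have h6 := h4 _ h5
          rw [inv_mul_cancel_right] at h6
          rw [← h6, ih]
    refine ⟨x, hx, Or.inr fun γ t h1 => ?_⟩
    have h2 := key _ h1
    have h2' : d (x * γ) = d x := h2
    exact ⟨h2', by rw [hB γ t h1, h2']⟩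

open Classical in
/-- PLACE, one sheet. -/
theorem placeF1 [Fintype Q] (hodd : Odd (Nat.card Q)) {D : Subgroup Q} [hD : D.Normal] {A b β : Q} {o : ℤ}
    (hA : ∀ x : Q, A * x * A⁻¹ * x⁻¹ ∈ D) (hβ : β ∈ D) (hb : b = β * A ^ o) {d : Q → Bool}
    (hd : ∀ y, d (y * A) = d y) {F : Type} [CommRing F] (p : ℕ) [CharP F p] (hp : Nat.card D < p) (x : Q) :
    ∃ γ t, el γ t ∈ Gh1 A β ∧ (∑ κ : Lv0 (Gh1 A β), (sgn (d (x * γ * κ)) : F)) ≠ 0 ∧
      (d (x * γ * b) = !d (x * γ) ∨ ∀ γ' t', el γ' t' ∈ Gh1 A β → d (x * γ * γ') = d (x * γ)) := by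
  have hle := Lv0_le (Gh1_le hA hβ)
  have hcard : Nat.card (Lv0 (Gh1 A β)) ≤ Nat.card D :=
    Nat.card_le_card_of_injective _ (Subgroup.inclusion_injective hle)
  have hsum : ∀ y : Q, (∑ κ : Lv0 (Gh1 A β), (sgn (d (y * κ)) : F)) ≠ 0 := by
    intro y h0
    refine place_one' (Finset.univ : Finset (Lv0 (Gh1 A β))) (fun κ => (sgn (d (y * κ)) : ℤ))
      (fun κ _ => sgn_cases _) ?_ (F := F) p ?_ ?_
    · rw [Finset.card_univ, ← Nat.card_eq_fintype_card]
      exact hodd.of_dvd_nat (Subgroup.card_subgroup_dvd_card _)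
    · rw [Finset.card_univ, ← Nat.card_eq_fintype_card]
      omega
    · push_cast
      rw [← h0]
      exact Finset.sum_congr rfl fun κ _ => sgn_cast _
  have hmA : el A 1 ∈ Gh1 A β := Subgroup.subset_closure (by simp)
  have hmβ : el β 0 ∈ Gh1 A β := Subgroup.subset_closure (by simp)
  by_cases hB : ∃ γ t, el γ t ∈ Gh1 A β ∧ d (x * γ * β) ≠ d (x * γ)
  · obtain ⟨γ, t, h1, h2⟩ := hB
    refine ⟨γ, t, h1, hsum _, Or.inl ?_⟩
    rw [hb, ← mul_assoc, d_zpow hd]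
    exact Bool.eq_not.2 h2
  · push Not at hB
    have key : ∀ g ∈ Gh1 A β, d (x * g.1) = d x := by
      intro g hg
      have h3 : ∀ g ∈ Gh1 A β, d (x * (g * el A 1).1) = d (x * g.1) := fun g _ => by
        show d (x * (g.1 * A)) = d (x * g.1)
        rw [← mul_assoc, hd]
      have h4 : ∀ g ∈ Gh1 A β, d (x * (g * el β 0).1) = d (x * g.1) := fun g hg => by
        show d (x * (g.1 * β)) = d (x * g.1)
        rw [← mul_assoc]
        exact hB g.1 g.2.toAdd hg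
      refine Subgroup.closure_induction_right (p := fun g _ => d (x * g.1) = d x) ?_ ?_ ?_ hg
      · show d (x * 1) = d x
        rw [mul_one]
      · rintro g hg y (rfl | hy) ih
        · rw [h3 g hg, ih]
        · have hy' : y = el β 0 := hy
          subst hy'
          rw [h4 g hg, ih]
      · rintro g hg y (rfl | hy) ih
        · have h6 := h3 _ ((Gh1 A β).mul_mem hg ((Gh1 A β).inv_mem hmA))
          rw [inv_mul_cancel_right] at h6
          rw [← h6, ih]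
        · have hy' : y = el β 0 := hy
          subst hy'
          have h6 := h4 _ ((Gh1 A β).mul_mem hg ((Gh1 A β).inv_mem hmβ))
          rw [inv_mul_cancel_right] at h6
          rw [← h6, ih]
    refine ⟨1, 0, (Gh1 A β).one_mem, ?_, Or.inr fun γ t h1 => ?_⟩
    · rw [mul_one]; exact hsum x
    · rw [mul_one]
      exact key _ h1

end Pool.Agent.Lib.MP_688fd0_co.SQ2.V
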