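import Mathlib
import Pool.Agent.Lib.MP_688fd0_co.SQ2.V.Place
import Pool.Agent.Lib.MP_688fd0_co.SQ2.V.Loc

/-!
Chapter V: the choice of the place for a label that does not commute with `A` (colours of lines).
-/

set_option autoImplicit false

namespace Pool.Agent.Lib.MP_688fd0_co.SQ2

open V Finset

variable {Q : Type} [Group Q]

theorem dz_cases (d : Q → Bool) (x : Q) : dz d x = 1 ∨ dz d x = -1 := by
  unfold dz
  cases d x
  · exact Or.inr rfl
  · exact Or.inl rfl

open Classical in
theorem dsf_eq [Fintype Q] (K : Subgroup Q) (b : Q) (dd : Q → ℤ) (x : Q) : dsf K b dd x = DS K b dd x := by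
  unfold dsf DS
  rw [finsum_eq_sum_of_fintype, Finset.sum_add_distrib]

/-- Translations inside `K` do not change the sum. -/
theorem dsf_mul [Finite Q] (A b : Q) {d : Q → Bool} (hd : ∀ y, d (y * A) = d y) {γ : Q}
    (h : γ ∈ Subgroup.closure {A, b * A * b⁻¹}) (x : Q) :
    dsf (Subgroup.closure {A, b * A * b⁻¹}) b (dz d) (x * γ) = dsf (Subgroup.closure {A, b * A * b⁻¹}) b (dz d) x := by
  unfold dsf
  refine finsum_eq_of_bijective (fun k => (⟨γ, h⟩ * k : Subgroup.closure {A, b * A * b⁻¹}))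
    (Group.mulLeft_bijective _) fun k => ?_
  show dz d (x * γ * k) + dz d (x * γ * k * b) = dz d (x * (γ * k)) + dz d (x * (γ * k) * b)
  rw [mul_assoc x γ]

/-- PLACE, two sheets. -/
theorem placeG2 [Finite Q] (hodd : Odd (Nat.card Q)) (A b : Q) {d : Q → Bool} (hd : ∀ y, d (y * A) = d y) :
    ∃ v : Q, dsf (Subgroup.closure {A, b * A * b⁻¹}) b (dz d) v ≠ 0 ∧
      (d (v * b) = !d v ∨ ∀ γ ∈ Subgroup.closure {A, b * A * b⁻¹}, d (v * γ) = d v ∧ d (v * γ * b) = d v) := by
  have : Fintype Q := Fintype.ofFinite Q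
  set K := Subgroup.closure {A, b * A * b⁻¹} with hK
  obtain ⟨x, hx⟩ := place_two hodd b K (dz d) (dz_cases d)
  rw [← dsf_eq] at hx
  by_cases hB : ∃ γ ∈ K, d (x * γ * b) ≠ d (x * γ)
  · obtain ⟨γ, h1, h2⟩ := hB
    refine ⟨x * γ, ?_, Or.inl (Bool.eq_not.2 h2)⟩
    rw [hK, dsf_mul A b hd (by rw [← hK]; exact h1), ← hK]
    exact hx
  · push Not at hB
    have hA : A ∈ K := Subgroup.subset_closure (by simp)
    have hc : b * A * b⁻¹ ∈ K := Subgroup.subset_closure (by simp)
    have h3 : ∀ g ∈ K, d (x * (g * A)) = d (x * g) := fun g _ => by rw [← mul_assoc, hd]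
    have h4 : ∀ g ∈ K, d (x * (g * (b * A * b⁻¹))) = d (x * g) := fun g hg => by
      have h6 := hB _ (K.mul_mem hg hc)
      have h7 := hB _ hg
      rw [← h6, ← h7, ← hd (x * g * b)]
      congr 1
      group
    have key : ∀ g ∈ K, d (x * g) = d x := by
      intro g hg
      refine Subgroup.closure_induction_right (p := fun g _ => d (x * g) = d x) ?_ ?_ ?_ hg
      · rw [mul_one]
      · rintro g hg y (rfl | hy) ih
        · rw [h3 g hg, ih]
        · have hy' : y = b * A * b⁻¹ := hy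
          subst hy'
          rw [h4 g hg, ih]
      · rintro g hg y (rfl | hy) ih
        · have h6 := h3 _ (K.mul_mem hg (K.inv_mem hA))
          rw [inv_mul_cancel_right] at h6
          rw [← h6, ih]
        · have hy' : y = b * A * b⁻¹ := hy
          subst hy'
          have h6 := h4 _ (K.mul_mem hg (K.inv_mem hc))
          rw [inv_mul_cancel_right] at h6
          rw [← h6, ih]
    exact ⟨x, hx, Or.inr fun γ h1 => ⟨key γ h1, by rw [hB γ h1, key γ h1]⟩⟩

/-- PLACE, one sheet. -/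
theorem placeG1 [Finite Q] (A b : Q) {d : Q → Bool} (hd : ∀ y, d (y * A) = d y) :
    ∃ v : Q, d (v * b) = !d v ∨ ∀ γ ∈ Subgroup.closure {A, b}, d (v * γ) = d v := by
  by_cases hB : ∃ v : Q, d (v * b) ≠ d v
  · obtain ⟨v, hv⟩ := hB
    exact ⟨v, Or.inl (Bool.eq_not.2 hv)⟩
  · push Not at hB
    refine ⟨1, Or.inr fun g hg => ?_⟩
    have h3 : ∀ g : Q, d (1 * (g * A)) = d (1 * g) := fun g => by rw [← mul_assoc, hd]
    have h4 : ∀ g : Q, d (1 * (g * b)) = d (1 * g) := fun g => by rw [← mul_assoc, hB]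
    refine Subgroup.closure_induction_right (p := fun g _ => d (1 * g) = d 1) ?_ ?_ ?_ hg
    · rw [mul_one]
    · rintro g hg y (rfl | hy) ih
      · rw [h3 g, ih]
      · have hy' : y = b := hy
        subst hy'
        rw [h4 g, ih]
    · rintro g hg y (rfl | hy) ih
      · have h6 := h3 (g * y⁻¹)
        rw [inv_mul_cancel_right] at h6
        rw [← h6, ih]
      · have hy' : y = b := hy
        subst hy'
        have h6 := h4 (g * y⁻¹)
        rw [inv_mul_cancel_right] at h6
        rw [← h6, ih]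

end Pool.Agent.Lib.MP_688fd0_co.SQ2
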