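import Mathlib
import Pool.Agent.Lib.MP_688fd0_co.SQ2.V.NCore
import Pool.Agent.Lib.MP_688fd0_co.SQ2.V.Comp2B
import Pool.Agent.Lib.MP_688fd0_co.SQ2.V.PlaceG
import Pool.Agent.Lib.MP_688fd0_co.SQ2.V.PlaceF
import Pool.Agent.Lib.MP_688fd0_co.SQ2.V.Flip2
import Pool.Agent.Lib.MP_688fd0_co.SQ2.V.Avoid2

/-!
NC2: a label that does not commute with `a`, two sheets.
-/

set_option autoImplicit false

namespace Pool.Agent.Lib.MP_688fd0_co.SQ2

open Pool.Agent.Lib.MP_688fd0_co.OSF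
open V (Puz)
open V.Puz

section rep

variable {Q : Type} [Group Q] {D : Subgroup Q} {A : Q} {F : Finset Q} {e : ℕ} (h : FrD D A F e)

/-- `g` acts as the left multiplication by `w γ w⁻¹`, up to the level. -/
def Rep (w γ : Q) (g : Sy h.toFrt) : Prop :=
  ∃ t : ℤ, ∀ s : F, w * γ * w⁻¹ * (s : Q) = ((g • s : F) : Q) * A ^ t

theorem rep_one (w : Q) : Rep h w 1 1 := ⟨0, fun s => by simp⟩

theorem rep_mul {w γ γ' : Q} {g g' : Sy h.toFrt} (h1 : Rep h w γ g) (h2 : Rep h w γ' g') : Rep h w (γ * γ') (g * g') := by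
  obtain ⟨t, h1⟩ := h1
  obtain ⟨t', h2⟩ := h2
  refine ⟨t + t', fun s => ?_⟩
  have e1 : w * (γ * γ') * w⁻¹ * (s : Q) = w * γ * w⁻¹ * (w * γ' * w⁻¹ * (s : Q)) := by group
  rw [e1, h2, ← mul_assoc, h1, mul_smul, zpow_add, mul_assoc]

theorem rep_inv {w γ : Q} {g : Sy h.toFrt} (h1 : Rep h w γ g) : Rep h w γ⁻¹ g⁻¹ := by
  obtain ⟨t, h1⟩ := h1
  refine ⟨-t, fun s => ?_⟩
  have h2 := h1 (g⁻¹ • s)
  rw [smul_inv_smul] at h2
  have e1 : w * γ⁻¹ * w⁻¹ * (s : Q) = (w * γ * w⁻¹)⁻¹ * ((s : Q) * A ^ t) * (A ^ t)⁻¹ := by group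
  rw [e1, ← h2, zpow_neg]
  group

/-- The pairs. -/
def RepG (w : Q) : Subgroup (Q × Sy h.toFrt) where
  carrier := {m | Rep h w m.1 m.2}
  one_mem' := rep_one h w
  mul_mem' := rep_mul h
  inv_mem' := rep_inv h

end rep

theorem conj_eqs {Q : Type} [Group Q] {A b x y : Q} {p₀ p₁ : ℕ} (edge : x * A ^ p₀ * b = y * A ^ p₁) :
    x * A ^ p₀ * A * (x * A ^ p₀)⁻¹ = x * A * x⁻¹ ∧
      x * A ^ p₀ * (b * A * b⁻¹) * (x * A ^ p₀)⁻¹ = y * A * y⁻¹ := by
  constructor
  · have : A ^ p₀ * A * (A ^ p₀)⁻¹ = A := by rw [← pow_succ, pow_succ', mul_inv_cancel_right]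
    calc x * A ^ p₀ * A * (x * A ^ p₀)⁻¹ = x * (A ^ p₀ * A * (A ^ p₀)⁻¹) * x⁻¹ := by group
      _ = _ := by rw [this]
  · have : A ^ p₁ * A * (A ^ p₁)⁻¹ = A := by rw [← pow_succ, pow_succ', mul_inv_cancel_right]
    calc x * A ^ p₀ * (b * A * b⁻¹) * (x * A ^ p₀)⁻¹ = (x * A ^ p₀ * b) * A * (x * A ^ p₀ * b)⁻¹ := by group
      _ = y * (A ^ p₁ * A * (A ^ p₁)⁻¹) * y⁻¹ := by rw [edge]; group
      _ = _ := by rw [this]

open Classical in
/-- The sum of the colours of the component is not `0`. -/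
theorem sum_of_dsf {Q : Type} [Group Q] [Finite Q] {A b : Q} {D : Subgroup Q} {F : Finset Q} {e : ℕ} (h : FrD D A F e)
    (d : Q → Bool) (hd : ∀ y, d (y * A) = d y) (x y : F) (p₀ p₁ : ℕ)
    (edge : (x : Q) * A ^ p₀ * b = (y : Q) * A ^ p₁) :
    let K := Subgroup.closure {A, b * A * b⁻¹}
    let Γ := Subgroup.closure {h.cj (x : Q), h.cj (y : Q)}
    ∃ M : Subgroup (Q × Sy h.toFrt),
      (∀ m ∈ M, m.1 ∈ K ∧ m.2 ∈ Γ ∧ d ((m.2 • x : F) : Q) = d ((x : Q) * A ^ p₀ * m.1) ∧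
        d ((m.2 • y : F) : Q) = d ((x : Q) * A ^ p₀ * m.1 * b)) ∧
      (∀ κ ∈ K, ∃ g, (κ, g) ∈ M) ∧ (∀ g ∈ Γ, ∃ κ, (κ, g) ∈ M) ∧ (A, h.cj (x : Q)) ∈ M := by
  intro K Γ
  set w := (x : Q) * A ^ p₀ with hw
  obtain ⟨hwA, hwc⟩ := conj_eqs edge
  rw [← hw] at hwA hwc
  let M : Subgroup (Q × Sy h.toFrt) := Subgroup.closure {(A, h.cj (x : Q)), (b * A * b⁻¹, h.cj (y : Q))}
  have hfst : M.map (MonoidHom.fst Q (Sy h.toFrt)) = K := by
    rw [MonoidHom.map_closure, Set.image_pair]; rfl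
  have hsnd : M.map (MonoidHom.snd Q (Sy h.toFrt)) = Γ := by
    rw [MonoidHom.map_closure, Set.image_pair]; rfl
  have hrep : M ≤ RepG h w := by
    refine (Subgroup.closure_le _).2 ?_
    rintro m (rfl | hm)
    · refine ⟨1, fun s => ?_⟩
      show w * A * w⁻¹ * (s : Q) = ((h.cj (x : Q) • s : F) : Q) * A ^ (1 : ℤ)
      rw [h.cj_smul, hwA, zpow_one, inv_mul_cancel_right]
    · have hm' : m = (b * A * b⁻¹, h.cj (y : Q)) := hm
      subst hm'
      refine ⟨1, fun s => ?_⟩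
      show w * (b * A * b⁻¹) * w⁻¹ * (s : Q) = ((h.cj (y : Q) • s : F) : Q) * A ^ (1 : ℤ)
      rw [h.cj_smul, hwc, zpow_one, inv_mul_cancel_right]
  refine ⟨M, fun m hm => ?_, fun κ hκ => ?_, fun g hg => ?_, Subgroup.subset_closure (by simp)⟩
  · obtain ⟨t, ht⟩ := hrep hm
    refine ⟨hfst ▸ Subgroup.mem_map_of_mem (MonoidHom.fst Q (Sy h.toFrt)) hm,
      hsnd ▸ Subgroup.mem_map_of_mem (MonoidHom.snd Q (Sy h.toFrt)) hm, ?_, ?_⟩
    · have h1 := ht x
      rw [← V.d_zpow hd ((m.2 • x : F) : Q) t, ← h1, ← V.d_zpow hd (w * m.1) (-(p₀ : ℤ))]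
      congr 1
      rw [hw, zpow_neg, zpow_natCast]
      group
    · have h1 := ht y
      have hy : w⁻¹ * (y : Q) = b * A ^ (-(p₁ : ℤ)) := by
        have : (y : Q) = w * b * (A ^ p₁)⁻¹ := by rw [hw, edge]; group
        rw [this, zpow_neg, zpow_natCast]; group
      rw [← V.d_zpow hd ((m.2 • y : F) : Q) t, ← h1, ← V.d_zpow hd (w * m.1 * b) (-(p₁ : ℤ))]
      congr 1
      rw [mul_assoc (w * m.1), hy]
      group
  · rw [← hfst] at hκ
    obtain ⟨m, hm, rfl⟩ := hκ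
    exact ⟨m.2, hm⟩
  · rw [← hsnd] at hg
    obtain ⟨m, hm, rfl⟩ := hg
    exact ⟨m.1, hm⟩

open Classical in
theorem nc2 (ret : V.RetS) : NC2S := by
  intro Q _ _ B a D F e h ι G hm d f g l₀ p U lc i b p₀ p₁ gok hxy hcomm hl hdsf hcol hkap
  have : Finite Q := lc.finQ
  have : Fact p.Prime := ⟨lc.prime⟩
  have hNe : NeZero e := ⟨h.he.ne'⟩
  have hep : 0 < e := h.he
  have hbig := lc.big
  set x := (G i).x with hx
  set y := (G i).y with hy
  have hDe : Nat.card D ≤ e := Nat.le_of_dvd hep lc.card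
  have hDpos : 0 < Nat.card D := Nat.card_pos
  have hDodd : Odd (Nat.card D) := lc.odd.of_dvd_nat (Subgroup.card_subgroup_dvd_card D)
  obtain ⟨tau, T, hT, E, hER, hES⟩ := comp2 h G i b p₀ p₁ gok hxy
  obtain ⟨M, hM1, hM2, hM3, hM4⟩ := sum_of_dsf (b := B.q b) h d lc.dl x y p₀ p₁ gok.edge
  have hoΓ : Odd (Nat.card (Gc2 h x y)) := sub_odd hDodd lc.eodd _
  have hofa : orderOf (gx h x y) = e := by
    rw [gx, Subgroup.orderOf_mk]; exact h.cj_order x
  have hofc : orderOf (gy h x y) = e := by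
    rw [gy, Subgroup.orderOf_mk]; exact h.cj_order y
  have hane : gx h x y ∉ Subgroup.zpowers (gy h x y) := by
    intro hmem
    have h1 := (h.stab_sub (Gc2 h x y) y (cy_mem h x y) (gx h x y)).2 hmem
    have h2 : ((h.cj (x : Q) • y : F) : Q) = (y : Q) := congrArg Subtype.val h1
    rw [h.cj_smul] at h2
    apply hcomm
    have h3 : (x : Q) * B.q a * (x : Q)⁻¹ = (y : Q) * B.q a * (y : Q)⁻¹ := by
      have h4 : (x : Q) * B.q a * (x : Q)⁻¹ * (y : Q) = (y : Q) * B.q a := by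
        have h5 := congrArg (· * B.q a) h2
        simp only [inv_mul_cancel_right] at h5
        exact h5
      rw [← h4, mul_inv_cancel_right]
    obtain ⟨k1, k2⟩ := conj_eqs gok.edge
    rw [h3, ← k2] at k1
    have h6 : B.q a = B.q b * B.q a * (B.q b)⁻¹ := mul_left_cancel (mul_right_cancel k1)
    calc B.q b * B.q a = B.q b * B.q a * (B.q b)⁻¹ * B.q b := by group
      _ = B.q a * B.q b := by rw [← h6]
  obtain ⟨hane2, hcne, hcne2⟩ := V.hyps2_odd hoΓ (hofa.trans hofc.symm) hane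
  have hG : Subgroup.closure ({gx h x y, gy h x y} : Set (Gc2 h x y)) = ⊤ := by
    have h1 := Subgroup.closure_closure_coe_preimage (k := ({h.cj (x : Q), h.cj (y : Q)} : Set (Sy h.toFrt)))
    have h2 : (Subtype.val ⁻¹' ({h.cj (x : Q), h.cj (y : Q)} : Set (Sy h.toFrt)) : Set (Gc2 h x y)) =
        {gx h x y, gy h x y} := by
      ext z
      constructor
      · rintro (hz | hz)
        · exact Or.inl (Subtype.ext hz)
        · exact Or.inr (Subtype.ext hz)
      · rintro (hz | hz)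
        · exact Or.inl (congrArg Subtype.val hz)
        · exact Or.inr (congrArg Subtype.val hz)
    rw [← h2]
    exact h1
  have : Fintype (Gc2 h x y) := Fintype.ofFinite _
  have : Fintype (V.S2 (gx h x y) (gy h x y)) := Fintype.ofFinite _
  have : Fintype (Gc2 h x y ⧸ Subgroup.zpowers (gx h x y)) := Fintype.ofFinite _
  have : Fintype (Gc2 h x y ⧸ Subgroup.zpowers (gy h x y)) := Fintype.ofFinite _
  -- sizes
  have hcx : Nat.card (Gc2 h x y ⧸ Subgroup.zpowers (gx h x y)) ≤ Nat.card D :=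
    h.card_quot _ x _ fun g hg => (h.stab_sub (Gc2 h x y) x (cx_mem h x y) g).1 hg
  have hcy : Nat.card (Gc2 h x y ⧸ Subgroup.zpowers (gy h x y)) ≤ Nat.card D :=
    h.card_quot _ y _ fun g hg => (h.stab_sub (Gc2 h x y) y (cy_mem h x y) g).1 hg
  have hcS : Fintype.card (V.S2 (gx h x y) (gy h x y)) =
      Nat.card (Gc2 h x y ⧸ Subgroup.zpowers (gx h x y)) + Nat.card (Gc2 h x y ⧸ Subgroup.zpowers (gy h x y)) := by
    rw [← Nat.card_eq_fintype_card, Nat.card_sum]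
  have hx2 : 2 ≤ Nat.card (Gc2 h x y ⧸ Subgroup.zpowers (gx h x y)) := by
    have h1 : (Subgroup.zpowers (gx h x y)).index ≠ 1 := by
      intro h0
      rw [Subgroup.index_eq_one] at h0
      exact hcne (h0 ▸ Subgroup.mem_top _)
    have h2 : (Subgroup.zpowers (gx h x y)).index ≠ 0 := Subgroup.index_ne_zero_of_finite
    have h3 : (Subgroup.zpowers (gx h x y)).index = Nat.card (Gc2 h x y ⧸ Subgroup.zpowers (gx h x y)) := rfl
    omega
  have hy2 : 2 ≤ Nat.card (Gc2 h x y ⧸ Subgroup.zpowers (gy h x y)) := by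
    have h1 : (Subgroup.zpowers (gy h x y)).index ≠ 1 := by
      intro h0
      rw [Subgroup.index_eq_one] at h0
      exact hane (h0 ▸ Subgroup.mem_top _)
    have h2 : (Subgroup.zpowers (gy h x y)).index ≠ 0 := Subgroup.index_ne_zero_of_finite
    have h3 : (Subgroup.zpowers (gy h x y)).index = Nat.card (Gc2 h x y ⧸ Subgroup.zpowers (gy h x y)) := rfl
    omega
  have hcSp : Fintype.card (V.S2 (gx h x y) (gy h x y)) < p := by omega
  have heF : ((e : ℕ) : ZMod p) ≠ 0 := by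
    rw [Ne, ZMod.natCast_eq_zero_iff]
    intro h0
    have := Nat.le_of_dvd hep h0
    omega
  -- the sum of the signs
  have hsum : (∑ s, (sgn (d (E.iS s : Q)) : ZMod p)) ≠ 0 := by
    set N : ℤ := ∑ s, dz d (E.iS s : Q) with hN
    have hcast : (∑ s, (sgn (d (E.iS s : Q)) : ZMod p)) = ((N : ℤ) : ZMod p) := by
      rw [hN, Int.cast_sum]
      refine Finset.sum_congr rfl fun s _ => ?_
      unfold dz sgn
      cases d (E.iS s : Q) <;> simp
    have hNne : N ≠ 0 := by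
      intro hN0
      apply hdsf
      have : Fintype M := Fintype.ofFinite _
      have : Fintype (Subgroup.closure {B.q a, B.q b * B.q a * (B.q b)⁻¹}) := Fintype.ofFinite _
      let φ₁ : M →* Subgroup.closure {B.q a, B.q b * B.q a * (B.q b)⁻¹} :=
        ((MonoidHom.fst Q (Sy h.toFrt)).comp M.subtype).codRestrict _ fun m => (hM1 m m.2).1
      let φ₂ : M →* Gc2 h x y :=
        ((MonoidHom.snd Q (Sy h.toFrt)).comp M.subtype).codRestrict _ fun m => (hM1 m m.2).2.1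
      have s1 : Function.Surjective φ₁ := by
        rintro ⟨κ, hκ⟩
        obtain ⟨g, hg⟩ := hM2 κ hκ
        exact ⟨⟨_, hg⟩, rfl⟩
      have s2 : Function.Surjective φ₂ := by
        rintro ⟨g, hg⟩
        obtain ⟨κ, hκ⟩ := hM3 g hg
        exact ⟨⟨_, hκ⟩, rfl⟩
      obtain ⟨n₁, hn₁, e₁⟩ := sum_surjZ φ₁ s1 (fun κ => dz d ((x : Q) * B.q a ^ p₀ * κ) +
        dz d ((x : Q) * B.q a ^ p₀ * κ * B.q b))
      obtain ⟨n₂, hn₂, e₂⟩ := sum_surjZ φ₂ s2 (fun g => dz d (((g : Sy h.toFrt) • x : F) : Q) +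
        dz d (((g : Sy h.toFrt) • y : F) : Q))
      have e₃ : ∑ m : M, (dz d ((x : Q) * B.q a ^ p₀ * φ₁ m) + dz d ((x : Q) * B.q a ^ p₀ * φ₁ m * B.q b)) =
          ∑ m : M, (dz d (((φ₂ m : Sy h.toFrt) • x : F) : Q) + dz d (((φ₂ m : Sy h.toFrt) • y : F) : Q)) := by
        refine Finset.sum_congr rfl fun m _ => ?_
        obtain ⟨_, _, h3, h4⟩ := hM1 m m.2
        unfold dz
        have h3' : d (((φ₂ m : Sy h.toFrt) • x : F) : Q) = d ((x : Q) * B.q a ^ p₀ * φ₁ m) := h3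
        have h4' : d (((φ₂ m : Sy h.toFrt) • y : F) : Q) = d ((x : Q) * B.q a ^ p₀ * φ₁ m * B.q b) := h4
        rw [h3', h4']
      have e₄ : ∑ g : Gc2 h x y, (dz d (((g : Sy h.toFrt) • x : F) : Q) + dz d (((g : Sy h.toFrt) • y : F) : Q)) =
          (e : ℤ) * N := by
        rw [Finset.sum_add_distrib, hN, hES]
        have k0 : ∑ s : V.S2 (gx h x y) (gy h x y), dz d (iS2 h x y s : Q) =
            ∑ q, dz d (iS2 h x y (Sum.inl q) : Q) + ∑ q, dz d (iS2 h x y (Sum.inr q) : Q) := by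
          have k3 := Fintype.sum_sum_type (fun s : V.S2 (gx h x y) (gy h x y) => dz d (iS2 h x y s : Q))
          rw [← k3]
          exact Finset.sum_congr (by ext; simp) fun _ _ => rfl
        have k1 := sum_quotZ (Subgroup.zpowers (gx h x y)) (fun q => dz d (iS2 h x y (Sum.inl q) : Q))
        have k2 := sum_quotZ (Subgroup.zpowers (gy h x y)) (fun q => dz d (iS2 h x y (Sum.inr q) : Q))
        rw [Nat.card_zpowers, hofa] at k1
        rw [Nat.card_zpowers, hofc] at k2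
        have k4 : (e : ℤ) * ∑ s : V.S2 (gx h x y) (gy h x y), dz d (iS2 h x y s : Q) =
            ∑ g : Gc2 h x y, dz d (iS2 h x y (Sum.inl (g : Gc2 h x y ⧸ _)) : Q) +
              ∑ g : Gc2 h x y, dz d (iS2 h x y (Sum.inr (g : Gc2 h x y ⧸ _)) : Q) := by
          rw [k0, mul_add, ← k1, ← k2]
        exact k4.symm
      rw [e₁, e₂, e₄, hN0, mul_zero, mul_zero] at e₃
      have e₅ : dsf (Subgroup.closure {B.q a, B.q b * B.q a * (B.q b)⁻¹}) (B.q b) (dz d) ((x : Q) * B.q a ^ p₀) =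
          ∑ κ : Subgroup.closure {B.q a, B.q b * B.q a * (B.q b)⁻¹}, (dz d ((x : Q) * B.q a ^ p₀ * κ) +
            dz d ((x : Q) * B.q a ^ p₀ * κ * B.q b)) := by
        unfold dsf
        rw [finsum_eq_sum_of_fintype]
      rw [e₅]
      rcases mul_eq_zero.1 e₃ with h0 | h0
      · exfalso
        have : n₁ = 0 := by exact_mod_cast h0
        omega
      · exact h0
    have hNle : |N| ≤ Fintype.card (V.S2 (gx h x y) (gy h x y)) := by
      have := V.abs_sum_signs Finset.univ (fun s => dz d (E.iS s : Q)) fun s _ => dz_cases d _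
      rwa [Finset.card_univ] at this
    rw [hcast, Ne, ZMod.intCast_zmod_eq_zero_iff_dvd]
    intro hdvd
    exact hNne (Int.eq_zero_of_abs_lt_dvd hdvd (lt_of_le_of_lt hNle (by exact_mod_cast hcSp)))
  -- the base strand
  have hv₀ : E.iS (Sum.inl ((1 : Gc2 h x y) : Gc2 h x y ⧸ _)) = x := by
    rw [hES, iS2_inl]
    show (1 : Sy h.toFrt) • x = x
    rw [one_smul]
  refine ncore ret h G hm d f g l₀ p U lc i b p₀ p₁ (Gc2 h x y) gok (V.puz2 (gx h x y) (gy h x y) tau T hT) E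
    (fun r => ⟨r, r.2, hER r⟩) ?_ (Sum.inl ((1 : Gc2 h x y) : Gc2 h x y ⧸ _)) ?_ V.full2
    (V.three2 hane hane2 hcne hcne2) (V.avoid2 hane hane2 hcne hcne2 hG) (V.conn2 hane hcne hG) hcSp
    ⟨e, heF, fun L => by rw [V.deg2 (hofa.trans hofc.symm), hofa]⟩ ⟨1, Or.inl rfl⟩ ?_ ?_ ?_ hkap
  · intro s hs
    rw [hES, iS2_range]
    exact hs
  · rw [hv₀]
    exact hl
  · rcases hcol with ⟨n, hn⟩ | hcol
    · left
      refine ⟨hsum, ?_⟩
      set m := n + (e * p₀ - p₀) with hmdef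
      have hge : p₀ ≤ e * p₀ := Nat.le_mul_of_pos_left _ hep
      have hmem : (B.q a ^ m, h.cj (x : Q) ^ m) ∈ M := M.pow_mem hM4 m
      obtain ⟨_, _, _, h4⟩ := hM1 _ hmem
      refine ⟨gx h x y ^ m, Or.inl ?_, ?_⟩
      · show (Sum.inl ((1 : Gc2 h x y) : Gc2 h x y ⧸ _) : V.S2 (gx h x y) (gy h x y)) =
          Sum.inl ((gx h x y ^ m : Gc2 h x y) : Gc2 h x y ⧸ _)
        congr 1
        refine QuotientGroup.eq.2 ?_
        rw [inv_one, one_mul]
        exact Subgroup.npow_mem_zpowers _ _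
      · have hoth : (V.puz2 (gx h x y) (gy h x y) tau T hT).oth (gx h x y ^ m)
            (Sum.inl ((1 : Gc2 h x y) : Gc2 h x y ⧸ _)) = Sum.inr ((gx h x y ^ m : Gc2 h x y) : Gc2 h x y ⧸ _) := by
          have h1 : ((1 : Gc2 h x y) : Gc2 h x y ⧸ Subgroup.zpowers (gx h x y)) =
              ((gx h x y ^ m : Gc2 h x y) : Gc2 h x y ⧸ Subgroup.zpowers (gx h x y)) := by
            refine QuotientGroup.eq.2 ?_
            rw [inv_one, one_mul]
            exact Subgroup.npow_mem_zpowers _ _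
          rw [h1]
          exact V.oth_inl _
        rw [hoth, hv₀, hES, iS2_inr]
        have h5 : ((gx h x y ^ m : Gc2 h x y) : Sy h.toFrt) = h.cj (x : Q) ^ m := rfl
        rw [h5]
        have h6 : d (((h.cj (x : Q) ^ m • y : F)) : Q) = d ((x : Q) * B.q a ^ p₀ * B.q a ^ m * B.q b) := h4
        rw [h6, ← hn]
        have h7 : (x : Q) * B.q a ^ p₀ * B.q a ^ m * B.q b = (x : Q) * B.q a ^ n * B.q b * B.q a ^ (e * p₀) := by
          have h8 : B.q b * B.q a ^ (e * p₀) = B.q a ^ (e * p₀) * B.q b := h.cen_pow _ _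
          rw [mul_assoc (x : Q), ← pow_add, show p₀ + m = n + e * p₀ by omega, pow_add, mul_assoc _ (B.q b) (_ ^ _),
            h8, ← mul_assoc, ← mul_assoc]
        have h9 := V.d_zpow lc.dl ((x : Q) * B.q a ^ n * B.q b) ((e * p₀ : ℕ) : ℤ)
        rw [zpow_natCast] at h9
        rw [h7, h9]
    · right
      have hxg : ∀ g ∈ Gc2 h x y, d ((g • x : F) : Q) = d (x : Q) ∧ d ((g • y : F) : Q) = d (x : Q) := by
        intro g hg
        obtain ⟨κ, hκ⟩ := hM3 g hg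
        obtain ⟨k1, _, k3, k4⟩ := hM1 _ hκ
        obtain ⟨k5, k6⟩ := hcol κ k1
        exact ⟨by rw [← k5]; exact k3, by rw [← k6]; exact k4⟩
      refine ⟨?_, ?_⟩
      · rintro (q | q)
        · obtain ⟨g, rfl⟩ := QuotientGroup.mk_surjective q
          rw [hv₀, hES, iS2_inl]
          exact (hxg g g.2).1
        · obtain ⟨g, rfl⟩ := QuotientGroup.mk_surjective q
          rw [hv₀, hES, iS2_inr]
          exact (hxg g g.2).2
      · intro h0
        have h1 : ((Fintype.card (V.S2 (gx h x y) (gy h x y)) - 2 : ℕ) : ZMod p) = 0 := by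
          rw [Nat.cast_sub (by omega)]
          exact_mod_cast h0
        rw [ZMod.natCast_eq_zero_iff] at h1
        have := Nat.le_of_dvd (by omega) h1
        omega
  · intro U' hchi hna hnb hal
    rintro ⟨β, hβ⟩
    have hal' : U'.chi (B.q a) ^ e = 1 := by rw [hchi]; exact lc.al
    have hcne0 : U'.chi ((x : Q) * B.q a ^ p₀) ≠ 0 := by
      intro h0
      have h1 : U'.chi ((x : Q) * B.q a ^ p₀) * U'.chi ((x : Q) * B.q a ^ p₀)⁻¹ = 1 := by
        rw [← map_mul, mul_inv_cancel, map_one]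
      rw [h0, zero_mul] at h1
      exact zero_ne_one h1
    have h1 := V.not_exact2 (a := gx h x y) (c := gy h x y) ((Xh U' hal' x).comp (Gc2 h x y).subtype)
      (U'.chi ((x : Q) * B.q a ^ p₀) * U'.n b) (fun q => β (Sum.inl q)) (fun q => β (Sum.inr q)) (fun r => by
        have h2 := hβ r
        rw [hER] at h2
        exact h2) (by
        show Xc U' (h.cj (x : Q)) = Xc U' (h.cj (y : Q))
        rw [Xc_cj U' h hal' x, Xc_cj U' h hal' x]) (Nat.card D) (by
        apply Subtype.ext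
        show (h.cj (x : Q) * (h.cj (y : Q))⁻¹) ^ Nat.card D = 1
        apply lv0_pow
        rw [lv_mul, lv_inv, h.cj_lv, h.cj_lv, add_neg_cancel])
    have hDF : ((Nat.card D : ℕ) : ZMod p) ≠ 0 := by
      rw [Ne, ZMod.natCast_eq_zero_iff]
      intro h0
      have := Nat.le_of_dvd hDpos h0
      omega
    have h3 : ((Xh U' hal' x).comp (Gc2 h x y).subtype) (gx h x y) = U'.chi (B.q a) := Xc_cj U' h hal' x _
    rw [h3] at h1
    rcases mul_eq_zero.1 h1 with h4 | h4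
    · rcases mul_eq_zero.1 h4 with h5 | h5
      · exact hDF h5
      · exact (mul_ne_zero hcne0 hnb) h5
    · apply hal
      rw [hchi] at h4
      exact sub_eq_zero.1 h4
  · intro hal hbne
    refine ⟨1, ?_⟩
    have h1 : E.iS ((V.puz2 (gx h x y) (gy h x y) tau T hT).x 1) = x := hv₀
    have h2 : E.iS ((V.puz2 (gx h x y) (gy h x y) tau T hT).y 1) = y := by
      show E.iS (Sum.inr ((1 : Gc2 h x y) : Gc2 h x y ⧸ _)) = y
      rw [hES, iS2_inr]
      show (1 : Sy h.toFrt) • y = y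
      rw [one_smul]
    rw [h1, h2]
    intro h3
    apply hbne
    have h4 := congrArg U.chi gok.edge
    rw [map_mul, map_mul, map_mul, map_pow, map_pow, hal, one_pow, one_pow, mul_one, mul_one, ← h3] at h4
    have h5 : U.chi (x : Q) ≠ 0 := by
      intro h0
      have h1 : U.chi (x : Q) * U.chi (x : Q)⁻¹ = 1 := by rw [← map_mul, mul_inv_cancel, map_one]
      rw [h0, zero_mul] at h1
      exact zero_ne_one h1
    exact mul_left_cancel₀ h5 (by rw [h4, mul_one])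

end Pool.Agent.Lib.MP_688fd0_co.SQ2
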