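import Pool.Agent.Lib.MP_688fd0_co.SQ2.V.FS
import Pool.Agent.Lib.MP_688fd0_co.SQ2.V.Loc

/-!
ONE: a label with the same image as `a` or its inverse.
-/

set_option autoImplicit false

namespace Pool.Agent.Lib.MP_688fd0_co.SQ2

open Pool.Agent.Lib.MP_688fd0_co.OSF
open V (Puz)

/-- An element of odd order is not `-1`. -/
theorem one_add_ne {F : Type*} [Field F] {α : F} {e : ℕ} (he : Odd e) (h : α ^ e = 1) (h2 : (2 : F) ≠ 0) :
    1 + α ≠ 0 := by
  intro h0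
  have h1 : α = -1 := by linear_combination h0
  rw [h1, he.neg_one_pow] at h
  apply h2
  linear_combination -h

/-- ONE for every power of `q a`. -/
theorem onePow {Q : Type} [Group Q] [DecidableEq Q] {B : Lb.{0, 0} Q} {a : B.L} {D : Subgroup Q} {F : Finset Q}
    {e : ℕ} (h : FrD D (B.q a) F e) {ι : Type} (G : ι → BGad h.toFrt) {hm : ℕ} {d : Q → Bool}
    {f g : Rg ι (Sy h.toFrt)} {l₀ : F} {p : ℕ} {V : Vd B (ZMod p)} (hC : LC h G hm d f g l₀ p V)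
    {b : B.L} {j : ℤ} (hb : B.q b = B.q a ^ j) (hk : V.kap a b ≠ 0) {E : TW B} {n₀ : ℕ}
    (hE : EWr (bigZ G) f g l₀ E n₀) :
    ∃ (X X' : TW B) (n : ℕ), Ver a X X' n ((bigZ G).vt ((bigP G).oth g l₀) ((bigZ G).lev f)) ∧
      EWr (bigZ G) f g l₀ X n ∧ X.cap = E.cap ∧ n ≤ 2 * n₀ + (j.natAbs + e) ∧ dvol V d X X' ≠ 0 := by
  have : Fact p.Prime := ⟨hC.prime⟩
  have h2 : (2 : ZMod p) ≠ 0 := by
    intro h0
    have h1 : ((2 : ℕ) : ZMod p) = 0 := by exact_mod_cast h0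
    rw [ZMod.natCast_eq_zero_iff] at h1
    have := Nat.le_of_dvd (by norm_num) h1
    have := hC.big
    have := h.he
    omega
  exact realFS (bigZ G) V d hb (one_add_ne hC.eodd hC.al h2) hk h.cen hE

theorem one : OneS := by
  intro Q _ _ B a D F e h ι G hm d f g l₀ p V hC b hb hk E n₀ hE
  obtain ⟨j, hj, hj1⟩ : ∃ j : ℤ, B.q b = B.q a ^ j ∧ j.natAbs = 1 := by
    rcases hb with hb | hb
    · exact ⟨1, by rw [hb, zpow_one], rfl⟩
    · exact ⟨-1, by rw [hb, zpow_neg_one], rfl⟩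
  obtain ⟨X, X', n, g1, g2, g3, g4, g5⟩ := onePow h G hC hj hk hE
  refine ⟨X, X', n, g1, g2, g3, g4.trans ?_, g5⟩
  rw [hj1]
  refine Nat.add_le_add_left ?_ _
  have he := h.he
  calc 1 + e ≤ 4 * e := by omega
    _ ≤ (2 * NW F (Rg ι (Sy h.toFrt)) + 4) * (e + hm) := Nat.mul_le_mul (by omega) (by omega)

end Pool.Agent.Lib.MP_688fd0_co.SQ2
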