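import Pool.Agent.Lib.MP_688fd0_co.SQ2.V.FlipDefs

/-!
RET: in a homogeneous puzzle every step can be undone. In the finite graph of states the number of
steps out of a state is equal to the number of steps into it, hence a set of states closed under
steps is also closed under backward steps.
-/

set_option autoImplicit false

namespace Pool.Agent.Lib.MP_688fd0_co.SQ2.V

open Puz

theorem ret_adj_symm {S R : Type} [DecidableEq S] {P : Puz S R} {r r' : R} {v : S} (h : P.Adj r r' v) :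
    P.Adj r' r v := ⟨h.2.1, h.1, fun e => h.2.2 e.symm⟩

theorem ret_step {S R Tok : Type} [Fintype S] [DecidableEq S] [Fintype R] [Fintype Tok] (P : Puz S R)
    (hom : P.Hom) (s : St S R Tok) (r' : R) (v : S) (hadj : P.Adj s.1 r' v) :
    P.WReach (P.step r' v s) s := by
  classical
  have hφ : ∀ r, Nonempty ({p : R × S | P.Adj r p.1 p.2} ≃ {p : R × S | P.Adj (P.tau r) p.1 p.2}) :=
    fun r => by
      have h := hom r
      rw [← Nat.card_coe_set_eq, ← Nat.card_coe_set_eq] at h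
      exact (Finite.card_eq).1 h
  let φ := fun r => (hφ r).some
  let C : Set (St S R Tok) := {u | P.WReach (P.step r' v s) u}
  let A : Set (St S R Tok × (R × S)) := {e | P.Adj e.1.1 e.2.1 e.2.2 ∧ e.1 ∈ C}
  let B : Set (St S R Tok × (R × S)) := {e | P.Adj e.1.1 e.2.1 e.2.2 ∧ P.step e.2.1 e.2.2 e.1 ∈ C}
  have hAB : A ⊆ B := fun e he => ⟨he.1, WReach.trans he.2 (WReach.step he.1)⟩
  let f : (St S R Tok × (R × S)) → (St S R Tok × (R × S)) := fun e =>
    (P.step e.2.1 e.2.2 e.1,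
      if h : (e.1.1, e.2.2) ∈ {p : R × S | P.Adj e.2.1 p.1 p.2} then
        (φ e.2.1 ⟨(e.1.1, e.2.2), h⟩ : R × S) else e.2)
  have hf : ∀ e (h : (e.1.1, e.2.2) ∈ {p : R × S | P.Adj e.2.1 p.1 p.2}), f e = (P.step e.2.1 e.2.2 e.1,
      (φ e.2.1 ⟨(e.1.1, e.2.2), h⟩ : R × S)) := fun e h => Prod.ext rfl (dif_pos h)
  have hmaps : ∀ e ∈ B, f e ∈ A := by
    intro e he
    have h := ret_adj_symm he.1
    rw [hf e h]
    exact ⟨(φ e.2.1 ⟨(e.1.1, e.2.2), h⟩).2, he.2⟩
  have hinj : Set.InjOn f B := by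
    rintro ⟨⟨r1, p1⟩, ⟨q1, v1⟩⟩ he ⟨⟨r2, p2⟩, ⟨q2, v2⟩⟩ he' heq
    have h1 : P.Adj q1 r1 v1 := ret_adj_symm he.1
    have h2 : P.Adj q2 r2 v2 := ret_adj_symm he'.1
    rw [hf ((r1, p1), (q1, v1)) h1, hf ((r2, p2), (q2, v2)) h2] at heq
    have e1 : P.tau q1 = P.tau q2 := congrArg (fun x => x.1.1) heq
    have e2 : q1 = q2 := P.tau.injective e1
    subst e2
    have e3 := congrArg (fun x => x.2) heq
    have e4 : (⟨(r1, v1), h1⟩ : {p : R × S | P.Adj q1 p.1 p.2}) = ⟨(r2, v2), h2⟩ :=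
      (φ q1).injective (Subtype.ext e3)
    have e5 : (r1, v1) = (r2, v2) := congrArg Subtype.val e4
    obtain ⟨rfl, rfl⟩ := Prod.ext_iff.1 e5
    have e6 : ∀ t, P.T q1 (P.J r1 q1 v1 (p1 t)) = P.T q1 (P.J r1 q1 v1 (p2 t)) := fun t =>
      congrArg (fun x => x.1.2 t) heq
    have e7 : p1 = p2 := funext fun t => (P.J r1 q1 v1).injective ((P.T q1).injective (e6 t))
    rw [e7]
  have hcard : B.ncard ≤ A.ncard :=
    Set.ncard_le_ncard_of_injOn f hmaps hinj (Set.toFinite _)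
  have hE : A = B := Set.eq_of_subset_of_ncard_le hAB hcard (Set.toFinite _)
  have hs : (s, (r', v)) ∈ B := ⟨hadj, WReach.refl _⟩
  rw [← hE] at hs
  exact hs.2

theorem ret : RetS := by
  intro S R Tok _ _ _ _ P hom s s' h
  obtain ⟨l, h1, h2⟩ := h
  induction l generalizing s with
  | nil =>
    have h3 : s = s' := h2
    rw [h3]
    exact WReach.refl _
  | cons p l ih =>
    have h3 : P.WReach s' (P.step p.1 p.2 s) := ih _ h1.2 h2
    exact WReach.trans h3 (ret_step P hom s p.1 p.2 h1.1)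

end Pool.Agent.Lib.MP_688fd0_co.SQ2.V
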