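import Pool.Agent.Lib.MP_688fd0_co.SQ2.V.Flip
import Pool.Agent.Lib.MP_688fd0_co.SQ2.V.Ret
import Pool.Agent.Lib.MP_688fd0_co.SQ2.V.Bnd
import Pool.Agent.Lib.MP_688fd0_co.SQ2.V.CGad
import Pool.Agent.Lib.MP_688fd0_co.SQ2.V.One
import Pool.Agent.Lib.MP_688fd0_co.SQ2.V.NC1
import Pool.Agent.Lib.MP_688fd0_co.SQ2.V.NC2
import Pool.Agent.Lib.MP_688fd0_co.SQ2.V.CMA
import Pool.Agent.Lib.MP_688fd0_co.SQ2.V.CMB
import Pool.Agent.Lib.MP_688fd0_co.SQ2.H98.GadN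

/-!
# FLIP: the vertical walk, assembled

`flipS : FlipS`, the interface statement of `SQ2/Iface.lean`.
-/

namespace Pool.Agent.Lib.MP_688fd0_co.SQ2

theorem bndS : BndS := fun _ _ _ _ _ _ c h hF => bnd h hF c

/-- **FLIP.** -/
theorem flipS : FlipS :=
  flip V.ret bndS gadN1 gadN2 cgadS (nc1 V.ret) (nc2 V.ret) (cma V.ret) (cmb V.ret) one

end Pool.Agent.Lib.MP_688fd0_co.SQ2
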