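import Pool.Agent.Lib.MP_688fd0_co.SQ2.V.Loc
import Pool.Agent.Lib.MP_688fd0_co.SQ2.Iface

/-!
GADG: statements of the existence of base gadgets, in the form needed by FLIP.
-/

set_option autoImplicit false

namespace Pool.Agent.Lib.MP_688fd0_co.SQ2

open Pool.Agent.Lib.MP_688fd0_co.OSF

/-- GADN2: a label that does not commute with `a`, two sheets. `o` is the offset of the far sheet. -/
def GadN2S : Prop :=
  ∀ (Q : Type) [Group Q] [DecidableEq Q] (B : Lb.{0, 0} Q) (a : B.L) (D : Subgroup Q) (z : Q) (k : ℕ),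
    Hyp B a D z k → ∀ (W c : ℕ) (F : Finset Q), Fr B a D W F → hgt F.card c + c ≤ W →
    ∀ (h : FrD D (B.q a) F k) (b : B.L), B.q b * B.q a ≠ B.q a * B.q b →
    (∀ j : ℤ, |j| ≤ 1 → (B.q a ^ j)⁻¹ * B.q b ∉ D) →
    (∀ j : ℤ, |j| ≤ c → (B.q a ^ j)⁻¹ * B.q b ∉ D) →
    ∀ (s₀ : F) (o : ℤ), |o| ≤ c → (s₀ : Q) * B.q b * (B.q a ^ o)⁻¹ ∈ F →
    ∃ (G : BGad h.toFrt) (p p' : ℕ), G.x = s₀ ∧ G.H ≤ hgt F.card c ∧ (p' : ℤ) - p = o ∧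
      (∀ k : Sy h.toFrt, k • G.x ≠ G.y) ∧
      GOK h G b p p' (Subgroup.closure {h.cj (G.x : Q), h.cj (G.y : Q)})

/-- GADN1: a label that does not commute with `a`, one sheet. -/
def GadN1S : Prop :=
  ∀ (Q : Type) [Group Q] [DecidableEq Q] (B : Lb.{0, 0} Q) (a : B.L) (D : Subgroup Q) (z : Q) (k : ℕ),
    Hyp B a D z k → ∀ (W c : ℕ) (F : Finset Q), Fr B a D W F → hgt F.card c + c ≤ W →
    ∀ (h : FrD D (B.q a) F k) (b : B.L), B.q b * B.q a ≠ B.q a * B.q b →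
    ∀ (j : ℤ), |j| ≤ 1 → (B.q a ^ j)⁻¹ * B.q b ∈ D → ∀ s₀ : F,
    ∃ (G : BGad h.toFrt) (p p' : ℕ) (η : Sy h.toFrt), G.x = s₀ ∧ G.H ≤ hgt F.card c ∧ (p' : ℤ) - p = j ∧
      η • G.x = G.y ∧ lv η = (p' : ZMod k) - p ∧ GOK h G b p p' (Subgroup.closure {h.cj (G.x : Q), η})

/-- CGAD: a commuting label. -/
def CGadS : Prop :=
  ∀ (Q : Type) [Group Q] [DecidableEq Q] (B : Lb.{0, 0} Q) (a : B.L) (D : Subgroup Q) (F : Finset Q) (e : ℕ)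
    (h : FrD D (B.q a) F e) (b : B.L), B.q b * B.q a = B.q a * B.q b →
    ∀ (s₀ s₁ : F) (j : ℤ), s₀ ≠ s₁ → (s₀ : Q) * B.q b = (s₁ : Q) * B.q a ^ j →
    ∃ (G : BGad h.toFrt) (p p' : ℕ), G.x = s₀ ∧ G.y = s₁ ∧ G.H ≤ j.natAbs + 1 ∧ (p' : ℤ) - p = j ∧ COK h G b p p'

end Pool.Agent.Lib.MP_688fd0_co.SQ2
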