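import Pool.Agent.Lib.MP_688fd0_co.SQ2.V.Defs

/-!
Chapter V, Lemma B: level independent labels of the strands.
-/

set_option autoImplicit false

namespace Pool.Agent.Lib.MP_688fd0_co.SQ2.V

open Puz

namespace VB

variable {S R : Type} [DecidableEq S] (P : Puz S R)

theorem oth_ne_self (r : R) (v : S) (h : P.On r v) : P.oth r v ≠ v := by
  unfold Puz.oth
  rcases h with h | h
  · rw [if_pos h, h]; exact (P.ne r).symm
  · by_cases h' : v = P.x r
    · rw [if_pos h', h']; exact (P.ne r).symm
    · rw [if_neg h', h]; exact P.ne r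

theorem oth_x (r : R) : P.oth r (P.x r) = P.y r := by simp [Puz.oth]

theorem oth_y (r : R) : P.oth r (P.y r) = P.x r := by
  simp [Puz.oth, (P.ne r).symm]

/-- The other end of `r'` is not on `r` when `r` and `r'` are adjacent. -/
theorem not_on_oth {r r' : R} {v : S} (h : P.Adj r r' v) : ¬ P.On r (P.oth r' v) := by
  obtain ⟨h1, h2, h3⟩ := h
  have h4 := oth_ne_self P r' v h2
  intro h5
  rcases h1 with h1 | h1
  · rw [h1] at h3 h4 h5
    rw [oth_x] at h3
    rcases h5 with h5 | h5
    · exact h4 h5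
    · exact h3 h5.symm
  · rw [h1] at h3 h4 h5
    rw [oth_y] at h3
    rcases h5 with h5 | h5
    · exact h3 h5.symm
    · exact h4 h5

theorem sum_on {F : Type} [Field F] [Fintype S] (M : S → F) (r : R) :
    (∑ L, if P.On r L then M L else 0) = M (P.x r) + M (P.y r) := by
  have h1 : ∀ L, (if P.On r L then M L else 0) =
      (if L = P.x r then M L else 0) + (if L = P.y r then M L else 0) := by
    intro L
    by_cases hx : L = P.x r
    · have hy : L ≠ P.y r := by rw [hx]; exact P.ne r
      have ho : P.On r L := Or.inl hx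
      rw [if_pos hx, if_neg hy, if_pos ho, add_zero]
    · by_cases hy : L = P.y r
      · have ho : P.On r L := Or.inr hy
        rw [if_neg hx, if_pos hy, if_pos ho, zero_add]
      · have ho : ¬ P.On r L := fun h => h.elim hx hy
        rw [if_neg hx, if_neg hy, if_neg ho, add_zero]
  rw [Finset.sum_congr rfl (fun L _ => h1 L), Finset.sum_add_distrib, Finset.sum_ite_eq' , Finset.sum_ite_eq']
  simp

/-- The sum of the values of `M` at the ends of a rung does not vanish. -/
theorem mu_ne_zero {F Tok : Type} [Fintype S] [Fintype R] [Fintype Tok] [Field F] (M : S → F) (d : Tok → F)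
    (hf : ((Fintype.card Tok).factorial : F) ≠ 0) (hd : (∑ t, d t) ≠ 0)
    (hδ : ∃ δ : ℕ, (δ : F) ≠ 0 ∧ ∀ L, {r | P.On r L}.ncard = δ)
    (n : ℕ) (hn : n ∣ (Fintype.card Tok).factorial)
    (h : ∀ r, (∑ L, if P.On r L then (0 : F) else M L) = n * ∑ t, d t) (r : R) :
    M (P.x r) + M (P.y r) ≠ 0 := by
  classical
  intro h0
  have hn0 : (n : F) ≠ 0 := by
    intro hz
    obtain ⟨k, hk⟩ := hn
    apply hf
    rw [hk, Nat.cast_mul, hz, zero_mul]
  have hsplit : ∀ r, M (P.x r) + M (P.y r) + n * ∑ t, d t = ∑ L, M L := by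
    intro r
    rw [← sum_on P M r, ← h r, ← Finset.sum_add_distrib]
    apply Finset.sum_congr rfl
    intro L _
    by_cases ho : P.On r L
    · rw [if_pos ho, if_pos ho, add_zero]
    · rw [if_neg ho, if_neg ho, zero_add]
  have hall : ∀ r', M (P.x r') + M (P.y r') = 0 := by
    intro r'
    have h1 := hsplit r'
    rw [← hsplit r, h0] at h1
    exact add_right_cancel h1
  obtain ⟨δ, hδ0, hδ1⟩ := hδ
  have hcount : ∑ r', (M (P.x r') + M (P.y r')) = δ * ∑ L, M L := by
    rw [Finset.sum_congr rfl (fun r' _ => (sum_on P M r').symm), Finset.sum_comm, Finset.mul_sum]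
    apply Finset.sum_congr rfl
    intro L _
    rw [← Finset.sum_filter, Finset.sum_const, nsmul_eq_mul]
    congr 2
    rw [← hδ1 L, Set.ncard_eq_toFinset_card']
    congr 1
    ext r'
    simp
  rw [Finset.sum_eq_zero (fun r' _ => hall r')] at hcount
  have hM0 : ∑ L, M L = 0 := by
    rcases mul_eq_zero.1 hcount.symm with h1 | h1
    · exact absurd h1 hδ0
    · exact h1
  have h2 := hsplit r
  rw [h0, hM0, zero_add] at h2
  rcases mul_eq_zero.1 h2 with h3 | h3
  · exact hn0 h3
  · exact hd h3

end VB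

open VB

theorem lemmaB (hM : LemmaM) : LemmaB := by
  intro S R Tok F _ _ _ _ _ P χ C d s₀ hFull hThree hAvoid hConn hGood hf hd hδ hyp r
  classical
  obtain ⟨M, hM1, hM2, n, hn, hM3⟩ := hM S R Tok F P d s₀ hFull hThree hAvoid hConn hGood
  have hmu := mu_ne_zero P M d hf hd hδ n hn (fun r => (hM3 r).1) r
  -- the sum over the fibre for a pivot `v`
  have key : ∀ v, P.On r v →
      (∑ pos ∈ fib P s₀ r, ∑ t, d t * χ (pos t)) + (χ (P.oth r v) - χ v) * M (P.oth r v) = n * C := by
    intro v hv
    obtain ⟨r', -, h1, -, -⟩ := hThree r v hv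
    have h2 : ∀ pos ∈ fib P s₀ r,
        (∑ t, d t * (χ (pos t) + if pos t = P.oth r' v then χ (P.oth r v) - χ v else 0)) = C := by
      intro pos hpos
      have h3 : P.Reach s₀ (r, pos) := by
        have h3' := (Finset.mem_filter.1 hpos).2
        exact (congrArg (fun i : DecidableEq S => @Puz.Reach S R i P Tok s₀ (r, pos)) (Subsingleton.elim _ _)).mp h3'
      exact hyp (r, pos) r' v h3 h1
    have h4 := Finset.sum_congr rfl h2
    rw [Finset.sum_const, (hM3 r).2, nsmul_eq_mul] at h4
    rw [← h4]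
    have h5 : M (P.oth r v) = ∑ pos ∈ fib P s₀ r, ∑ t, if pos t = P.oth r' v then d t else 0 := by
      rw [hM2 r r' v h1, ← hM1 r (P.oth r' v) (not_on_oth P h1)]
      rfl
    rw [h5, Finset.mul_sum, ← Finset.sum_add_distrib]
    apply Finset.sum_congr rfl
    intro pos _
    rw [Finset.mul_sum, ← Finset.sum_add_distrib]
    apply Finset.sum_congr rfl
    intro t _
    by_cases ht : pos t = P.oth r' v
    · rw [if_pos ht, if_pos ht]; ring
    · rw [if_neg ht, if_neg ht]; ring
  have kx := key (P.x r) (Or.inl rfl)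
  have ky := key (P.y r) (Or.inr rfl)
  rw [oth_x] at kx
  rw [oth_y] at ky
  have h6 : (χ (P.y r) - χ (P.x r)) * (M (P.x r) + M (P.y r)) = 0 := by
    have := kx.trans ky.symm
    linear_combination this
  rcases mul_eq_zero.1 h6 with h7 | h7
  · exact (sub_eq_zero.1 h7).symm
  · exact absurd h7 hmu

end Pool.Agent.Lib.MP_688fd0_co.SQ2.V
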