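import Pool.Agent.Lib.MP_688fd0_co.SQ2.Words
import Pool.Agent.Lib.MP_688fd0_co.SQ2.V.RealDefs

/-!
The big puzzle of a frontier from base gadgets.

`F` is the frontier at level `0`; its symmetry group `Sy` consists of the pairs (permutation of `F`, level mod `e`) which
are given by left multiplications with elements of `D A ^ t`. The rungs of one type are a copy of `Sy`.
-/

set_option autoImplicit false

namespace Pool.Agent.Lib.MP_688fd0_co.SQ2

open Pool.Agent.Lib.MP_688fd0_co.OSF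
open V (Puz)

universe v w

variable {Q : Type} [Group Q] {B : Lb.{0, v} Q}

/-- The frontier: `A ^ e` is central, `D` is normalised by `A`. -/
structure Frt (D : Subgroup Q) (A : Q) (F : Finset Q) (e : ℕ) : Prop where
  he : 0 < e
  cen : ∀ x : Q, x * A ^ e = A ^ e * x
  nrm : ∀ d ∈ D, A * d * A⁻¹ ∈ D
  nrm' : ∀ d ∈ D, A⁻¹ * d * A ∈ D

/-- `π` is the action of `d A ^ t` on the strands. -/
def Acts (D : Subgroup Q) (A : Q) (F : Finset Q) (π : Equiv.Perm F) (t : ℕ) (d : Q) : Prop :=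
  d ∈ D ∧ ∀ s : F, d * A ^ t * (s : Q) = (π s : Q) * A ^ t

theorem nrm_pow {D : Subgroup Q} {A : Q} (h : ∀ d ∈ D, A * d * A⁻¹ ∈ D) (t : ℕ) :
    ∀ d ∈ D, A ^ t * d * (A ^ t)⁻¹ ∈ D := by
  induction t with
  | zero => intro d hd; simpa using hd
  | succ t ih =>
    intro d hd
    have := h _ (ih d hd)
    have e1 : A ^ (t + 1) * d * (A ^ (t + 1))⁻¹ = A * (A ^ t * d * (A ^ t)⁻¹) * A⁻¹ := by
      rw [pow_succ']; group
    rw [e1]; exact this

theorem nrm_pow' {D : Subgroup Q} {A : Q} (h : ∀ d ∈ D, A⁻¹ * d * A ∈ D) (t : ℕ) :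
    ∀ d ∈ D, (A ^ t)⁻¹ * d * A ^ t ∈ D := by
  intro d hd
  have h2 := nrm_pow (A := A⁻¹) (fun d hd => by simpa using h d hd) t d hd
  simpa using h2

theorem Frt.cen_pow {D : Subgroup Q} {A : Q} {F : Finset Q} {e : ℕ} (hF : Frt D A F e) (k : ℕ) (x : Q) :
    x * A ^ (e * k) = A ^ (e * k) * x := by
  have h : Commute x (A ^ e) := hF.cen x
  rw [pow_mul]
  exact (h.pow_right k)

theorem Acts.mul {D : Subgroup Q} {A : Q} {F : Finset Q} {e : ℕ} (hF : Frt D A F e) {π π' : Equiv.Perm F}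
    {t t' : ℕ} {d d' : Q} (h : Acts D A F π t d) (h' : Acts D A F π' t' d') :
    Acts D A F (π * π') (t + t') (d * (A ^ t * d' * (A ^ t)⁻¹)) := by
  refine ⟨D.mul_mem h.1 (nrm_pow hF.nrm t d' h'.1), fun s => ?_⟩
  have h1 := h'.2 s
  have h2 := h.2 (π' s)
  show _ = ((π (π' s) : F) : Q) * _
  calc d * (A ^ t * d' * (A ^ t)⁻¹) * A ^ (t + t') * (s : Q)
      = d * A ^ t * (d' * A ^ t' * (s : Q)) := by rw [pow_add]; group
    _ = d * A ^ t * (π' s : Q) * A ^ t' := by rw [h1]; group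
    _ = _ := by rw [h2, pow_add]; group

theorem Acts.add {D : Subgroup Q} {A : Q} {F : Finset Q} {e : ℕ} (hF : Frt D A F e) {π : Equiv.Perm F}
    {t : ℕ} {d : Q} (h : Acts D A F π t d) (k : ℕ) : Acts D A F π (t + e * k) d := by
  refine ⟨h.1, fun s => ?_⟩
  rw [pow_add, ← mul_assoc d, mul_assoc (d * A ^ t), ← hF.cen_pow, ← mul_assoc, h.2 s, mul_assoc]

theorem Acts.sub {D : Subgroup Q} {A : Q} {F : Finset Q} {e : ℕ} (hF : Frt D A F e) {π : Equiv.Perm F}
    {t : ℕ} {d : Q} {k : ℕ} (h : Acts D A F π (t + e * k) d) : Acts D A F π t d := by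
  refine ⟨h.1, fun s => ?_⟩
  have h1 := h.2 s
  rw [pow_add, ← mul_assoc d, mul_assoc (d * A ^ t), ← hF.cen_pow, ← mul_assoc, ← mul_assoc] at h1
  exact mul_right_cancel h1

theorem Acts.shift {D : Subgroup Q} {A : Q} {F : Finset Q} {e : ℕ} (hF : Frt D A F e) {π : Equiv.Perm F}
    {t t' : ℕ} {d : Q} (h : Acts D A F π t d) (ht : (t : ZMod e) = (t' : ZMod e)) : Acts D A F π t' d := by
  have hm : t ≡ t' [MOD e] := (ZMod.natCast_eq_natCast_iff _ _ _).1 ht
  rcases le_total t t' with hle | hle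
  · obtain ⟨k, hk⟩ := (Nat.modEq_iff_dvd' hle).1 hm
    have : t' = t + e * k := by omega
    rw [this]; exact h.add hF k
  · obtain ⟨k, hk⟩ := (Nat.modEq_iff_dvd' hle).1 hm.symm
    have : t = t' + e * k := by omega
    rw [this] at h; exact h.sub hF

theorem Acts.inv {D : Subgroup Q} {A : Q} {F : Finset Q} {e : ℕ} (hF : Frt D A F e) {π : Equiv.Perm F}
    {t : ℕ} {d : Q} (h : Acts D A F π t d) : Acts D A F π⁻¹ ((e - 1) * t) ((A ^ t)⁻¹ * d⁻¹ * A ^ t) := by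
  refine ⟨nrm_pow' hF.nrm' t _ (D.inv_mem h.1), fun s => ?_⟩
  have h1 := h.2 (π⁻¹ s)
  have h0 : π (π⁻¹ s) = s := π.apply_symm_apply s
  rw [h0] at h1
  have h2 : ((π⁻¹ s : F) : Q) = (A ^ t)⁻¹ * d⁻¹ * (s : Q) * A ^ t := by
    have : ((π⁻¹ s : F) : Q) = (d * A ^ t)⁻¹ * ((s : Q) * A ^ t) := by rw [← h1]; group
    rw [this, mul_inv_rev]; group
  have h3 : (e - 1) * t + t = e * t := by
    obtain ⟨k, hk⟩ : ∃ k, e = k + 1 := ⟨e - 1, by have := hF.he; omega⟩
    rw [hk, Nat.add_sub_cancel]; ring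
  have h4 : A ^ t * A ^ ((e - 1) * t) = A ^ (e * t) := by rw [← pow_add, add_comm, h3]
  calc (A ^ t)⁻¹ * d⁻¹ * A ^ t * A ^ ((e - 1) * t) * (s : Q)
      = (A ^ t)⁻¹ * d⁻¹ * (A ^ (e * t) * (s : Q)) := by rw [← h4]; group
    _ = (A ^ t)⁻¹ * d⁻¹ * (s : Q) * A ^ (e * t) := by rw [← hF.cen_pow]; group
    _ = _ := by rw [h2, ← h4]; group

/-- The symmetry group of the frontier. -/
def Sy {D : Subgroup Q} {A : Q} {F : Finset Q} {e : ℕ} (hF : Frt D A F e) :
    Subgroup (Equiv.Perm F × Multiplicative (ZMod e)) where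
  carrier := {h | ∃ (t : ℕ) (d : Q), (t : ZMod e) = h.2.toAdd ∧ Acts D A F h.1 t d}
  mul_mem' := by
    rintro ⟨π, l⟩ ⟨π', l'⟩ ⟨t, d, h1, h2⟩ ⟨t', d', h1', h2'⟩
    exact ⟨t + t', _, by rw [Nat.cast_add, h1, h1']; rfl, h2.mul hF h2'⟩
  one_mem' := ⟨0, 1, by simp, D.one_mem, fun s => by simp⟩
  inv_mem' := by
    rintro ⟨π, l⟩ ⟨t, d, h1, h2⟩
    refine ⟨(e - 1) * t, _, ?_, h2.inv hF⟩
    have h1' : (t : ZMod e) = l.toAdd := h1
    have h3 : (((e - 1) * t + t : ℕ) : ZMod e) = 0 := by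
      have : (e - 1) * t + t = e * t := by
        obtain ⟨k, hk⟩ : ∃ k, e = k + 1 := ⟨e - 1, by have := hF.he; omega⟩
        rw [hk, Nat.add_sub_cancel]; ring
      rw [this, Nat.cast_mul, ZMod.natCast_self, zero_mul]
    rw [Nat.cast_add] at h3
    rw [eq_neg_of_add_eq_zero_left h3, h1']
    rfl

section sy

variable {D : Subgroup Q} {A : Q} {F : Finset Q} {e : ℕ} {hF : Frt D A F e}

instance : MulAction (Sy hF) F where
  smul h s := h.1.1 s
  one_smul _ := rfl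
  mul_smul _ _ _ := rfl

/-- The level. -/
def lv (h : Sy hF) : ZMod e := h.1.2.toAdd

theorem lv_mul (h k : Sy hF) : lv (h * k) = lv h + lv k := rfl

theorem lv_one : lv (1 : Sy hF) = 0 := rfl

theorem exists_d (h : Sy hF) (t : ℕ) (ht : (t : ZMod e) = lv h) : ∃ d, Acts D A F h.1.1 t d := by
  obtain ⟨t', d, h1, h2⟩ := h.2
  exact ⟨d, h2.shift hF (h1.trans ht.symm)⟩

open Classical in
/-- The element of `D A ^ t` that belongs to `h`. -/
noncomputable def uu (h : Sy hF) (t : ℕ) : Q :=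
  if ht : (t : ZMod e) = lv h then (exists_d h t ht).choose * A ^ t else 1

theorem uu_spec (h : Sy hF) (t : ℕ) (ht : (t : ZMod e) = lv h) (s : F) :
    uu h t * (s : Q) = ((h • s : F) : Q) * A ^ t := by
  unfold uu
  rw [dif_pos ht]
  exact (exists_d h t ht).choose_spec.2 s

theorem uu_mem (h : Sy hF) (t : ℕ) (ht : (t : ZMod e) = lv h) : ∃ d ∈ D, uu h t = d * A ^ t := by
  unfold uu
  rw [dif_pos ht]
  exact ⟨_, (exists_d h t ht).choose_spec.1, rfl⟩

theorem uu_inv (h : Sy hF) (t : ℕ) (ht : (t : ZMod e) = lv h) (s : F) :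
    (uu h t)⁻¹ * ((s : Q) * A ^ t) = ((h⁻¹ • s : F) : Q) := by
  rw [inv_mul_eq_iff_eq_mul, uu_spec h t ht, smul_inv_smul]

end sy

/-- Rungs: type and symmetry. -/
structure Rg (ι G : Type) where
  i : ι
  h : G

/-- Rungs as pairs. -/
def Rg.equiv (ι G : Type) : ι × G ≃ Rg ι G where
  toFun p := ⟨p.1, p.2⟩
  invFun r := (r.i, r.h)
  left_inv _ := rfl
  right_inv _ := rfl

instance {ι G : Type} [Finite ι] [Finite G] : Finite (Rg ι G) := Finite.of_equiv _ (Rg.equiv ι G)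

noncomputable instance {ι G : Type} [Finite ι] [Finite G] : Fintype (Rg ι G) := Fintype.ofFinite _

variable [DecidableEq Q]

/-- A base gadget: the cup rung joins the strands `x` and `y` (at level `0`), the cap rung is its translate by `δ`. -/
structure BGad {a : B.L} {D : Subgroup Q} {F : Finset Q} {e : ℕ} (hF : Frt D (B.q a) F e) where
  x : F
  y : F
  ne : x ≠ y
  δ : Sy hF
  T : Equiv.Perm F
  Tx : T x = δ • x
  Ty : T y = δ • y
  H : ℕ
  X : TW B
  L₀ : X.L₀ = F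
  L₁ : X.L₁ = rt F (B.q a ^ H)
  u₀ : X.u₀ = x
  u₁ : X.u₁ = y
  w₀ : X.w₀ = ((δ • x : F) : Q) * B.q a ^ H
  w₁ : X.w₁ = ((δ • y : F) : Q) * B.q a ^ H
  f : ∀ s : F, s ≠ x → s ≠ y → X.f s = (T s : Q) * B.q a ^ H
  reg : X.R = ∑ i ∈ Finset.range H, (rt F (B.q a ^ i)).val

section big

variable {a : B.L} {D : Subgroup Q} {F : Finset Q} {e : ℕ} {hF : Frt D (B.q a) F e} {ι : Type}
  (G : ι → BGad hF)

/-- The big puzzle. -/
def bigP : Puz F (Rg ι (Sy hF)) where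
  x r := r.h • (G r.i).x
  y r := r.h • (G r.i).y
  ne r h := (G r.i).ne (smul_left_cancel _ h)
  tau :=
    { toFun := fun r => ⟨r.i, r.h * (G r.i).δ⟩
      invFun := fun r => ⟨r.i, r.h * (G r.i).δ⁻¹⟩
      left_inv := fun r => by simp
      right_inv := fun r => by simp }
  T r :=
    { toFun := fun s => r.h • (G r.i).T (r.h⁻¹ • s)
      invFun := fun s => r.h • (G r.i).T.symm (r.h⁻¹ • s)
      left_inv := fun s => by simp
      right_inv := fun s => by simp }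
  T_ends r := by
    left
    constructor
    · show r.h • (G r.i).T (r.h⁻¹ • r.h • (G r.i).x) = (r.h * (G r.i).δ) • (G r.i).x
      rw [inv_smul_smul, (G r.i).Tx, mul_smul]
    · show r.h • (G r.i).T (r.h⁻¹ • r.h • (G r.i).y) = (r.h * (G r.i).δ) • (G r.i).y
      rw [inv_smul_smul, (G r.i).Ty, mul_smul]

omit [DecidableEq Q] in
theorem lt_F (h : Sy hF) (t : ℕ) (ht : (t : ZMod e) = lv h) (n : ℕ) :
    lt (uu h t) (rt F (B.q a ^ n)) =
      Finset.univ.map ⟨fun s : F => (s : Q) * B.q a ^ (t + n), fun _ _ h => Subtype.ext (mul_right_cancel h)⟩ := by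
  ext z
  rw [mem_lt, mem_rt, Finset.mem_map]
  constructor
  · intro hz
    refine ⟨h • ⟨_, hz⟩, Finset.mem_univ _, ?_⟩
    show ((h • (⟨_, hz⟩ : F) : F) : Q) * B.q a ^ (t + n) = z
    rw [pow_add, ← mul_assoc, ← uu_spec h t ht]
    show uu h t * ((uu h t)⁻¹ * z * (B.q a ^ n)⁻¹) * B.q a ^ n = z
    group
  · rintro ⟨s, _, rfl⟩
    show (uu h t)⁻¹ * ((s : Q) * B.q a ^ (t + n)) * (B.q a ^ n)⁻¹ ∈ F
    rw [pow_add, ← mul_assoc, ← mul_assoc, mul_assoc _ (s : Q), uu_inv h t ht, mul_inv_cancel_right]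
    exact (h⁻¹ • s : F).2

theorem lv_lev {e : ℕ} [NeZero e] {t : ℕ} {l : ZMod e} (h : t % e = l.val) : (t : ZMod e) = l := by
  rw [← ZMod.natCast_mod, h, ZMod.natCast_zmod_val]

/-- The realisation of the big puzzle. -/
noncomputable def bigZ : Real (bigP G) B a where
  g := Subtype.val
  inj := Subtype.val_injective
  e := e
  he := hF.he
  lev r := (lv r.h).val
  lev_lt r := by have : NeZero e := ⟨hF.he.ne'⟩; exact ZMod.val_lt _
  H r := (G r.i).H
  gad r t := ((G r.i).X).tr (uu r.h t)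
  L₀ r t ht := by
    have : NeZero e := ⟨hF.he.ne'⟩
    have h1 := lt_F r.h t (lv_lev ht) 0
    rw [pow_zero, add_zero] at h1
    show lt (uu r.h t) (G r.i).X.L₀ = _
    rw [(G r.i).L₀, ← h1]
    congr 1
    ext x
    rw [mem_rt, inv_one, mul_one]
  L₁ r t ht := by
    have : NeZero e := ⟨hF.he.ne'⟩
    show lt (uu r.h t) (G r.i).X.L₁ = _
    rw [(G r.i).L₁, lt_F r.h t (lv_lev ht)]
  u₀ r t ht := by
    have : NeZero e := ⟨hF.he.ne'⟩
    show uu r.h t * (G r.i).X.u₀ = _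
    rw [(G r.i).u₀, uu_spec r.h t (lv_lev ht)]; rfl
  u₁ r t ht := by
    have : NeZero e := ⟨hF.he.ne'⟩
    show uu r.h t * (G r.i).X.u₁ = _
    rw [(G r.i).u₁, uu_spec r.h t (lv_lev ht)]; rfl
  w₀ r t ht := by
    have : NeZero e := ⟨hF.he.ne'⟩
    show uu r.h t * (G r.i).X.w₀ = _
    rw [(G r.i).w₀, ← mul_assoc, uu_spec r.h t (lv_lev ht), pow_add, ← mul_assoc, ← mul_smul]; rfl
  w₁ r t ht := by
    have : NeZero e := ⟨hF.he.ne'⟩
    show uu r.h t * (G r.i).X.w₁ = _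
    rw [(G r.i).w₁, ← mul_assoc, uu_spec r.h t (lv_lev ht), pow_add, ← mul_assoc, ← mul_smul]; rfl
  f r t ht s hs := by
    have : NeZero e := ⟨hF.he.ne'⟩
    show uu r.h t * (G r.i).X.f ((uu r.h t)⁻¹ * ((s : Q) * B.q a ^ t)) = _
    rw [uu_inv r.h t (lv_lev ht), (G r.i).f, ← mul_assoc, uu_spec r.h t (lv_lev ht), pow_add, ← mul_assoc]
    · rfl
    · intro h0
      apply hs
      left
      show s = r.h • (G r.i).x
      rw [← h0, smul_inv_smul]
    · intro h0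
      apply hs
      right
      show s = r.h • (G r.i).y
      rw [← h0, smul_inv_smul]
  reg r t ht := by
    have : NeZero e := ⟨hF.he.ne'⟩
    rw [TW.tr_R, (G r.i).reg, ← Multiset.coe_mapAddMonoidHom, map_sum, Finset.sum_Ico_eq_sum_range,
      Nat.add_sub_cancel_left]
    refine Finset.sum_congr rfl fun n _ => ?_
    rw [← lt_F r.h t (lv_lev ht) n]
    rfl

/-! ### Homogeneity -/

/-- Translation of rungs. -/
def trR (k : Sy hF) (r : Rg ι (Sy hF)) : Rg ι (Sy hF) := ⟨r.i, k * r.h⟩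

theorem on_tr (k : Sy hF) (r : Rg ι (Sy hF)) (s : F) : (bigP G).On (trR k r) (k • s) ↔ (bigP G).On r s := by
  have h1 : (bigP G).x (trR k r) = k • (bigP G).x r := mul_smul _ _ _
  have h2 : (bigP G).y (trR k r) = k • (bigP G).y r := mul_smul _ _ _
  unfold Puz.On
  rw [h1, h2, smul_left_cancel_iff, smul_left_cancel_iff]

theorem oth_tr (k : Sy hF) (r : Rg ι (Sy hF)) (s : F) :
    (bigP G).oth (trR k r) (k • s) = k • (bigP G).oth r s := by
  have h1 : (bigP G).x (trR k r) = k • (bigP G).x r := mul_smul _ _ _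
  have h2 : (bigP G).y (trR k r) = k • (bigP G).y r := mul_smul _ _ _
  unfold Puz.oth
  rw [h1, h2]
  by_cases h : s = (bigP G).x r
  · rw [if_pos h, if_pos (by rw [h])]
  · rw [if_neg h, if_neg (fun h' => h (smul_left_cancel _ h'))]

theorem adj_tr (k : Sy hF) (r r' : Rg ι (Sy hF)) (s : F) :
    (bigP G).Adj (trR k r) (trR k r') (k • s) ↔ (bigP G).Adj r r' s := by
  unfold Puz.Adj
  rw [on_tr, on_tr, oth_tr, oth_tr, Ne, smul_left_cancel_iff]

/-- HOM. -/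
theorem bigHom [Fintype (Rg ι (Sy hF))] : (bigP G).Hom := by
  intro r
  have ht : (bigP G).tau r = trR (r.h * (G r.i).δ * r.h⁻¹) r := by
    show (⟨r.i, r.h * (G r.i).δ⟩ : Rg ι (Sy hF)) = ⟨r.i, _⟩
    rw [inv_mul_cancel_right]
  set k := r.h * (G r.i).δ * r.h⁻¹ with hk
  rw [ht]
  have : {p : Rg ι (Sy hF) × F | (bigP G).Adj (trR k r) p.1 p.2} =
      (fun p : Rg ι (Sy hF) × F => (trR k p.1, k • p.2)) '' {p | (bigP G).Adj r p.1 p.2} := by
    ext ⟨r', s⟩
    constructor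
    · intro h
      refine ⟨(trR k⁻¹ r', k⁻¹ • s), ?_, ?_⟩
      · show (bigP G).Adj r (trR k⁻¹ r') (k⁻¹ • s)
        rw [← adj_tr G k, smul_inv_smul]
        have : trR k (trR k⁻¹ r') = r' := by
          show (⟨r'.i, k * (k⁻¹ * r'.h)⟩ : Rg ι (Sy hF)) = r'
          rw [mul_inv_cancel_left]
        rw [this]; exact h
      · show (trR k (trR k⁻¹ r'), k • k⁻¹ • s) = (r', s)
        rw [smul_inv_smul]
        have : trR k (trR k⁻¹ r') = r' := by
          show (⟨r'.i, k * (k⁻¹ * r'.h)⟩ : Rg ι (Sy hF)) = r'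
          rw [mul_inv_cancel_left]
        rw [this]
    · rintro ⟨⟨r₁, s₁⟩, h1, h2⟩
      have h3 : trR k r₁ = r' := congrArg Prod.fst h2
      have h4 : k • s₁ = s := congrArg Prod.snd h2
      rw [← h3, ← h4]
      exact (adj_tr G k r r₁ s₁).2 h1
  rw [this, Set.ncard_image_of_injective]
  rintro ⟨r₁, s₁⟩ ⟨r₂, s₂⟩ h
  have h3 : trR k r₁ = trR k r₂ := congrArg Prod.fst h
  have h4 : k • s₁ = k • s₂ := congrArg Prod.snd h
  have h5 : r₁.i = r₂.i := congrArg (fun r => r.i) h3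
  have h6 : k * r₁.h = k * r₂.h := congrArg (fun r => r.h) h3
  have h7 : r₁ = r₂ := by
    cases r₁; cases r₂
    simp only at h5 h6
    rw [h5, mul_left_cancel h6]
  rw [h7, smul_left_cancel k h4]

/-! ### Volumes -/

section vols

variable {R : Type} [CommRing R] (V : Vd B R)

/-- The character of the symmetry group. -/
noncomputable def Xc (h : Sy hF) : R := V.chi (uu h (lv h).val)

omit [DecidableEq Q] in
theorem uu_eq (h : Sy hF) (t : ℕ) (ht : (t : ZMod e) = lv h) (s : F) :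
    uu h t = ((h • s : F) : Q) * B.q a ^ t * (s : Q)⁻¹ := by
  rw [← uu_spec h t ht s, mul_inv_cancel_right]

theorem pow_mod {M : Type*} [Monoid M] {α : M} {e : ℕ} (h : α ^ e = 1) (t : ℕ) : α ^ t = α ^ (t % e) := by
  conv_lhs => rw [← Nat.div_add_mod t e, pow_add, pow_mul, h, one_pow, one_mul]

omit [DecidableEq Q] in
theorem Xc_eq (hal : V.chi (B.q a) ^ e = 1) (s : F) (h : Sy hF) (t : ℕ) (ht : (t : ZMod e) = lv h) :
    V.chi (uu h t) = Xc V h := by
  have : NeZero e := ⟨hF.he.ne'⟩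
  have h1 : (((lv h).val : ℕ) : ZMod e) = lv h := ZMod.natCast_zmod_val _
  have h2 : t % e = (lv h).val % e :=
    (ZMod.natCast_eq_natCast_iff t (lv h).val e).1 (ht.trans h1.symm)
  unfold Xc
  rw [uu_eq h t ht s, uu_eq h _ h1 s, map_mul, map_mul, map_mul, map_mul, map_pow, map_pow, pow_mod hal t, h2,
    ← pow_mod hal]

omit [DecidableEq Q] in
theorem Xc_mul (hal : V.chi (B.q a) ^ e = 1) (s : F) (h k : Sy hF) : Xc V (h * k) = Xc V h * Xc V k := by
  have : NeZero e := ⟨hF.he.ne'⟩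
  have h1 : (((lv h).val : ℕ) : ZMod e) = lv h := ZMod.natCast_zmod_val _
  have h2 : (((lv k).val : ℕ) : ZMod e) = lv k := ZMod.natCast_zmod_val _
  have h3 : (((lv h).val + (lv k).val : ℕ) : ZMod e) = lv (h * k) := by rw [Nat.cast_add, h1, h2]; rfl
  rw [← Xc_eq V hal s (h * k) _ h3, ← Xc_eq V hal s h _ h1, ← Xc_eq V hal s k _ h2, ← map_mul]
  congr 1
  rw [uu_eq _ _ h3 s, uu_eq _ _ h1 (k • s), uu_eq _ _ h2 s, mul_smul, pow_add]
  group

/-- VOLS. -/
theorem bigVols (hal : V.chi (B.q a) ^ e = 1) :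
    Vols (bigZ G) V (fun r => Xc V r.h * V.vol (G r.i).x (G r.i).X.cup)
      (fun r => Xc V r.h * V.vol (G r.i).X.w₀ (G r.i).X.cap)
      (fun r s => Xc V r.h * V.vol ((r.h⁻¹ • s : F) : Q) ((G r.i).X.path ((r.h⁻¹ • s : F) : Q))) := by
  have : NeZero e := ⟨hF.he.ne'⟩
  refine ⟨hal, fun r t ht => ?_, fun r t ht => ?_, fun r t ht s hs => ?_⟩
  · have ht' : (t : ZMod e) = lv r.h := lv_lev ht
    have h1 : (bigZ G).vt ((bigP G).x r) t = uu r.h t * (G r.i).x := (uu_spec r.h t ht' _).symm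
    rw [h1]
    show V.vol (uu r.h t * (G r.i).x) (G r.i).X.cup = _
    rw [vol_tr, Xc_eq V hal (G r.i).x _ _ ht']
  · have ht' : (t : ZMod e) = lv r.h := lv_lev ht
    show V.vol (uu r.h t * (G r.i).X.w₀) (G r.i).X.cap = _
    rw [vol_tr, Xc_eq V hal (G r.i).x _ _ ht']
  · have ht' : (t : ZMod e) = lv r.h := lv_lev ht
    show V.vol ((s : Q) * B.q a ^ t) ((G r.i).X.path ((uu r.h t)⁻¹ * ((s : Q) * B.q a ^ t))) = _
    rw [uu_inv r.h t ht']
    have h1 : (s : Q) * B.q a ^ t = uu r.h t * ((r.h⁻¹ • s : F) : Q) := by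
      rw [uu_spec r.h t ht', smul_inv_smul]
    rw [h1, vol_tr, Xc_eq V hal (G r.i).x _ _ ht']

/-- In the gauge `n a = 0` the caps have the voltages of the rungs. -/
theorem big_ca (hal : V.chi (B.q a) ^ e = 1)
    (hc : ∀ i, V.vol (G i).X.w₀ (G i).X.cap = Xc V (G i).δ * V.vol (G i).x (G i).X.cup)
    (r : Rg ι (Sy hF)) :
    Xc V r.h * V.vol (G r.i).X.w₀ (G r.i).X.cap =
      Xc V ((bigP G).tau r).h * V.vol (G ((bigP G).tau r).i).x (G ((bigP G).tau r).i).X.cup := by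
  have h1 : ((bigP G).tau r).i = r.i := rfl
  have h2 : Xc V ((bigP G).tau r).h = Xc V r.h * Xc V (G r.i).δ := Xc_mul V hal (G r.i).x _ _
  rw [h2, hc, mul_assoc]
  rfl

end vols

end big

end Pool.Agent.Lib.MP_688fd0_co.SQ2
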