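import Pool.Agent.Lib.MP_688fd0_co.SQ2.V.RealDefs
import Pool.Agent.Lib.MP_688fd0_co.SQ2.Iface

/-!
Short powers: `b = a ^ c`. A run of `c + 1` labels `a` in the path of a token can be replaced by
`b, a⁻¹, .., a⁻¹, b` (`c - 1` labels `a⁻¹`): the same vertices in another order.
-/

set_option autoImplicit false

namespace Pool.Agent.Lib.MP_688fd0_co.SQ2

open Pool.Agent.Lib.MP_688fd0_co.OSF
open V (Puz)

universe u v w

/-! ### Another path of one token -/

namespace TW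

variable {Q : Type u} [Group Q] [DecidableEq Q] {B : Lb.{u, v} Q}

/-- Another path for the token `x₁`. -/
def repl (X : TW B) (x₁ : Q) (l : List B.L) (h : B.fin x₁ l = B.fin x₁ (X.path x₁)) : TW B where
  L₀ := X.L₀
  L₁ := X.L₁
  u₀ := X.u₀
  u₁ := X.u₁
  w₀ := X.w₀
  w₁ := X.w₁
  cup := X.cup
  cap := X.cap
  f := X.f
  path := fun x => if x = x₁ then l else X.path x
  hu₀ := X.hu₀
  hu₁ := X.hu₁
  hu := X.hu
  hw₀ := X.hw₀
  hw₁ := X.hw₁
  hw := X.hw
  cup_fin := X.cup_fin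
  cap_fin := X.cap_fin
  path_fin := fun x h0 h1 h2 => by
    by_cases hx : x = x₁
    · rw [if_pos hx, hx, h, ← hx]; exact X.path_fin x h0 h1 h2
    · rw [if_neg hx]; exact X.path_fin x h0 h1 h2
  f_mem := X.f_mem
  f_inj := X.f_inj
  f_surj := X.f_surj

theorem repl_path (X : TW B) (x₁ : Q) (l : List B.L) (h : B.fin x₁ l = B.fin x₁ (X.path x₁)) :
    (X.repl x₁ l h).path x₁ = l := if_pos rfl

theorem repl_path_ne (X : TW B) {x₁ : Q} {l : List B.L} (h : B.fin x₁ l = B.fin x₁ (X.path x₁)) {x : Q}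
    (hx : x ≠ x₁) : (X.repl x₁ l h).path x = X.path x := if_neg hx

theorem repl_R (X : TW B) (x₁ : Q) (l : List B.L) (h : B.fin x₁ l = B.fin x₁ (X.path x₁))
    (hs : (src B x₁ l : Multiset Q) = (src B x₁ (X.path x₁) : Multiset Q)) : (X.repl x₁ l h).R = X.R := by
  have e : (X.repl x₁ l h).R = ∑ x ∈ X.tok₀, (src B x (if x = x₁ then l else X.path x) : Multiset Q) +
      (B.verts X.u₀ X.cup : Multiset Q) + ((src B X.w₀ X.cap).tail : Multiset Q) := rfl
  rw [e]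
  unfold R
  congr 2
  refine Finset.sum_congr rfl fun x _ => ?_
  by_cases hx : x = x₁
  · rw [if_pos hx, hx, hs]
  · rw [if_neg hx]

/-- The other path does not change flat windows. -/
theorem repl_ver {a : B.L} {X : TW B} {n : ℕ} {xs : Q} (hX : Flat a X n xs) (x₁ : Q) (l : List B.L)
    (h : B.fin x₁ l = B.fin x₁ (X.path x₁))
    (hs : (src B x₁ l : Multiset Q) = (src B x₁ (X.path x₁) : Multiset Q)) :
    Ver a X (X.repl x₁ l h) n xs := by
  refine ⟨hX, ⟨hX.pos, hX.top, ?_, hX.xs_mem, hX.w₀, hX.w₁, hX.f_xs, hX.f⟩, rfl, rfl, rfl, rfl, rfl⟩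
  rw [repl_R X x₁ l h hs]; exact hX.reg

/-- The change of volume. -/
theorem repl_dvol {F : Type w} [CommRing F] (V : Vd B F) (d : Q → Bool) (X : TW B) {x₁ : Q} (hx : x₁ ∈ X.tok₀)
    (l : List B.L) (h : B.fin x₁ l = B.fin x₁ (X.path x₁)) :
    dvol V d X (X.repl x₁ l h) = (if d x₁ then 1 else -1) * (V.vol x₁ l - V.vol x₁ (X.path x₁)) := by
  unfold dvol
  rw [Finset.sum_eq_single x₁]
  · rw [repl_path]
  · intro x _ hne
    rw [repl_path_ne X h hne, sub_self, mul_zero]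
  · intro hn; exact absurd hx hn

/-- Extended flat windows are flat. -/
theorem flat_extn {a : B.L} {X : TW B} {n : ℕ} {xs : Q} (hX : Flat a X n xs) (m : ℕ) :
    Flat a (X.extn a m) (n + m) xs := by
  induction m with
  | zero => exact hX
  | succ m ih =>
    refine ⟨by have := hX.pos; omega, ?_, ?_, ih.xs_mem, ?_, ?_, ?_, ?_⟩
    · show rt (X.extn a m).L₁ (B.q a) = rt (X.extn a m).L₀ (B.q a ^ (n + (m + 1)))
      rw [ih.top, ← rt_mul, ← pow_succ]; rfl
    · show ((X.extn a m).ext a).R = ∑ i ∈ Finset.range (n + (m + 1)), (rt (X.extn a m).L₀ (B.q a ^ i)).val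
      rw [ext_R, ih.reg, ih.top, ← add_assoc, Finset.sum_range_succ]
    · show (X.extn a m).w₀ * B.q a = (X.extn a m).u₁ * B.q a ^ (n + (m + 1))
      rw [ih.w₀, mul_assoc, ← pow_succ]; rfl
    · show (X.extn a m).w₁ * B.q a = xs * B.q a ^ (n + (m + 1))
      rw [ih.w₁, mul_assoc, ← pow_succ]; rfl
    · show (X.extn a m).f xs * B.q a = (X.extn a m).u₀ * B.q a ^ (n + (m + 1))
      rw [ih.f_xs, mul_assoc, ← pow_succ]; rfl
    · intro x hx hne
      show (X.extn a m).f x * B.q a = x * B.q a ^ (n + (m + 1))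
      rw [ih.f x hx hne, mul_assoc, ← pow_succ]; rfl

end TW

/-! ### The short power -/

section zig

variable {Q : Type u} [Group Q] {B : Lb.{u, v} Q}

/-- `b, a⁻¹, .., a⁻¹, b`. -/
def zig (a b : B.L) (c : ℕ) : List B.L := [b] ++ (List.replicate (c - 1) (B.inv a) ++ [b])

theorem fin_replicate (a : B.L) (x : Q) (k : ℕ) : B.fin x (List.replicate k a) = x * B.q a ^ k := by
  induction k generalizing x with
  | zero => rw [pow_zero, mul_one]; rfl
  | succ k ih =>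
    rw [List.replicate_succ]
    show B.fin (x * B.q a) (List.replicate k a) = _
    rw [ih, pow_succ', mul_assoc]

theorem vol_replicate {F : Type w} [CommRing F] (V : Vd B F) (a : B.L) (x : Q) (k : ℕ) :
    V.vol x (List.replicate k a) = V.chi x * ((∑ i ∈ Finset.range k, V.chi (B.q a) ^ i) * V.n a) := by
  induction k with
  | zero => show (0 : F) = _; rw [Finset.range_zero, Finset.sum_empty, zero_mul, mul_zero]
  | succ k ih =>
    rw [List.replicate_succ', vol_append, ih, fin_replicate, Finset.sum_range_succ]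
    show _ + (V.chi (x * B.q a ^ k) * V.n a + 0) = _
    rw [map_mul, map_pow]; ring

theorem rev_replicate (a : B.L) (k : ℕ) : B.rev (List.replicate k a) = List.replicate k (B.inv a) := by
  simp [Lb.rev]

variable {a b : B.L} {c : ℕ}

theorem zig_fin (hc : 0 < c) (hb : B.q b = B.q a ^ c) (y : Q) :
    B.fin y (zig a b c) = B.fin y (List.replicate (c + 1) a) := by
  obtain ⟨c, rfl⟩ : ∃ k, c = k + 1 := ⟨c - 1, by omega⟩
  unfold zig
  rw [Nat.add_sub_cancel, fin_replicate, fin_append, fin_append, fin_replicate]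
  show y * B.q b * B.q (B.inv a) ^ c * B.q b = _
  rw [B.q_inv, hb, pow_succ (B.q a) (c + 1)]
  group

theorem zig_src (hc : 0 < c) (hb : B.q b = B.q a ^ c) (y : Q) :
    (src B y (zig a b c) : Multiset Q) = (src B y (List.replicate (c + 1) a) : Multiset Q) := by
  obtain ⟨c, rfl⟩ : ∃ k, c = k + 1 := ⟨c - 1, by omega⟩
  have e0 : y * B.q b = B.fin (y * B.q a) (List.replicate c a) := by
    rw [fin_replicate, hb, pow_succ', mul_assoc]
  have e1 : src B y (zig a b (c + 1)) = y :: (B.verts (y * B.q a) (List.replicate c a)).reverse := by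
    unfold zig
    rw [Nat.add_sub_cancel]
    show y :: src B (y * B.q b) (List.replicate c (B.inv a) ++ [b]) = _
    rw [src_append, ← rev_replicate, e0, ← verts_rev, verts_eq, fin_rev]
    rfl
  have e2 : src B y (List.replicate (c + 1 + 1) a) = y :: B.verts (y * B.q a) (List.replicate c a) := by
    rw [List.replicate_succ]
    show y :: src B (y * B.q a) (List.replicate (c + 1) a) = _
    rw [List.replicate_succ', src_append, verts_eq]
    rfl
  rw [e1, e2, ← Multiset.cons_coe, ← Multiset.cons_coe, Multiset.coe_reverse]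

theorem zig_vol {F : Type w} [CommRing F] (V : Vd B F) (hc : 0 < c) (hb : B.q b = B.q a ^ c) (y : Q) :
    V.vol y (zig a b c) = V.vol y (List.replicate (c + 1) a) + V.chi y * ((1 + V.chi (B.q a)) *
      (V.n b - (∑ i ∈ Finset.range c, V.chi (B.q a) ^ i) * V.n a)) := by
  obtain ⟨c, rfl⟩ : ∃ k, c = k + 1 := ⟨c - 1, by omega⟩
  have e0 : y * B.q b = B.fin (y * B.q a) (List.replicate c a) := by
    rw [fin_replicate, hb, pow_succ', mul_assoc]
  have e1 : V.vol y (zig a b (c + 1)) = V.chi y * V.n b + (-V.vol (y * B.q a) (List.replicate c a) +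
      V.chi (y * B.q a) * V.n b) := by
    unfold zig
    rw [Nat.add_sub_cancel]
    show V.chi y * V.n b + V.vol (y * B.q b) (List.replicate c (B.inv a) ++ [b]) = _
    rw [vol_append, ← rev_replicate, e0, fin_rev, vol_rev]
    show _ + (_ + (V.chi (y * B.q a) * V.n b + 0)) = _
    rw [add_zero]
  rw [e1, vol_replicate, vol_replicate, map_mul]
  have g1 : (∑ i ∈ Finset.range (c + 1), V.chi (B.q a) ^ i) = (∑ i ∈ Finset.range c, V.chi (B.q a) ^ i) +
      V.chi (B.q a) ^ c := Finset.sum_range_succ _ _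
  have g2 : (∑ i ∈ Finset.range (c + 1 + 1), V.chi (B.q a) ^ i) =
      V.chi (B.q a) * (∑ i ∈ Finset.range (c + 1), V.chi (B.q a) ^ i) + 1 := by
    rw [Finset.sum_range_succ', pow_zero, Finset.mul_sum]
    congr 1
    exact Finset.sum_congr rfl fun i _ => pow_succ' _ _
  have g3 : (∑ i ∈ Finset.range (c + 1), V.chi (B.q a) ^ i) =
      V.chi (B.q a) * (∑ i ∈ Finset.range c, V.chi (B.q a) ^ i) + 1 := by
    rw [Finset.sum_range_succ', pow_zero, Finset.mul_sum]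
    congr 1
    exact Finset.sum_congr rfl fun i _ => pow_succ' _ _
  rw [g2]
  linear_combination (V.chi y * V.n a) * g3

end zig

section zigAt

variable {Q : Type u} [Group Q] [DecidableEq Q] {B : Lb.{u, v} Q} {a b : B.L} {c : ℕ}

omit [DecidableEq Q] in
theorem zigAt_fin (hc : 0 < c) (hb : B.q b = B.q a ^ c) (x : Q) (p q : List B.L) :
    B.fin x (p ++ (zig a b c ++ q)) = B.fin x (p ++ (List.replicate (c + 1) a ++ q)) := by
  rw [fin_append, fin_append, fin_append, fin_append, zig_fin hc hb]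

omit [DecidableEq Q] in
theorem zigAt_src (hc : 0 < c) (hb : B.q b = B.q a ^ c) (x : Q) (p q : List B.L) :
    (src B x (p ++ (zig a b c ++ q)) : Multiset Q) =
      (src B x (p ++ (List.replicate (c + 1) a ++ q)) : Multiset Q) := by
  rw [src_append, src_append, src_append, src_append, zig_fin hc hb, ← Multiset.coe_add, ← Multiset.coe_add,
    ← Multiset.coe_add, ← Multiset.coe_add, zig_src hc hb]

omit [DecidableEq Q] in
theorem zigAt_vol {F : Type w} [CommRing F] (V : Vd B F) (hc : 0 < c) (hb : B.q b = B.q a ^ c) (x : Q)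
    (p q : List B.L) :
    V.vol x (p ++ (zig a b c ++ q)) = V.vol x (p ++ (List.replicate (c + 1) a ++ q)) +
      V.chi (B.fin x p) * ((1 + V.chi (B.q a)) *
        (V.n b - (∑ i ∈ Finset.range c, V.chi (B.q a) ^ i) * V.n a)) := by
  rw [vol_append, vol_append, vol_append, vol_append, zig_fin hc hb, zig_vol V hc hb]
  ring

/-- A run of `c + 1` labels `a` in the path of the token `x` is replaced. -/
theorem zigAt (X : TW B) (hc : 0 < c) (hb : B.q b = B.q a ^ c) {x : Q} {p q : List B.L}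
    (hp : X.path x = p ++ (List.replicate (c + 1) a ++ q)) :
    ∃ X' : TW B, X'.L₀ = X.L₀ ∧ X'.L₁ = X.L₁ ∧ X'.u₀ = X.u₀ ∧ X'.u₁ = X.u₁ ∧ X'.w₀ = X.w₀ ∧ X'.w₁ = X.w₁ ∧
      X'.cup = X.cup ∧ X'.cap = X.cap ∧ X'.f = X.f ∧ X'.R = X.R ∧ (∀ y, y ≠ x → X'.path y = X.path y) ∧
      X'.path x = p ++ (zig a b c ++ q) ∧
      (∀ {F : Type w} [CommRing F] (V : Vd B F), V.vol x (X'.path x) = V.vol x (X.path x) +
        V.chi (B.fin x p) * ((1 + V.chi (B.q a)) *
          (V.n b - (∑ i ∈ Finset.range c, V.chi (B.q a) ^ i) * V.n a))) ∧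
      (∀ {F : Type w} [CommRing F] (V : Vd B F) (d : Q → Bool), x ∈ X.tok₀ → dvol V d X X' =
        (if d x then 1 else -1) * (V.chi (B.fin x p) * ((1 + V.chi (B.q a)) *
          (V.n b - (∑ i ∈ Finset.range c, V.chi (B.q a) ^ i) * V.n a)))) ∧
      ∀ (n : ℕ) (xs : Q), Flat a X n xs → Ver a X X' n xs := by
  have hf : B.fin x (p ++ (zig a b c ++ q)) = B.fin x (X.path x) := by rw [hp]; exact zigAt_fin hc hb x p q
  have hs : (src B x (p ++ (zig a b c ++ q)) : Multiset Q) = (src B x (X.path x) : Multiset Q) := by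
    rw [hp]; exact zigAt_src hc hb x p q
  refine ⟨X.repl x _ hf, rfl, rfl, rfl, rfl, rfl, rfl, rfl, rfl, rfl, X.repl_R x _ hf hs,
    fun y hy => X.repl_path_ne hf hy, X.repl_path x _ hf, ?_, ?_, fun n xs h => TW.repl_ver h x _ hf hs⟩
  · intro F _ V
    rw [X.repl_path x _ hf, hp]; exact zigAt_vol V hc hb x p q
  · intro F _ V d hx
    rw [TW.repl_dvol V d X hx _ hf, hp, zigAt_vol V hc hb x p q]
    ring

/-- The last `c + 1` labels of an extended window. -/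
theorem zig_extn (X : TW B) (hc : 0 < c) (hb : B.q b = B.q a ^ c) {x : Q} (hx : x ∈ X.tok₀) :
    ∃ X' : TW B, X'.L₀ = X.L₀ ∧ X'.L₁ = (X.extn a (c + 1)).L₁ ∧ X'.u₀ = X.u₀ ∧ X'.u₁ = X.u₁ ∧
      X'.w₀ = (X.extn a (c + 1)).w₀ ∧ X'.w₁ = (X.extn a (c + 1)).w₁ ∧ X'.cup = X.cup ∧
      X'.cap = (X.extn a (c + 1)).cap ∧ X'.f = (X.extn a (c + 1)).f ∧ X'.R = (X.extn a (c + 1)).R ∧
      (∀ y, y ≠ x → X'.path y = (X.extn a (c + 1)).path y) ∧ X'.path x = X.path x ++ zig a b c ∧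
      (∀ {F : Type w} [CommRing F] (V : Vd B F), V.vol x (X'.path x) = V.vol x ((X.extn a (c + 1)).path x) +
        V.chi (X.f x) * ((1 + V.chi (B.q a)) *
          (V.n b - (∑ i ∈ Finset.range c, V.chi (B.q a) ^ i) * V.n a))) := by
  obtain ⟨d1, d2, d3, d4, d5, d6⟩ := Real.extn_data (a := a) X (c + 1)
  have hp : (X.extn a (c + 1)).path x = X.path x ++ (List.replicate (c + 1) a ++ []) := by
    rw [d6, List.append_nil]
  obtain ⟨X', h1, h2, h3, h4, h5, h6, h7, h8, h9, h10, h11, h12, h13, h14, h15⟩ :=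
    zigAt.{u, v, w} (X.extn a (c + 1)) hc hb hp
  have hx' := TW.mem_tok₀.1 hx
  have hfin : B.fin x (X.path x) = X.f x := X.path_fin x hx'.1 hx'.2.1 hx'.2.2
  refine ⟨X', by rw [h1, d1], h2, by rw [h3, d2], by rw [h4, d3], h5, h6, by rw [h7, d4], h8, h9, h10, h11,
    by rw [h12, List.append_nil], fun {F} _ V => ?_⟩
  rw [h13 V, hfin]

/-- Two versions of a flat window, from any flat window `E`: `E`, a wait of `m` levels, `E` again. -/
theorem zig_ver (E : TW B) {n₀ : ℕ} {xs : Q} (hE : Flat a E n₀ xs) {m : ℕ} (hm : c + 1 ≤ m)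
    (hz : ∀ x, x * B.q a ^ (n₀ + m) = B.q a ^ (n₀ + m) * x) (hc : 0 < c) (hb : B.q b = B.q a ^ c) :
    ∃ X X' : TW B, Ver a X X' (n₀ + m + n₀) xs ∧ X.L₀ = E.L₀ ∧ X.u₀ = E.u₀ ∧ X.u₁ = E.u₁ ∧ X.cup = E.cup ∧
      X.cap = E.cap ∧ ∀ {F : Type w} [CommRing F] (V : Vd B F) (d : Q → Bool), dvol V d X X' =
        (if d xs then 1 else -1) * (V.chi (E.u₀ * B.q a ^ n₀) * ((1 + V.chi (B.q a)) *
          (V.n b - (∑ i ∈ Finset.range c, V.chi (B.q a) ^ i) * V.n a))) := by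
  obtain ⟨d1, d2, d3, d4, d5, d6⟩ := Real.extn_data (a := a) E m
  obtain ⟨X, h1, h2, h3, h4, h5, h6, _, h8⟩ := block2 (TW.flat_extn hE m) hE d1.symm d2.symm d3.symm hz
  have hxs := TW.mem_tok₀.1 hE.xs_mem
  have hp : X.path xs = E.path xs ++ (List.replicate (c + 1) a ++ (List.replicate (m - (c + 1)) a ++
      ((E.cup ++ (E.extn a m).cap) ++ E.path xs))) := by
    have e : List.replicate m a = List.replicate (c + 1) a ++ List.replicate (m - (c + 1)) a := by
      rw [List.replicate_append_replicate, show c + 1 + (m - (c + 1)) = m by omega]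
    rw [h8, d6, e, List.append_assoc, List.append_assoc]
  obtain ⟨X', -, -, -, -, -, -, -, -, -, -, -, -, -, g1, g2⟩ := zigAt.{u, v, w} X hc hb hp
  have hfin : B.fin xs (E.path xs) = E.u₀ * B.q a ^ n₀ := by
    rw [E.path_fin xs hxs.1 hxs.2.1 hxs.2.2, hE.f_xs]
  refine ⟨X, X', g2 _ _ h1, by rw [h2, d1], by rw [h3, d2], by rw [h4, d3], by rw [h5, d4], h6, fun {F} _ V d => ?_⟩
  rw [g1 V d h1.xs_mem, hfin]

end zigAt

section kap

variable {Q : Type u} [Group Q] {B : Lb.{u, v} Q} {a b : B.L} {F : Type w} [CommRing F] (V : Vd B F)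

theorem kap_pow {c : ℕ} (hb : B.q b = B.q a ^ c) :
    V.kap a b = (V.chi (B.q a) - 1) * (V.n b - (∑ i ∈ Finset.range c, V.chi (B.q a) ^ i) * V.n a) := by
  unfold Vd.kap
  rw [hb, map_pow]
  have h := mul_geom_sum (V.chi (B.q a)) c
  linear_combination V.n a * h

theorem kap_inv : V.kap a (B.inv b) = -(V.chi (B.q b)⁻¹ * V.kap a b) := by
  unfold Vd.kap
  rw [V.n_inv, B.q_inv]
  have h1 : V.chi (B.q b)⁻¹ * V.chi (B.q b) = 1 := by rw [← map_mul, inv_mul_cancel, map_one]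
  linear_combination (-V.n a) * h1

theorem chi_ne {F : Type w} [CommRing F] [Nontrivial F] (V : Vd B F) (x : Q) : V.chi x ≠ 0 := by
  intro h
  have h1 : V.chi x⁻¹ * V.chi x = 1 := by rw [← map_mul, inv_mul_cancel, map_one]
  rw [h, mul_zero] at h1
  exact zero_ne_one h1

end kap

/-- A power of `q a` is a label: two versions of every flat window. The bound for the height is `2 n₀ + |j| + e`. -/
theorem fs_flat {Q : Type u} [Group Q] [DecidableEq Q] {B : Lb.{u, v} Q} {a b : B.L} {F : Type w} [Field F]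
    (V : Vd B F) (d : Q → Bool) {j : ℤ} (hb : B.q b = B.q a ^ j) (h1 : 1 + V.chi (B.q a) ≠ 0)
    (hk : V.kap a b ≠ 0) {e : ℕ} (he : 0 < e) (hz : ∀ x, x * B.q a ^ e = B.q a ^ e * x) (E : TW B) {n₀ : ℕ} {xs : Q}
    (hE : Flat a E n₀ xs) (hn : e ∣ n₀) :
    ∃ (X X' : TW B) (n : ℕ), Ver a X X' n xs ∧ X.L₀ = E.L₀ ∧ X.u₀ = E.u₀ ∧ X.u₁ = E.u₁ ∧ X.cup = E.cup ∧
      X.cap = E.cap ∧ e ∣ n ∧ n ≤ 2 * n₀ + (j.natAbs + e) ∧ dvol V d X X' ≠ 0 := by
  -- a positive power
  obtain ⟨b', hb', hk'⟩ : ∃ b' : B.L, B.q b' = B.q a ^ j.natAbs ∧ V.kap a b' ≠ 0 := by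
    rcases Int.natAbs_eq j with h | h
    · exact ⟨b, by rw [hb]; conv_lhs => rw [h, zpow_natCast], hk⟩
    · refine ⟨B.inv b, ?_, ?_⟩
      · rw [B.q_inv, hb]
        conv_lhs => rw [h, zpow_neg, zpow_natCast, inv_inv]
      · rw [kap_inv]
        exact neg_ne_zero.2 (mul_ne_zero (chi_ne V _) hk)
  set c := j.natAbs with hcd
  have hc : 0 < c := by
    rcases Nat.eq_zero_or_pos c with h0 | h0
    · exfalso
      rw [h0, pow_zero] at hb'
      exact B.ne_one _ hb'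
    · exact h0
  rw [kap_pow V hb'] at hk'
  have hk2 := right_ne_zero_of_mul hk'
  obtain ⟨r, rfl⟩ := hn
  have hm : c + 1 ≤ e * (c / e + 1) := Nat.succ_le_of_lt (Nat.lt_mul_div_succ c he)
  have hm' : e * (c / e + 1) ≤ c + e := by
    have := Nat.mul_div_le c e
    rw [mul_add, mul_one]; omega
  have hpow : ∀ (s : ℕ) (x : Q), x * B.q a ^ (e * s) = B.q a ^ (e * s) * x := fun s x => by
    rw [pow_mul]
    exact (show Commute x (B.q a ^ e) from hz x).pow_right s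
  obtain ⟨X, X', g1, g2, g3, g4, g5, g6, g7⟩ := zig_ver.{u, v, w} E hE hm
    (by rw [← mul_add]; exact hpow _) hc hb'
  refine ⟨X, X', _, g1, g2, g3, g4, g5, g6, ?_, by omega, ?_⟩
  · exact Dvd.dvd.add (Dvd.dvd.add (Dvd.intro _ rfl) (Dvd.intro _ rfl)) (Dvd.intro _ rfl)
  · rw [g7 V d]
    refine mul_ne_zero ?_ (mul_ne_zero (chi_ne V _) (mul_ne_zero h1 hk2))
    by_cases hd : d xs
    · rw [if_pos hd]; exact one_ne_zero
    · rw [if_neg hd]; exact neg_ne_zero.2 one_ne_zero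

/-- SHORT POWER in the format of `RealAS`. -/
theorem realFS {S R : Type} [Fintype S] [DecidableEq S] {P : Puz S R} {Q : Type} [Group Q]
    [DecidableEq Q] {B : Lb.{0, v} Q} {a b : B.L} (Z : Real P B a) {F : Type} [Field F] (V : Vd B F) (d : Q → Bool)
    {f g : R} {l₀ : S} {E : TW B} {n₀ : ℕ} {j : ℤ} (hb : B.q b = B.q a ^ j) (h1 : 1 + V.chi (B.q a) ≠ 0)
    (hk : V.kap a b ≠ 0) (hz : ∀ x : Q, x * B.q a ^ Z.e = B.q a ^ Z.e * x) (hE : EWr Z f g l₀ E n₀) :
    ∃ (X X' : TW B) (n : ℕ), Ver a X X' n (Z.vt (P.oth g l₀) (Z.lev f)) ∧ EWr Z f g l₀ X n ∧ X.cap = E.cap ∧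
      n ≤ 2 * n₀ + (j.natAbs + Z.e) ∧ dvol V d X X' ≠ 0 := by
  obtain ⟨X, X', n, g1, g2, g3, g4, g5, g6, g7, g8, g9⟩ := fs_flat V d hb h1 hk Z.he hz E hE.flat hE.dvd
  exact ⟨X, X', n, g1, ⟨g1.flat, by rw [g2]; exact hE.L₀, by rw [g3]; exact hE.u₀, by rw [g4]; exact hE.u₁, g7,
    by rw [g5]; exact hE.cup⟩, g6, g8, g9⟩

/-- SHORT POWER in the format of `FlipS`. -/
theorem fwinFS {Q : Type} [Group Q] [DecidableEq Q] {B : Lb.{0, 0} Q} {a b : B.L} {F : Type} [Field F]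
    (V : Vd B F) (d : Q → Bool) {k : ℕ} (hk0 : 0 < k) {Fr : Finset Q} {t₀ : ℕ} {x s₁ s₂ : Q} {E : TW B} {n₀ : ℕ}
    {j : ℤ} (hb : B.q b = B.q a ^ j) (h1 : 1 + V.chi (B.q a) ≠ 0) (hk : V.kap a b ≠ 0)
    (hz : ∀ x : Q, x * B.q a ^ k = B.q a ^ k * x) (hE : FWin a k Fr t₀ x s₁ s₂ E n₀) :
    ∃ (X X' : TW B) (n : ℕ), n ≤ 2 * n₀ + (j.natAbs + k) ∧ FWin a k Fr t₀ x s₁ s₂ X n ∧
      Ver a X X' n (s₂ * B.q a ^ t₀) ∧ X.cup = E.cup ∧ X.cap = E.cap ∧ dvol V d X X' ≠ 0 := by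
  obtain ⟨X, X', n, g1, g2, g3, g4, g5, g6, g7, g8, g9⟩ := fs_flat V d hb h1 hk hk0 hz E hE.flat hE.dvd
  exact ⟨X, X', n, g8, ⟨by rw [g2]; exact hE.L₀, by rw [g4]; exact hE.u₁, by rw [g3]; exact hE.u₀, g1.flat, g7⟩,
    g1, g5, g6, g9⟩

end Pool.Agent.Lib.MP_688fd0_co.SQ2
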