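import Pool.Agent.Lib.MP_688fd0_co.SQ2.V.FlipCtx

/-!
FLIP: the assembly of the cases.
-/

set_option autoImplicit false

namespace Pool.Agent.Lib.MP_688fd0_co.SQ2

open Pool.Agent.Lib.MP_688fd0_co.OSF
open V (Puz)

/-- The bound for the heights. -/
def BndS : Prop := ∀ (Q : Type) [Group Q] (D : Subgroup Q) (A : Q) (F : Finset Q) (k c : ℕ) (h : FrD D A F k),
  F.Nonempty →
  (4 * NW F (Rg (Fin 5) (Sy h.toFrt)) + 8) * (k + hgt F.card (2 * c + 2 * k)) ≤ lam F.card k c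

section grp

variable {Q : Type} [Group Q]

/-- In a group of odd order `b` is a power of `b ^ 2`. -/
theorem sq_pow [Finite Q] (hodd : Odd (Nat.card Q)) (b : Q) : ∃ m : ℕ, (b * b) ^ m = b := by
  obtain ⟨r, hr⟩ := hodd
  refine ⟨r + 1, ?_⟩
  have h1 : b ^ Nat.card Q = 1 := pow_card_eq_one'
  rw [← sq, ← pow_mul, show 2 * (r + 1) = Nat.card Q + 1 by omega, pow_succ, h1, one_mul]

end grp

section ctx

variable {Q : Type} [Group Q] [DecidableEq Q] {B : Lb.{0, 0} Q} {a : B.L} {D : Subgroup Q} {z : Q} {k c W : ℕ}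
  {d : Q → Bool} {ι : Type} {x : ι → Q} {b₁ b₂ : ι → B.L} {j : ι → ℕ} {F : ι → Finset Q}

/-- The conclusion at the path `i`. -/
def Conc (a : B.L) (k c : ℕ) (d : Q → Bool) (x : ι → Q) (b₁ b₂ : ι → B.L) (j : ι → ℕ) (F : ι → Finset Q) (t₀ : ℕ)
    {p : ℕ} (V : Vd B (ZMod p)) (i : ι) : Prop :=
  ∀ s₁ s₂ : Q, Leaves a (F i) (x i) (b₁ i) (b₂ i) (j i) c s₁ s₂ →
    ∃ (X X' : TW B) (n : ℕ), n ≤ lam (F i).card k c ∧ FWin a k (F i) t₀ (x i) s₁ s₂ X n ∧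
      Ver a X X' n (s₂ * B.q a ^ t₀) ∧ dvol V d X X' ≠ 0

/-- From the local to the global conclusion. -/
theorem conc_of (hret : V.RetS) (hbnd : BndS) (H : Hyp B a D z k) (C : Ctx B a D k c W d x b₁ b₂ j F)
    (hlam : ∀ i, lam (F i).card k c ≤ W) {i : ι} (P : PB H C i) {G₂ G₃ G₄ : BGad (H.fr (C.fr i)).toFrt}
    (h₂ : OKG (H.fr (C.fr i)) (hgt (F i).card (2 * c + 2 * k)) G₂)
    (h₃ : OKG (H.fr (C.fr i)) (hgt (F i).card (2 * c + 2 * k)) G₃)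
    (h₄ : OKG (H.fr (C.fr i)) (hgt (F i).card (2 * c + 2 * k)) G₄) {p : ℕ} {V : Vd B (ZMod p)}
    (hL : LRes (H.fr (C.fr i)) (fam P G₂ G₃ G₄) (hgt (F i).card (2 * c + 2 * k)) d
      (rf (H.fr (C.fr i)) ⟨x i, C.fx i⟩ P.p₀) (rg (H.fr (C.fr i)) ⟨x i, C.fx i⟩ P.p₁ (j i)) ⟨x i, C.fx i⟩ p V) :
    Conc a k c d x b₁ b₂ j F ((((k - 1) * P.p₀ : ℕ) : ZMod k)).val V i := by
  intro s₁ s₂ hs
  have P' := P.pg h₂ h₃ h₄
  obtain ⟨e1, e2⟩ := P.leaves hlam P' hs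
  obtain ⟨X, X', n, g1, g2, g3, g4⟩ := P'.conc hret H (j i) (C.ne i)
    (hbnd Q D (B.q a) (F i) k c (H.fr (C.fr i)) ⟨_, C.fx i⟩) hL
  exact ⟨X, X', n, g1, by rw [e1, e2]; exact g2, by rw [e2]; exact g3, g4⟩

/-- The local context of a path. -/
theorem lc_of (H : Hyp B a D z k) (C : Ctx B a D k c W d x b₁ b₂ j F)
    {i : ι} (P : PB H C i) {G₂ G₃ G₄ : BGad (H.fr (C.fr i)).toFrt}
    (h₂ : OKG (H.fr (C.fr i)) (hgt (F i).card (2 * c + 2 * k)) G₂)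
    (h₃ : OKG (H.fr (C.fr i)) (hgt (F i).card (2 * c + 2 * k)) G₃)
    (h₄ : OKG (H.fr (C.fr i)) (hgt (F i).card (2 * c + 2 * k)) G₄) {p : ℕ} (hp : p.Prime) (hkp : 4 * k < p)
    (V : Vd B (ZMod p)) (hz : V.chi z = 1) :
    LC (H.fr (C.fr i)) (fam P G₂ G₃ G₄) (hgt (F i).card (2 * c + 2 * k)) d
      (rf (H.fr (C.fr i)) ⟨x i, C.fx i⟩ P.p₀) (rg (H.fr (C.fr i)) ⟨x i, C.fx i⟩ P.p₁ (j i)) ⟨x i, C.fx i⟩ p V :=
  (P.pg h₂ h₃ h₄).lc H (j i) C.d_line (C.d₁ i) (C.d₂ i) (C.ne i) hp hkp V hz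

theorem COK.okg {F : Finset Q} {h : FrD D (B.q a) F k} {G : BGad h.toFrt} {b : B.L} {p p' hm : ℕ}
    (hG : COK h G b p p') (hH : G.H ≤ hm) : OKG h hm G := ⟨hH, hG.cap⟩

theorem GOK.okg {F : Finset Q} {h : FrD D (B.q a) F k} {G : BGad h.toFrt} {b : B.L} {p p' hm : ℕ}
    {Γ : Subgroup (Sy h.toFrt)} (hG : GOK h G b p p' Γ) (hH : G.H ≤ hm) : OKG h hm G := ⟨hH, hG.cap⟩

omit [DecidableEq Q] in
theorem kap_inv' {p : ℕ} (V : Vd B (ZMod p)) (b : B.L) :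
    V.kap a (B.inv b) = -(V.chi (B.q b)⁻¹ * V.kap a b) := by
  have h1 : V.chi (B.q b)⁻¹ * V.chi (B.q b) = 1 := by rw [← map_mul, inv_mul_cancel, map_one]
  unfold Vd.kap
  rw [V.n_inv, B.q_inv]
  linear_combination (-(V.n a)) * h1

omit [DecidableEq Q] in
theorem chi_inv_ne {p : ℕ} [Fact p.Prime] (V : Vd B (ZMod p)) (y : Q) : V.chi y⁻¹ ≠ 0 := by
  intro h
  have h1 : V.chi y⁻¹ * V.chi y = 1 := by rw [← map_mul, inv_mul_cancel, map_one]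
  rw [h, zero_mul] at h1
  exact zero_ne_one h1

/-- Commuting gadgets in the frontier. -/
theorem cgad_of (gc : CGadS) {F : Finset Q} {h : FrD D (B.q a) F k} {b : B.L}
    (hcom : B.q b * B.q a = B.q a * B.q b) {s s' : F} (hne : s ≠ s') {o : ℤ} (ho : |o| ≤ 2 * c)
    (hs : (s : Q) * B.q b = (s' : Q) * B.q a ^ o) :
    ∃ (G : BGad h.toFrt) (p p' : ℕ), G.x = s ∧ G.y = s' ∧ COK h G b p p' ∧
      OKG h (hgt F.card (2 * c + 2 * k)) G := by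
  obtain ⟨G, p, p', h1, h2, h3, -, h5⟩ := gc Q B a D F k h b hcom s s' o hne hs
  have h0 : (o.natAbs : ℤ) ≤ 2 * c := by rw [Int.natCast_natAbs]; exact ho
  exact ⟨G, p, p', h1, h2, h5, h5.okg (h3.trans (by unfold hgt; omega))⟩

/-- The commuting case, `chi a ≠ 1`. -/
theorem case_cma (gc : CGadS) (cma : CMAS) (hret : V.RetS) (hbnd : BndS) (H : Hyp B a D z k)
    (C : Ctx B a D k c W d x b₁ b₂ j F) (hlam : ∀ i, lam (F i).card k c ≤ W) {i : ι} (P : PB H C i)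
    {p : ℕ} (hp : p.Prime) (hkp : 4 * k < p) (V : Vd B (ZMod p)) (hz : V.chi z = 1) (b : B.L)
    (hcom : B.q b * B.q a = B.q a * B.q b) (hb₁ : B.q b ≠ B.q a) (hb₂ : B.q b ≠ (B.q a)⁻¹)
    (hα : V.chi (B.q a) ≠ 1) (hk : V.kap a b ≠ 0) :
    Conc a k c d x b₁ b₂ j F ((((k - 1) * P.p₀ : ℕ) : ZMod k)).val V i := by
  have : Fact p.Prime := ⟨hp⟩
  have := H.fin
  have P₀ := P.pg P.ok₀ P.ok₀ P.ok₀
  have hlam' := (lam_ge (F i).card k c).trans (hlam i)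
  have hcW : (2 * (c : ℤ)) ≤ W := by
    have : 2 * c ≤ W := by unfold hgt at hlam'; omega
    exact_mod_cast this
  have hx0 : Ats B a D (x i) (B.fin (x i) []) 0 := by
    show (x i)⁻¹ * (x i * B.q a ^ (0 : ℤ)) ∈ D
    rw [zpow_zero, mul_one, inv_mul_cancel]
    exact D.one_mem
  have hcom' : B.q (B.inv b) * B.q a = B.q a * B.q (B.inv b) := by
    have h1 : Commute (B.q b) (B.q a) := hcom
    rw [B.q_inv]
    exact h1.inv_left.eq
  have hb₁' : B.q (B.inv b) ≠ B.q a := by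
    rw [B.q_inv]; intro h; exact hb₂ (by rw [← h, inv_inv])
  have hb₂' : B.q (B.inv b) ≠ (B.q a)⁻¹ := by
    rw [B.q_inv]; intro h; exact hb₁ (inv_injective h)
  obtain ⟨s', hs', o, ho, e1, -⟩ := nbr H C i (l := []) (by simp) hx0 (by simp) b
  obtain ⟨s'', hs'', o', ho', e2, -⟩ := nbr H C i (l := []) (by simp) hx0 (by simp) (B.inv b)
  -- the last leaf
  set sg : F i := (bigP (fam P P.G₀ P.G₀ P.G₀)).y (rg (H.fr (C.fr i)) ⟨x i, C.fx i⟩ P.p₁ (j i)) with hsg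
  have hdsg : d (sg : Q) = !d (x i) := by
    have h1 := P₀.yg (j i)
    have h2 := C.d₂ i
    rw [← dl_zpow C.d_line _ (P.o₁ + j i)]
    rw [← h2]
    exact congrArg d h1.symm
  have key : s' ≠ (sg : Q) ∨ s'' ≠ (sg : Q) := by
    by_contra hcon
    push Not at hcon
    obtain ⟨c1, c2⟩ := hcon
    rw [c1] at e1
    rw [c2, B.q_inv] at e2
    have hc : Commute (B.q b) (B.q a) := hcom
    have h1 : B.q b * (B.q a ^ o)⁻¹ = (B.q b)⁻¹ * (B.q a ^ o')⁻¹ := by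
      have h2 : x i * (B.q b * (B.q a ^ o)⁻¹) = x i * ((B.q b)⁻¹ * (B.q a ^ o')⁻¹) := by
        rw [← mul_assoc, e1, ← mul_assoc, e2]; group
      exact mul_left_cancel h2
    have h2 : B.q b * B.q b = B.q a ^ (o - o') := by
      have h3 : Commute (B.q b) (B.q a ^ o') := hc.zpow_right o'
      have h4 : B.q b * B.q b = B.q b * ((B.q b * (B.q a ^ o)⁻¹) * B.q a ^ o) := by group
      rw [h4, h1, zpow_sub]
      have h5 : Commute (B.q a ^ o) (B.q a ^ o')⁻¹ := (Commute.refl (B.q a)).zpow_zpow o o' |>.inv_right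
      rw [mul_assoc (B.q b)⁻¹, ← h5.eq]; group
    obtain ⟨m, hm⟩ := sq_pow H.odd (B.q b)
    rw [h2, ← zpow_natCast, ← zpow_mul] at hm
    have h6 : d (x i * B.q b) = d (x i) := by rw [← hm]; exact dl_zpow C.d_line _ _
    rw [e1, dl_zpow C.d_line, hdsg] at h6
    simp at h6
  -- the choice of the label
  obtain ⟨b', s₁, hs₁, o₁, ho₁, e3, hne, hcomb, hkb, hb1, hb2⟩ : ∃ (b' : B.L) (s₁ : Q) (_ : s₁ ∈ F i) (o₁ : ℤ),
      |o₁| ≤ 2 * c ∧ x i * B.q b' = s₁ * B.q a ^ o₁ ∧ s₁ ≠ (sg : Q) ∧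
      B.q b' * B.q a = B.q a * B.q b' ∧ V.kap a b' ≠ 0 ∧ B.q b' ≠ B.q a ∧ B.q b' ≠ (B.q a)⁻¹ := by
    rcases key with h | h
    · exact ⟨b, s', hs', o, ho, e1, h, hcom, hk, hb₁, hb₂⟩
    · refine ⟨B.inv b, s'', hs'', o', ho', e2, h, hcom', ?_, hb₁', hb₂'⟩
      rw [kap_inv']
      exact neg_ne_zero.2 (mul_ne_zero (chi_inv_ne V _) hk)
  have hxs : (⟨x i, C.fx i⟩ : F i) ≠ ⟨s₁, hs₁⟩ := by
    intro h
    have h1 : x i = s₁ := congrArg Subtype.val h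
    rw [← h1] at e3
    exact not_small C.sink b' hb1 hb2 o₁ (by omega) (mul_left_cancel e3)
  obtain ⟨G, p₂, p₂', g1, g2, g3, g4⟩ := cgad_of (c := c) (h := H.fr (C.fr i)) gc hcomb hxs ho₁ e3
  refine conc_of hret hbnd H C hlam P g4 P.ok₀ P.ok₀ ?_
  refine cma Q B a D (F i) k (H.fr (C.fr i)) (Fin 5) (fam P G P.G₀ P.G₀) _ d _ _ _ p V
    (lc_of H C P g4 P.ok₀ P.ok₀ hp hkp V hz) 2 b' p₂ p₂' g3 g1 ?_ hα hkb
  have P' := P.pg g4 P.ok₀ P.ok₀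
  rw [P'.othg]
  show G.y ≠ _
  rw [g2]
  intro h
  exact hne (congrArg Subtype.val h)

omit [DecidableEq Q] in
/-- A natural number that is congruent to an integer. -/
theorem nat_level (H : Hyp B a D z k) (t : ℤ) : ∃ (n : ℕ) (q : ℤ), (n : ℤ) = t + k * q := by
  have hk : (0 : ℤ) < k := by exact_mod_cast H.pos
  refine ⟨(t % k).toNat, -(t / k), ?_⟩
  rw [Int.toNat_of_nonneg (Int.emod_nonneg _ hk.ne')]
  have := Int.emod_add_mul_ediv t k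
  linarith

omit [DecidableEq Q] in
theorem cen_kz (H : Hyp B a D z k) (q : ℤ) (y : Q) : y * B.q a ^ ((k : ℤ) * q) = B.q a ^ ((k : ℤ) * q) * y := by
  have h1 : Commute y (B.q a ^ k) := H.cen_k y
  rw [zpow_mul, zpow_natCast]
  exact (h1.zpow_right q).eq

omit [DecidableEq Q] in
/-- The colour condition for one sheet and two sheets: a rung of two colours. -/
theorem two_col (H : Hyp B a D z k) (hd : ∀ y, d (y * B.q a) = d y) {v s₀ b : Q} {t : ℤ} (e1 : v = s₀ * B.q a ^ t)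
    (hv : d (v * b) = !d v) : ∃ n : ℕ, d (s₀ * B.q a ^ n * b) = !d s₀ := by
  obtain ⟨n, q, hn⟩ := nat_level H t
  refine ⟨n, ?_⟩
  have h1 : s₀ * B.q a ^ n * b = v * b * B.q a ^ ((k : ℤ) * q) := by
    rw [← zpow_natCast, hn, zpow_add, ← mul_assoc, ← e1, mul_assoc v _ b, ← cen_kz H, ← mul_assoc]
  rw [h1, dl_zpow hd, hv, e1, dl_zpow hd]

/-- A label that does not commute with `a`, one sheet. -/
theorem case_nc1 (g1 : GadN1S) (nc1 : NC1S) (hret : V.RetS) (hbnd : BndS) (H : Hyp B a D z k)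
    (C : Ctx B a D k c W d x b₁ b₂ j F) (hlam : ∀ i, lam (F i).card k c ≤ W) (P : ∀ i, PB H C i)
    {p : ℕ} (hp : p.Prime) (hkp : 4 * k < p) (V : Vd B (ZMod p)) (hz : V.chi z = 1) (b : B.L)
    (hcom : B.q b * B.q a ≠ B.q a * B.q b) (j₀ : ℤ) (hj₀ : |j₀| ≤ 1) (hjD : (B.q a ^ j₀)⁻¹ * B.q b ∈ D)
    (hk : V.kap a b ≠ 0) :
    ∃ i, Conc a k c d x b₁ b₂ j F ((((k - 1) * (P i).p₀ : ℕ) : ZMod k)).val V i := by
  have := H.fin
  obtain ⟨v, hv⟩ := placeG1 (B.q a) (B.q b) C.d_line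
  obtain ⟨i, hw⟩ := C.cov v
  obtain ⟨s₀, t, e1, e2, -⟩ := (P i).strand ((P i).pg (P i).ok₀ (P i).ok₀ (P i).ok₀) hw
  have hW := (hgt_le (F i).card k c).trans (hlam i)
  obtain ⟨G, p₂, p₂', η, h1, h2, -, h4, h5, h6⟩ := g1 Q B a D z k H W (2 * c + 2 * k) (F i) (C.fr i) hW
    (H.fr (C.fr i)) b hcom j₀ hj₀ hjD s₀
  have hG := h6.okg h2
  refine ⟨i, conc_of hret hbnd H C hlam (P i) hG (P i).ok₀ (P i).ok₀ ?_⟩
  have P' := (P i).pg hG (P i).ok₀ (P i).ok₀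
  refine nc1 Q B a D (F i) k (H.fr (C.fr i)) (Fin 5) (fam (P i) G (P i).G₀ (P i).G₀) _ d _ _ _ p V
    (lc_of H C (P i) hG (P i).ok₀ (P i).ok₀ hp hkp V hz) 2 b p₂ p₂' η h6 h4 h5 hcom ?_ ?_ hk
  · rw [P'.othf, P'.othg]
    show G.x = _ ∨ G.x = _ ∨ G.x = _
    rw [h1]
    exact e2 G (P i).G₀ (P i).G₀
  · show (∃ n : ℕ, d ((G.x : Q) * B.q a ^ n * B.q b) = !d (G.x : Q)) ∨
      ∀ γ ∈ Subgroup.closure {B.q a, B.q b}, d ((G.x : Q) * B.q a ^ p₂ * γ) = d (G.x : Q)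
    rw [h1]
    rcases hv with hv | hv
    · exact Or.inl (two_col H C.d_line e1 hv)
    · right
      intro γ hγ
      have h7 : B.q a ^ ((p₂ : ℤ) - t) * γ ∈ Subgroup.closure {B.q a, B.q b} :=
        Subgroup.mul_mem _ (Subgroup.zpow_mem _ (Subgroup.subset_closure (by simp)) _) hγ
      have h8 := hv _ h7
      have h9 : v * (B.q a ^ ((p₂ : ℤ) - t) * γ) = (s₀ : Q) * B.q a ^ p₂ * γ := by
        rw [e1, zpow_sub, zpow_natCast]
        have : (s₀ : Q) * B.q a ^ t * (B.q a ^ p₂ * (B.q a ^ t)⁻¹ * γ) =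
          (s₀ : Q) * (B.q a ^ t * B.q a ^ p₂) * (B.q a ^ t)⁻¹ * γ := by group
        rw [this]
        have hc : B.q a ^ t * B.q a ^ p₂ = B.q a ^ p₂ * B.q a ^ t := by
          rw [← zpow_natCast, ← zpow_add, ← zpow_add, add_comm]
        rw [hc]; group
      rw [h9] at h8
      rw [h8, e1, dl_zpow C.d_line]

/-- A label that does not commute with `a`, two sheets. -/
theorem case_nc2 (g2 : GadN2S) (nc2 : NC2S) (hret : V.RetS) (hbnd : BndS) (H : Hyp B a D z k)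
    (C : Ctx B a D k c W d x b₁ b₂ j F) (hlam : ∀ i, lam (F i).card k c ≤ W) (P : ∀ i, PB H C i)
    {p : ℕ} (hp : p.Prime) (hkp : 4 * k < p) (V : Vd B (ZMod p)) (hz : V.chi z = 1) (b : B.L)
    (hcom : B.q b * B.q a ≠ B.q a * B.q b) (hj : ∀ j : ℤ, |j| ≤ 1 → (B.q a ^ j)⁻¹ * B.q b ∉ D)
    (hk : V.kap a b ≠ 0) :
    ∃ i, Conc a k c d x b₁ b₂ j F ((((k - 1) * (P i).p₀ : ℕ) : ZMod k)).val V i := by
  have := H.fin
  obtain ⟨v, hv0, hv⟩ := placeG2 H.odd (B.q a) (B.q b) C.d_line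
  obtain ⟨i, hw⟩ := C.cov v
  obtain ⟨s₀, t, e1, e2, e3⟩ := (P i).strand ((P i).pg (P i).ok₀ (P i).ok₀ (P i).ok₀) hw
  obtain ⟨s', hs', o, ho, e4, -⟩ := e3 b
  have hW := (hgt_le (F i).card k c).trans (hlam i)
  have hcW : ((2 * c + 2 * k : ℕ) : ℤ) ≤ W := by exact_mod_cast (by omega : 2 * c + 2 * k ≤ W)
  have hj2 : ∀ j : ℤ, |j| ≤ (2 * c + 2 * k : ℕ) → (B.q a ^ j)⁻¹ * B.q b ∉ D := by
    intro j h1 h2
    by_cases h3 : |j| ≤ 1
    · exact hj j h3 h2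
    · exact C.sink b j (by omega) (by omega) h2
  obtain ⟨G, p₂, p₂', h1, h2, -, h4, h6⟩ := g2 Q B a D z k H W (2 * c + 2 * k) (F i) (C.fr i) hW
    (H.fr (C.fr i)) b hcom hj hj2 s₀ o (by push_cast; omega) (by rw [e4, mul_inv_cancel_right]; exact hs')
  have hG := h6.okg h2
  refine ⟨i, conc_of hret hbnd H C hlam (P i) hG (P i).ok₀ (P i).ok₀ ?_⟩
  have P' := (P i).pg hG (P i).ok₀ (P i).ok₀
  have hA : ∀ m : ℤ, B.q a ^ m ∈ Subgroup.closure {B.q a, B.q b * B.q a * (B.q b)⁻¹} := fun m =>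
    Subgroup.zpow_mem _ (Subgroup.subset_closure (by simp)) _
  have e5 : (s₀ : Q) * B.q a ^ p₂ = v * B.q a ^ ((p₂ : ℤ) - t) := by
    rw [e1, mul_assoc, ← zpow_add, add_sub_cancel, zpow_natCast]
  refine nc2 Q B a D (F i) k (H.fr (C.fr i)) (Fin 5) (fam (P i) G (P i).G₀ (P i).G₀) _ d _ _ _ p V
    (lc_of H C (P i) hG (P i).ok₀ (P i).ok₀ hp hkp V hz) 2 b p₂ p₂' h6 h4 hcom ?_ ?_ ?_ hk
  · rw [P'.othf, P'.othg]
    show G.x = _ ∨ G.x = _ ∨ G.x = _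
    rw [h1]
    exact e2 G (P i).G₀ (P i).G₀
  · show dsf _ _ _ ((G.x : Q) * B.q a ^ p₂) ≠ 0
    rw [h1, e5, dsf_mul (B.q a) (B.q b) C.d_line (hA _)]
    exact hv0
  · show (∃ n : ℕ, d ((G.x : Q) * B.q a ^ n * B.q b) = !d (G.x : Q)) ∨
      ∀ γ ∈ Subgroup.closure {B.q a, B.q b * B.q a * (B.q b)⁻¹}, d ((G.x : Q) * B.q a ^ p₂ * γ) = d (G.x : Q) ∧
        d ((G.x : Q) * B.q a ^ p₂ * γ * B.q b) = d (G.x : Q)
    rw [h1]
    rcases hv with hv | hv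
    · exact Or.inl (two_col H C.d_line e1 hv)
    · right
      intro γ hγ
      have h8 := hv _ (Subgroup.mul_mem _ (hA ((p₂ : ℤ) - t)) hγ)
      rw [← mul_assoc, ← e5] at h8
      have h9 : d v = d (s₀ : Q) := by rw [e1, dl_zpow C.d_line]
      rw [h9] at h8
      exact h8

/-- The commuting case, `chi a = 1`. -/
theorem case_cmb (gc : CGadS) (cmb : CMBS) (hret : V.RetS) (hbnd : BndS) (H : Hyp B a D z k)
    (C : Ctx B a D k c W d x b₁ b₂ j F) (hlam : ∀ i, lam (F i).card k c ≤ W) (P : ∀ i, PB H C i)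
    {p : ℕ} (hp : p.Prime) (hkp : 4 * k < p) (V : Vd B (ZMod p)) (hz : V.chi z = 1) (b : B.L)
    (hcom : B.q b * B.q a = B.q a * B.q b) (hα : V.chi (B.q a) = 1) (hk : V.kap a b ≠ 0) :
    ∃ i, Conc a k c d x b₁ b₂ j F ((((k - 1) * (P i).p₀ : ℕ) : ZMod k)).val V i := by
  have : Fact p.Prime := ⟨hp⟩
  have := H.fin
  have hc : Commute (B.q b) (B.q a) := hcom
  have hσ : V.chi (B.q b) ≠ 1 := by
    intro h
    apply hk
    unfold Vd.kap
    rw [h, hα]; ring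
  have hpow : ∀ o : ℤ, V.chi (B.q a ^ o) = 1 := by
    intro o
    have h1 : ∀ n : ℕ, V.chi (B.q a ^ n) = 1 := fun n => by rw [map_pow, hα, one_pow]
    rcases Int.eq_nat_or_neg o with ⟨n, rfl | rfl⟩
    · rw [zpow_natCast]; exact h1 n
    · have h2 : V.chi (B.q a ^ (-(n : ℤ))) * V.chi (B.q a ^ n) = 1 := by
        rw [← map_mul, ← zpow_natCast, ← zpow_add, neg_add_cancel, zpow_zero, map_one]
      rw [h1, mul_one] at h2
      exact h2
  have z1 : ∀ o : ℤ, B.q b ≠ B.q a ^ o := fun o h => hσ (by rw [h]; exact hpow o)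
  have z2 : ∀ o : ℤ, B.q b * B.q b ≠ B.q a ^ o := by
    intro o h
    obtain ⟨m, hm⟩ := sq_pow H.odd (B.q b)
    rw [h, ← zpow_natCast, ← zpow_mul] at hm
    exact z1 _ hm.symm
  have hbA : ∀ t : ℤ, B.q a ^ t * B.q b = B.q b * B.q a ^ t := fun t => ((hc.zpow_right t).eq).symm
  by_contra hno
  push Not at hno
  -- one vertex
  have key : ∀ w : Q, d (w * B.q b) = d (w * (B.q b)⁻¹) ∧
      (d w = d (w * B.q b) → d w = d (w * (B.q b)⁻¹) → d (w * B.q b * B.q b) = !d (w * B.q b)) := by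
    intro w
    obtain ⟨i, hw⟩ := C.cov w
    obtain ⟨s₀, t, e1, e2, e3⟩ := (P i).strand ((P i).pg (P i).ok₀ (P i).ok₀ (P i).ok₀) hw
    obtain ⟨s₁, hs₁, o₁, ho₁, f1, f2⟩ := e3 b
    obtain ⟨s₂, hs₂, o₂, ho₂, f3⟩ := f2 b
    obtain ⟨sm, hsm, om, hom, f4, -⟩ := e3 (B.inv b)
    rw [B.q_inv] at f4
    have f5 : sm * B.q b = (s₀ : Q) * B.q a ^ (-om) := by
      have h1 : sm = (s₀ : Q) * (B.q b)⁻¹ * B.q a ^ (-om) := by rw [f4, zpow_neg]; group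
      rw [h1, mul_assoc _ (B.q a ^ (-om)), hbA]; group
    -- distinct strands
    have n1 : (⟨sm, hsm⟩ : F i) ≠ s₀ := by
      intro h
      have h1 : sm = (s₀ : Q) := congrArg Subtype.val h
      rw [h1] at f5
      exact z1 _ (mul_left_cancel f5)
    have n2 : s₀ ≠ ⟨s₁, hs₁⟩ := by
      intro h
      have h1 : (s₀ : Q) = s₁ := congrArg Subtype.val h
      rw [← h1] at f1
      exact z1 _ (mul_left_cancel f1)
    have n3 : (⟨s₁, hs₁⟩ : F i) ≠ ⟨s₂, hs₂⟩ := by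
      intro h
      have h1 : s₁ = s₂ := congrArg Subtype.val h
      rw [← h1] at f3
      exact z1 _ (mul_left_cancel f3)
    have n4 : sm ≠ s₁ := by
      intro h
      have h1 : sm * B.q b * B.q b = s₁ * B.q a ^ (o₁ - om) := by
        rw [f5, mul_assoc, hbA, ← mul_assoc, f1, mul_assoc, ← zpow_add]; rfl
      rw [h, mul_assoc] at h1
      exact z2 _ (mul_left_cancel h1)
    have n5 : s₂ ≠ (s₀ : Q) := by
      intro h
      have h1 : (s₀ : Q) * B.q b * B.q b = s₂ * B.q a ^ (o₂ + o₁) := by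
        rw [f1, mul_assoc, hbA, ← mul_assoc, f3, mul_assoc, ← zpow_add]
      rw [h, mul_assoc] at h1
      exact z2 _ (mul_left_cancel h1)
    -- colours
    have c0 : d w = d (s₀ : Q) := by rw [e1, dl_zpow C.d_line]
    have c1 : d (w * B.q b) = d s₁ := by
      have h1 : w * B.q b = s₁ * B.q a ^ (o₁ + t) := by
        rw [e1, mul_assoc, hbA, ← mul_assoc, f1, mul_assoc, ← zpow_add]
      rw [h1, dl_zpow C.d_line]
    have c2 : d (w * (B.q b)⁻¹) = d sm := by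
      have h1 : w * (B.q b)⁻¹ = sm * B.q a ^ (om + t) := by
        have h2 : B.q a ^ t * (B.q b)⁻¹ = (B.q b)⁻¹ * B.q a ^ t := ((hc.zpow_right t).inv_left.eq).symm
        rw [e1, mul_assoc, h2, ← mul_assoc, f4, mul_assoc, ← zpow_add]
      rw [h1, dl_zpow C.d_line]
    have c3 : d (w * B.q b * B.q b) = d s₂ := by
      have h1 : w * B.q b * B.q b = s₂ * B.q a ^ (o₂ + (o₁ + t)) := by
        have h2 : w * B.q b = s₁ * B.q a ^ (o₁ + t) := by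
          rw [e1, mul_assoc, hbA, ← mul_assoc, f1, mul_assoc, ← zpow_add]
        rw [h2, mul_assoc, hbA, ← mul_assoc, f3, mul_assoc, ← zpow_add]
      rw [h1, dl_zpow C.d_line]
    -- gadgets
    obtain ⟨G₂, p₂, q₂, a1, a2, a3, a4⟩ := cgad_of (c := c) (h := H.fr (C.fr i)) gc hcom n1 (o := -om)
      (by rw [abs_neg]; exact hom) f5
    obtain ⟨G₃, p₃, q₃, b1, b2, b3, b4⟩ := cgad_of (c := c) (h := H.fr (C.fr i)) gc hcom n2 ho₁ f1
    obtain ⟨G₄, p₄, q₄, c1', c2', c3', c4'⟩ := cgad_of (c := c) (h := H.fr (C.fr i)) gc hcom n3 ho₂ f3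
    have P' := (P i).pg a4 b4 c4'
    have hLC := lc_of H C (P i) a4 b4 c4' hp hkp V hz
    have hres := cmb Q B a D (F i) k (H.fr (C.fr i)) (Fin 5) (fam (P i) G₂ G₃ G₄) _ d _ _ _ p V hLC
      2 3 4 b p₂ p₃ p₄ q₂ q₃ q₄ a3 b3 c3' (b1.trans a2.symm) (c1'.trans b2.symm) (by
        rw [P'.othf, P'.othg]
        show G₃.x = _ ∨ G₃.x = _ ∨ G₃.x = _
        rw [b1]
        exact e2 G₂ G₃ G₄) (by
        show G₂.x ≠ G₃.y
        rw [a1, b2]
        exact fun h => n4 (congrArg Subtype.val h)) (by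
        show G₄.y ≠ G₃.x
        rw [c2', b1]
        exact fun h => n5 (congrArg Subtype.val h)) hα hk
    have hnoL : ¬ LRes (H.fr (C.fr i)) (fam (P i) G₂ G₃ G₄) (hgt (F i).card (2 * c + 2 * k)) d
      (rf (H.fr (C.fr i)) ⟨x i, C.fx i⟩ (P i).p₀) (rg (H.fr (C.fr i)) ⟨x i, C.fx i⟩ (P i).p₁ (j i))
      ⟨x i, C.fx i⟩ p V := fun hL => hno i (conc_of hret hbnd H C hlam (P i) a4 b4 c4' hL)
    have r1 : d (G₃.y : Q) = d (G₂.x : Q) := hres.1.resolve_left hnoL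
    have r2 : d (G₃.x : Q) = d (G₃.y : Q) → d (G₃.x : Q) = d (G₂.x : Q) → d (G₄.y : Q) = !d (G₃.y : Q) :=
      fun h h' => (hres.2 h h').resolve_left hnoL
    rw [b2, a1] at r1
    rw [b1, b2, a1, c2'] at r2
    refine ⟨by rw [c1, c2]; exact r1, fun h h' => ?_⟩
    rw [c3, c1]
    exact r2 (by rw [← c0, ← c1]; exact h) (by rw [← c0, ← c2]; exact h')
  -- the colour is constant along `b`
  have h1 : ∀ w : Q, d (w * (B.q b * B.q b)) = d w := by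
    intro w
    have := (key (w * B.q b)).1
    rw [mul_inv_cancel_right] at this
    rw [← mul_assoc]; exact this
  have h2 : ∀ (w : Q) (n : ℕ), d (w * (B.q b * B.q b) ^ n) = d w := by
    intro w n
    induction n with
    | zero => rw [pow_zero, mul_one]
    | succ n ih => rw [pow_succ, ← mul_assoc, h1, ih]
  obtain ⟨m, hm⟩ := sq_pow H.odd (B.q b)
  have h3 : ∀ w : Q, d (w * B.q b) = d w := fun w => by
    have := h2 w m
    rwa [hm] at this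
  have h4 := (key 1).2 (h3 1).symm (by rw [← (key 1).1]; exact (h3 1).symm)
  rw [h3 (1 * B.q b)] at h4
  simp at h4

end ctx

/-- FLIP. -/
theorem flip (hret : V.RetS) (hbnd : BndS) (g1 : GadN1S) (g2 : GadN2S) (gc : CGadS) (nc1 : NC1S) (nc2 : NC2S)
    (cma : CMAS) (cmb : CMBS) (one : OneS) : FlipS := by
  intro Q _ _ B a D z k H c W d ι x b₁ b₂ j F C hlam
  have P : ∀ i, PB H C i := fun i => (exists_PB g1 g2 gc H C hlam i).some
  have hk : NeZero k := ⟨H.pos.ne'⟩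
  refine ⟨fun i => ((((k - 1) * (P i).p₀ : ℕ) : ZMod k)).val, fun i => ?_, fun i s₁ s₂ hs => ?_, ?_⟩
  · have h1 := ZMod.val_lt ((((k - 1) * (P i).p₀ : ℕ) : ZMod k))
    have h2 := lam_ge (F i).card k c
    show ((((k - 1) * (P i).p₀ : ℕ) : ZMod k)).val ≤ lam (F i).card k c
    omega
  · have P' := (P i).pg (P i).ok₀ (P i).ok₀ (P i).ok₀
    obtain ⟨e1, e2⟩ := (P i).leaves hlam P' hs
    obtain ⟨E, n, h1, h2⟩ := P'.real hret H (j i) (C.ne i)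
    have h3 := hbnd Q D (B.q a) (F i) k c (H.fr (C.fr i)) ⟨_, C.fx i⟩
    refine ⟨E, n, le_trans (h2.trans ?_) h3, by rw [e1, e2]; exact P'.fwin (j i) h1⟩
    exact Nat.mul_le_mul_right _ (by omega)
  · intro p hpf V hkp hz hs
    obtain ⟨b, hb⟩ := hs
    have hp : p.Prime := hpf.out
    have hι : ∃ i : ι, True := by
      obtain ⟨i, -⟩ := C.cov 1
      exact ⟨i, trivial⟩
    by_cases hcom : B.q b * B.q a = B.q a * B.q b
    · by_cases h1 : B.q b = B.q a ∨ B.q b = (B.q a)⁻¹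
      · obtain ⟨i, -⟩ := hι
        refine ⟨i, conc_of hret hbnd H C hlam (P i) (P i).ok₀ (P i).ok₀ (P i).ok₀ ?_⟩
        exact one Q B a D (F i) k (H.fr (C.fr i)) (Fin 5) _ _ d _ _ _ p V
          (lc_of H C (P i) (P i).ok₀ (P i).ok₀ (P i).ok₀ hp hkp V hz) b h1 hb
      · push Not at h1
        by_cases hα : V.chi (B.q a) = 1
        · exact case_cmb gc cmb hret hbnd H C hlam P hp hkp V hz b hcom hα hb
        · obtain ⟨i, -⟩ := hι
          exact ⟨i, case_cma gc cma hret hbnd H C hlam (P i) hp hkp V hz b hcom h1.1 h1.2 hα hb⟩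
    · by_cases hj : ∃ j₀ : ℤ, |j₀| ≤ 1 ∧ (B.q a ^ j₀)⁻¹ * B.q b ∈ D
      · obtain ⟨j₀, h1, h2⟩ := hj
        exact case_nc1 g1 nc1 hret hbnd H C hlam P hp hkp V hz b hcom j₀ h1 h2 hb
      · exact case_nc2 g2 nc2 hret hbnd H C hlam P hp hkp V hz b hcom (fun j₀ h1 h2 => hj ⟨j₀, h1, h2⟩) hb

end Pool.Agent.Lib.MP_688fd0_co.SQ2
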