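import Pool.Agent.Lib.MP_688fd0_co.SQ2.V.GadDefs
import Pool.Agent.Lib.MP_688fd0_co.SQ2.V.RealA

/-!
FLIP: the basic facts about frontiers, strands and rungs at the vertices of a frontier.
-/

set_option autoImplicit false

namespace Pool.Agent.Lib.MP_688fd0_co.SQ2

open Pool.Agent.Lib.MP_688fd0_co.OSF
open V (Puz)

section basics

variable {Q : Type} [Group Q] {B : Lb.{0, 0} Q} {a : B.L} {D : Subgroup Q} {z : Q} {k : ℕ}

theorem Hyp.comD (H : Hyp B a D z k) (q : Q) : B.q a * q * (B.q a)⁻¹ * q⁻¹ ∈ D := by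
  have hn := H.nrm
  have h1 : q * (z⁻¹ * B.q a)⁻¹ * q⁻¹ ∈ D := hn.conj_mem _ (D.inv_mem H.mem) q
  have h2 := D.mul_mem H.mem h1
  have e1 : z⁻¹ * B.q a * (q * (z⁻¹ * B.q a)⁻¹ * q⁻¹) = B.q a * q * (B.q a)⁻¹ * q⁻¹ := by
    have e2 : z⁻¹ * B.q a * (q * (z⁻¹ * B.q a)⁻¹ * q⁻¹) =
        z⁻¹ * (B.q a * (q * ((B.q a)⁻¹ * (z * q⁻¹)))) := by group
    rw [e2, H.cen q⁻¹]
    have e3 : z⁻¹ * (B.q a * (q * ((B.q a)⁻¹ * (q⁻¹ * z)))) =
        z⁻¹ * ((B.q a * q * (B.q a)⁻¹ * q⁻¹) * z) := by group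
    rw [e3, ← H.cen, inv_mul_cancel_left]
  rwa [e1] at h2

theorem Hyp.pos (H : Hyp B a D z k) : 0 < k := by
  rcases Nat.eq_zero_or_pos k with h | h
  · have := H.kodd
    rw [h] at this
    exact absurd this (by decide)
  · exact h

theorem Hyp.pow_k (H : Hyp B a D z k) : B.q a ^ k = z ^ k := by
  have hc : Commute z (z⁻¹ * B.q a) := H.cen _
  have h1 : B.q a = z * (z⁻¹ * B.q a) := by group
  have h2 : (z⁻¹ * B.q a) ^ k = 1 := by
    obtain ⟨m, hm⟩ := H.card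
    have h3 : (⟨_, H.mem⟩ : D) ^ Nat.card D = 1 := pow_card_eq_one'
    have h4 : (z⁻¹ * B.q a) ^ Nat.card D = 1 := congrArg Subtype.val h3
    rw [hm, pow_mul, h4, one_pow]
  conv_lhs => rw [h1]
  rw [hc.mul_pow, h2, mul_one]

theorem Hyp.cen_k (H : Hyp B a D z k) (x : Q) : x * B.q a ^ k = B.q a ^ k * x := by
  rw [H.pow_k]
  have hc : Commute z x := H.cen x
  exact (hc.pow_left k).eq.symm

/-- The frontiers of the assembly are frontiers of chapter V. -/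
theorem Hyp.fr (H : Hyp B a D z k) {W : ℕ} {F : Finset Q} (hF : Fr B a D W F) : FrD D (B.q a) F k where
  he := H.pos
  cen := H.cen_k
  nrm := fun d hd => H.nrm.conj_mem d hd _
  nrm' := fun d hd => by simpa using H.nrm.conj_mem d hd (B.q a)⁻¹
  inv := fun s hs d hd => by
    have h1 : s⁻¹ * d * s ∈ D := by simpa using H.nrm.conj_mem d hd s⁻¹
    have h2 := hF.inv s hs _ h1
    have e1 : s * (s⁻¹ * d * s) = d * s := by group
    rwa [e1] at h2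
  com := H.comD

/-- `A ^ t` is central modulo `D`. -/
theorem Hyp.comm (H : Hyp B a D z k) (t : ℤ) (q : Q) : (B.q a ^ t)⁻¹ * (q⁻¹ * B.q a ^ t * q) ∈ D := by
  have := H.nrm
  rw [← QuotientGroup.eq_one_iff]
  have hc : Commute ((B.q a : Q) : Q ⧸ D) (q : Q ⧸ D) := by
    have h1 := (QuotientGroup.eq_one_iff (N := D) (B.q a * q * (B.q a)⁻¹ * q⁻¹)).2 (H.comD q)
    rw [QuotientGroup.mk_mul, QuotientGroup.mk_mul, QuotientGroup.mk_mul, QuotientGroup.mk_inv,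
      QuotientGroup.mk_inv, mul_inv_eq_one, mul_inv_eq_iff_eq_mul] at h1
    exact h1
  rw [QuotientGroup.mk_mul, QuotientGroup.mk_inv, QuotientGroup.mk_mul, QuotientGroup.mk_mul,
    QuotientGroup.mk_inv, QuotientGroup.mk_zpow]
  have h2 : Commute (((B.q a : Q) : Q ⧸ D) ^ t) (q : Q ⧸ D) := hc.zpow_left t
  rw [mul_assoc (q : Q ⧸ D)⁻¹, h2.eq]
  group

/-- Equal vertices. -/
theorem Fr.eq {W : ℕ} {F : Finset Q} (hF : Fr B a D W F) {s s' : Q} (hs : s ∈ F) (hs' : s' ∈ F) {u v : ℤ}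
    (h : s * B.q a ^ u = s' * B.q a ^ v) (hW : |u - v| ≤ W) : u = v ∧ s = s' := by
  have h1 : s * B.q a ^ (u - v) = s' := by
    rw [zpow_sub, ← mul_assoc, h, mul_inv_cancel_right]
  have h2 := hF.disj s hs (u - v) hW (by rw [h1]; exact hs')
  refine ⟨by omega, ?_⟩
  rw [h2, zpow_zero, mul_one] at h1
  exact h1

/-- The strand `s` lies in the sheet of the vertex `y`, at the level `t`. -/
def Ats (B : Lb.{0, 0} Q) (a : B.L) (D : Subgroup Q) (s y : Q) (t : ℤ) : Prop := y⁻¹ * (s * B.q a ^ t) ∈ D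

/-- The next strand. -/
theorem Hyp.next (H : Hyp B a D z k) {W c : ℕ} {F : Finset Q} (hF : Fr B a D W F) {s y : Q} {t : ℤ}
    (hs : Ats B a D s y t) (b : B.L) (hy : ∃ o : ℤ, |o| ≤ c ∧ y * B.q b * (B.q a ^ o)⁻¹ ∈ F) :
    ∃ s' ∈ F, ∃ o t' : ℤ, |o| ≤ c + |t| ∧ |t'| ≤ c ∧ s * B.q b = s' * B.q a ^ o ∧
      Ats B a D s' (y * B.q b) t' := by
  have := H.nrm
  obtain ⟨o', ho', hm⟩ := hy
  have hc : ∀ (t : ℤ) (q : Q), ((B.q a ^ t : Q) : Q ⧸ D) * (q : Q ⧸ D) = q * ((B.q a ^ t : Q) : Q ⧸ D) := by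
    intro t q
    have h1 := (QuotientGroup.eq_one_iff (N := D) _).2 (H.comm t q)
    rw [QuotientGroup.mk_mul, QuotientGroup.mk_inv, QuotientGroup.mk_mul, QuotientGroup.mk_mul,
      QuotientGroup.mk_inv, inv_mul_eq_one] at h1
    conv_rhs => rw [h1]
    group
  have h2 : (y : Q ⧸ D) = (s : Q ⧸ D) * ((B.q a ^ t : Q) : Q ⧸ D) := by
    have h3 := (QuotientGroup.eq_one_iff (N := D) _).2 hs
    rw [QuotientGroup.mk_mul, QuotientGroup.mk_inv, inv_mul_eq_one, QuotientGroup.mk_mul] at h3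
    exact h3
  have h4 : (y * B.q b * (B.q a ^ o')⁻¹)⁻¹ * (s * B.q b * (B.q a ^ (o' - t))⁻¹) ∈ D := by
    rw [← QuotientGroup.eq_one_iff, QuotientGroup.mk_mul, QuotientGroup.mk_inv, inv_mul_eq_one]
    rw [QuotientGroup.mk_mul, QuotientGroup.mk_mul, h2, QuotientGroup.mk_mul, QuotientGroup.mk_mul,
      mul_assoc ((s : Q) : Q ⧸ D) _ ((B.q b : Q) : Q ⧸ D), hc, ← QuotientGroup.mk_mul, ← QuotientGroup.mk_mul,
      ← QuotientGroup.mk_mul, ← QuotientGroup.mk_mul, ← QuotientGroup.mk_mul]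
    congr 1
    rw [zpow_sub]; group
  have h5 : s * B.q b * (B.q a ^ (o' - t))⁻¹ ∈ F := by
    have := hF.inv _ hm _ h4
    rwa [mul_inv_cancel_left] at this
  refine ⟨_, h5, o' - t, o', ?_, ho', by rw [inv_mul_cancel_right], ?_⟩
  · calc |o' - t| ≤ |o'| + |t| := abs_sub _ _
      _ ≤ c + |t| := by omega
  · show (y * B.q b)⁻¹ * (s * B.q b * (B.q a ^ (o' - t))⁻¹ * B.q a ^ o') ∈ D
    have h6 : (B.q a ^ o')⁻¹ * ((y * B.q b * (B.q a ^ o')⁻¹)⁻¹ * (s * B.q b * (B.q a ^ (o' - t))⁻¹)) *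
        (B.q a ^ o') ∈ D := by
      have := (H.nrm.conj_mem _ h4 (B.q a ^ o')⁻¹)
      rwa [inv_inv] at this
    have e1 : (y * B.q b)⁻¹ * (s * B.q b * (B.q a ^ (o' - t))⁻¹ * B.q a ^ o') =
        (B.q a ^ o')⁻¹ * ((y * B.q b * (B.q a ^ o')⁻¹)⁻¹ * (s * B.q b * (B.q a ^ (o' - t))⁻¹)) *
        (B.q a ^ o') := by group
    rw [e1]; exact h6

end basics

/-! ### Rungs at vertices -/

section rungs

variable {Q : Type} [Group Q] {D : Subgroup Q} {A : Q} {F : Finset Q} {e : ℕ}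

theorem FrD.cj_pow_smul (h : FrD D A F e) (w : Q) (n : ℕ) (s : F) :
    ((h.cj w ^ n • s : F) : Q) = w * A ^ n * w⁻¹ * (s : Q) * (A ^ n)⁻¹ := by
  induction n with
  | zero => simp
  | succ n ih =>
    rw [pow_succ', mul_smul, h.cj_smul, ih, pow_succ' A n]
    group

/-- The far end of the rung at `x A ^ m`. -/
theorem FrD.rungY (h : FrD D A F e) {x y : F} {b : Q} {p p' n m q : ℕ}
    (hedge : (x : Q) * A ^ p * b = (y : Q) * A ^ p') (hn : n + p = e * q + m) :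
    (x : Q) * A ^ m * b = ((h.cj (x : Q) ^ n • y : F) : Q) * A ^ ((p' : ℤ) - p + m) := by
  have h1 : (y : Q) = (x : Q) * A ^ p * b * (A ^ p')⁻¹ := by rw [hedge, mul_inv_cancel_right]
  have h2 := h.toFrt.cen_pow q b
  have hn' : (n : ℤ) + p = e * q + m := by exact_mod_cast hn
  have e1 : A ^ n * A ^ p = A ^ m * A ^ (e * q) := by rw [← pow_add, ← pow_add, hn, add_comm]
  rw [h.cj_pow_smul, h1]
  calc (x : Q) * A ^ m * b = (x : Q) * A ^ m * (b * A ^ (e * q)) * (A ^ (e * q))⁻¹ := by group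
    _ = (x : Q) * (A ^ m * A ^ (e * q)) * b * (A ^ (e * q))⁻¹ := by rw [h2]; group
    _ = (x : Q) * (A ^ n * A ^ p) * b * (A ^ (e * q))⁻¹ := by rw [e1]
    _ = (x : Q) * (A ^ n * A ^ p) * b * A ^ (-((e * q : ℕ) : ℤ)) := by rw [zpow_neg, zpow_natCast]
    _ = (x : Q) * (A ^ n * A ^ p) * b * (A ^ (-(p' : ℤ)) * A ^ (-(n : ℤ)) * A ^ ((p' : ℤ) - p + m)) := by
        rw [← zpow_add, ← zpow_add]
        congr 2
        push_cast
        linarith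
    _ = _ := by
        rw [zpow_neg, zpow_natCast, zpow_neg, zpow_natCast]
        group

end rungs

/-! ### The path gadgets -/

section core

variable {Q : Type} [Group Q] [DecidableEq Q] {B : Lb.{0, 0} Q} {a : B.L} {D : Subgroup Q} {z : Q} {k : ℕ}

/-- Any gadget. -/
structure AG {F : Finset Q} (h : FrD D (B.q a) F k) (G : BGad h.toFrt) (b : B.L) (p p' hm : ℕ) (o : ℤ) :
    Prop where
  ht : G.H ≤ hm
  off : (p' : ℤ) - p = o
  edge : (G.x : Q) * B.q a ^ p * B.q b = (G.y : Q) * B.q a ^ p'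
  cap : ∀ (R : Type) [CommRing R] (V : Vd B R), V.n a = 0 → V.chi (B.q a) ^ k = 1 →
    V.vol G.X.w₀ G.X.cap = Xc V G.δ * V.vol G.x G.X.cup

omit [DecidableEq Q] in
theorem Hyp.mem_iff (H : Hyp B a D z k) (j : ℤ) (b : Q) : b * (B.q a ^ j)⁻¹ ∈ D ↔ (B.q a ^ j)⁻¹ * b ∈ D := by
  have := H.nrm
  exact H.nrm.mem_comm_iff

/-- Gadgets for all labels. -/
theorem anyGad (g1 : GadN1S) (g2 : GadN2S) (gc : CGadS) (H : Hyp B a D z k) {W c : ℕ} {F : Finset Q}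
    (hF : Fr B a D W F) (hW : hgt F.card c + c ≤ W) (hS : Sink B a D W) (h : FrD D (B.q a) F k) (b : B.L)
    (s₀ s₁ : F) (hne : s₀ ≠ s₁) (o : ℤ) (ho : |o| ≤ c) (hb : (s₀ : Q) * B.q b = (s₁ : Q) * B.q a ^ o) :
    ∃ (G : BGad h.toFrt) (p p' : ℕ), G.x = s₀ ∧ AG h G b p p' (hgt F.card c) o := by
  have hcW : (c : ℤ) ≤ W := by exact_mod_cast (by omega : c ≤ W)
  by_cases hcom : B.q b * B.q a = B.q a * B.q b
  · obtain ⟨G, p, p', h1, h2, h3, h4, h5⟩ := gc Q B a D F k h b hcom s₀ s₁ o hne hb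
    refine ⟨G, p, p', h1, ⟨h3.trans ?_, h4, h5.edge, fun R _ V => h5.cap R V⟩⟩
    have h0 : (o.natAbs : ℤ) ≤ c := by rw [Int.natCast_natAbs]; exact ho
    unfold hgt; omega
  · by_cases hj : ∃ j : ℤ, |j| ≤ 1 ∧ (B.q a ^ j)⁻¹ * B.q b ∈ D
    · obtain ⟨j, hj1, hj2⟩ := hj
      obtain ⟨G, p, p', η, h1, h2, h3, h4, h5, h6⟩ := g1 Q B a D z k H W c F hF hW h b hcom j hj1 hj2 s₀
      refine ⟨G, p, p', h1, ⟨h2, ?_, h6.edge, fun R _ V => h6.cap R V⟩⟩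
      rw [h3]
      have h7 : B.q b * (B.q a ^ j)⁻¹ ∈ D := (H.mem_iff j _).2 hj2
      have h8 : (s₀ : Q) * (B.q b * (B.q a ^ j)⁻¹) ∈ F := hF.inv _ s₀.2 _ h7
      have h9 : (s₀ : Q) * (B.q b * (B.q a ^ j)⁻¹) * B.q a ^ j = (s₁ : Q) * B.q a ^ o := by
        rw [← hb]; group
      refine (hF.eq h8 s₁.2 h9 ?_).1
      have h10 : 8 ≤ hgt F.card c := by unfold hgt; omega
      have h11 : (hgt F.card c : ℤ) + c ≤ W := by exact_mod_cast hW
      have h12 : (8 : ℤ) ≤ hgt F.card c := by exact_mod_cast h10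
      have := abs_sub j o
      omega
    · have hj1 : ∀ j : ℤ, |j| ≤ 1 → (B.q a ^ j)⁻¹ * B.q b ∉ D := fun j h1 h2 => hj ⟨j, h1, h2⟩
      have hj2 : ∀ j : ℤ, |j| ≤ c → (B.q a ^ j)⁻¹ * B.q b ∉ D := by
        intro j h1 h2
        by_cases h3 : |j| ≤ 1
        · exact hj1 j h3 h2
        · exact hS b j (by omega) (by omega) h2
      obtain ⟨G, p, p', h1, h2, h3, h4, h5⟩ := g2 Q B a D z k H W c F hF hW h b hcom hj1 hj2 s₀ o ho (by
        rw [hb, mul_inv_cancel_right]; exact s₁.2)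
      exact ⟨G, p, p', h1, ⟨h2, h3, h5.edge, fun R _ V => h5.cap R V⟩⟩

end core

end Pool.Agent.Lib.MP_688fd0_co.SQ2
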