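import Pool.Agent.Lib.MP_688fd0_co.SQ2.V.FlipPath
import Pool.Agent.Lib.MP_688fd0_co.SQ2.V.PlaceG

/-!
FLIP: the gadgets, leaves and strands of the tree paths.
-/

set_option autoImplicit false

namespace Pool.Agent.Lib.MP_688fd0_co.SQ2

open Pool.Agent.Lib.MP_688fd0_co.OSF
open V (Puz)

section ctx

variable {Q : Type} [Group Q] [DecidableEq Q] {B : Lb.{0, 0} Q} {a : B.L} {D : Subgroup Q} {z : Q} {k c W : ℕ}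
  {d : Q → Bool} {ι : Type} {x : ι → Q} {b₁ b₂ : ι → B.L} {j : ι → ℕ} {F : ι → Finset Q}

theorem lam_ge (σ k c : ℕ) : 10000 * (hgt σ (c + k) + 4 * k + 4) ≤ lam σ k c := by
  unfold lam
  have : 10000 ≤ 1000 * (σ * k * σ ^ σ + 10) := by omega
  exact Nat.mul_le_mul_right _ this

theorem hgt_le (σ k c : ℕ) : hgt σ (2 * c + 2 * k) + (2 * c + 2 * k) ≤ lam σ k c := by
  have h := lam_ge σ k c
  unfold hgt at *
  omega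

omit [DecidableEq Q] in
theorem q_inv' (b : B.L) : B.q (B.inv b) = (B.q b)⁻¹ := B.q_inv b

omit [DecidableEq Q] in
/-- A label is not a small power of `a`. -/
theorem not_small (hS : Sink B a D W) (b : B.L) (h₁ : B.q b ≠ B.q a) (h₂ : B.q b ≠ (B.q a)⁻¹) (o : ℤ)
    (ho : |o| ≤ W) : B.q b ≠ B.q a ^ o := by
  intro h
  by_cases h3 : 2 ≤ |o|
  · refine hS b o h3 ho ?_
    rw [h, inv_mul_cancel]
    exact D.one_mem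
  · have h4 : o = 0 ∨ o = 1 ∨ o = -1 := by
      have h5 : |o| ≤ 1 := by omega
      have := abs_le.1 h5
      omega
    rcases h4 with rfl | rfl | rfl
    · exact B.ne_one b (by rw [h, zpow_zero])
    · exact h₁ (by rw [h, zpow_one])
    · exact h₂ (by rw [h, zpow_neg, zpow_one])

omit [DecidableEq Q] in
/-- Neighbours of a strand. -/
theorem nbr (H : Hyp B a D z k) (C : Ctx B a D k c W d x b₁ b₂ j F) (i : ι) {s : Q} {l : List B.L}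
    (hl : l.length ≤ 1) {t : ℤ} (hs : Ats B a D s (B.fin (x i) l) t) (ht : |t| ≤ c) (b : B.L) :
    ∃ s' ∈ F i, ∃ o : ℤ, |o| ≤ 2 * c ∧ s * B.q b = s' * B.q a ^ o ∧
      ∀ b' : B.L, ∃ s'' ∈ F i, ∃ o' : ℤ, |o'| ≤ 2 * c ∧ s' * B.q b' = s'' * B.q a ^ o' := by
  have hfin : ∀ (l : List B.L) (b : B.L), B.fin (x i) (l ++ [b]) = B.fin (x i) l * B.q b := by
    intro l b; rw [fin_append]; rfl
  obtain ⟨s', hs', o, t', h1, h2, h3, h4⟩ := H.next (C.fr i) hs b (by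
    obtain ⟨o, h1, h2⟩ := C.fsh i (l ++ [b]) (by simp; omega)
    rw [hfin] at h2
    exact ⟨o, h1, h2⟩)
  refine ⟨s', hs', o, by omega, h3, fun b' => ?_⟩
  rw [← hfin] at h4
  obtain ⟨s'', hs'', o', t'', g1, g2, g3, g4⟩ := H.next (C.fr i) h4 b' (by
    obtain ⟨o, h1, h2⟩ := C.fsh i (l ++ [b] ++ [b']) (by simp; omega)
    rw [hfin] at h2
    exact ⟨o, h1, h2⟩)
  exact ⟨s'', hs'', o', by omega, g3⟩

/-- The two gadgets of a path. -/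
structure PB (H : Hyp B a D z k) (C : Ctx B a D k c W d x b₁ b₂ j F) (i : ι) where
  G₀ : BGad (H.fr (C.fr i)).toFrt
  G₁ : BGad (H.fr (C.fr i)).toFrt
  p₀ : ℕ
  p₀' : ℕ
  p₁ : ℕ
  p₁' : ℕ
  o₀ : ℤ
  o₁ : ℤ
  ho₀ : |o₀| ≤ c
  ho₁ : |o₁| ≤ c
  x₀ : G₀.x = ⟨x i, C.fx i⟩
  x₁ : G₁.x = ⟨x i, C.fx i⟩
  g₀ : AG (H.fr (C.fr i)) G₀ (b₁ i) p₀ p₀' (hgt (F i).card (2 * c + 2 * k)) o₀
  g₁ : AG (H.fr (C.fr i)) G₁ (b₂ i) p₁ p₁' (hgt (F i).card (2 * c + 2 * k)) o₁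

theorem exists_PB (g1 : GadN1S) (g2 : GadN2S) (gc : CGadS) (H : Hyp B a D z k)
    (C : Ctx B a D k c W d x b₁ b₂ j F) (hlam : ∀ i, lam (F i).card k c ≤ W) (i : ι) : Nonempty (PB H C i) := by
  have hW : hgt (F i).card (2 * c + 2 * k) + (2 * c + 2 * k) ≤ W := (hgt_le _ _ _).trans (hlam i)
  obtain ⟨o₀, h1, h2⟩ := C.fsh i [b₁ i] (by simp)
  obtain ⟨o₁, h3, h4⟩ := C.fsh i [b₂ i] (by simp)
  have e1 : B.fin (x i) [b₁ i] = x i * B.q (b₁ i) := rfl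
  have e2 : B.fin (x i) [b₂ i] = x i * B.q (b₂ i) := rfl
  rw [e1] at h2
  rw [e2] at h4
  have hb₁ : x i * B.q (b₁ i) = x i * B.q (b₁ i) * (B.q a ^ o₀)⁻¹ * B.q a ^ o₀ := by group
  have hb₂ : x i * B.q (b₂ i) = x i * B.q (b₂ i) * (B.q a ^ o₁)⁻¹ * B.q a ^ o₁ := by group
  have hne₁ : (⟨x i, C.fx i⟩ : F i) ≠ ⟨_, h2⟩ := by
    intro h
    have h5 : x i = x i * B.q (b₁ i) * (B.q a ^ o₀)⁻¹ := congrArg Subtype.val h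
    have h6 := C.d₁ i
    rw [hb₁, ← h5, dl_zpow C.d_line] at h6
    simp at h6
  have hne₂ : (⟨x i, C.fx i⟩ : F i) ≠ ⟨_, h4⟩ := by
    intro h
    have h5 : x i = x i * B.q (b₂ i) * (B.q a ^ o₁)⁻¹ := congrArg Subtype.val h
    have h6 : B.q (b₂ i) = B.q a ^ o₁ := by
      have h7 : x i * B.q a ^ o₁ = x i * B.q (b₂ i) := by
        conv_lhs => rw [h5]
        group
      exact (mul_left_cancel h7).symm
    have h8 := C.d₂ i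
    rw [h6, mul_assoc, ← zpow_natCast, ← zpow_add, dl_zpow C.d_line] at h8
    simp at h8
  obtain ⟨G₀, p₀, p₀', a1, a2⟩ := anyGad g1 g2 gc H (C.fr i) (c := 2 * c + 2 * k) hW C.sink (H.fr (C.fr i))
    (b₁ i) ⟨x i, C.fx i⟩ ⟨_, h2⟩ hne₁ o₀ (by push_cast; omega) hb₁
  obtain ⟨G₁, p₁, p₁', a3, a4⟩ := anyGad g1 g2 gc H (C.fr i) (c := 2 * c + 2 * k) hW C.sink (H.fr (C.fr i))
    (b₂ i) ⟨x i, C.fx i⟩ ⟨_, h4⟩ hne₂ o₁ (by push_cast; omega) hb₂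
  exact ⟨⟨G₀, G₁, p₀, p₀', p₁, p₁', o₀, o₁, h1, h3, a1, a3, a2, a4⟩⟩

/-- Conditions on the other gadgets. -/
structure OKG {F : Finset Q} (h : FrD D (B.q a) F k) (hm : ℕ) (G : BGad h.toFrt) : Prop where
  ht : G.H ≤ hm
  cap : ∀ (R : Type) [CommRing R] (V : Vd B R), V.n a = 0 → V.chi (B.q a) ^ k = 1 →
    V.vol G.X.w₀ G.X.cap = Xc V G.δ * V.vol G.x G.X.cup

/-- The gadgets of a path and three other ones. -/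
def fam {H : Hyp B a D z k} {C : Ctx B a D k c W d x b₁ b₂ j F} {i : ι} (P : PB H C i)
    (G₂ G₃ G₄ : BGad (H.fr (C.fr i)).toFrt) : Fin 5 → BGad (H.fr (C.fr i)).toFrt :=
  ![P.G₀, P.G₁, G₂, G₃, G₄]

theorem PB.pg {H : Hyp B a D z k} {C : Ctx B a D k c W d x b₁ b₂ j F} {i : ι} (P : PB H C i)
    {G₂ G₃ G₄ : BGad (H.fr (C.fr i)).toFrt} (h₂ : OKG (H.fr (C.fr i)) (hgt (F i).card (2 * c + 2 * k)) G₂)
    (h₃ : OKG (H.fr (C.fr i)) (hgt (F i).card (2 * c + 2 * k)) G₃)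
    (h₄ : OKG (H.fr (C.fr i)) (hgt (F i).card (2 * c + 2 * k)) G₄) :
    PG (H.fr (C.fr i)) ⟨x i, C.fx i⟩ (b₁ i) (b₂ i) (fam P G₂ G₃ G₄) P.p₀ P.p₀' P.p₁ P.p₁'
      (hgt (F i).card (2 * c + 2 * k)) P.o₀ P.o₁ where
  x₀ := P.x₀
  x₁ := P.x₁
  g₀ := P.g₀
  g₁ := P.g₁
  ht := by
    intro n
    fin_cases n
    · exact P.g₀.ht
    · exact P.g₁.ht
    · exact h₂.ht
    · exact h₃.ht
    · exact h₄.ht
  cap := by
    intro n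
    fin_cases n
    · exact P.g₀.cap
    · exact P.g₁.cap
    · exact h₂.cap
    · exact h₃.cap
    · exact h₄.cap

theorem PB.ok₀ {H : Hyp B a D z k} {C : Ctx B a D k c W d x b₁ b₂ j F} {i : ι} (P : PB H C i) :
    OKG (H.fr (C.fr i)) (hgt (F i).card (2 * c + 2 * k)) P.G₀ := ⟨P.g₀.ht, P.g₀.cap⟩

/-- The leaves. -/
theorem PB.leaves {H : Hyp B a D z k} {C : Ctx B a D k c W d x b₁ b₂ j F} (hlam : ∀ i, lam (F i).card k c ≤ W) {i : ι}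
    (P : PB H C i) {G₂ G₃ G₄ : BGad (H.fr (C.fr i)).toFrt}
    (PG' : PG (H.fr (C.fr i)) ⟨x i, C.fx i⟩ (b₁ i) (b₂ i) (fam P G₂ G₃ G₄) P.p₀ P.p₀' P.p₁ P.p₁'
      (hgt (F i).card (2 * c + 2 * k)) P.o₀ P.o₁) {s₁ s₂ : Q}
    (hL : Leaves a (F i) (x i) (b₁ i) (b₂ i) (j i) c s₁ s₂) :
    s₁ = ((bigP (fam P G₂ G₃ G₄)).y (rf (H.fr (C.fr i)) ⟨x i, C.fx i⟩ P.p₀) : Q) ∧
      s₂ = ((bigP (fam P G₂ G₃ G₄)).y (rg (H.fr (C.fr i)) ⟨x i, C.fx i⟩ P.p₁ (j i)) : Q) := by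
  have hW : 10000 * (hgt (F i).card (c + k) + 4 * k + 4) ≤ W := (lam_ge _ _ _).trans (hlam i)
  have hW2 : 2 * c + 2 * k ≤ W := by unfold hgt at hW; omega
  have hW' : (2 * (c : ℤ) + 2 * k) ≤ W := by exact_mod_cast hW2
  obtain ⟨o, ho, e1⟩ := hL.e₁
  obtain ⟨o', ho', e2⟩ := hL.e₂
  have hj : (j i : ℤ) < k := by exact_mod_cast C.j_lt i
  have hj0 : (0 : ℤ) ≤ j i := Int.natCast_nonneg _
  have hk0 : (0 : ℤ) ≤ k := Int.natCast_nonneg _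
  have a1 := abs_le.1 ho
  have a2 := abs_le.1 P.ho₀
  have a3 := abs_le.1 ho'
  have a4 := abs_le.1 P.ho₁
  constructor
  · refine PG'.leaf₁ (C.fr i) hL.h₁ e1 (abs_le.2 ⟨by omega, by omega⟩)
  · refine PG'.leaf₂ (j i) (C.fr i) hL.h₂ e2 (abs_le.2 ⟨by omega, by omega⟩)

/-- The strand of a vertex. -/
theorem PB.strand {H : Hyp B a D z k} {C : Ctx B a D k c W d x b₁ b₂ j F} {i : ι} (P : PB H C i)
    (PG' : PG (H.fr (C.fr i)) ⟨x i, C.fx i⟩ (b₁ i) (b₂ i) (fam P P.G₀ P.G₀ P.G₀) P.p₀ P.p₀' P.p₁ P.p₁'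
      (hgt (F i).card (2 * c + 2 * k)) P.o₀ P.o₁) {w : Q}
    (hw : ∃ t : ℤ, w = x i * B.q a ^ t ∨ w = x i * B.q (b₁ i) * B.q a ^ t ∨
      w = x i * B.q a ^ j i * B.q (b₂ i) * B.q a ^ t) :
    ∃ (s₀ : F i) (t : ℤ), w = (s₀ : Q) * B.q a ^ t ∧
      (∀ G₂ G₃ G₄ : BGad (H.fr (C.fr i)).toFrt, s₀ = ⟨x i, C.fx i⟩ ∨
        s₀ = (bigP (fam P G₂ G₃ G₄)).y (rf (H.fr (C.fr i)) ⟨x i, C.fx i⟩ P.p₀) ∨
        s₀ = (bigP (fam P G₂ G₃ G₄)).y (rg (H.fr (C.fr i)) ⟨x i, C.fx i⟩ P.p₁ (j i))) ∧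
      ∀ b : B.L, ∃ s' ∈ F i, ∃ o : ℤ, |o| ≤ 2 * c ∧ (s₀ : Q) * B.q b = s' * B.q a ^ o ∧
        ∀ b' : B.L, ∃ s'' ∈ F i, ∃ o' : ℤ, |o'| ≤ 2 * c ∧ s' * B.q b' = s'' * B.q a ^ o' := by
  obtain ⟨t, rfl | rfl | rfl⟩ := hw
  · refine ⟨⟨x i, C.fx i⟩, t, rfl, fun _ _ _ => Or.inl rfl, nbr H C i (l := []) (by simp) (t := 0) ?_ (by simp)⟩
    show (x i)⁻¹ * (x i * B.q a ^ (0 : ℤ)) ∈ D
    rw [zpow_zero, mul_one, inv_mul_cancel]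
    exact D.one_mem
  · refine ⟨(bigP (fam P P.G₀ P.G₀ P.G₀)).y (rf (H.fr (C.fr i)) ⟨x i, C.fx i⟩ P.p₀), P.o₀ + t, ?_,
      fun _ _ _ => Or.inr (Or.inl rfl), nbr H C i (l := [b₁ i]) (by simp) (t := P.o₀) ?_ P.ho₀⟩
    · rw [zpow_add, ← mul_assoc, ← PG'.yf]
    · show (x i * B.q (b₁ i))⁻¹ * (((bigP (fam P P.G₀ P.G₀ P.G₀)).y
        (rf (H.fr (C.fr i)) ⟨x i, C.fx i⟩ P.p₀) : Q) * B.q a ^ P.o₀) ∈ D
      rw [← PG'.yf, inv_mul_cancel]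
      exact D.one_mem
  · refine ⟨(bigP (fam P P.G₀ P.G₀ P.G₀)).y (rg (H.fr (C.fr i)) ⟨x i, C.fx i⟩ P.p₁ (j i)), P.o₁ + j i + t, ?_,
      fun _ _ _ => Or.inr (Or.inr rfl), nbr H C i (l := [b₂ i]) (by simp) (t := P.o₁) ?_ P.ho₁⟩
    · rw [zpow_add, ← mul_assoc, ← PG'.yg (j i)]
    · show (x i * B.q (b₂ i))⁻¹ * (((bigP (fam P P.G₀ P.G₀ P.G₀)).y
        (rg (H.fr (C.fr i)) ⟨x i, C.fx i⟩ P.p₁ (j i)) : Q) * B.q a ^ P.o₁) ∈ D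
      have e1 : ((bigP (fam P P.G₀ P.G₀ P.G₀)).y
        (rg (H.fr (C.fr i)) ⟨x i, C.fx i⟩ P.p₁ (j i)) : Q) * B.q a ^ P.o₁ =
        x i * B.q a ^ j i * B.q (b₂ i) * (B.q a ^ j i)⁻¹ := by
        have h1 := PG'.yg (j i)
        have h2 : ((bigP (fam P P.G₀ P.G₀ P.G₀)).y
          (rg (H.fr (C.fr i)) ⟨x i, C.fx i⟩ P.p₁ (j i)) : Q) * B.q a ^ P.o₁ =
          ((bigP (fam P P.G₀ P.G₀ P.G₀)).y
          (rg (H.fr (C.fr i)) ⟨x i, C.fx i⟩ P.p₁ (j i)) : Q) * B.q a ^ (P.o₁ + j i) * (B.q a ^ j i)⁻¹ := by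
          rw [zpow_add, zpow_natCast]; group
        rw [h2, ← h1]
      rw [e1]
      have h3 := H.comm (j i) (B.q (b₂ i))
      have h4 := H.nrm.conj_mem _ h3 (B.q a ^ j i)
      have e2 : (x i * B.q (b₂ i))⁻¹ * (x i * B.q a ^ j i * B.q (b₂ i) * (B.q a ^ j i)⁻¹) =
        B.q a ^ j i * ((B.q a ^ (j i : ℤ))⁻¹ * ((B.q (b₂ i))⁻¹ * B.q a ^ (j i : ℤ) * B.q (b₂ i))) *
          (B.q a ^ j i)⁻¹ := by
        rw [zpow_natCast]; group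
      rw [e2]
      exact h4

end ctx

end Pool.Agent.Lib.MP_688fd0_co.SQ2
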