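import Pool.Agent.Lib.MP_688fd0_co.SQ2.V.FlipBase

/-!
FLIP: the rungs and windows of one tree path.
-/

set_option autoImplicit false

namespace Pool.Agent.Lib.MP_688fd0_co.SQ2

open Pool.Agent.Lib.MP_688fd0_co.OSF
open V (Puz)

section path

variable {Q : Type} [Group Q] [DecidableEq Q] {B : Lb.{0, 0} Q} {a : B.L} {D : Subgroup Q} {z : Q} {k : ℕ}

/-- The gadgets of a path: `G 0` of the label `b₁`, `G 1` of the label `b₂`, both at the strand `x`. -/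
structure PG {F : Finset Q} (h : FrD D (B.q a) F k) (x : F) (b₁ b₂ : B.L) (G : Fin 5 → BGad h.toFrt)
    (p₀ p₀' p₁ p₁' hm : ℕ) (o₀ o₁ : ℤ) : Prop where
  x₀ : (G 0).x = x
  x₁ : (G 1).x = x
  g₀ : AG h (G 0) b₁ p₀ p₀' hm o₀
  g₁ : AG h (G 1) b₂ p₁ p₁' hm o₁
  ht : ∀ i, (G i).H ≤ hm
  cap : ∀ (i : Fin 5) (R : Type) [CommRing R] (V : Vd B R), V.n a = 0 → V.chi (B.q a) ^ k = 1 →
    V.vol (G i).X.w₀ (G i).X.cap = Xc V (G i).δ * V.vol (G i).x (G i).X.cup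

/-- The cup rung of the path. -/
noncomputable def rf {F : Finset Q} (h : FrD D (B.q a) F k) (x : F) (p₀ : ℕ) : Rg (Fin 5) (Sy h.toFrt) :=
  ⟨0, h.cj (x : Q) ^ ((k - 1) * p₀)⟩

/-- The cap rung of the path. -/
noncomputable def rg {F : Finset Q} (h : FrD D (B.q a) F k) (x : F) (p₁ j : ℕ) : Rg (Fin 5) (Sy h.toFrt) :=
  ⟨1, h.cj (x : Q) ^ ((k - 1) * p₁ + j)⟩

variable {F : Finset Q} {h : FrD D (B.q a) F k} {x : F} {b₁ b₂ : B.L} {G : Fin 5 → BGad h.toFrt}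
  {p₀ p₀' p₁ p₁' hm : ℕ} {o₀ o₁ : ℤ}

theorem PG.xf (P : PG h x b₁ b₂ G p₀ p₀' p₁ p₁' hm o₀ o₁) : (bigP G).x (rf h x p₀) = x := by
  show h.cj (x : Q) ^ ((k - 1) * p₀) • (G 0).x = x
  rw [P.x₀, h.cj_pow_self]

theorem PG.xg (P : PG h x b₁ b₂ G p₀ p₀' p₁ p₁' hm o₀ o₁) (j : ℕ) : (bigP G).x (rg h x p₁ j) = x := by
  show h.cj (x : Q) ^ ((k - 1) * p₁ + j) • (G 1).x = x
  rw [P.x₁, h.cj_pow_self]

theorem k_eq (hk : 0 < k) (p : ℕ) : (k - 1) * p + p = k * p := by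
  obtain ⟨m, rfl⟩ : ∃ m, k = m + 1 := ⟨k - 1, by omega⟩
  rw [Nat.add_sub_cancel]; ring

theorem PG.yf (P : PG h x b₁ b₂ G p₀ p₀' p₁ p₁' hm o₀ o₁) :
    (x : Q) * B.q b₁ = ((bigP G).y (rf h x p₀) : Q) * B.q a ^ o₀ := by
  have h1 := P.g₀.edge
  rw [P.x₀] at h1
  have h2 := h.rungY (n := (k - 1) * p₀) (m := 0) (q := p₀) h1 (k_eq h.he p₀)
  rw [pow_zero, mul_one, Nat.cast_zero, add_zero, P.g₀.off] at h2
  exact h2

theorem PG.yg (P : PG h x b₁ b₂ G p₀ p₀' p₁ p₁' hm o₀ o₁) (j : ℕ) :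
    (x : Q) * B.q a ^ j * B.q b₂ = ((bigP G).y (rg h x p₁ j) : Q) * B.q a ^ (o₁ + j) := by
  have h1 := P.g₁.edge
  rw [P.x₁] at h1
  have h3 : (k - 1) * p₁ + j + p₁ = k * p₁ + j := by have := k_eq h.he p₁; omega
  have h2 := h.rungY (n := (k - 1) * p₁ + j) (m := j) (q := p₁) h1 h3
  rw [P.g₁.off] at h2
  exact h2

theorem PG.othf (P : PG h x b₁ b₂ G p₀ p₀' p₁ p₁' hm o₀ o₁) :
    (bigP G).oth (rf h x p₀) x = (bigP G).y (rf h x p₀) := by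
  unfold Puz.oth
  rw [if_pos P.xf.symm]

theorem PG.othg (P : PG h x b₁ b₂ G p₀ p₀' p₁ p₁' hm o₀ o₁) (j : ℕ) :
    (bigP G).oth (rg h x p₁ j) x = (bigP G).y (rg h x p₁ j) := by
  unfold Puz.oth
  rw [if_pos (P.xg j).symm]

theorem PG.adj (P : PG h x b₁ b₂ G p₀ p₀' p₁ p₁' hm o₀ o₁) (j : ℕ)
    (hne : ∀ t : ℤ, (x : Q) * B.q b₁ * B.q a ^ t ≠ (x : Q) * B.q a ^ j * B.q b₂) :
    (bigP G).Adj (rg h x p₁ j) (rf h x p₀) x := by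
  refine ⟨Or.inl (P.xg j).symm, Or.inl P.xf.symm, ?_⟩
  rw [P.othf, P.othg]
  intro h0
  apply hne (-o₀ + (o₁ + j))
  rw [P.yf, P.yg j, h0, zpow_add, zpow_neg]
  group

/-- The leaf `s₁`. -/
theorem PG.leaf₁ (P : PG h x b₁ b₂ G p₀ p₀' p₁ p₁' hm o₀ o₁) {W : ℕ} (hF : Fr B a D W F) {s₁ : Q} (hs : s₁ ∈ F)
    {o : ℤ} (ho : (x : Q) * B.q b₁ = s₁ * B.q a ^ o) (hW : |o - o₀| ≤ W) :
    s₁ = ((bigP G).y (rf h x p₀) : Q) :=
  (hF.eq hs ((bigP G).y (rf h x p₀)).2 (ho.symm.trans P.yf) hW).2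

/-- The leaf `s₂`. -/
theorem PG.leaf₂ (P : PG h x b₁ b₂ G p₀ p₀' p₁ p₁' hm o₀ o₁) (j : ℕ) {W : ℕ} (hF : Fr B a D W F) {s₂ : Q}
    (hs : s₂ ∈ F) {o : ℤ} (ho : (x : Q) * B.q a ^ j * B.q b₂ = s₂ * B.q a ^ o) (hW : |o - (o₁ + j)| ≤ W) :
    s₂ = ((bigP G).y (rg h x p₁ j) : Q) :=
  (hF.eq hs ((bigP G).y (rg h x p₁ j)).2 (ho.symm.trans (P.yg j)) hW).2

theorem fr_eq (t : ℕ) : (bigZ G).Fr t = rt F (B.q a ^ t) := by
  ext y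
  rw [Real.mem_Fr, mem_rt]
  constructor
  · rintro ⟨s, rfl⟩
    show (s : Q) * B.q a ^ t * (B.q a ^ t)⁻¹ ∈ F
    rw [mul_inv_cancel_right]; exact s.2
  · intro hy
    exact ⟨⟨_, hy⟩, by show y * (B.q a ^ t)⁻¹ * B.q a ^ t = y; rw [inv_mul_cancel_right]⟩

/-- The windows of the path are the windows of the assembly. -/
theorem PG.fwin (P : PG h x b₁ b₂ G p₀ p₀' p₁ p₁' hm o₀ o₁) (j : ℕ) {E : TW B} {n : ℕ}
    (hE : EWr (bigZ G) (rf h x p₀) (rg h x p₁ j) x E n) :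
    FWin a k F ((((k - 1) * p₀ : ℕ) : ZMod k)).val x ((bigP G).y (rf h x p₀)) ((bigP G).y (rg h x p₁ j)) E n := by
  have hl : (bigZ G).lev (rf h x p₀) = ((((k - 1) * p₀ : ℕ) : ZMod k)).val := by
    show (lv (h.cj (x : Q) ^ ((k - 1) * p₀))).val = _
    rw [h.cj_pow_lv]
  have h1 := hE.L₀
  have h2 := hE.u₀
  have h3 := hE.u₁
  have h4 := hE.flat
  rw [hl] at h1 h2 h3 h4
  rw [P.othf] at h2
  rw [P.othg] at h4
  exact ⟨h1.trans (fr_eq (h := h) _), h3, h2, h4, hE.dvd⟩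

/-! ### The conclusion for one path -/

omit [DecidableEq Q] in
theorem dl_zpow {d : Q → Bool} (hd : ∀ y, d (y * B.q a) = d y) (y : Q) (t : ℤ) : d (y * B.q a ^ t) = d y := by
  have hn : ∀ (y : Q) (n : ℕ), d (y * B.q a ^ n) = d y := by
    intro y n
    induction n with
    | zero => rw [pow_zero, mul_one]
    | succ n ih => rw [pow_succ, ← mul_assoc, hd, ih]
  rcases Int.eq_nat_or_neg t with ⟨n, rfl | rfl⟩
  · rw [zpow_natCast]; exact hn y n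
  · have h1 := hn (y * B.q a ^ (-(n : ℤ))) n
    rw [mul_assoc, ← zpow_natCast, ← zpow_add, neg_add_cancel, zpow_zero, mul_one] at h1
    exact h1.symm

theorem PG.lc (P : PG h x b₁ b₂ G p₀ p₀' p₁ p₁' hm o₀ o₁) (H : Hyp B a D z k) (j : ℕ) {d : Q → Bool}
    (hd : ∀ y, d (y * B.q a) = d y) (h₁ : d ((x : Q) * B.q b₁) = !d (x : Q))
    (h₂ : d ((x : Q) * B.q a ^ j * B.q b₂) = !d (x : Q))
    (hne : ∀ t : ℤ, (x : Q) * B.q b₁ * B.q a ^ t ≠ (x : Q) * B.q a ^ j * B.q b₂) {p : ℕ} (hp : p.Prime)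
    (hkp : 4 * k < p) (V : Vd B (ZMod p)) (hz : V.chi z = 1) :
    LC h G hm d (rf h x p₀) (rg h x p₁ j) x p V where
  finQ := H.fin
  finι := inferInstance
  odd := H.odd
  eodd := H.kodd
  card := H.card
  prime := hp
  big := hkp
  al := by rw [← map_pow, H.pow_k, map_pow, hz, one_pow]
  ht := P.ht
  cap := fun i V' => P.cap i _ V'
  adj := P.adj j hne
  dl := hd
  df := by rw [P.othf, ← dl_zpow hd _ o₀, ← P.yf, h₁]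
  dg := by rw [P.othg, ← dl_zpow hd _ (o₁ + j), ← P.yg j, h₂]

omit [DecidableEq Q] in
theorem sy_finite (h : FrD D (B.q a) F k) : Finite (Sy h.toFrt) := by
  have : NeZero k := ⟨h.he.ne'⟩
  have : Finite (Multiplicative (ZMod k)) := inferInstanceAs (Finite (ZMod k))
  infer_instance

/-- Windows of the path. -/
theorem PG.real (P : PG h x b₁ b₂ G p₀ p₀' p₁ p₁' hm o₀ o₁) (hret : V.RetS) (H : Hyp B a D z k) (j : ℕ)
    (hne : ∀ t : ℤ, (x : Q) * B.q b₁ * B.q a ^ t ≠ (x : Q) * B.q a ^ j * B.q b₂) :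
    ∃ (E : TW B) (n : ℕ), EWr (bigZ G) (rf h x p₀) (rg h x p₁ j) x E n ∧
      n ≤ (NW F (Rg (Fin 5) (Sy h.toFrt)) + 2) * (k + hm) := by
  have := sy_finite h
  have hadj := P.adj j hne
  have h0 : (bigP G).WReach ((bigP G).stb (rf h x p₀) (rg h x p₁ j) x) ((bigP G).st₁ (rf h x p₀)) :=
    ⟨[(rf h x p₀, x)], ⟨hadj, trivial⟩, Puz.stb_step (bigP G) hadj⟩
  exact real0 F (Rg (Fin 5) (Sy h.toFrt)) (bigP G) Q B a (bigZ G) (rf h x p₀) (rg h x p₁ j) x hm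
    H.cen_k (fun r => P.ht r.i) hadj (hret F (Rg (Fin 5) (Sy h.toFrt)) _ (bigP G) (bigHom G) _ _ h0)

/-- The conclusion. -/
theorem PG.conc (P : PG h x b₁ b₂ G p₀ p₀' p₁ p₁' hm o₀ o₁) (hret : V.RetS) (H : Hyp B a D z k) (j : ℕ)
    (hne : ∀ t : ℤ, (x : Q) * B.q b₁ * B.q a ^ t ≠ (x : Q) * B.q a ^ j * B.q b₂) {d : Q → Bool} {p : ℕ}
    {V : Vd B (ZMod p)} {Λ : ℕ} (hΛ : (4 * NW F (Rg (Fin 5) (Sy h.toFrt)) + 8) * (k + hm) ≤ Λ)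
    (hL : LRes h G hm d (rf h x p₀) (rg h x p₁ j) x p V) :
    ∃ (X X' : TW B) (n : ℕ), n ≤ Λ ∧ FWin a k F ((((k - 1) * p₀ : ℕ) : ZMod k)).val x
      ((bigP G).y (rf h x p₀)) ((bigP G).y (rg h x p₁ j)) X n ∧
      Ver a X X' n (((bigP G).y (rg h x p₁ j) : Q) * B.q a ^ ((((k - 1) * p₀ : ℕ) : ZMod k)).val) ∧
      dvol V d X X' ≠ 0 := by
  obtain ⟨E, n₀, h1, h2⟩ := P.real hret H j hne
  obtain ⟨X, X', n, g1, g2, -, g4, g5⟩ := hL E n₀ h1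
  refine ⟨X, X', n, ?_, P.fwin j g2, ?_, g5⟩
  · refine le_trans (g4.trans ?_) hΛ
    calc 2 * n₀ + (2 * NW F (Rg (Fin 5) (Sy h.toFrt)) + 4) * (k + hm)
        ≤ 2 * ((NW F (Rg (Fin 5) (Sy h.toFrt)) + 2) * (k + hm)) +
          (2 * NW F (Rg (Fin 5) (Sy h.toFrt)) + 4) * (k + hm) := by gcongr
      _ = _ := by ring
  · have hl : (bigZ G).lev (rf h x p₀) = ((((k - 1) * p₀ : ℕ) : ZMod k)).val := by
      show (lv (h.cj (x : Q) ^ ((k - 1) * p₀))).val = _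
      rw [h.cj_pow_lv]
    rw [hl, P.othg] at g1
    exact g1

end path

end Pool.Agent.Lib.MP_688fd0_co.SQ2
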