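import Pool.Agent.Lib.MP_688fd0_co.SQ2.V.Big

/-!
The symmetry group of a frontier: elements.
-/

set_option autoImplicit false

namespace Pool.Agent.Lib.MP_688fd0_co.SQ2

open Pool.Agent.Lib.MP_688fd0_co.OSF

variable {Q : Type} [Group Q]

/-- A frontier that consists of sheets; the commutators with `A` lie in `D`. -/
structure FrD (D : Subgroup Q) (A : Q) (F : Finset Q) (e : ℕ) : Prop extends Frt D A F e where
  inv : ∀ s ∈ F, ∀ d ∈ D, d * s ∈ F
  com : ∀ q : Q, A * q * A⁻¹ * q⁻¹ ∈ D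

variable {D : Subgroup Q} {A : Q} {F : Finset Q} {e : ℕ}

theorem FrD.com_pow (h : FrD D A F e) (t : ℕ) (q : Q) : A ^ t * q * (A ^ t)⁻¹ * q⁻¹ ∈ D := by
  induction t with
  | zero => simp
  | succ t ih =>
    have h1 := nrm_pow h.nrm 1 _ ih
    have h2 := h.com q
    have e1 : A ^ (t + 1) * q * (A ^ (t + 1))⁻¹ * q⁻¹ =
        (A ^ 1 * (A ^ t * q * (A ^ t)⁻¹ * q⁻¹) * (A ^ 1)⁻¹) * (A * q * A⁻¹ * q⁻¹) := by
      rw [pow_succ' A t]; group
    rw [e1]
    exact D.mul_mem h1 h2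

/-- The image of a strand. -/
theorem FrD.mem (h : FrD D A F e) {d : Q} (hd : d ∈ D) (t : ℕ) {s : Q} (hs : s ∈ F) :
    d * A ^ t * s * (A ^ t)⁻¹ ∈ F := by
  have h1 := h.inv s hs _ (D.mul_mem hd (h.com_pow t s))
  have e1 : d * (A ^ t * s * (A ^ t)⁻¹ * s⁻¹) * s = d * A ^ t * s * (A ^ t)⁻¹ := by group
  rwa [e1] at h1

/-- The permutation of the strands by `d A ^ t`. -/
noncomputable def FrD.perm (h : FrD D A F e) {d : Q} (hd : d ∈ D) (t : ℕ) : Equiv.Perm F :=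
  Equiv.ofBijective (fun s : F => (⟨_, h.mem hd t s.2⟩ : F)) (Finite.injective_iff_bijective.1 (by
    intro s s' hs
    have h1 : d * A ^ t * (s : Q) * (A ^ t)⁻¹ = d * A ^ t * (s' : Q) * (A ^ t)⁻¹ := congrArg Subtype.val hs
    exact Subtype.ext (mul_left_cancel (mul_right_cancel h1))))

/-- The symmetry `d A ^ t`. -/
noncomputable def FrD.sy (h : FrD D A F e) {d : Q} (hd : d ∈ D) (t : ℕ) : Sy h.toFrt :=
  ⟨(h.perm hd t, Multiplicative.ofAdd (t : ZMod e)), t, d, rfl, hd, fun s => by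
    show d * A ^ t * (s : Q) = d * A ^ t * (s : Q) * (A ^ t)⁻¹ * A ^ t
    rw [inv_mul_cancel_right]⟩

theorem FrD.sy_smul (h : FrD D A F e) {d : Q} (hd : d ∈ D) (t : ℕ) (s : F) :
    ((h.sy hd t • s : F) : Q) = d * A ^ t * (s : Q) * (A ^ t)⁻¹ := rfl

theorem FrD.sy_lv (h : FrD D A F e) {d : Q} (hd : d ∈ D) (t : ℕ) : lv (h.sy hd t) = (t : ZMod e) := rfl

/-- Equal symmetries. -/
theorem sy_ext {hF : Frt D A F e} {h k : Sy hF} (h1 : lv h = lv k) (h2 : ∀ s : F, h • s = k • s) : h = k :=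
  Subtype.ext (Prod.ext (Equiv.ext h2) h1)

/-- A symmetry is determined by its level and the image of one strand. -/
theorem sy_ext' {hF : Frt D A F e} {h k : Sy hF} (h1 : lv h = lv k) (s : F) (h2 : h • s = k • s) : h = k := by
  refine sy_ext h1 fun s' => ?_
  obtain ⟨t, d, ht, hd⟩ := h.2
  obtain ⟨t', d', ht', hd'⟩ := k.2
  have hd' := hd'.shift hF (t' := t) (by rw [ht', ht]; exact h1.symm)
  have e1 := hd.2 s
  have e2 := hd'.2 s
  have e3 : (h.1.1 s : F) = k.1.1 s := h2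
  rw [e3, ← e2, mul_assoc d, mul_assoc d'] at e1
  have e4 : d = d' := mul_right_cancel e1
  have e5 := hd.2 s'
  have e6 := hd'.2 s'
  rw [← e4, e5] at e6
  exact Subtype.ext (mul_right_cancel e6)

/-- The symmetry `w A w⁻¹`. -/
noncomputable def FrD.cj (h : FrD D A F e) (w : Q) : Sy h.toFrt :=
  h.sy (d := w * A * w⁻¹ * A⁻¹) (by
    have h1 := h.com w
    have h2 := D.inv_mem h1
    have e1 : (A * w * A⁻¹ * w⁻¹)⁻¹ = w * A * w⁻¹ * A⁻¹ := by group
    rwa [e1] at h2) 1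

theorem FrD.cj_smul (h : FrD D A F e) (w : Q) (s : F) :
    ((h.cj w • s : F) : Q) = w * A * w⁻¹ * (s : Q) * A⁻¹ := by
  unfold FrD.cj
  rw [FrD.sy_smul, pow_one]; group

theorem FrD.cj_lv (h : FrD D A F e) (w : Q) : lv (h.cj w) = 1 := by
  unfold FrD.cj
  rw [FrD.sy_lv, Nat.cast_one]

/-- The strand `s` is fixed by `s A s⁻¹`. -/
theorem FrD.cj_self (h : FrD D A F e) (s : F) : h.cj (s : Q) • s = s := by
  refine Subtype.ext ?_
  rw [FrD.cj_smul]; group

theorem FrD.cj_pow_lv (h : FrD D A F e) (w : Q) (n : ℕ) : lv (h.cj w ^ n) = (n : ZMod e) := by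
  induction n with
  | zero => simp [lv_one]
  | succ n ih => rw [pow_succ, lv_mul, ih, FrD.cj_lv, Nat.cast_succ]

theorem FrD.cj_pow_self (h : FrD D A F e) (s : F) (n : ℕ) : h.cj (s : Q) ^ n • s = s := by
  induction n with
  | zero => simp
  | succ n ih => rw [pow_succ, mul_smul, h.cj_self, ih]

/-- The stabiliser of a strand. -/
theorem FrD.stab (h : FrD D A F e) (s : F) (k : Sy h.toFrt) : k • s = s ↔ k ∈ Subgroup.zpowers (h.cj (s : Q)) := by
  have : NeZero e := ⟨h.he.ne'⟩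
  constructor
  · intro hk
    have h1 : k = h.cj (s : Q) ^ (lv k).val := by
      refine sy_ext' (s := s) ?_ ?_
      · rw [h.cj_pow_lv, ZMod.natCast_zmod_val]
      · rw [hk, h.cj_pow_self]
    rw [h1]
    exact Subgroup.npow_mem_zpowers _ _
  · intro hk
    have h2 : h.cj (s : Q) ∈ MulAction.stabilizer (Sy h.toFrt) s := h.cj_self s
    have h3 := (Subgroup.zpowers_le.2 h2) hk
    exact h3

/-- The order of `w A w⁻¹` is `e`. -/
theorem FrD.cj_order (h : FrD D A F e) (s : F) : orderOf (h.cj (s : Q)) = e := by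
  have : NeZero e := ⟨h.he.ne'⟩
  apply Nat.dvd_antisymm
  · apply orderOf_dvd_of_pow_eq_one
    refine sy_ext' (s := s) ?_ ?_
    · rw [h.cj_pow_lv, ZMod.natCast_self, lv_one]
    · rw [h.cj_pow_self, one_smul]
  · have h1 := pow_orderOf_eq_one (h.cj (s : Q))
    have h2 := h.cj_pow_lv (s : Q) (orderOf (h.cj (s : Q)))
    rw [h1, lv_one] at h2
    exact (ZMod.natCast_eq_zero_iff _ _).1 h2.symm

end Pool.Agent.Lib.MP_688fd0_co.SQ2
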